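import Pool.Agent.LibKlVar.KV_Def
import Pool.Agent.LibPNT.PNT

set_option autoImplicit false

namespace Pool.KV

open Finset

/-- H4. Many primes in `(X, 2X]`. -/
theorem primes_dyadic : ∃ X₀ : ℕ, ∀ X : ℕ, X₀ ≤ X →
    (X : ℝ) / (2 * Real.log X) ≤ #((Ioc X (2 * X)).filter Nat.Prime) := by
  have h1 := Pool.Agent.LibPNT.primeCounting_tendsto
  rw [Metric.tendsto_atTop] at h1
  obtain ⟨x₁, hx₁⟩ := h1 (1 / 10) (by norm_num)
  refine ⟨max ⌈x₁⌉₊ 1024, fun X hX => ?_⟩
  have hX1 : x₁ ≤ X := (Nat.le_ceil x₁).trans (by exact_mod_cast (le_max_left _ _).trans hX)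
  have hX2 : (1024 : ℕ) ≤ X := (le_max_right _ _).trans hX
  have hX2' : (1024 : ℝ) ≤ X := by exact_mod_cast hX2
  have hXpos : (0 : ℝ) < X := by linarith
  have hlog : 10 * Real.log 2 ≤ Real.log X := by
    have h2 : Real.log 1024 ≤ Real.log X := Real.log_le_log (by norm_num) hX2'
    have h3 : Real.log 1024 = 10 * Real.log 2 := by
      have h4 : (1024 : ℝ) = 2 ^ (10 : ℕ) := by norm_num
      rw [h4, Real.log_pow]
      norm_num
    linarith
  have hlog2 : 0 < Real.log 2 := Real.log_pos (by norm_num)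
  have hlX : 0 < Real.log X := by linarith
  have hl2X : Real.log (2 * X) = Real.log 2 + Real.log X :=
    Real.log_mul (by norm_num) hXpos.ne'
  have hl2Xpos : 0 < Real.log (2 * X) := by rw [hl2X]; linarith
  have hA := hx₁ (X : ℝ) hX1
  have hB := hx₁ ((2 * X : ℕ) : ℝ) (by push_cast; linarith)
  rw [Real.dist_eq, abs_lt, Nat.floor_natCast] at hA hB
  push_cast at hB
  -- upper bound for `π(X)`
  have hA' : (Nat.primeCounting X : ℝ) ≤ 11 / 10 * (X / Real.log X) := by
    have h5 : (Nat.primeCounting X : ℝ) * Real.log X / X ≤ 11 / 10 := by linarith [hA.2]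
    rw [div_le_iff₀ hXpos] at h5
    rw [mul_div_assoc', le_div_iff₀ hlX]
    linarith
  -- lower bound for `π(2X)`
  have hB' : 9 / 10 * (2 * X / Real.log (2 * X)) ≤ (Nat.primeCounting (2 * X) : ℝ) := by
    have h5 : 9 / 10 ≤ (Nat.primeCounting (2 * X) : ℝ) * Real.log (2 * X) / (2 * X) := by
      linarith [hB.1]
    rw [le_div_iff₀ (by linarith)] at h5
    rw [mul_div_assoc', div_le_iff₀ hl2Xpos]
    linarith
  have hcmp : 10 / 11 * (X / Real.log X) ≤ X / Real.log (2 * X) := by
    have h6 : Real.log (2 * X) ≤ 11 / 10 * Real.log X := by rw [hl2X]; linarith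
    rw [mul_div_assoc', div_le_div_iff₀ hlX hl2Xpos]
    nlinarith
  -- the number of primes in the interval
  have hcard : (#((Ioc X (2 * X)).filter Nat.Prime) : ℝ) =
      (Nat.primeCounting (2 * X) : ℝ) - Nat.primeCounting X := by
    have h7 : Nat.primeCounting X + #((Ioc X (2 * X)).filter Nat.Prime) =
        Nat.primeCounting (2 * X) := by
      rw [Nat.primeCounting, Nat.primeCounting', Nat.count_eq_card_filter_range,
        Nat.primeCounting, Nat.primeCounting', Nat.count_eq_card_filter_range,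
        ← Finset.card_union_of_disjoint]
      · congr 1
        ext x
        simp only [Finset.mem_union, Finset.mem_filter, Finset.mem_range, Finset.mem_Ioc]
        constructor
        · rintro (⟨h, h'⟩ | ⟨h, h'⟩)
          · exact ⟨by omega, h'⟩
          · exact ⟨by omega, h'⟩
        · rintro ⟨h, h'⟩
          by_cases hx : x < X + 1
          · exact Or.inl ⟨hx, h'⟩
          · exact Or.inr ⟨by omega, h'⟩
      · rw [Finset.disjoint_left]
        intro x hx hx'
        simp only [Finset.mem_filter, Finset.mem_range, Finset.mem_Ioc] at hx hx'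
        omega
    have h8 : ((Nat.primeCounting X + #((Ioc X (2 * X)).filter Nat.Prime) : ℕ) : ℝ) =
        (Nat.primeCounting (2 * X) : ℝ) := by rw [h7]
    push_cast at h8
    linarith
  rw [hcard]
  have h9 : (X : ℝ) / (2 * Real.log X) = 1 / 2 * (X / Real.log X) := by
    rw [div_mul_eq_div_div_swap]; ring
  have h10 : (2 : ℝ) * X / Real.log (2 * X) = 2 * (X / Real.log (2 * X)) := by ring
  have h11 : 0 < (X : ℝ) / Real.log X := div_pos hXpos hlX
  rw [h10] at hB'
  rw [h9]
  linarith

end Pool.KV
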