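import Pool.Agent.LibKlVar.KV_S1

set_option autoImplicit false

namespace HKS

open Finset Kloo

variable (p : ℕ) [hp : Fact p.Prime]

lemma norm_sub_one_ge (j : ℕ) (h0 : 0 < j) (hj : j < p) :
    (4 / (p : ℝ)) * min (j : ℝ) (p - j) ≤ ‖ZMod.stdAddChar ((j : ℕ) : ZMod p) - (1 : ℂ)‖ := by
  have hp0 : (0 : ℝ) < p := by exact_mod_cast hp.out.pos
  have hj0 : (0 : ℝ) < j := by exact_mod_cast h0
  have hjp : (j : ℝ) < p := by exact_mod_cast hj
  have hpi := Real.pi_pos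
  have e1 : ZMod.stdAddChar ((j : ℕ) : ZMod p) =
      Complex.exp (Complex.I * ((2 * Real.pi * j / p : ℝ) : ℂ)) := by
    have := ZMod.stdAddChar_coe (N := p) (j : ℤ)
    push_cast at this
    rw [this]
    congr 1
    push_cast
    ring
  rw [e1, Complex.norm_exp_I_mul_ofReal_sub_one]
  have e2 : 2 * Real.pi * j / p / 2 = Real.pi * j / p := by ring
  rw [e2, Real.norm_eq_abs]
  refine le_trans ?_ (le_abs_self _)
  rcases le_total (2 * (j : ℝ)) p with hle | hle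
  · have h1 : Real.pi * j / p ≤ Real.pi / 2 := by
      rw [div_le_div_iff₀ hp0 (by norm_num)]
      nlinarith
    have h2 := Real.mul_le_sin (x := Real.pi * j / p) (by positivity) h1
    have h3 : 2 / Real.pi * (Real.pi * j / p) = 2 * j / p := by field_simp
    rw [h3] at h2
    have h4 : min (j : ℝ) (p - j) ≤ j := min_le_left _ _
    calc (4 / (p : ℝ)) * min (j : ℝ) (p - j) ≤ (4 / (p : ℝ)) * j := by gcongr
      _ = 2 * (2 * j / p) := by ring
      _ ≤ _ := by linarith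
  · have h1 : Real.pi * (p - j) / p ≤ Real.pi / 2 := by
      rw [div_le_div_iff₀ hp0 (by norm_num)]
      nlinarith
    have h2 := Real.mul_le_sin (x := Real.pi * (p - j) / p)
      (div_nonneg (mul_nonneg hpi.le (by linarith)) hp0.le) h1
    have h3 : 2 / Real.pi * (Real.pi * (p - j) / p) = 2 * (p - j) / p := by field_simp
    rw [h3] at h2
    have h5 : Real.sin (Real.pi * j / p) = Real.sin (Real.pi * (p - j) / p) := by
      rw [← Real.sin_pi_sub]
      congr 1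
      field_simp
    rw [h5]
    have h4 : min (j : ℝ) (p - j) ≤ p - j := min_le_right _ _
    calc (4 / (p : ℝ)) * min (j : ℝ) (p - j) ≤ (4 / (p : ℝ)) * (p - j) := by gcongr
      _ = 2 * (2 * (p - j) / p) := by ring
      _ ≤ _ := by linarith

/-- incomplete geometric sum -/
lemma norm_geom_le (j : ℕ) (h0 : 0 < j) (hj : j < p) (u : ℤ) (N : ℕ) :
    ‖∑ i ∈ range N, ZMod.stdAddChar ((((u + i : ℤ) : ZMod p)) * ((j : ℕ) : ZMod p))‖ ≤
      (p : ℝ) / 2 * (1 / (j : ℝ) + 1 / ((p - j : ℕ) : ℝ)) := by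
  have hp0 : (0 : ℝ) < p := by exact_mod_cast hp.out.pos
  have hj0 : (0 : ℝ) < j := by exact_mod_cast h0
  have hjp : (j : ℝ) < p := by exact_mod_cast hj
  have hpj : (0 : ℝ) < (p : ℝ) - j := by linarith
  have hcast : ((p - j : ℕ) : ℝ) = (p : ℝ) - j := by rw [Nat.cast_sub hj.le]
  set z : ℂ := ZMod.stdAddChar ((j : ℕ) : ZMod p) with hz
  have hz1 : ‖z‖ = 1 := by
    rw [hz, ZMod.stdAddChar_apply]; exact Circle.norm_coe _
  have hge := norm_sub_one_ge p j h0 hj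
  have hmin : 0 < min (j : ℝ) (p - j) := lt_min hj0 hpj
  have hzne : 0 < ‖z - 1‖ := lt_of_lt_of_le (by positivity) hge
  have e1 : ∀ i ∈ range N, ZMod.stdAddChar ((((u + i : ℤ) : ZMod p)) * ((j : ℕ) : ZMod p)) =
      ZMod.stdAddChar (((u : ℤ) : ZMod p) * ((j : ℕ) : ZMod p)) * z ^ i := by
    intro i _
    rw [hz, ← AddChar.map_nsmul_eq_pow, ← AddChar.map_add_eq_mul]
    congr 1
    push_cast
    rw [nsmul_eq_mul]
    ring
  rw [sum_congr rfl e1, ← mul_sum, norm_mul]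
  have h2 : ‖(ZMod.stdAddChar (((u : ℤ) : ZMod p) * ((j : ℕ) : ZMod p)) : ℂ)‖ = 1 := by
    rw [ZMod.stdAddChar_apply]; exact Circle.norm_coe _
  rw [h2, one_mul]
  have h3 : (z - 1) * ∑ i ∈ range N, z ^ i = z ^ N - 1 := mul_geom_sum z N
  have h4 : ‖z - 1‖ * ‖∑ i ∈ range N, z ^ i‖ ≤ 2 := by
    rw [← norm_mul, h3]
    calc ‖z ^ N - 1‖ ≤ ‖z ^ N‖ + ‖(1 : ℂ)‖ := norm_sub_le _ _
      _ = 2 := by rw [norm_pow, hz1, one_pow, norm_one]; norm_num
  have h5 : ‖∑ i ∈ range N, z ^ i‖ ≤ 2 / ‖z - 1‖ := by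
    rw [le_div_iff₀ hzne, mul_comm]; exact h4
  refine le_trans h5 ?_
  have h6 : 2 / ‖z - 1‖ ≤ 2 / ((4 / (p : ℝ)) * min (j : ℝ) (p - j)) := by
    apply div_le_div_of_nonneg_left (by norm_num) (by positivity) hge
  refine le_trans h6 ?_
  have h7 : 2 / ((4 / (p : ℝ)) * min (j : ℝ) (p - j)) = (p : ℝ) / 2 * (1 / min (j : ℝ) (p - j)) := by
    field_simp
    norm_num
  rw [h7, hcast]
  gcongr
  rcases min_choice (j : ℝ) (p - j) with h | h
  · rw [h]
    have : 0 ≤ 1 / ((p : ℝ) - j) := by positivity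
    linarith
  · rw [h]
    have : 0 ≤ 1 / (j : ℝ) := by positivity
    linarith

lemma sum_geom_le (u : ℤ) (N : ℕ) :
    ∑ h ∈ univ.erase (0 : ZMod p),
      ‖∑ i ∈ range N, ZMod.stdAddChar ((((u + i : ℤ) : ZMod p)) * h)‖ ≤
      (p : ℝ) * (1 + Real.log p) := by
  have hp0 : (0 : ℝ) < p := by exact_mod_cast hp.out.pos
  have h1 : ∑ h ∈ univ.erase (0 : ZMod p),
      ‖∑ i ∈ range N, ZMod.stdAddChar ((((u + i : ℤ) : ZMod p)) * h)‖ =
      ∑ j ∈ Ico 1 p, ‖∑ i ∈ range N,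
        ZMod.stdAddChar ((((u + i : ℤ) : ZMod p)) * ((j : ℕ) : ZMod p))‖ := by
    refine sum_bij' (fun h _ => h.val) (fun j _ => ((j : ℕ) : ZMod p)) ?_ ?_ ?_ ?_ ?_
    · intro h hh
      rw [mem_Ico]
      refine ⟨Nat.one_le_iff_ne_zero.2 ?_, ZMod.val_lt _⟩
      rw [Ne, ZMod.val_eq_zero]
      exact (mem_erase.1 hh).1
    · intro j hj
      rw [mem_Ico] at hj
      refine mem_erase.2 ⟨?_, mem_univ _⟩
      rw [Ne, ZMod.natCast_eq_zero_iff]
      intro hd
      have := Nat.le_of_dvd (by omega) hd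
      omega
    · intro h hh
      exact ZMod.natCast_zmod_val h
    · intro j hj
      rw [mem_Ico] at hj
      exact ZMod.val_natCast_of_lt hj.2
    · intro h hh
      rw [ZMod.natCast_zmod_val h]
  rw [h1]
  calc ∑ j ∈ Ico 1 p, ‖∑ i ∈ range N,
        ZMod.stdAddChar ((((u + i : ℤ) : ZMod p)) * ((j : ℕ) : ZMod p))‖
      ≤ ∑ j ∈ Ico 1 p, (p : ℝ) / 2 * (1 / (j : ℝ) + 1 / ((p - j : ℕ) : ℝ)) := by
        apply sum_le_sum
        intro j hj
        rw [mem_Ico] at hj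
        exact norm_geom_le p j (by omega) hj.2 u N
    _ = (p : ℝ) / 2 * (∑ j ∈ Ico 1 p, 1 / (j : ℝ) + ∑ j ∈ Ico 1 p, 1 / ((p - j : ℕ) : ℝ)) := by
        rw [← mul_sum, sum_add_distrib]
    _ = (p : ℝ) / 2 * (∑ j ∈ Ico 1 p, 1 / (j : ℝ) + ∑ j ∈ Ico 1 p, 1 / (j : ℝ)) := by
        congr 2
        exact Finset.sum_bij' (fun j _ => p - j) (fun j _ => p - j)
          (by intro j hj; rw [mem_Ico] at *; omega)
          (by intro j hj; rw [mem_Ico] at *; omega)
          (by intro j hj; rw [mem_Ico] at *; omega)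
          (by intro j hj; rw [mem_Ico] at *; omega)
          (by intro j hj; rfl)
    _ = (p : ℝ) * ∑ j ∈ Ico 1 p, 1 / (j : ℝ) := by ring
    _ ≤ (p : ℝ) * (1 + Real.log p) := by
        gcongr
        have h2 := harmonic_le_one_add_log p
        refine le_trans ?_ h2
        rw [harmonic_eq_sum_Icc]
        push_cast
        have : ∑ j ∈ Ico 1 p, 1 / (j : ℝ) ≤ ∑ j ∈ Icc 1 p, (j : ℝ)⁻¹ := by
          simp_rw [one_div]
          apply sum_le_sum_of_subset_of_nonneg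
          · intro j hj
            rw [mem_Ico] at hj; rw [mem_Icc]; omega
          · intro j _ _; positivity
        exact this

/-- completion of incomplete sums -/
theorem completion (g : ZMod p → ℂ) (M : ℝ)
    (hM : ∀ h : ZMod p, h ≠ 0 → ‖∑ b, g b * ZMod.stdAddChar (-(b * h))‖ ≤ M) (u : ℤ) (N : ℕ) :
    ‖∑ i ∈ range N, g (((u + i : ℤ) : ZMod p)) - (N : ℂ) / p * ∑ b, g b‖ ≤
      M * (1 + Real.log p) := by
  have hp0 : (0 : ℝ) < p := by exact_mod_cast hp.out.pos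
  have hpC : (p : ℂ) ≠ 0 := by exact_mod_cast hp.out.ne_zero
  have inv : ∀ a : ZMod p, g a = (1 / (p : ℂ)) *
      ∑ h, (∑ b, g b * ZMod.stdAddChar (-(b * h))) * ZMod.stdAddChar (a * h) := by
    intro a
    simp_rw [sum_mul]
    rw [sum_comm]
    have e1 : ∀ b : ZMod p, ∑ h : ZMod p, g b * ZMod.stdAddChar (-(b * h)) * ZMod.stdAddChar (a * h) =
        if b = a then (p : ℂ) * g b else 0 := by
      intro b
      have e2 : ∀ h : ZMod p, g b * ZMod.stdAddChar (-(b * h)) * ZMod.stdAddChar (a * h) =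
          g b * ZMod.stdAddChar (h * (a - b)) := by
        intro h
        rw [mul_assoc, ← AddChar.map_add_eq_mul]
        congr 2
        ring
      simp_rw [e2]
      rw [← mul_sum, sum_stdAddChar_mul]
      by_cases hab : b = a
      · rw [if_pos hab, if_pos (by rw [hab, sub_self])]; ring
      · rw [if_neg hab, if_neg (fun h => hab (sub_eq_zero.1 h).symm), mul_zero]
    simp_rw [e1]
    rw [Finset.sum_ite_eq' univ a]
    simp only [mem_univ, if_true]
    field_simp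
  set G : ZMod p → ℂ := fun h => ∑ b, g b * ZMod.stdAddChar (-(b * h)) with hG
  have e3 : ∑ i ∈ range N, g (((u + i : ℤ) : ZMod p)) =
      (1 / (p : ℂ)) * ∑ h, G h * ∑ i ∈ range N, ZMod.stdAddChar ((((u + i : ℤ) : ZMod p)) * h) := by
    rw [sum_congr rfl (fun (i : ℕ) _ => inv (((u + (i : ℤ) : ℤ) : ZMod p))), ← mul_sum]
    congr 1
    rw [sum_comm]
    refine sum_congr rfl fun h _ => ?_
    rw [mul_sum]
  rw [e3, ← add_sum_erase _ _ (mem_univ (0 : ZMod p))]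
  have e4 : G 0 = ∑ b, g b := by
    simp [hG]
  have e5 : ∑ i ∈ range N, ZMod.stdAddChar ((((u + i : ℤ) : ZMod p)) * 0) = (N : ℂ) := by
    simp
  rw [e4, e5]
  have e6 : (1 / (p : ℂ)) * ((∑ b, g b) * N + ∑ h ∈ univ.erase (0 : ZMod p),
      G h * ∑ i ∈ range N, ZMod.stdAddChar ((((u + i : ℤ) : ZMod p)) * h)) -
      (N : ℂ) / p * ∑ b, g b = (1 / (p : ℂ)) * ∑ h ∈ univ.erase (0 : ZMod p),
      G h * ∑ i ∈ range N, ZMod.stdAddChar ((((u + i : ℤ) : ZMod p)) * h) := by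
    ring
  rw [e6, norm_mul, norm_div, norm_one, Complex.norm_natCast]
  calc 1 / (p : ℝ) * ‖∑ h ∈ univ.erase (0 : ZMod p),
      G h * ∑ i ∈ range N, ZMod.stdAddChar ((((u + i : ℤ) : ZMod p)) * h)‖
      ≤ 1 / (p : ℝ) * ∑ h ∈ univ.erase (0 : ZMod p),
        M * ‖∑ i ∈ range N, ZMod.stdAddChar ((((u + i : ℤ) : ZMod p)) * h)‖ := by
        gcongr
        refine le_trans (norm_sum_le _ _) (sum_le_sum fun h hh => ?_)
        rw [norm_mul]
        exact mul_le_mul_of_nonneg_right (hM h (mem_erase.1 hh).1) (norm_nonneg _)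
    _ = M * (1 / (p : ℝ)) * ∑ h ∈ univ.erase (0 : ZMod p),
        ‖∑ i ∈ range N, ZMod.stdAddChar ((((u + i : ℤ) : ZMod p)) * h)‖ := by
        rw [← mul_sum]; ring
    _ ≤ M * (1 / (p : ℝ)) * ((p : ℝ) * (1 + Real.log p)) := by
        have hM0 : 0 ≤ M := le_trans (norm_nonneg _) (hM 1 one_ne_zero)
        exact mul_le_mul_of_nonneg_left (sum_geom_le p u N) (by positivity)
    _ = M * (1 + Real.log p) := by field_simp

/-- second moment in an interval -/
theorem second_moment (hW : ∀ α : ZMod p, α ≠ 0 → ‖K p α‖ ≤ 2 * Real.sqrt p) (u : ℤ) (N : ℕ) :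
    ‖∑ i ∈ range N, (K p ((u + i : ℤ) : ZMod p)) ^ 2 - (N : ℂ) * (p - 1)‖ ≤
      (p : ℝ) * (1 + 2 * Real.sqrt p) * (1 + Real.log p) := by
  have hpC : (p : ℂ) ≠ 0 := by exact_mod_cast hp.out.ne_zero
  have h1 := completion p (fun a => (K p a) ^ 2) ((p : ℝ) * (1 + 2 * Real.sqrt p)) ?_ u N
  · have h0 := fourier_sq p 0
    simp only [mul_zero, neg_zero, AddChar.map_zero_eq_one, mul_one, if_true] at h0
    rw [h0] at h1
    have : (N : ℂ) / p * (p * (p - 1)) = (N : ℂ) * (p - 1) := by field_simp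
    rw [this] at h1
    exact h1
  · intro h hh
    rw [fourier_sq, if_neg hh, norm_mul, Complex.norm_natCast]
    gcongr
    refine le_trans (norm_sub_le _ _) ?_
    rw [norm_mul, norm_one]
    have : ‖(ZMod.stdAddChar (2 * h⁻¹) : ℂ)‖ = 1 := by
      rw [ZMod.stdAddChar_apply]; exact Circle.norm_coe _
    rw [this, one_mul]
    have := hW (h⁻¹ ^ 2) (pow_ne_zero 2 (inv_ne_zero hh))
    linarith

end HKS
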