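import Pool.Agent.LibKlVar.KV_Def
import Pool.Agent.LibKlVar.KV_S2

set_option autoImplicit false

namespace Pool.KV

open Finset

lemma kl_eq_K (a : ℤ) (c : ℕ) [NeZero c] : kl a c = Kloo.K c (a : ZMod c) := by
  unfold kl Kloo.K
  symm
  refine sum_bij (fun (u : (ZMod c)ˣ) _ => (u : ZMod c).val) ?_ ?_ ?_ ?_
  · intro u _
    rw [mem_filter, mem_range]
    exact ⟨ZMod.val_lt _, ZMod.val_coe_unit_coprime u⟩
  · intro u _ v _ h
    exact Units.ext (ZMod.val_injective c h)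
  · intro x hx
    rw [mem_filter, mem_range] at hx
    refine ⟨ZMod.unitOfCoprime x hx.2, mem_univ _, ?_⟩
    rw [ZMod.coe_unitOfCoprime, ZMod.val_natCast, Nat.mod_eq_of_lt hx.1]
  · intro u _
    rw [ZMod.natCast_zmod_val, ZMod.inv_coe_unit]
    rw [ZMod.stdAddChar_apply, ZMod.toCircle_apply]

/-- Weil's bound for `K`. -/
lemma K_weil (p : ℕ) [hp : Fact p.Prime] (HW : WeilBd p) (α : ZMod p) (hα : α ≠ 0) :
    ‖Kloo.K p α‖ ≤ 2 * Real.sqrt p := by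
  have h := HW 1 α 1 hα one_ne_zero
  have e1 : ∑ u : (ZMod p)ˣ, (1 : MulChar (ZMod p) ℂ) (u : ZMod p) *
      ZMod.stdAddChar (α * (u : ZMod p) + 1 * ((u⁻¹ : (ZMod p)ˣ) : ZMod p)) = Kloo.K p α := by
    unfold Kloo.K
    refine sum_congr rfl fun u _ => ?_
    rw [MulChar.one_apply u.isUnit, one_mul, one_mul]
  rw [e1] at h
  exact h

/-- `K² = ‖K‖²` -/
lemma K_sq_norm (p : ℕ) [NeZero p] (α : ZMod p) :
    (Kloo.K p α) ^ 2 = ((‖Kloo.K p α‖ ^ 2 : ℝ) : ℂ) := by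
  have h := Kloo.K_conj p α
  have h2 := Complex.mul_conj (Kloo.K p α)
  rw [h] at h2
  rw [pow_two, h2, Complex.normSq_eq_norm_sq]

/-- Block S: the second moment over an interval. -/
theorem second_moment_interval (HW : ∀ p : ℕ, p.Prime → WeilBd p) :
    ∃ C : ℝ, ∀ p : ℕ, p.Prime → ∀ A B : ℤ, A ≤ B → B - A ≤ 2 * p →
      (B - A : ℝ) - C * (Real.sqrt p * Real.log p) ≤ ∑ a ∈ Ioc A B, ‖kl a p‖ ^ 2 / p := by
  refine ⟨10, fun p hp A B hAB hBA => ?_⟩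
  have : Fact p.Prime := ⟨hp⟩
  have hp0 : (0 : ℝ) < p := by exact_mod_cast hp.pos
  obtain ⟨N, hN⟩ : ∃ N : ℕ, B = A + N := ⟨(B - A).toNat, by omega⟩
  have h1 := HKS.second_moment p (K_weil p (HW p hp)) (A + 1) N
  have e1 : ∑ a ∈ Ioc A B, ‖kl a p‖ ^ 2 = ∑ i ∈ range N, ‖Kloo.K p ((A + 1 + i : ℤ) : ZMod p)‖ ^ 2 := by
    symm
    refine sum_bij (fun (i : ℕ) _ => (A + 1 + i : ℤ)) ?_ ?_ ?_ ?_
    · intro i hi
      rw [mem_range] at hi
      rw [mem_Ioc]; omega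
    · intro i _ j _ h
      have : (i : ℤ) = j := by linarith
      exact_mod_cast this
    · intro a ha
      rw [mem_Ioc] at ha
      refine ⟨(a - (A + 1)).toNat, ?_, ?_⟩
      · rw [mem_range]; omega
      · omega
    · intro i _
      rw [kl_eq_K]
  rw [← sum_div, e1]
  set S : ℝ := ∑ i ∈ range N, ‖Kloo.K p ((A + 1 + i : ℤ) : ZMod p)‖ ^ 2 with hS
  have e2 : ∑ i ∈ range N, (Kloo.K p ((A + 1 + i : ℤ) : ZMod p)) ^ 2 = (S : ℂ) := by
    rw [hS]
    push_cast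
    refine sum_congr rfl fun i _ => ?_
    have := K_sq_norm p ((A + 1 + i : ℤ) : ZMod p)
    push_cast at this
    exact this
  rw [e2] at h1
  have e3 : ((S : ℂ) - (N : ℂ) * (p - 1)) = ((S - N * (p - 1) : ℝ) : ℂ) := by push_cast; ring
  rw [e3, Complex.norm_real, Real.norm_eq_abs] at h1
  have h2 := (abs_le.1 h1).1
  have hNp : (N : ℝ) ≤ 2 * p := by
    have : (N : ℤ) ≤ 2 * p := by omega
    exact_mod_cast this
  have hBAr : (B : ℝ) - A = N := by rw [hN]; push_cast; ring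
  rw [hBAr, le_div_iff₀ hp0]
  have hs : Real.sqrt 2 ≤ Real.sqrt p := Real.sqrt_le_sqrt (by exact_mod_cast hp.two_le)
  have hs2 : (1.4 : ℝ) ≤ Real.sqrt 2 := by
    apply Real.le_sqrt_of_sq_le; norm_num
  have hl : Real.log 2 ≤ Real.log p := Real.log_le_log (by norm_num) (by exact_mod_cast hp.two_le)
  have hl2 := Real.log_two_gt_d9
  set s := Real.sqrt p with hsdef
  set l := Real.log p with hldef
  have hs3 : (1.4 : ℝ) ≤ s := le_trans hs2 hs
  have hl3 : (0.69 : ℝ) ≤ l := by linarith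
  have key : 2 + (1 + 2 * s) * (1 + l) ≤ 10 * (s * l) := by
    nlinarith [mul_nonneg (sub_nonneg.2 hs3) (sub_nonneg.2 hl3)]
  nlinarith [mul_le_mul_of_nonneg_left key hp0.le]

end Pool.KV
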