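import Pool.Agent.LibKlVar.KV_T2

set_option autoImplicit false

namespace Pool.KV

open Finset

lemma card_primeFactors_le (a : ℕ) (ha : a ≠ 0) : 2 ^ #a.primeFactors ≤ a := by
  calc 2 ^ #a.primeFactors = ∏ _p ∈ a.primeFactors, 2 := by rw [prod_const]
    _ ≤ ∏ p ∈ a.primeFactors, p := by
        apply prod_le_prod'
        intro p hp
        exact (Nat.prime_of_mem_primeFactors hp).two_le
    _ ≤ a := Nat.le_of_dvd (Nat.pos_of_ne_zero ha) (Nat.prod_primeFactors_dvd a)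

/-- elementary: natural logarithm in base 2 versus `√x` -/
lemma two_pow_le_imp (m x : ℕ) (h : 2 ^ m ≤ x) : (m : ℝ) ≤ 3 * (x : ℝ) ^ (1 / 2 : ℝ) := by
  have hx : 0 < x := lt_of_lt_of_le (by positivity) h
  have hx0 : (0 : ℝ) < x := by exact_mod_cast hx
  have h2 : (2 : ℝ) ^ m ≤ x := by exact_mod_cast h
  have h3 := Real.log_le_log (by positivity) h2
  rw [Real.log_pow] at h3
  have h4 := Real.log_le_rpow_div hx0.le (by norm_num : (0 : ℝ) < 1 / 2)
  have h5 := Real.log_two_gt_d9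
  have h6 : 0 ≤ (x : ℝ) ^ (1 / 2 : ℝ) := by positivity
  have h7 : (x : ℝ) ^ (1 / 2 : ℝ) / (1 / 2) = 2 * (x : ℝ) ^ (1 / 2 : ℝ) := by ring
  rw [h7] at h4
  have h8 : (m : ℝ) * 0.69 ≤ m * Real.log 2 := by gcongr; linarith
  nlinarith

/-- For a fixed good `a`, the bound for all `x`. -/
theorem good_a (η : ℝ) (h0 : 0 < η) (h1 : η < 1) (N : ℕ) (hN : 0 < N) (a : ℤ) (ha0 : a ≠ 0)
    (haN : a ∈ Icc (-(N : ℤ)) N) (hW : ∀ p : ℕ, p.Prime → ‖kn a p‖ ≤ 2)
    (hgood : ∀ j : ℕ, (N : ℝ) ^ (η / 2) ≤ 2 ^ j →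
        (2 : ℝ) ^ j ≤ (N : ℝ) ^ (2 - η) → ∀ i ≤ 2 ^ j / Lst N (η / 20) j,
        ‖∑ p ∈ blk j i (Lst N (η / 20) j), kn a p‖ ≤ 2 ^ j * (N : ℝ) ^ (-(η / 20)))
    (x : ℕ) (hx : (N : ℝ) ^ η ≤ x) (hx2 : (x : ℝ) ≤ (N : ℝ) ^ (2 - η)) :
    |∑ p ∈ (Icc 1 x).filter (fun p : ℕ => p.Prime ∧ ¬ (p : ℤ) ∣ a), (kl a p).re / (2 * Real.sqrt p)| ≤
      (20 + 4 / η) * (x : ℝ) ^ (1 - η / 40) := by
  have hN0 : (0 : ℝ) < N := by exact_mod_cast hN
  have hN1 : (1 : ℝ) ≤ N := by exact_mod_cast hN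
  have hx1 : (1 : ℝ) ≤ x := le_trans (Real.one_le_rpow hN1 h0.le) hx
  have hx0 : (0 : ℝ) < x := by linarith
  have hxpos : 0 < x := by exact_mod_cast hx0
  set g : ℕ → ℂ := fun p => if p.Prime then kn a p else 0 with hg
  have hg2 : ∀ p, ‖g p‖ ≤ 2 := by
    intro p
    rw [hg]
    dsimp only
    split_ifs with h
    · exact hW p h
    · simp
  have hgsum : ∀ s : Finset ℕ, ∑ p ∈ s.filter Nat.Prime, g p = ∑ p ∈ s.filter Nat.Prime, kn a p := by
    intro s
    refine sum_congr rfl fun p hp => ?_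
    rw [hg]
    dsimp only
    rw [if_pos (mem_filter.1 hp).2]
  set D : ℝ := (x : ℝ) ^ (1 - η / 40) with hD
  have hsq : (x : ℝ) ^ (1 / 2 : ℝ) ≤ D := Real.rpow_le_rpow_of_exponent_le hx1 (by linarith)
  have hD1 : 1 ≤ D := Real.one_le_rpow hx1 (by linarith)
  have hsq0 : 0 ≤ (x : ℝ) ^ (1 / 2 : ℝ) := by positivity
  -- the sum over all primes up to x
  have main : ‖∑ p ∈ (Ioc 0 x).filter Nat.Prime, g p‖ ≤ 24 * D := by
    set J := Nat.log 2 x with hJ
    have hJ1 : 2 ^ J ≤ x := Nat.pow_log_le_self 2 hxpos.ne'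
    have hJ2 : x < 2 ^ (J + 1) := Nat.lt_pow_succ_log_self (by norm_num) x
    have hex : ∃ j : ℕ, (N : ℝ) ^ (η / 2) ≤ 2 ^ j := by
      obtain ⟨j, hj⟩ := pow_unbounded_of_one_lt ((N : ℝ) ^ (η / 2)) (by norm_num : (1 : ℝ) < 2)
      exact ⟨j, hj.le⟩
    classical
    set j₁ := Nat.find hex with hj₁
    have hj1 : (N : ℝ) ^ (η / 2) ≤ 2 ^ j₁ := Nat.find_spec hex
    have hNη1 : 1 ≤ (N : ℝ) ^ (η / 2) := Real.one_le_rpow hN1 (by positivity)
    have hj1' : (2 : ℝ) ^ j₁ ≤ 2 * (N : ℝ) ^ (η / 2) := by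
      rcases Nat.eq_zero_or_pos j₁ with h | h
      · rw [h]; simp; linarith
      · have h3 := Nat.find_min hex (m := j₁ - 1) (by omega)
        push Not at h3
        have h4 : (2 : ℝ) ^ j₁ = 2 * 2 ^ (j₁ - 1) := by
          rw [← pow_succ']; congr 1; omega
        rw [h4]; linarith
    have hNx : (N : ℝ) ^ (η / 2) ≤ (x : ℝ) ^ (1 / 2 : ℝ) := by
      have : (N : ℝ) ^ (η / 2) = ((N : ℝ) ^ η) ^ (1 / 2 : ℝ) := by
        rw [← Real.rpow_mul hN0.le]; congr 1; ring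
      rw [this]
      exact Real.rpow_le_rpow (by positivity) hx (by norm_num)
    rcases le_or_gt j₁ J with hle | hgt
    · -- main case
      have hτ : (0 : ℝ) ≤ 3 * (N : ℝ) ^ (-(η / 20)) := by positivity
      have hb := total_bound g hg2 j₁ J hle (3 * (N : ℝ) ^ (-(η / 20))) hτ ?_ x hJ1 hJ2.le
      · refine le_trans hb ?_
        have hJx := two_pow_le_imp J x hJ1
        have hNk : (x : ℝ) * (N : ℝ) ^ (-(η / 20)) ≤ D := by
          have hxN : (x : ℝ) ^ (η / 40) ≤ (N : ℝ) ^ (η / 20) := by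
            calc (x : ℝ) ^ (η / 40) ≤ ((N : ℝ) ^ (2 : ℝ)) ^ (η / 40) := by
                  apply Real.rpow_le_rpow hx0.le _ (by positivity)
                  refine le_trans hx2 ?_
                  apply Real.rpow_le_rpow_of_exponent_le hN1
                  linarith
              _ = (N : ℝ) ^ (η / 20) := by
                  rw [← Real.rpow_mul hN0.le]; congr 1; ring
          have e1 : D * (x : ℝ) ^ (η / 40) = x := by
            rw [hD, ← Real.rpow_add hx0]; simp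
          have e2 : (N : ℝ) ^ (-(η / 20)) * (N : ℝ) ^ (η / 20) = 1 := by
            rw [← Real.rpow_add hN0]; simp
          calc (x : ℝ) * (N : ℝ) ^ (-(η / 20)) = D * (x : ℝ) ^ (η / 40) * (N : ℝ) ^ (-(η / 20)) := by
                rw [e1]
            _ ≤ D * (N : ℝ) ^ (η / 20) * (N : ℝ) ^ (-(η / 20)) := by gcongr
            _ = D * ((N : ℝ) ^ (-(η / 20)) * (N : ℝ) ^ (η / 20)) := by ring
            _ = D := by rw [e2, mul_one]
        have e3 : 2 * (3 * (N : ℝ) ^ (-(η / 20))) * (x : ℝ) = 6 * ((x : ℝ) * (N : ℝ) ^ (-(η / 20))) := by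
          ring
        rw [e3]
        linarith
      · intro j hjj hjJ y hy hy2
        have hj3 : (N : ℝ) ^ (η / 2) ≤ 2 ^ j := le_trans hj1 (pow_le_pow_right₀ (by norm_num) hjj)
        have hj4 : (2 : ℝ) ^ j ≤ (N : ℝ) ^ (2 - η) := by
          have h5 : (2 : ℝ) ^ j ≤ 2 ^ J := pow_le_pow_right₀ (by norm_num) hjJ
          have h6 : (2 : ℝ) ^ J ≤ x := by exact_mod_cast hJ1
          linarith
        have h7 := block_bound g hg2 j (Lst N (η / 20) j) (Lst_pos _ _ _)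
          (2 ^ j * (N : ℝ) ^ (-(η / 20))) ?_ y hy hy2
        · have h8 := Lst_le N (η / 20) j
          refine le_trans h7 ?_
          have : 3 * (N : ℝ) ^ (-(η / 20)) * 2 ^ j = 3 * (2 ^ j * (N : ℝ) ^ (-(η / 20))) := by ring
          rw [this]
          linarith
        · intro i hi
          have h9 := hgood j hj3 hj4 i hi
          have h10 : ∑ p ∈ blk j i (Lst N (η / 20) j), g p =
              ∑ p ∈ blk j i (Lst N (η / 20) j), kn a p := by
            unfold blk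
            exact hgsum _
          rw [h10]
          exact h9
    · -- x is small
      have h3 : (x : ℝ) < 2 ^ j₁ := by
        have : x < 2 ^ j₁ := lt_of_lt_of_le hJ2 (Nat.pow_le_pow_right (by norm_num) hgt)
        exact_mod_cast this
      have h4 : (x : ℝ) ≤ 2 * (x : ℝ) ^ (1 / 2 : ℝ) := by linarith
      refine le_trans (norm_sum_le _ _) ?_
      refine le_trans (sum_le_sum fun p _ => hg2 p) ?_
      rw [sum_const, nsmul_eq_mul]
      have h5 : #((Ioc 0 x).filter Nat.Prime) ≤ x := by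
        refine le_trans (card_filter_le _ _) ?_
        rw [Nat.card_Ioc]; simp
      have h6 : (#((Ioc 0 x).filter Nat.Prime) : ℝ) ≤ x := by exact_mod_cast h5
      linarith
  -- primes dividing a
  have hdiv : ‖∑ p ∈ (Ioc 0 x).filter (fun p : ℕ => p.Prime ∧ (p : ℤ) ∣ a), g p‖ ≤ 2 * (3 / η * D) := by
    refine le_trans (norm_sum_le _ _) ?_
    refine le_trans (sum_le_sum fun p _ => hg2 p) ?_
    rw [sum_const, nsmul_eq_mul, mul_comm]
    gcongr
    have h3 : (Ioc 0 x).filter (fun p : ℕ => p.Prime ∧ (p : ℤ) ∣ a) ⊆ a.natAbs.primeFactors := by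
      intro p hp
      rw [mem_filter] at hp
      rw [Nat.mem_primeFactors]
      exact ⟨hp.2.1, Int.natCast_dvd.1 hp.2.2, Int.natAbs_ne_zero.2 ha0⟩
    have h4 := card_le_card h3
    have h5 := card_primeFactors_le a.natAbs (Int.natAbs_ne_zero.2 ha0)
    have h6 : a.natAbs ≤ N := by
      rw [mem_Icc] at haN; omega
    set m := #a.natAbs.primeFactors with hm
    have h7 : (2 : ℝ) ^ m ≤ N := by
      have : 2 ^ m ≤ N := le_trans h5 h6
      exact_mod_cast this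
    have h8 : (m : ℝ) * Real.log 2 ≤ Real.log N := by
      have := Real.log_le_log (by positivity) h7
      rwa [Real.log_pow] at this
    have h9 : η * Real.log N ≤ Real.log x := by
      have := Real.log_le_log (by positivity) hx
      rwa [Real.log_rpow hN0] at this
    have h10 := Real.log_le_rpow_div hx0.le (by norm_num : (0 : ℝ) < 1 / 2)
    have h11 : (x : ℝ) ^ (1 / 2 : ℝ) / (1 / 2) = 2 * (x : ℝ) ^ (1 / 2 : ℝ) := by ring
    rw [h11] at h10
    have h12 := Real.log_two_gt_d9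
    have h13 : (m : ℝ) * 0.69 ≤ m * Real.log 2 := by gcongr; linarith
    have h14 : (#((Ioc 0 x).filter (fun p : ℕ => p.Prime ∧ (p : ℤ) ∣ a)) : ℝ) ≤ m := by exact_mod_cast h4
    refine le_trans h14 ?_
    rw [div_mul_eq_mul_div, le_div_iff₀ h0]
    have h15 : η * (m * 0.69) ≤ 2 * D := by
      calc η * (m * 0.69) ≤ η * (m * Real.log 2) := by gcongr
        _ ≤ η * Real.log N := by gcongr
        _ ≤ Real.log x := h9
        _ ≤ 2 * D := by linarith
    nlinarith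
  -- combine
  have hsplit : ∑ p ∈ (Icc 1 x).filter (fun p : ℕ => p.Prime ∧ ¬ (p : ℤ) ∣ a), kn a p =
      ∑ p ∈ (Ioc 0 x).filter Nat.Prime, g p -
      ∑ p ∈ (Ioc 0 x).filter (fun p : ℕ => p.Prime ∧ (p : ℤ) ∣ a), g p := by
    have e1 : (Icc 1 x) = Ioc 0 x := by ext; simp [mem_Icc, mem_Ioc]; omega
    rw [e1, eq_sub_iff_add_eq]
    have e2 : ∑ p ∈ (Ioc 0 x).filter (fun p : ℕ => p.Prime ∧ ¬ (p : ℤ) ∣ a), kn a p =
        ∑ p ∈ (Ioc 0 x).filter (fun p : ℕ => p.Prime ∧ ¬ (p : ℤ) ∣ a), g p := by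
      refine sum_congr rfl fun p hp => ?_
      rw [hg]
      dsimp only
      rw [if_pos (mem_filter.1 hp).2.1]
    rw [e2, ← sum_union]
    · apply sum_congr _ (fun _ _ => rfl)
      ext p
      simp only [mem_union, mem_filter]
      tauto
    · rw [Finset.disjoint_left]
      intro p hp hp'
      rw [mem_filter] at hp hp'
      exact hp.2.2 hp'.2.2
  have hre : ∑ p ∈ (Icc 1 x).filter (fun p : ℕ => p.Prime ∧ ¬ (p : ℤ) ∣ a), (kl a p).re / (2 * Real.sqrt p)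
      = (1 / 2) * (∑ p ∈ (Icc 1 x).filter (fun p : ℕ => p.Prime ∧ ¬ (p : ℤ) ∣ a), kn a p).re := by
    rw [Complex.re_sum, mul_sum]
    refine sum_congr rfl fun p _ => ?_
    unfold kn
    rw [Complex.div_ofReal_re]
    ring
  rw [hre, abs_mul, abs_of_pos (by norm_num : (0 : ℝ) < 1 / 2)]
  have h16 := Complex.abs_re_le_norm
    (∑ p ∈ (Icc 1 x).filter (fun p : ℕ => p.Prime ∧ ¬ (p : ℤ) ∣ a), kn a p)
  rw [hsplit] at h16 ⊢
  have h17 := norm_sub_le (∑ p ∈ (Ioc 0 x).filter Nat.Prime, g p)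
    (∑ p ∈ (Ioc 0 x).filter (fun p : ℕ => p.Prime ∧ (p : ℤ) ∣ a), g p)
  have h18 : 2 * (3 / η * D) = 6 / η * D := by ring
  rw [h18] at hdiv
  have h19 : (20 + 4 / η) * D = 20 * D + 4 / η * D := by ring
  rw [h19]
  have h20 : 0 ≤ 1 / η * D := by positivity
  have h21 : 6 / η * D = 6 * (1 / η * D) := by ring
  have h22 : 4 / η * D = 4 * (1 / η * D) := by ring
  rw [h21] at hdiv
  rw [h22]
  linarith

/-- T5. The headline theorem, from the large sieve inequality. -/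
theorem almost_all_of (HLS : ∀ ε : ℝ, 0 < ε → ∃ C : ℝ, 0 < C ∧ LSBd ε C)
    (HK : ∀ p : ℕ, p.Prime → ∀ a : ℤ, ‖kl a p‖ ≤ 2 * Real.sqrt p) (η : ℝ) (h0 : 0 < η) (h1 : η < 1) :
    ∃ δ : ℝ, 0 < δ ∧ ∃ C : ℝ, 0 < C ∧ ∀ N : ℕ, 0 < N →
      ∃ E : Finset ℤ, (#E : ℝ) ≤ C * (N : ℝ) ^ (1 - δ) ∧
      ∀ a : ℤ, a ≠ 0 → |a| ≤ N → a ∉ E → ∀ x : ℕ, (N : ℝ) ^ η ≤ x → (x : ℝ) ≤ (N : ℝ) ^ (2 - η) →
      |∑ p ∈ (Icc 1 x).filter (fun p : ℕ => p.Prime ∧ ¬ (p : ℤ) ∣ a), (kl a p).re / (2 * Real.sqrt p)| ≤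
        C * (x : ℝ) ^ (1 - δ) := by
  obtain ⟨C, hC, hLS⟩ := HLS (η / 20) (by positivity)
  obtain ⟨C', hC', hE⟩ := exc_total η h0 h1 C hC hLS
  refine ⟨η / 40, by positivity, C' + (20 + 4 / η), by positivity, fun N hN => ?_⟩
  have hN1 : (1 : ℝ) ≤ N := by exact_mod_cast hN
  obtain ⟨E, hcard, hgood⟩ := hE N hN
  refine ⟨E, ?_, fun a ha0 haN haE x hx hx2 => ?_⟩
  · refine le_trans hcard ?_
    have h2 : (N : ℝ) ^ (1 - η / 5) ≤ (N : ℝ) ^ (1 - η / 40) :=
      Real.rpow_le_rpow_of_exponent_le hN1 (by linarith)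
    have h3 : C' ≤ C' + (20 + 4 / η) := by
      have : 0 < 4 / η := by positivity
      linarith
    exact mul_le_mul h3 h2 (by positivity) (by positivity)
  · have hmem : a ∈ Icc (-(N : ℤ)) N := by
      rw [mem_Icc]; exact abs_le.1 haN
    have hW : ∀ p : ℕ, p.Prime → ‖kn a p‖ ≤ 2 := by
      intro p hp
      unfold kn
      have hp0 : (0 : ℝ) < p := by exact_mod_cast hp.pos
      have hs : 0 < Real.sqrt p := Real.sqrt_pos.2 hp0
      rw [norm_div, Complex.norm_real, Real.norm_eq_abs, abs_of_pos hs, div_le_iff₀ hs]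
      exact HK p hp a
    have h4 := good_a η h0 h1 N hN a ha0 hmem hW (hgood a hmem haE) x hx hx2
    refine le_trans h4 ?_
    have : 0 ≤ C' * (x : ℝ) ^ (1 - η / 40) := by positivity
    linarith

end Pool.KV
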