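import Pool.Agent.LibKlVar.KV_H5
import Pool.Agent.LibKlVar.KV_H4
import Pool.Agent.LibKlVar.KV_S3
import Pool.Agent.LibKlVar.KV_T3
import Pool.Agent.LibWeil46.RD2

/-!
# Kloosterman sums of prime moduli: unconditional forms of the main theorems
-/

set_option autoImplicit false

namespace Pool.KV

open Finset

/-- Weil's bound. -/
theorem weilBd (p : ℕ) (hp : p.Prime) : WeilBd p := by
  intro _ χ m n hm hn
  have : Fact p.Prime := ⟨hp⟩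
  exact Pool.Weil46.weil_std p χ m n hm hn

/-- The large sieve inequality for Kloosterman sums of prime moduli. -/
theorem main_large_sieve (ε : ℝ) (hε : 0 < ε) :
    ∃ C : ℝ, 0 < C ∧ ∀ X N : ℕ, 0 < X → ∀ P : Finset ℕ,
      (∀ p ∈ P, p.Prime ∧ X < p ∧ p ≤ 2 * X) → ∀ α : ℕ → ℂ,
      ∑ a ∈ Icc (-(N : ℤ)) N, ‖∑ p ∈ P, α p * (kl a p / (Real.sqrt p : ℂ))‖ ^ 2 ≤
        C * (X : ℝ) ^ ε * (N + X * Real.sqrt N + (X : ℝ) ^ (3 / 2 : ℝ)) * ∑ p ∈ P, ‖α p‖ ^ 2 :=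
  large_sieve' weilBd ε hε

/-- Both signs. -/
theorem main_both_signs (ε : ℝ) (hε : 0 < ε) :
    ∃ X₀ : ℕ, ∀ X : ℕ, X₀ ≤ X → ∀ A B : ℤ, -(X : ℤ) ≤ A → A ≤ B → B ≤ X →
      ∀ P : Finset ℕ, (∀ p ∈ P, p.Prime ∧ X < p ∧ p ≤ 2 * X) →
      (X : ℝ) ^ (3 / 2 + ε) ≤ (B - A) * #P →
      ((B - A : ℤ) : ℝ) / 5 ≤ #((Ioc A B).filter (fun a =>
        (#P : ℝ) / 100 ≤ #(P.filter (fun p : ℕ => Real.sqrt p / 100 < (kl a p).re)) ∧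
        (#P : ℝ) / 100 ≤ #(P.filter (fun p : ℕ => (kl a p).re < -(Real.sqrt p / 100))))) :=
  both_signs weilBd (second_moment_interval weilBd) ε hε

/-- Almost all `a`, all `x` simultaneously. -/
theorem main_almost_all (η : ℝ) (h0 : 0 < η) (h1 : η < 1) :
    ∃ δ : ℝ, 0 < δ ∧ ∃ C : ℝ, 0 < C ∧ ∀ N : ℕ, 0 < N →
      ∃ E : Finset ℤ, (#E : ℝ) ≤ C * (N : ℝ) ^ (1 - δ) ∧
      ∀ a : ℤ, a ≠ 0 → |a| ≤ N → a ∉ E → ∀ x : ℕ, (N : ℝ) ^ η ≤ x → (x : ℝ) ≤ (N : ℝ) ^ (2 - η) →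
      |∑ p ∈ (Icc 1 x).filter (fun p : ℕ => p.Prime ∧ ¬ (p : ℤ) ∣ a),
        (kl a p).re / (2 * Real.sqrt p)| ≤ C * (x : ℝ) ^ (1 - δ) :=
  almost_all_of (fun ε hε => main_large_sieve ε hε) (fun p hp a => kl_le p hp (weilBd p hp) a) η h0 h1

end Pool.KV
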