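import Pool.Agent.LibKlVar.KV_S3

/-!
# Geometric sums modulo `m` and completion modulo a product of two primes
-/

set_option autoImplicit false

namespace Pool.KV46

open Finset

section general

variable (p : ℕ) [hp : NeZero p]

lemma norm_sub_one_ge (j : ℕ) (h0 : 0 < j) (hj : j < p) :
    (4 / (p : ℝ)) * min (j : ℝ) (p - j) ≤ ‖ZMod.stdAddChar ((j : ℕ) : ZMod p) - (1 : ℂ)‖ := by
  have hp0 : (0 : ℝ) < p := by exact_mod_cast Nat.pos_of_ne_zero hp.out
  have hj0 : (0 : ℝ) < j := by exact_mod_cast h0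
  have hjp : (j : ℝ) < p := by exact_mod_cast hj
  have hpi := Real.pi_pos
  have e1 : ZMod.stdAddChar ((j : ℕ) : ZMod p) =
      Complex.exp (Complex.I * ((2 * Real.pi * j / p : ℝ) : ℂ)) := by
    have := ZMod.stdAddChar_coe (N := p) (j : ℤ)
    push_cast at this
    rw [this]
    congr 1
    push_cast
    ring
  rw [e1, Complex.norm_exp_I_mul_ofReal_sub_one]
  have e2 : 2 * Real.pi * j / p / 2 = Real.pi * j / p := by ring
  rw [e2, Real.norm_eq_abs]
  refine le_trans ?_ (le_abs_self _)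
  rcases le_total (2 * (j : ℝ)) p with hle | hle
  · have h1 : Real.pi * j / p ≤ Real.pi / 2 := by
      rw [div_le_div_iff₀ hp0 (by norm_num)]
      nlinarith
    have h2 := Real.mul_le_sin (x := Real.pi * j / p) (by positivity) h1
    have h3 : 2 / Real.pi * (Real.pi * j / p) = 2 * j / p := by field_simp
    rw [h3] at h2
    have h4 : min (j : ℝ) (p - j) ≤ j := min_le_left _ _
    calc (4 / (p : ℝ)) * min (j : ℝ) (p - j) ≤ (4 / (p : ℝ)) * j := by gcongr
      _ = 2 * (2 * j / p) := by ring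
      _ ≤ _ := by linarith
  · have h1 : Real.pi * (p - j) / p ≤ Real.pi / 2 := by
      rw [div_le_div_iff₀ hp0 (by norm_num)]
      nlinarith
    have h2 := Real.mul_le_sin (x := Real.pi * (p - j) / p)
      (div_nonneg (mul_nonneg hpi.le (by linarith)) hp0.le) h1
    have h3 : 2 / Real.pi * (Real.pi * (p - j) / p) = 2 * (p - j) / p := by field_simp
    rw [h3] at h2
    have h5 : Real.sin (Real.pi * j / p) = Real.sin (Real.pi * (p - j) / p) := by
      rw [← Real.sin_pi_sub]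
      congr 1
      field_simp
    rw [h5]
    have h4 : min (j : ℝ) (p - j) ≤ p - j := min_le_right _ _
    calc (4 / (p : ℝ)) * min (j : ℝ) (p - j) ≤ (4 / (p : ℝ)) * (p - j) := by gcongr
      _ = 2 * (2 * (p - j) / p) := by ring
      _ ≤ _ := by linarith

/-- incomplete geometric sum -/
lemma norm_geom_le (j : ℕ) (h0 : 0 < j) (hj : j < p) (u : ℤ) (N : ℕ) :
    ‖∑ i ∈ range N, ZMod.stdAddChar ((((u + i : ℤ) : ZMod p)) * ((j : ℕ) : ZMod p))‖ ≤
      (p : ℝ) / 2 * (1 / (j : ℝ) + 1 / ((p - j : ℕ) : ℝ)) := by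
  have hp0 : (0 : ℝ) < p := by exact_mod_cast Nat.pos_of_ne_zero hp.out
  have hj0 : (0 : ℝ) < j := by exact_mod_cast h0
  have hjp : (j : ℝ) < p := by exact_mod_cast hj
  have hpj : (0 : ℝ) < (p : ℝ) - j := by linarith
  have hcast : ((p - j : ℕ) : ℝ) = (p : ℝ) - j := by rw [Nat.cast_sub hj.le]
  set z : ℂ := ZMod.stdAddChar ((j : ℕ) : ZMod p) with hz
  have hz1 : ‖z‖ = 1 := by
    rw [hz, ZMod.stdAddChar_apply]; exact Circle.norm_coe _
  have hge := norm_sub_one_ge p j h0 hj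
  have hmin : 0 < min (j : ℝ) (p - j) := lt_min hj0 hpj
  have hzne : 0 < ‖z - 1‖ := lt_of_lt_of_le (by positivity) hge
  have e1 : ∀ i ∈ range N, ZMod.stdAddChar ((((u + i : ℤ) : ZMod p)) * ((j : ℕ) : ZMod p)) =
      ZMod.stdAddChar (((u : ℤ) : ZMod p) * ((j : ℕ) : ZMod p)) * z ^ i := by
    intro i _
    rw [hz, ← AddChar.map_nsmul_eq_pow, ← AddChar.map_add_eq_mul]
    congr 1
    push_cast
    rw [nsmul_eq_mul]
    ring
  rw [sum_congr rfl e1, ← mul_sum, norm_mul]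
  have h2 : ‖(ZMod.stdAddChar (((u : ℤ) : ZMod p) * ((j : ℕ) : ZMod p)) : ℂ)‖ = 1 := by
    rw [ZMod.stdAddChar_apply]; exact Circle.norm_coe _
  rw [h2, one_mul]
  have h3 : (z - 1) * ∑ i ∈ range N, z ^ i = z ^ N - 1 := mul_geom_sum z N
  have h4 : ‖z - 1‖ * ‖∑ i ∈ range N, z ^ i‖ ≤ 2 := by
    rw [← norm_mul, h3]
    calc ‖z ^ N - 1‖ ≤ ‖z ^ N‖ + ‖(1 : ℂ)‖ := norm_sub_le _ _
      _ = 2 := by rw [norm_pow, hz1, one_pow, norm_one]; norm_num
  have h5 : ‖∑ i ∈ range N, z ^ i‖ ≤ 2 / ‖z - 1‖ := by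
    rw [le_div_iff₀ hzne, mul_comm]; exact h4
  refine le_trans h5 ?_
  have h6 : 2 / ‖z - 1‖ ≤ 2 / ((4 / (p : ℝ)) * min (j : ℝ) (p - j)) := by
    apply div_le_div_of_nonneg_left (by norm_num) (by positivity) hge
  refine le_trans h6 ?_
  have h7 : 2 / ((4 / (p : ℝ)) * min (j : ℝ) (p - j)) = (p : ℝ) / 2 * (1 / min (j : ℝ) (p - j)) := by
    field_simp
    norm_num
  rw [h7, hcast]
  gcongr
  rcases min_choice (j : ℝ) (p - j) with h | h
  · rw [h]
    have : 0 ≤ 1 / ((p : ℝ) - j) := by positivity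
    linarith
  · rw [h]
    have : 0 ≤ 1 / (j : ℝ) := by positivity
    linarith

lemma sum_geom_le (u : ℤ) (N : ℕ) :
    ∑ h ∈ univ.erase (0 : ZMod p),
      ‖∑ i ∈ range N, ZMod.stdAddChar ((((u + i : ℤ) : ZMod p)) * h)‖ ≤
      (p : ℝ) * (1 + Real.log p) := by
  have hp0 : (0 : ℝ) < p := by exact_mod_cast Nat.pos_of_ne_zero hp.out
  have h1 : ∑ h ∈ univ.erase (0 : ZMod p),
      ‖∑ i ∈ range N, ZMod.stdAddChar ((((u + i : ℤ) : ZMod p)) * h)‖ =
      ∑ j ∈ Ico 1 p, ‖∑ i ∈ range N,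
        ZMod.stdAddChar ((((u + i : ℤ) : ZMod p)) * ((j : ℕ) : ZMod p))‖ := by
    refine sum_bij' (fun h _ => h.val) (fun j _ => ((j : ℕ) : ZMod p)) ?_ ?_ ?_ ?_ ?_
    · intro h hh
      rw [mem_Ico]
      refine ⟨Nat.one_le_iff_ne_zero.2 ?_, ZMod.val_lt _⟩
      rw [Ne, ZMod.val_eq_zero]
      exact (mem_erase.1 hh).1
    · intro j hj
      rw [mem_Ico] at hj
      refine mem_erase.2 ⟨?_, mem_univ _⟩
      rw [Ne, ZMod.natCast_eq_zero_iff]
      intro hd
      have := Nat.le_of_dvd (by omega) hd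
      omega
    · intro h hh
      exact ZMod.natCast_zmod_val h
    · intro j hj
      rw [mem_Ico] at hj
      exact ZMod.val_natCast_of_lt hj.2
    · intro h hh
      rw [ZMod.natCast_zmod_val h]
  rw [h1]
  calc ∑ j ∈ Ico 1 p, ‖∑ i ∈ range N,
        ZMod.stdAddChar ((((u + i : ℤ) : ZMod p)) * ((j : ℕ) : ZMod p))‖
      ≤ ∑ j ∈ Ico 1 p, (p : ℝ) / 2 * (1 / (j : ℝ) + 1 / ((p - j : ℕ) : ℝ)) := by
        apply sum_le_sum
        intro j hj
        rw [mem_Ico] at hj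
        exact norm_geom_le p j (by omega) hj.2 u N
    _ = (p : ℝ) / 2 * (∑ j ∈ Ico 1 p, 1 / (j : ℝ) + ∑ j ∈ Ico 1 p, 1 / ((p - j : ℕ) : ℝ)) := by
        rw [← mul_sum, sum_add_distrib]
    _ = (p : ℝ) / 2 * (∑ j ∈ Ico 1 p, 1 / (j : ℝ) + ∑ j ∈ Ico 1 p, 1 / (j : ℝ)) := by
        congr 2
        exact Finset.sum_bij' (fun j _ => p - j) (fun j _ => p - j)
          (by intro j hj; rw [mem_Ico] at *; omega)
          (by intro j hj; rw [mem_Ico] at *; omega)
          (by intro j hj; rw [mem_Ico] at *; omega)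
          (by intro j hj; rw [mem_Ico] at *; omega)
          (by intro j hj; rfl)
    _ = (p : ℝ) * ∑ j ∈ Ico 1 p, 1 / (j : ℝ) := by ring
    _ ≤ (p : ℝ) * (1 + Real.log p) := by
        gcongr
        have h2 := harmonic_le_one_add_log p
        refine le_trans ?_ h2
        rw [harmonic_eq_sum_Icc]
        push_cast
        have : ∑ j ∈ Ico 1 p, 1 / (j : ℝ) ≤ ∑ j ∈ Icc 1 p, (j : ℝ)⁻¹ := by
          simp_rw [one_div]
          apply sum_le_sum_of_subset_of_nonneg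
          · intro j hj
            rw [mem_Ico] at hj; rw [mem_Icc]; omega
          · intro j _ _; positivity
        exact this


end general

/-- Fourier inversion modulo a prime. -/
lemma inversion (p : ℕ) [hp : Fact p.Prime] (g : ZMod p → ℂ) (a : ZMod p) : g a = (1 / (p : ℂ)) *
      ∑ h, (∑ b, g b * ZMod.stdAddChar (-(b * h))) * ZMod.stdAddChar (a * h) := by
  have hpC : (p : ℂ) ≠ 0 := by exact_mod_cast hp.out.ne_zero
  revert a
  intro a
  simp_rw [sum_mul]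
  rw [sum_comm]
  have e1 : ∀ b : ZMod p, ∑ h : ZMod p, g b * ZMod.stdAddChar (-(b * h)) * ZMod.stdAddChar (a * h) =
      if b = a then (p : ℂ) * g b else 0 := by
    intro b
    have e2 : ∀ h : ZMod p, g b * ZMod.stdAddChar (-(b * h)) * ZMod.stdAddChar (a * h) =
        g b * ZMod.stdAddChar (h * (a - b)) := by
      intro h
      rw [mul_assoc, ← AddChar.map_add_eq_mul]
      congr 2
      ring
    simp_rw [e2]
    rw [← mul_sum, HKS.sum_stdAddChar_mul]
    by_cases hab : b = a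
    · rw [if_pos hab, if_pos (by rw [hab, sub_self])]; ring
    · rw [if_neg hab, if_neg (fun h => hab (sub_eq_zero.1 h).symm), mul_zero]
  simp_rw [e1]
  rw [Finset.sum_ite_eq' univ a]
  simp only [mem_univ, if_true]
  field_simp

/-- The Chinese remainder theorem for additive phases. -/
lemma crt_phase (p q : ℕ) [NeZero p] [NeZero q] [NeZero (p * q)] (a : ℤ) (h : ZMod p) (k : ZMod q) :
    (ZMod.stdAddChar ((a : ZMod p) * h) : ℂ) * ZMod.stdAddChar ((a : ZMod q) * k) =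
      ZMod.stdAddChar ((a : ZMod (p * q)) * (((h.val * q + k.val * p : ℕ)) : ZMod (p * q))) := by
  have hp0 : (p : ℂ) ≠ 0 := by exact_mod_cast NeZero.ne p
  have hq0 : (q : ℂ) ≠ 0 := by exact_mod_cast NeZero.ne q
  have e1 : (a : ZMod p) * h = ((a * h.val : ℤ) : ZMod p) := by
    push_cast
    rw [ZMod.natCast_zmod_val]
  have e2 : (a : ZMod q) * k = ((a * k.val : ℤ) : ZMod q) := by
    push_cast
    rw [ZMod.natCast_zmod_val]
  have e3 : (a : ZMod (p * q)) * (((h.val * q + k.val * p : ℕ)) : ZMod (p * q)) =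
      ((a * (h.val * q + k.val * p) : ℤ) : ZMod (p * q)) := by
    push_cast
    ring
  rw [e1, e2, e3, ZMod.stdAddChar_coe, ZMod.stdAddChar_coe, ZMod.stdAddChar_coe, ← Complex.exp_add]
  congr 1
  push_cast
  field_simp

lemma crt_inj (p q : ℕ) [NeZero p] [NeZero q] (hpq : p.Coprime q) :
    Function.Injective (fun hk : ZMod p × ZMod q =>
      (((hk.1.val * q + hk.2.val * p : ℕ)) : ZMod (p * q))) := by
  rintro ⟨h, k⟩ ⟨h', k'⟩ heq
  simp only at heq
  rw [ZMod.natCast_eq_natCast_iff] at heq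
  have h1 : h.val * q + k.val * p ≡ h'.val * q + k'.val * p [MOD p] := heq.of_mul_right q
  have h2 : h.val * q + k.val * p ≡ h'.val * q + k'.val * p [MOD q] := heq.of_mul_left p
  have h3 : h.val * q ≡ h'.val * q [MOD p] := by
    have a1 : h.val * q + k.val * p ≡ h.val * q [MOD p] := by
      simp [Nat.ModEq]
    have a2 : h'.val * q + k'.val * p ≡ h'.val * q [MOD p] := by
      simp [Nat.ModEq]
    exact a1.symm.trans (h1.trans a2)
  have h4 : k.val * p ≡ k'.val * p [MOD q] := by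
    have a1 : h.val * q + k.val * p ≡ k.val * p [MOD q] := by
      simp [Nat.ModEq]
    have a2 : h'.val * q + k'.val * p ≡ k'.val * p [MOD q] := by
      simp [Nat.ModEq]
    exact a1.symm.trans (h2.trans a2)
  have h5 : h.val ≡ h'.val [MOD p] := Nat.ModEq.cancel_right_of_coprime hpq h3
  have h6 : k.val ≡ k'.val [MOD q] := Nat.ModEq.cancel_right_of_coprime hpq.symm h4
  have h7 : h = h' := by
    have := (ZMod.natCast_eq_natCast_iff _ _ _).2 h5
    rwa [ZMod.natCast_zmod_val, ZMod.natCast_zmod_val] at this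
  have h8 : k = k' := by
    have := (ZMod.natCast_eq_natCast_iff _ _ _).2 h6
    rwa [ZMod.natCast_zmod_val, ZMod.natCast_zmod_val] at this
  rw [h7, h8]

/-- The sum of all nontrivial geometric sums modulo `p q`. -/
lemma sum_geom_two (p q : ℕ) [NeZero p] [NeZero q] (hpq : p.Coprime q) (u : ℤ) (N : ℕ) :
    ∑ hk ∈ (univ : Finset (ZMod p × ZMod q)).erase (0, 0),
      ‖∑ i ∈ range N, (ZMod.stdAddChar ((((u + i : ℤ)) : ZMod p) * hk.1) : ℂ) *
        ZMod.stdAddChar ((((u + i : ℤ)) : ZMod q) * hk.2)‖ ≤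
      ((p * q : ℕ) : ℝ) * (1 + Real.log ((p * q : ℕ) : ℝ)) := by
  have : NeZero (p * q) := ⟨mul_ne_zero (NeZero.ne p) (NeZero.ne q)⟩
  refine le_trans ?_ (sum_geom_le (p * q) u N)
  have hinj := crt_inj p q hpq
  have e1 : ∑ hk ∈ (univ : Finset (ZMod p × ZMod q)).erase (0, 0),
      ‖∑ i ∈ range N, (ZMod.stdAddChar ((((u + i : ℤ)) : ZMod p) * hk.1) : ℂ) *
        ZMod.stdAddChar ((((u + i : ℤ)) : ZMod q) * hk.2)‖ =
      ∑ r ∈ ((univ : Finset (ZMod p × ZMod q)).erase (0, 0)).image (fun hk : ZMod p × ZMod q =>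
        (((hk.1.val * q + hk.2.val * p : ℕ)) : ZMod (p * q))),
        ‖∑ i ∈ range N, (ZMod.stdAddChar ((((u + i : ℤ)) : ZMod (p * q)) * r) : ℂ)‖ := by
    rw [sum_image (fun x _ y _ h => hinj h)]
    refine sum_congr rfl fun hk _ => ?_
    congr 1
    refine sum_congr rfl fun i _ => ?_
    exact crt_phase p q (u + i) hk.1 hk.2
  rw [e1]
  apply sum_le_sum_of_subset_of_nonneg
  · intro r hr
    rw [mem_image] at hr
    obtain ⟨hk, hk1, rfl⟩ := hr
    refine mem_erase.2 ⟨?_, mem_univ _⟩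
    intro h0
    have : hk = (0, 0) := by
      apply hinj
      simp only
      rw [h0]
      simp
    exact (mem_erase.1 hk1).1 this
  · intro _ _ _
    exact norm_nonneg _

/-- Correlation of two periodic functions over an interval. -/
theorem corr_bound (p q : ℕ) [hp : Fact p.Prime] [hq : Fact q.Prime] (hpq : p ≠ q)
    (f : ZMod p → ℂ) (g : ZMod q → ℂ) (Mf Mg : ℝ) (hMf0 : 0 ≤ Mf) (hMg0 : 0 ≤ Mg)
    (hf0 : ‖∑ b, f b‖ ≤ 1) (hg0 : ‖∑ b, g b‖ ≤ 1)
    (hf : ∀ h : ZMod p, ‖∑ b, f b * ZMod.stdAddChar (-(b * h))‖ ≤ Mf)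
    (hg : ∀ h : ZMod q, ‖∑ b, g b * ZMod.stdAddChar (-(b * h))‖ ≤ Mg) (u : ℤ) (N : ℕ) :
    ‖∑ i ∈ range N, f (((u + i : ℤ)) : ZMod p) * g (((u + i : ℤ)) : ZMod q)‖ ≤
      N / ((p * q : ℕ) : ℝ) + Mf * Mg * (1 + Real.log ((p * q : ℕ) : ℝ)) := by
  have hp0 : (0 : ℝ) < p := by exact_mod_cast hp.out.pos
  have hq0 : (0 : ℝ) < q := by exact_mod_cast hq.out.pos
  have hcop : p.Coprime q := (Nat.coprime_primes hp.out hq.out).2 hpq
  set F : ZMod p → ℂ := fun h => ∑ b, f b * ZMod.stdAddChar (-(b * h)) with hF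
  set G : ZMod q → ℂ := fun h => ∑ b, g b * ZMod.stdAddChar (-(b * h)) with hG
  set S : ZMod p × ZMod q → ℂ := fun hk => ∑ i ∈ range N,
    (ZMod.stdAddChar ((((u + i : ℤ)) : ZMod p) * hk.1) : ℂ) *
        ZMod.stdAddChar ((((u + i : ℤ)) : ZMod q) * hk.2) with hS
  have e1 : ∑ i ∈ range N, f (((u + i : ℤ)) : ZMod p) * g (((u + i : ℤ)) : ZMod q) =
      (1 / (p : ℂ)) * (1 / (q : ℂ)) * ∑ hk : ZMod p × ZMod q, F hk.1 * G hk.2 * S hk := by
    have e2 : ∀ i ∈ range N, f (((u + i : ℤ)) : ZMod p) * g (((u + i : ℤ)) : ZMod q) =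
        (1 / (p : ℂ)) * (1 / (q : ℂ)) * ∑ hk : ZMod p × ZMod q, F hk.1 * G hk.2 *
        ((ZMod.stdAddChar ((((u + i : ℤ)) : ZMod p) * hk.1) : ℂ) *
        ZMod.stdAddChar ((((u + i : ℤ)) : ZMod q) * hk.2)) := by
      intro i _
      rw [inversion p f, inversion q g]
      rw [Fintype.sum_prod_type]
      have e3 : ∀ (A B : ℂ) (X : ZMod p → ℂ) (Y : ZMod q → ℂ),
          A * (∑ x, X x) * (B * ∑ y, Y y) = A * B * ∑ x, ∑ y, X x * Y y := by
        intro A B X Y
        rw [mul_mul_mul_comm, sum_mul_sum]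
      rw [e3]
      congr 1
      refine sum_congr rfl fun x _ => sum_congr rfl fun y _ => ?_
      ring
    rw [sum_congr rfl e2, ← mul_sum, sum_comm]
    congr 1
    refine sum_congr rfl fun hk _ => ?_
    exact (mul_sum (range N) (fun i : ℕ => (ZMod.stdAddChar ((((u + i : ℤ)) : ZMod p) * hk.1) : ℂ) *
        ZMod.stdAddChar ((((u + i : ℤ)) : ZMod q) * hk.2)) (F hk.1 * G hk.2)).symm
  rw [e1, norm_mul, norm_mul, norm_div, norm_div, norm_one, Complex.norm_natCast, Complex.norm_natCast]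
  have h2 : ‖∑ hk : ZMod p × ZMod q, F hk.1 * G hk.2 * S hk‖ ≤
      N + Mf * Mg * (((p * q : ℕ) : ℝ) * (1 + Real.log ((p * q : ℕ) : ℝ))) := by
    rw [← add_sum_erase _ _ (mem_univ ((0, 0) : ZMod p × ZMod q))]
    refine le_trans (norm_add_le _ _) (add_le_add ?_ ?_)
    · have h3 : S (0, 0) = (N : ℂ) := by
        simp [hS]
      have h4 : F 0 = ∑ b, f b := by simp [hF]
      have h5 : G 0 = ∑ b, g b := by simp [hG]
      simp only
      rw [h3, h4, h5, norm_mul, norm_mul, Complex.norm_natCast]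
      calc ‖∑ b, f b‖ * ‖∑ b, g b‖ * (N : ℝ) ≤ 1 * 1 * N := by gcongr
        _ = N := by ring
    · refine le_trans (norm_sum_le _ _) ?_
      calc ∑ hk ∈ (univ : Finset (ZMod p × ZMod q)).erase (0, 0), ‖F hk.1 * G hk.2 * S hk‖
          ≤ ∑ hk ∈ (univ : Finset (ZMod p × ZMod q)).erase (0, 0), Mf * Mg * ‖S hk‖ := by
            refine sum_le_sum fun hk _ => ?_
            rw [norm_mul, norm_mul]
            gcongr
            · exact hf hk.1
            · exact hg hk.2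
        _ = Mf * Mg * ∑ hk ∈ (univ : Finset (ZMod p × ZMod q)).erase (0, 0), ‖S hk‖ := by
            rw [mul_sum]
        _ ≤ _ := mul_le_mul_of_nonneg_left (sum_geom_two p q hcop u N) (by positivity)
  calc 1 / (p : ℝ) * (1 / (q : ℝ)) * ‖∑ hk : ZMod p × ZMod q, F hk.1 * G hk.2 * S hk‖
      ≤ 1 / (p : ℝ) * (1 / (q : ℝ)) *
        (N + Mf * Mg * (((p * q : ℕ) : ℝ) * (1 + Real.log ((p * q : ℕ) : ℝ)))) := by gcongr
    _ = _ := by
        push_cast
        field_simp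

end Pool.KV46
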