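import Pool.Agent.LibKlVar.KV_Def

/-!
# Variance of Kloosterman sums of prime moduli over the first argument: rows A6, H1, H2
-/

set_option autoImplicit false

namespace Pool.KV

open Finset

/-- The sum over the units. -/
theorem kl_units (a : ℤ) (c : ℕ) [NeZero c] : kl a c =
    ∑ u : (ZMod c)ˣ, ZMod.stdAddChar ((a : ZMod c) * (u : ZMod c) + ((u⁻¹ : (ZMod c)ˣ) : ZMod c)) := by
  unfold kl
  symm
  refine sum_bij (fun (u : (ZMod c)ˣ) _ => (u : ZMod c).val) ?_ ?_ ?_ ?_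
  · intro u _
    rw [mem_filter, mem_range]
    exact ⟨ZMod.val_lt _, ZMod.val_coe_unit_coprime u⟩
  · intro u _ v _ h
    exact Units.ext (ZMod.val_injective c h)
  · intro x hx
    rw [mem_filter, mem_range] at hx
    refine ⟨ZMod.unitOfCoprime x hx.2, mem_univ _, ?_⟩
    rw [ZMod.coe_unitOfCoprime, ZMod.val_natCast, Nat.mod_eq_of_lt hx.1]
  · intro u _
    rw [ZMod.natCast_zmod_val, ZMod.inv_coe_unit, ZMod.stdAddChar_apply, ZMod.toCircle_apply]

/-- A6. `S(a,1;p)` as a sum over `x`. -/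
theorem kl_eq (a : ℤ) (p : ℕ) (hp : 0 < p) :
    kl a p = ∑ x ∈ (range p).filter (fun x => x.Coprime p),
      e ((inv p x : ℝ) / p) * e ((a : ℝ) * x / p) := by
  haveI : NeZero p := ⟨hp.ne'⟩
  have hp0 : (p : ℂ) ≠ 0 := Nat.cast_ne_zero.mpr hp.ne'
  unfold kl
  refine Finset.sum_congr rfl fun x _ => ?_
  obtain ⟨n, hn⟩ : ∃ n : ℤ, n = a * x + inv p x := ⟨_, rfl⟩
  have h1 : (a : ZMod p) * (x : ZMod p) + (x : ZMod p)⁻¹ = (n : ZMod p) := by
    rw [hn]
    unfold inv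
    push_cast
    rw [ZMod.natCast_zmod_val]
  have h2 : (((n : ZMod p).val : ℕ) : ℤ) = n - p * (n / p) := by
    rw [ZMod.val_intCast, Int.emod_def]
  have h3 : (((n : ZMod p).val : ℕ) : ℂ) = (n : ℂ) - p * ((n / p : ℤ) : ℂ) := by
    have h4 := congrArg (fun z : ℤ => (z : ℂ)) h2
    beta_reduce at h4
    push_cast at h4
    rw [h4]
  rw [h1, h3]
  unfold e
  rw [← Complex.exp_add]
  have h5 : 2 * (Real.pi : ℂ) * Complex.I * ((n : ℂ) - p * ((n / p : ℤ) : ℂ)) / p =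
      2 * Real.pi * Complex.I * (((inv p x : ℝ) / p : ℝ) : ℂ) +
        2 * Real.pi * Complex.I * (((a : ℝ) * x / p : ℝ) : ℂ) -
        ((n / p : ℤ) : ℂ) * (2 * Real.pi * Complex.I) := by
    rw [hn]
    push_cast
    field_simp
    ring
  rw [h5, Complex.exp_sub, Complex.exp_int_mul_two_pi_mul_I, div_one]

/-- H1. `S(a,1;p)` is real. -/
theorem kl_im (a : ℤ) (p : ℕ) (hp : 0 < p) : (kl a p).im = 0 := by
  haveI : NeZero p := ⟨hp.ne'⟩
  rw [← Complex.conj_eq_iff_im, kl_units, map_sum]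
  refine Fintype.sum_equiv (Equiv.neg (ZMod p)ˣ) _ _ fun u => ?_
  have h1 : ∀ z : ZMod p, (starRingEnd ℂ) (ZMod.stdAddChar z) = ZMod.stdAddChar (-z) := by
    intro z
    rw [AddChar.map_neg_eq_conj]
  rw [h1, Equiv.neg_apply, inv_neg, Units.val_neg, Units.val_neg]
  congr 1
  ring

/-- H2. -/
theorem kl_le (p : ℕ) (hp : p.Prime) (HW : WeilBd p) (a : ℤ) : ‖kl a p‖ ≤ 2 * Real.sqrt p := by
  haveI : NeZero p := ⟨hp.ne_zero⟩
  haveI : Fact p.Prime := ⟨hp⟩
  rw [kl_units]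
  by_cases ha : (a : ZMod p) = 0
  · have h0 : ∀ u : (ZMod p)ˣ, ZMod.stdAddChar ((a : ZMod p) * (u : ZMod p) +
        ((u⁻¹ : (ZMod p)ˣ) : ZMod p)) = ZMod.stdAddChar (((u⁻¹ : (ZMod p)ˣ) : ZMod p)) := by
      intro u
      rw [ha, zero_mul, zero_add]
    rw [Finset.sum_congr rfl fun u _ => h0 u]
    have h1 : ∑ u : (ZMod p)ˣ, ZMod.stdAddChar (((u⁻¹ : (ZMod p)ˣ) : ZMod p)) =
        ∑ u : (ZMod p)ˣ, ZMod.stdAddChar ((u : ZMod p)) :=
      Fintype.sum_equiv (Equiv.inv (ZMod p)ˣ) _ _ fun u => rfl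
    have h2 : ∑ z : ZMod p, ZMod.stdAddChar z = 0 := by
      apply AddChar.sum_eq_zero_of_ne_one
      intro h
      have h3 := (ZMod.isPrimitive_stdAddChar p)
      have h4 : (ZMod.stdAddChar (N := p)).mulShift 1 ≠ 1 := h3 one_ne_zero
      apply h4
      rw [AddChar.mulShift_one]
      exact h
    have h3 : ∑ z : ZMod p, ZMod.stdAddChar z =
        ∑ u : (ZMod p)ˣ, ZMod.stdAddChar ((u : ZMod p)) + 1 := by
      rw [← Finset.sum_erase_add _ _ (Finset.mem_univ (0 : ZMod p)), AddChar.map_zero_eq_one]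
      congr 1
      symm
      refine sum_bij (fun (u : (ZMod p)ˣ) _ => (u : ZMod p)) ?_ ?_ ?_ ?_
      · intro u _
        rw [mem_erase]
        exact ⟨u.ne_zero, mem_univ _⟩
      · intro u _ v _ h
        exact Units.ext h
      · intro z hz
        rw [mem_erase] at hz
        exact ⟨Units.mk0 z hz.1, mem_univ _, rfl⟩
      · intro u _
        rfl
    have h4 : ∑ u : (ZMod p)ˣ, ZMod.stdAddChar ((u : ZMod p)) = -1 := by
      rw [h2] at h3
      exact eq_neg_of_add_eq_zero_left h3.symm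
    rw [h1, h4, norm_neg, norm_one]
    have h5 : (1 : ℝ) ≤ Real.sqrt p := by
      rw [Real.one_le_sqrt]
      exact_mod_cast hp.one_le
    linarith
  · have h1 := HW (1 : MulChar (ZMod p) ℂ) (a : ZMod p) 1 ha one_ne_zero
    have h2 : ∀ u : (ZMod p)ˣ, (1 : MulChar (ZMod p) ℂ) (u : ZMod p) *
        ZMod.stdAddChar ((a : ZMod p) * (u : ZMod p) + 1 * ((u⁻¹ : (ZMod p)ˣ) : ZMod p)) =
        ZMod.stdAddChar ((a : ZMod p) * (u : ZMod p) + ((u⁻¹ : (ZMod p)ˣ) : ZMod p)) := by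
      intro u
      rw [MulChar.one_apply_coe, one_mul, one_mul]
    rw [Finset.sum_congr rfl fun u _ => h2 u] at h1
    exact h1

end Pool.KV
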