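import Pool.Agent.LibKlVar.KV46_A
import Pool.Agent.LibKlVar.KV46_B
import Pool.Agent.LibKlVar.KV_A6

/-!
# The variance of the second moment of the Kloosterman angles over `a`
-/

set_option autoImplicit false

namespace Pool.KV46

open Finset Kloo Pool.KV

/-- `K(α)²/p - 1`. -/
noncomputable def Fp (p : ℕ) [Fact p.Prime] (α : ZMod p) : ℂ := (K p α) ^ 2 / p - 1

lemma Fp_hat_eq (p : ℕ) [hp : Fact p.Prime] (h : ZMod p) :
    ∑ b, Fp p b * ZMod.stdAddChar (-(b * h)) =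
      if h = 0 then (-1 : ℂ) else ZMod.stdAddChar (2 * h⁻¹) * K p (h⁻¹ ^ 2) - 1 := by
  have hpC : (p : ℂ) ≠ 0 := by exact_mod_cast hp.out.ne_zero
  have e1 : ∀ b : ZMod p, Fp p b * ZMod.stdAddChar (-(b * h)) =
      (1 / (p : ℂ)) * ((K p b) ^ 2 * ZMod.stdAddChar (-(b * h))) - ZMod.stdAddChar (b * (-h)) := by
    intro b
    unfold Fp
    rw [mul_neg]
    ring
  simp_rw [e1]
  rw [sum_sub_distrib, ← mul_sum, HKS.fourier_sq, HKS.sum_stdAddChar_mul]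
  by_cases hh : h = 0
  · rw [if_pos hh, if_pos hh, if_pos (by rw [hh, neg_zero])]
    field_simp
    ring
  · rw [if_neg hh, if_neg hh, if_neg (by simpa using hh)]
    field_simp
    ring

lemma Fp_hat (p : ℕ) [hp : Fact p.Prime] (hW : ∀ α : ZMod p, α ≠ 0 → ‖K p α‖ ≤ 2 * Real.sqrt p)
    (h : ZMod p) : ‖∑ b, Fp p b * ZMod.stdAddChar (-(b * h))‖ ≤ 1 + 2 * Real.sqrt p := by
  rw [Fp_hat_eq]
  split_ifs with hh
  · rw [norm_neg, norm_one]
    have := Real.sqrt_nonneg (p : ℝ)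
    linarith
  · refine le_trans (norm_sub_le _ _) ?_
    have h2 : ‖(ZMod.stdAddChar (2 * h⁻¹) : ℂ)‖ = 1 := by
      rw [ZMod.stdAddChar_apply]; exact Circle.norm_coe _
    rw [norm_mul, h2, one_mul, norm_one, add_comm]
    gcongr
    exact hW _ (pow_ne_zero _ (inv_ne_zero hh))

lemma Fp_sum (p : ℕ) [hp : Fact p.Prime] : ‖∑ b, Fp p b‖ ≤ 1 := by
  have h := Fp_hat_eq p 0
  simp only [mul_zero, neg_zero, AddChar.map_zero_eq_one, mul_one, if_true] at h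
  rw [h, norm_neg, norm_one]

/-- `(2/3) (S(a,1;p)²/p - 1)`, the factor makes it bounded by `2`. -/
noncomputable def fs (a : ℤ) (p : ℕ) : ℂ := (((2 / 3 : ℝ) * ((kl a p).re ^ 2 / p - 1) : ℝ) : ℂ)

lemma fs_eq (p : ℕ) [hp : Fact p.Prime] (a : ℤ) : fs a p = (2 / 3 : ℂ) * Fp p (a : ZMod p) := by
  have h1 : (kl a p) = ((kl a p).re : ℂ) := by
    apply Complex.ext
    · simp
    · simp [kl_im a p hp.out.pos]
  have h2 : K p (a : ZMod p) = ((kl a p).re : ℂ) := by rw [← kl_eq_K, ← h1]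
  unfold fs Fp
  rw [h2]
  push_cast
  ring

lemma fs_norm (HW : ∀ p : ℕ, p.Prime → WeilBd p) (a : ℤ) (p : ℕ) (hp : p.Prime) : ‖fs a p‖ ≤ 2 := by
  have hp0 : (0 : ℝ) < p := by exact_mod_cast hp.pos
  have h1 := kl_le p hp (HW p hp) a
  have h2 := Complex.abs_re_le_norm (kl a p)
  have h3 : (kl a p).re ^ 2 ≤ 4 * p := by
    have h4 : |(kl a p).re| ≤ 2 * Real.sqrt p := le_trans h2 h1
    have h5 : (kl a p).re ^ 2 = |(kl a p).re| ^ 2 := (sq_abs _).symm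
    rw [h5]
    calc |(kl a p).re| ^ 2 ≤ (2 * Real.sqrt p) ^ 2 := by gcongr
      _ = 4 * (p : ℝ) := by rw [mul_pow, Real.sq_sqrt hp0.le]; norm_num
  have h6 : (kl a p).re ^ 2 / p ≤ 4 := by rw [div_le_iff₀ hp0]; exact h3
  have h7 : 0 ≤ (kl a p).re ^ 2 / p := by positivity
  unfold fs
  rw [Complex.norm_real, Real.norm_eq_abs, abs_le]
  constructor <;> linarith

lemma sum_Icc_eq (N : ℕ) (F : ℤ → ℂ) :
    ∑ a ∈ Icc (-(N : ℤ)) N, F a = ∑ i ∈ range (2 * N + 1), F (-(N : ℤ) + i) := by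
  symm
  refine sum_bij (fun (i : ℕ) _ => (-(N : ℤ) + i : ℤ)) ?_ ?_ ?_ ?_
  · intro i hi
    rw [mem_range] at hi
    rw [mem_Icc]
    omega
  · intro i _ j _ h
    omega
  · intro a ha
    rw [mem_Icc] at ha
    exact ⟨(a + N).toNat, by rw [mem_range]; omega, by omega⟩
  · intro i _
    rfl

/-- correlation of the second moments modulo two primes of size `X` -/
lemma corr_two (HW : ∀ p : ℕ, p.Prime → WeilBd p) (X N : ℕ) (hX : 0 < X) (p q : ℕ) (hp : p.Prime) (hq : q.Prime)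
    (hp1 : X < p) (hp2 : p ≤ 2 * X) (hq1 : X < q) (hq2 : q ≤ 2 * X) (hpq : p ≠ q) :
    ‖∑ a ∈ Icc (-(N : ℤ)) N, fs a p * fs a q‖ ≤
      (2 * N + 1) / (X : ℝ) ^ 2 + 18 * X * (1 + Real.log (4 * (X : ℝ) ^ 2)) := by
  have : Fact p.Prime := ⟨hp⟩
  have : Fact q.Prime := ⟨hq⟩
  have hX0 : (0 : ℝ) < X := by exact_mod_cast hX
  have hp0 : (0 : ℝ) < p := by exact_mod_cast hp.pos
  have hq0 : (0 : ℝ) < q := by exact_mod_cast hq.pos
  have hp3 : (X : ℝ) ≤ p := by exact_mod_cast hp1.le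
  have hq3 : (X : ℝ) ≤ q := by exact_mod_cast hq1.le
  have hp4 : (p : ℝ) ≤ 2 * X := by exact_mod_cast hp2
  have hq4 : (q : ℝ) ≤ 2 * X := by exact_mod_cast hq2
  have h1 := corr_bound p q hpq (Fp p) (Fp q) (1 + 2 * Real.sqrt p) (1 + 2 * Real.sqrt q)
    (by positivity) (by positivity) (Fp_sum p) (Fp_sum q) (Fp_hat p (K_weil p (HW p hp)))
    (Fp_hat q (K_weil q (HW q hq))) (-(N : ℤ)) (2 * N + 1)
  have e1 : ∑ a ∈ Icc (-(N : ℤ)) N, fs a p * fs a q = (4 / 9 : ℂ) * ∑ i ∈ range (2 * N + 1),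
      Fp p (((-(N : ℤ) + i : ℤ)) : ZMod p) * Fp q (((-(N : ℤ) + i : ℤ)) : ZMod q) := by
    rw [sum_Icc_eq, mul_sum]
    refine sum_congr rfl fun i _ => ?_
    rw [fs_eq, fs_eq]
    ring
  have e2 : ‖(4 / 9 : ℂ)‖ ≤ 1 := by
    rw [norm_div]; norm_num
  rw [e1, norm_mul]
  have hone : (1 : ℝ) ≤ X := by exact_mod_cast hX
  have hl : 0 ≤ 1 + Real.log (4 * (X : ℝ) ^ 2) := by
    have : 0 ≤ Real.log (4 * (X : ℝ) ^ 2) := Real.log_nonneg (by nlinarith)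
    linarith
  calc ‖(4 / 9 : ℂ)‖ * _ ≤ 1 * (((2 * N + 1 : ℕ) : ℝ) / ((p * q : ℕ) : ℝ) +
        (1 + 2 * Real.sqrt p) * (1 + 2 * Real.sqrt q) * (1 + Real.log ((p * q : ℕ) : ℝ))) := by
        gcongr
    _ = ((2 * N + 1 : ℕ) : ℝ) / ((p * q : ℕ) : ℝ) +
        (1 + 2 * Real.sqrt p) * (1 + 2 * Real.sqrt q) * (1 + Real.log ((p * q : ℕ) : ℝ)) := one_mul _
    _ ≤ _ := by
        apply add_le_add
        · push_cast
          apply div_le_div_of_nonneg_left (by positivity) (by positivity)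
          nlinarith
        · have hs : Real.sqrt (2 * X) * Real.sqrt (2 * X) = 2 * X := Real.mul_self_sqrt (by positivity)
          have hs1 : 1 ≤ Real.sqrt (2 * X) := by
            rw [Real.one_le_sqrt]; linarith
          have hsp : Real.sqrt p ≤ Real.sqrt (2 * X) := Real.sqrt_le_sqrt hp4
          have hsq : Real.sqrt q ≤ Real.sqrt (2 * X) := Real.sqrt_le_sqrt hq4
          have h3 : (1 + 2 * Real.sqrt p) * (1 + 2 * Real.sqrt q) ≤ 18 * X := by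
            calc (1 + 2 * Real.sqrt p) * (1 + 2 * Real.sqrt q) ≤
                  (3 * Real.sqrt (2 * X)) * (3 * Real.sqrt (2 * X)) := by
                    gcongr <;> linarith
              _ = 9 * (Real.sqrt (2 * X) * Real.sqrt (2 * X)) := by ring
              _ = 18 * X := by rw [hs]; ring
          have h4 : Real.log ((p * q : ℕ) : ℝ) ≤ Real.log (4 * (X : ℝ) ^ 2) := by
            apply Real.log_le_log (by push_cast; positivity)
            push_cast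
            nlinarith
          have h5 : 0 ≤ 1 + Real.log ((p * q : ℕ) : ℝ) := by
            have : 0 ≤ Real.log ((p * q : ℕ) : ℝ) := Real.log_natCast_nonneg _
            linarith
          exact mul_le_mul h3 (by linarith) h5 (by positivity)

/-- the variance over `a` -/
theorem variance (HW : ∀ p : ℕ, p.Prime → WeilBd p) (X N : ℕ) (hX : 0 < X) (hN : 0 < N) (P : Finset ℕ)
    (hP : ∀ p ∈ P, p.Prime ∧ X < p ∧ p ≤ 2 * X) :
    ∑ a ∈ Icc (-(N : ℤ)) N, ‖∑ p ∈ P, fs a p‖ ^ 2 ≤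
      15 * N * X + 18 * (X : ℝ) ^ 3 * (1 + Real.log (4 * (X : ℝ) ^ 2)) := by
  have hX0 : (0 : ℝ) < X := by exact_mod_cast hX
  have hone : (1 : ℝ) ≤ X := by exact_mod_cast hX
  have hN1 : (1 : ℝ) ≤ N := by exact_mod_cast hN
  have hl : 0 ≤ 1 + Real.log (4 * (X : ℝ) ^ 2) := by
    have : 0 ≤ Real.log (4 * (X : ℝ) ^ 2) := Real.log_nonneg (by nlinarith)
    linarith
  have hcard : (#P : ℝ) ≤ X := by
    have h1 : P ⊆ Ioc X (2 * X) := by
      intro p hp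
      have := hP p hp
      rw [mem_Ioc]; exact ⟨this.2.1, this.2.2⟩
    have h2 := card_le_card h1
    rw [Nat.card_Ioc] at h2
    have : #P ≤ X := by omega
    exact_mod_cast this
  set c : ℝ := (2 * N + 1) / (X : ℝ) ^ 2 + 18 * X * (1 + Real.log (4 * (X : ℝ) ^ 2)) with hc
  have hc0 : 0 ≤ c := by positivity
  -- expand the square
  have e1 : ((∑ a ∈ Icc (-(N : ℤ)) N, ‖∑ p ∈ P, fs a p‖ ^ 2 : ℝ) : ℂ) =
      ∑ p ∈ P, ∑ q ∈ P, ∑ a ∈ Icc (-(N : ℤ)) N, fs a p * fs a q := by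
    have e2 : ∀ a : ℤ, ((‖∑ p ∈ P, fs a p‖ ^ 2 : ℝ) : ℂ) = ∑ p ∈ P, ∑ q ∈ P, fs a p * fs a q := by
      intro a
      have e3 : ∑ p ∈ P, fs a p = ((∑ p ∈ P, (2 / 3 : ℝ) * ((kl a p).re ^ 2 / p - 1) : ℝ) : ℂ) := by
        unfold fs
        rw [Complex.ofReal_sum]
      rw [← sum_mul_sum, e3, Complex.norm_real, Real.norm_eq_abs, sq_abs]
      push_cast
      ring
    rw [Complex.ofReal_sum, sum_congr rfl (fun a _ => e2 a), sum_comm]
    refine sum_congr rfl fun p _ => ?_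
    rw [sum_comm]
  have e4 : ∑ a ∈ Icc (-(N : ℤ)) N, ‖∑ p ∈ P, fs a p‖ ^ 2 =
      ‖((∑ a ∈ Icc (-(N : ℤ)) N, ‖∑ p ∈ P, fs a p‖ ^ 2 : ℝ) : ℂ)‖ := by
    rw [Complex.norm_real, Real.norm_eq_abs, abs_of_nonneg (by positivity)]
  rw [e4, e1]
  have hpair : ∀ p ∈ P, ∀ q ∈ P, ‖∑ a ∈ Icc (-(N : ℤ)) N, fs a p * fs a q‖ ≤
      (if q = p then 4 * (2 * (N : ℝ) + 1) else 0) + c := by
    intro p hp q hq
    have hp' := hP p hp
    have hq' := hP q hq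
    by_cases hqp : q = p
    · rw [if_pos hqp]
      have h2 : ‖∑ a ∈ Icc (-(N : ℤ)) N, fs a p * fs a q‖ ≤ ∑ a ∈ Icc (-(N : ℤ)) N, (4 : ℝ) := by
        refine le_trans (norm_sum_le _ _) (sum_le_sum fun a _ => ?_)
        rw [norm_mul]
        calc ‖fs a p‖ * ‖fs a q‖ ≤ 2 * 2 :=
              mul_le_mul (fs_norm HW a p hp'.1) (fs_norm HW a q hq'.1) (norm_nonneg _) (by norm_num)
          _ = 4 := by norm_num
      rw [sum_const, Int.card_Icc, nsmul_eq_mul] at h2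
      have h3 : ((((N : ℤ) + 1 - -(N : ℤ)).toNat : ℕ) : ℝ) = 2 * N + 1 := by
        have : ((N : ℤ) + 1 - -(N : ℤ)).toNat = 2 * N + 1 := by omega
        rw [this]; push_cast; ring
      rw [h3] at h2
      linarith
    · rw [if_neg hqp, zero_add]
      exact corr_two HW X N hX p q hp'.1 hq'.1 hp'.2.1 hp'.2.2 hq'.2.1 hq'.2.2 (fun h => hqp h.symm)
  calc ‖∑ p ∈ P, ∑ q ∈ P, ∑ a ∈ Icc (-(N : ℤ)) N, fs a p * fs a q‖
      ≤ ∑ p ∈ P, ∑ q ∈ P, ‖∑ a ∈ Icc (-(N : ℤ)) N, fs a p * fs a q‖ := by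
        refine le_trans (norm_sum_le _ _) (sum_le_sum fun p _ => norm_sum_le _ _)
    _ ≤ ∑ p ∈ P, ∑ q ∈ P, ((if q = p then 4 * (2 * (N : ℝ) + 1) else 0) + c) :=
        sum_le_sum fun p hp => sum_le_sum fun q hq => hpair p hp q hq
    _ = #P * (4 * (2 * (N : ℝ) + 1)) + #P * (#P * c) := by
        simp_rw [sum_add_distrib]
        rw [sum_const, sum_const, nsmul_eq_mul, nsmul_eq_mul]
        congr 1
        have : ∀ p ∈ P, ∑ q ∈ P, (if q = p then 4 * (2 * (N : ℝ) + 1) else 0) = 4 * (2 * (N : ℝ) + 1) := by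
          intro p hp
          rw [sum_ite_eq' P p, if_pos hp]
        rw [sum_congr rfl this, sum_const, nsmul_eq_mul]
    _ ≤ X * (4 * (2 * (N : ℝ) + 1)) + X * (X * c) := by
        have g1 : (0 : ℝ) ≤ #P := Nat.cast_nonneg _
        apply add_le_add
        · exact mul_le_mul_of_nonneg_right hcard (by positivity)
        · exact mul_le_mul hcard (mul_le_mul_of_nonneg_right hcard hc0) (mul_nonneg g1 hc0) hX0.le
    _ = 4 * (2 * N + 1) * X + (2 * N + 1) + 18 * (X : ℝ) ^ 3 * (1 + Real.log (4 * (X : ℝ) ^ 2)) := by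
        rw [hc]; field_simp; ring
    _ ≤ _ := by nlinarith

/-- the variance bound in the form used by the general theorem -/
theorem varBd_fs (HW : ∀ p : ℕ, p.Prime → WeilBd p) (η : ℝ) (h0 : 0 < η) (h1 : η < 1) :
    VarBd fs η (1 - η) (15 + 18 * (3 + 20 / η)) := by
  intro X N hX hN hX1 hX2 P hP
  have hN0 : (0 : ℝ) < N := by exact_mod_cast hN
  have hN1 : (1 : ℝ) ≤ N := by exact_mod_cast hN
  have hX0 : (0 : ℝ) < X := by exact_mod_cast hX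
  have hone : (1 : ℝ) ≤ X := by exact_mod_cast hX
  refine le_trans (variance HW X N hX hN P hP) ?_
  set κ : ℝ := 2 * (η / 20) with hκ
  have hκ0 : 0 < κ := by positivity
  have hNk : 1 ≤ (N : ℝ) ^ κ := Real.one_le_rpow hN1 hκ0.le
  have hsplit : (N : ℝ) ^ (1 - η / 2 + κ) = (N : ℝ) ^ (1 - η / 2) * (N : ℝ) ^ κ := Real.rpow_add hN0 _ _
  have hN2 : (N : ℝ) ≤ X * (N : ℝ) ^ (1 - η / 2) := by
    calc (N : ℝ) = (N : ℝ) ^ (η / 2) * (N : ℝ) ^ (1 - η / 2) := by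
          rw [← Real.rpow_add hN0]; simp
      _ ≤ X * (N : ℝ) ^ (1 - η / 2) := by gcongr
  have hA : 15 * (N : ℝ) * X ≤ 15 * (X : ℝ) ^ 2 * (N : ℝ) ^ (1 - η / 2 + κ) := by
    rw [hsplit]
    have h3 : 0 ≤ (N : ℝ) ^ (1 - η / 2) := by positivity
    calc 15 * (N : ℝ) * X ≤ 15 * (X * (N : ℝ) ^ (1 - η / 2)) * X := by gcongr
      _ = 15 * (X : ℝ) ^ 2 * ((N : ℝ) ^ (1 - η / 2) * 1) := by ring
      _ ≤ 15 * (X : ℝ) ^ 2 * ((N : ℝ) ^ (1 - η / 2) * (N : ℝ) ^ κ) := by gcongr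
  have hlogX : Real.log X ≤ (10 / η) * (N : ℝ) ^ κ := by
    have h2 : Real.log X ≤ Real.log N := by
      apply Real.log_le_log hX0
      refine le_trans hX2 ?_
      calc (N : ℝ) ^ (1 - η) ≤ (N : ℝ) ^ (1 : ℝ) :=
            Real.rpow_le_rpow_of_exponent_le hN1 (by linarith)
        _ = N := Real.rpow_one _
    have h3 := Real.log_le_rpow_div hN0.le hκ0
    have h4 : (N : ℝ) ^ κ / κ = (10 / η) * (N : ℝ) ^ κ := by
      rw [hκ]; field_simp; ring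
    rw [h4] at h3
    linarith
  have hlog4 : Real.log (4 * (X : ℝ) ^ 2) = Real.log 4 + 2 * Real.log X := by
    rw [Real.log_mul (by norm_num) (by positivity), Real.log_pow]
    push_cast; ring
  have hl4 : Real.log 4 ≤ 2 := by
    have : Real.log 4 = 2 * Real.log 2 := by
      rw [show (4 : ℝ) = 2 ^ 2 by norm_num, Real.log_pow]; push_cast; ring
    have h2 := Real.log_two_lt_d9
    linarith
  have hB : 1 + Real.log (4 * (X : ℝ) ^ 2) ≤ (3 + 20 / η) * (N : ℝ) ^ κ := by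
    rw [hlog4]
    have : (3 + 20 / η) * (N : ℝ) ^ κ = 3 * (N : ℝ) ^ κ + 2 * ((10 / η) * (N : ℝ) ^ κ) := by ring
    rw [this]
    linarith
  have hXN : (X : ℝ) ≤ (N : ℝ) ^ (1 - η / 2) := by
    refine le_trans hX2 (Real.rpow_le_rpow_of_exponent_le hN1 (by linarith))
  have hC : 18 * (X : ℝ) ^ 3 * (1 + Real.log (4 * (X : ℝ) ^ 2)) ≤
      18 * (3 + 20 / η) * (X : ℝ) ^ 2 * (N : ℝ) ^ (1 - η / 2 + κ) := by
    rw [hsplit]
    calc 18 * (X : ℝ) ^ 3 * (1 + Real.log (4 * (X : ℝ) ^ 2))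
        ≤ 18 * (X : ℝ) ^ 3 * ((3 + 20 / η) * (N : ℝ) ^ κ) := by gcongr
      _ = 18 * (3 + 20 / η) * (X : ℝ) ^ 2 * (X * (N : ℝ) ^ κ) := by ring
      _ ≤ 18 * (3 + 20 / η) * (X : ℝ) ^ 2 * ((N : ℝ) ^ (1 - η / 2) * (N : ℝ) ^ κ) := by gcongr
  calc _ ≤ 15 * (X : ℝ) ^ 2 * (N : ℝ) ^ (1 - η / 2 + κ) +
        18 * (3 + 20 / η) * (X : ℝ) ^ 2 * (N : ℝ) ^ (1 - η / 2 + κ) := add_le_add hA hC
    _ = _ := by ring

/-- Second moment for almost all `a`. -/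
theorem second_almost_all (HW : ∀ p : ℕ, p.Prime → WeilBd p) (η : ℝ) (h0 : 0 < η) (h1 : η < 1) :
    ∃ δ : ℝ, 0 < δ ∧ ∃ C : ℝ, 0 < C ∧ ∀ N : ℕ, 0 < N →
      ∃ E : Finset ℤ, (#E : ℝ) ≤ C * (N : ℝ) ^ (1 - δ) ∧
      ∀ a : ℤ, a ≠ 0 → |a| ≤ N → a ∉ E → ∀ x : ℕ, (N : ℝ) ^ η ≤ x → (x : ℝ) ≤ (N : ℝ) ^ (1 - η) →
      |∑ p ∈ (Icc 1 x).filter (fun p : ℕ => p.Prime ∧ ¬ (p : ℤ) ∣ a), ((kl a p).re ^ 2 / p - 1)| ≤
        C * (x : ℝ) ^ (1 - δ) := by
  obtain ⟨C, hC, hmain⟩ := almost_all_gen η (1 - η) h0 h1 (by linarith) fs _ (by positivity)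
    (varBd_fs HW η h0 h1) (fun a p hp => fs_norm HW a p hp)
  refine ⟨η / 40, by positivity, 2 * C, by positivity, fun N hN => ?_⟩
  obtain ⟨E, hcard, hgood⟩ := hmain N hN
  refine ⟨E, ?_, fun a ha0 haN haE x hx hx2 => ?_⟩
  · refine le_trans hcard ?_
    have : 0 ≤ C * (N : ℝ) ^ (1 - η / 40) := by positivity
    linarith
  · have h := hgood a ha0 haN haE x hx hx2
    have e1 : ∑ p ∈ (Icc 1 x).filter (fun p : ℕ => p.Prime ∧ ¬ (p : ℤ) ∣ a), fs a p =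
        (((2 / 3 : ℝ) * ∑ p ∈ (Icc 1 x).filter (fun p : ℕ => p.Prime ∧ ¬ (p : ℤ) ∣ a),
          ((kl a p).re ^ 2 / p - 1) : ℝ) : ℂ) := by
      unfold fs
      rw [mul_sum, Complex.ofReal_sum]
    rw [e1, Complex.norm_real, Real.norm_eq_abs, abs_mul, abs_of_pos (by norm_num : (0 : ℝ) < 2 / 3)] at h
    have : 0 ≤ C * (x : ℝ) ^ (1 - η / 40) := by positivity
    linarith

end Pool.KV46
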