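import Pool.Agent.LibKlVar.KV_T3

set_option autoImplicit false

namespace Pool.KV

open Finset

/-- One exceptional set for all `N`. -/
theorem almost_all_set (HLS : ∀ ε : ℝ, 0 < ε → ∃ C : ℝ, 0 < C ∧ LSBd ε C)
    (HK : ∀ p : ℕ, p.Prime → ∀ a : ℤ, ‖kl a p‖ ≤ 2 * Real.sqrt p) (η : ℝ) (h0 : 0 < η) (h1 : η < 1) :
    ∃ δ : ℝ, 0 < δ ∧ ∃ C : ℝ, 0 < C ∧ ∃ E : Set ℤ,
      (∀ N : ℕ, 0 < N → ((E ∩ Set.Icc (-(N : ℤ)) N).ncard : ℝ) ≤ C * (N : ℝ) ^ (1 - δ)) ∧
      ∀ a : ℤ, a ≠ 0 → a ∉ E → ∀ x : ℕ, |(a : ℝ)| ^ η ≤ x → (x : ℝ) ≤ |(a : ℝ)| ^ (2 - η) →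
      |∑ p ∈ (Icc 1 x).filter (fun p : ℕ => p.Prime ∧ ¬ (p : ℤ) ∣ a),
        (kl a p).re / (2 * Real.sqrt p)| ≤ C * (x : ℝ) ^ (1 - δ) := by
  obtain ⟨δ₀, hδ₀', C, hC, hN⟩ := almost_all_of HLS HK (η / 2) (by linarith) (by linarith)
  set δ := min δ₀ 1 with hδdef
  have hδ0 : 0 < δ := lt_min hδ₀' one_pos
  have hδ1 : δ ≤ 1 := min_le_right _ _
  have hδ₀ : δ ≤ δ₀ := min_le_left _ _
  choose! F hF1 hF2 using hN
  set E : Set ℤ := {a | a ≠ 0 ∧ a ∈ F (2 ^ Nat.clog 2 a.natAbs)} with hE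
  refine ⟨δ / 2, by positivity, C * (4 * (1 + 4 / δ)) + C, by positivity, E, ?_, ?_⟩
  · intro N hNpos
    have hN0 : (0 : ℝ) < N := by exact_mod_cast hNpos
    have hN1 : (1 : ℝ) ≤ N := by exact_mod_cast hNpos
    set M := Nat.clog 2 N with hM
    have hsub : E ∩ Set.Icc (-(N : ℤ)) N ⊆ (((range (M + 1)).biUnion fun m => F (2 ^ m) : Finset ℤ) : Set ℤ) := by
      intro a ha
      rw [Finset.mem_coe, mem_biUnion]
      refine ⟨Nat.clog 2 a.natAbs, ?_, ha.1.2⟩
      rw [mem_range, Nat.lt_succ_iff]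
      apply Nat.clog_mono_right
      have := ha.2
      rw [Set.mem_Icc] at this
      omega
    have hle := Set.ncard_le_ncard hsub (Finset.finite_toSet _)
    rw [Set.ncard_coe_finset] at hle
    have hle2 : #((range (M + 1)).biUnion fun m => F (2 ^ m)) ≤ ∑ m ∈ range (M + 1), #(F (2 ^ m)) :=
      card_biUnion_le
    have hle3 : ((E ∩ Set.Icc (-(N : ℤ)) N).ncard : ℝ) ≤ ∑ m ∈ range (M + 1), (#(F (2 ^ m)) : ℝ) := by
      exact_mod_cast hle.trans hle2
    refine hle3.trans ?_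
    have h2M : (2 : ℝ) ^ M ≤ 2 * N := by
      rcases Nat.lt_or_ge 1 N with h | h
      · have h3 := Nat.pow_pred_clog_lt_self (b := 2) (by norm_num) h
        have h4 : 0 < M := Nat.clog_pos (by norm_num) h
        have h5 : 2 ^ M = 2 * 2 ^ (M - 1) := by
          rw [← pow_succ']; congr 1; omega
        have h6 : 2 ^ M ≤ 2 * N := by
          rw [h5]
          have : 2 ^ (M - 1) < N := h3
          omega
        exact_mod_cast h6
      · have h3 : N = 1 := by omega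
        have h4 : M = 0 := by rw [hM, h3]; simp
        rw [h4, h3]; norm_num
    have hterm : ∀ m ∈ range (M + 1), (#(F (2 ^ m)) : ℝ) ≤ C * (2 * (N : ℝ) ^ (1 - δ)) := by
      intro m hm
      rw [mem_range, Nat.lt_succ_iff] at hm
      have h3 := hF1 (2 ^ m) (by positivity)
      refine h3.trans ?_
      push_cast
      have h4 : ((2 : ℝ) ^ m) ^ (1 - δ₀) ≤ 2 * (N : ℝ) ^ (1 - δ) := by
        have h5 : (1 : ℝ) ≤ 2 ^ m := one_le_pow₀ (by norm_num)
        calc ((2 : ℝ) ^ m) ^ (1 - δ₀) ≤ ((2 : ℝ) ^ m) ^ (1 - δ) :=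
              Real.rpow_le_rpow_of_exponent_le h5 (by linarith)
          _ ≤ (2 * (N : ℝ)) ^ (1 - δ) := by
              apply Real.rpow_le_rpow (by positivity) _ (by linarith)
              refine le_trans ?_ h2M
              exact pow_le_pow_right₀ (by norm_num) hm
          _ = 2 ^ (1 - δ) * (N : ℝ) ^ (1 - δ) := Real.mul_rpow (by norm_num) hN0.le
          _ ≤ 2 * (N : ℝ) ^ (1 - δ) := by
              apply mul_le_mul_of_nonneg_right _ (by positivity)
              calc (2 : ℝ) ^ (1 - δ) ≤ 2 ^ (1 : ℝ) :=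
                    Real.rpow_le_rpow_of_exponent_le (by norm_num) (by linarith)
                _ = 2 := Real.rpow_one 2
      exact mul_le_mul_of_nonneg_left h4 hC.le
    refine (sum_le_sum hterm).trans ?_
    rw [sum_const, card_range, nsmul_eq_mul]
    push_cast
    -- M + 1 ≤ (1 + 4/δ) N^(δ/2)
    have hMle : (M : ℝ) + 1 ≤ 2 * (1 + 4 / δ) * (N : ℝ) ^ (δ / 2) := by
      have hl2 := Real.log_two_gt_d9
      have h6 := Real.log_le_log (by positivity) h2M
      rw [Real.log_pow, Real.log_mul (by norm_num) hN0.ne'] at h6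
      have h7 := Real.log_le_rpow_div hN0.le (by positivity : 0 < δ / 2)
      have h8 : 1 ≤ (N : ℝ) ^ (δ / 2) := Real.one_le_rpow hN1 (by positivity)
      set y := (N : ℝ) ^ (δ / 2) with hy
      have h9 : y / (δ / 2) = 2 / δ * y := by field_simp
      rw [h9] at h7
      have h10 : (M : ℝ) * Real.log 2 ≤ Real.log 2 + 2 / δ * y := by linarith
      have h11 : (M : ℝ) ≤ 1 + (2 / δ * y) / Real.log 2 := by
        have : 0 < Real.log 2 := by linarith
        rw [← sub_le_iff_le_add', le_div_iff₀ this]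
        linarith
      have h12 : (2 / δ * y) / Real.log 2 ≤ (2 / δ * y) * 2 := by
        rw [div_le_iff₀ (by linarith)]
        have : 0 ≤ 2 / δ * y := by positivity
        nlinarith
      have h13 : 0 ≤ 1 / δ * y := by positivity
      have h14 : 2 / δ * y = 2 * (1 / δ * y) := by ring
      have h15 : 2 * (1 + 4 / δ) * y = 2 * y + 8 * (1 / δ * y) := by ring
      rw [h15]
      rw [h14] at h11 h12
      linarith
    have hsplit : (N : ℝ) ^ (1 - δ / 2) = (N : ℝ) ^ (δ / 2) * (N : ℝ) ^ (1 - δ) := by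
      rw [← Real.rpow_add hN0]; congr 1; ring
    have hnn : 0 ≤ (N : ℝ) ^ (1 - δ) := by positivity
    have hnn2 : 0 ≤ (N : ℝ) ^ (1 - δ / 2) := by positivity
    calc ((M : ℝ) + 1) * (C * (2 * (N : ℝ) ^ (1 - δ)))
        ≤ (2 * (1 + 4 / δ) * (N : ℝ) ^ (δ / 2)) * (C * (2 * (N : ℝ) ^ (1 - δ))) := by
          apply mul_le_mul_of_nonneg_right hMle (by positivity)
      _ = C * (4 * (1 + 4 / δ)) * (N : ℝ) ^ (1 - δ / 2) := by rw [hsplit]; ring
      _ ≤ _ := by
          have : 0 ≤ C * (N : ℝ) ^ (1 - δ / 2) := by positivity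
          rw [add_mul]; linarith
  · intro a ha0 haE x hx hx2
    set N := 2 ^ Nat.clog 2 a.natAbs with hNdef
    have ha1 : 1 ≤ a.natAbs := Nat.one_le_iff_ne_zero.2 (Int.natAbs_ne_zero.2 ha0)
    have haF : a ∉ F N := fun h => haE ⟨ha0, h⟩
    have hNpos : 0 < N := by positivity
    have haN : a.natAbs ≤ N := Nat.le_pow_clog (by norm_num) _
    have habsr : |(a : ℝ)| = (a.natAbs : ℝ) := by
      rw [Nat.cast_natAbs]; push_cast; rfl
    rw [habsr] at hx hx2
    have ha1r : (1 : ℝ) ≤ a.natAbs := by exact_mod_cast ha1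
    have hN1 : (1 : ℝ) ≤ N := by exact_mod_cast hNpos
    have haNr : (a.natAbs : ℝ) ≤ N := by exact_mod_cast haN
    have hx1 : (1 : ℝ) ≤ x := le_trans (Real.one_le_rpow ha1r h0.le) hx
    have hlow : (N : ℝ) ^ (η / 2) ≤ x := by
      refine le_trans ?_ hx
      rcases Nat.lt_or_ge 1 a.natAbs with h | h
      · have h3 := Nat.pow_pred_clog_lt_self (b := 2) (by norm_num) h
        have h4 : 0 < Nat.clog 2 a.natAbs := Nat.clog_pos (by norm_num) h
        have h5 : N = 2 * 2 ^ (Nat.clog 2 a.natAbs - 1) := by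
          rw [hNdef, ← pow_succ']; congr 1; omega
        have h6 : N ≤ a.natAbs ^ 2 := by
          have h7 : 2 ^ (Nat.clog 2 a.natAbs - 1) < a.natAbs := h3
          rw [h5]; nlinarith
        have h8 : (N : ℝ) ≤ (a.natAbs : ℝ) ^ (2 : ℝ) := by
          have : (N : ℝ) ≤ (a.natAbs : ℝ) ^ 2 := by exact_mod_cast h6
          rw [← Real.rpow_natCast] at this
          exact_mod_cast this
        calc (N : ℝ) ^ (η / 2) ≤ ((a.natAbs : ℝ) ^ (2 : ℝ)) ^ (η / 2) :=
              Real.rpow_le_rpow (by positivity) h8 (by positivity)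
          _ = (a.natAbs : ℝ) ^ η := by
              rw [← Real.rpow_mul (by positivity)]; congr 1; ring
      · have h3 : a.natAbs = 1 := by omega
        have h4 : N = 1 := by rw [hNdef, h3]; simp
        rw [h4, h3]; simp
    have hup : (x : ℝ) ≤ (N : ℝ) ^ (2 - η / 2) := by
      refine hx2.trans ?_
      calc (a.natAbs : ℝ) ^ (2 - η) ≤ (N : ℝ) ^ (2 - η) :=
            Real.rpow_le_rpow (by positivity) haNr (by linarith)
        _ ≤ (N : ℝ) ^ (2 - η / 2) := Real.rpow_le_rpow_of_exponent_le hN1 (by linarith)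
    have haNabs : |a| ≤ (N : ℤ) := by
      rw [Int.abs_eq_natAbs]; exact_mod_cast haN
    have h9 := hF2 N hNpos a ha0 haNabs haF x hlow hup
    refine h9.trans ?_
    have h10 : (x : ℝ) ^ (1 - δ₀) ≤ (x : ℝ) ^ (1 - δ / 2) :=
      Real.rpow_le_rpow_of_exponent_le hx1 (by linarith)
    have h11 : C ≤ C * (4 * (1 + 4 / δ)) + C := by
      have : 0 ≤ C * (4 * (1 + 4 / δ)) := by positivity
      linarith
    exact mul_le_mul h11 h10 (by positivity) (by positivity)

end Pool.KV
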