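import Pool.Agent.LibKlVar.KV46_C
import Pool.Agent.LibKlVar.KV_V
import Pool.Agent.LibKlVar.KV_Main

/-!
# The first two moments for almost all `a`
-/

set_option autoImplicit false

namespace Pool.KV46

open Finset Pool.KV

/-- One exceptional set for all `N`. -/
theorem second_set (HW : ∀ p : ℕ, p.Prime → WeilBd p) (η : ℝ) (h0 : 0 < η) (h1 : η < 1) :
    ∃ δ : ℝ, 0 < δ ∧ ∃ C : ℝ, 0 < C ∧ ∃ E : Set ℤ,
      (∀ N : ℕ, 0 < N → ((E ∩ Set.Icc (-(N : ℤ)) N).ncard : ℝ) ≤ C * (N : ℝ) ^ (1 - δ)) ∧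
      ∀ a : ℤ, a ≠ 0 → a ∉ E → ∀ x : ℕ, |(a : ℝ)| ^ η ≤ x → (x : ℝ) ≤ |(a : ℝ)| ^ (1 - η) →
      |∑ p ∈ (Icc 1 x).filter (fun p : ℕ => p.Prime ∧ ¬ (p : ℤ) ∣ a),
        ((kl a p).re ^ 2 / p - 1)| ≤ C * (x : ℝ) ^ (1 - δ) := by
  obtain ⟨δ₀, hδ₀', C, hC, hN⟩ := second_almost_all HW (η / 2) (by linarith) (by linarith)
  set δ := min δ₀ 1 with hδdef
  have hδ0 : 0 < δ := lt_min hδ₀' one_pos
  have hδ1 : δ ≤ 1 := min_le_right _ _
  have hδ₀ : δ ≤ δ₀ := min_le_left _ _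
  choose! F hF1 hF2 using hN
  set E : Set ℤ := {a | a ≠ 0 ∧ a ∈ F (2 ^ Nat.clog 2 a.natAbs)} with hE
  refine ⟨δ / 2, by positivity, C * (4 * (1 + 4 / δ)) + C, by positivity, E, ?_, ?_⟩
  · intro N hNpos
    have hN0 : (0 : ℝ) < N := by exact_mod_cast hNpos
    have hN1 : (1 : ℝ) ≤ N := by exact_mod_cast hNpos
    set M := Nat.clog 2 N with hM
    have hsub : E ∩ Set.Icc (-(N : ℤ)) N ⊆ (((range (M + 1)).biUnion fun m => F (2 ^ m) : Finset ℤ) : Set ℤ) := by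
      intro a ha
      rw [Finset.mem_coe, mem_biUnion]
      refine ⟨Nat.clog 2 a.natAbs, ?_, ha.1.2⟩
      rw [mem_range, Nat.lt_succ_iff]
      apply Nat.clog_mono_right
      have := ha.2
      rw [Set.mem_Icc] at this
      omega
    have hle := Set.ncard_le_ncard hsub (Finset.finite_toSet _)
    rw [Set.ncard_coe_finset] at hle
    have hle2 : #((range (M + 1)).biUnion fun m => F (2 ^ m)) ≤ ∑ m ∈ range (M + 1), #(F (2 ^ m)) :=
      card_biUnion_le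
    have hle3 : ((E ∩ Set.Icc (-(N : ℤ)) N).ncard : ℝ) ≤ ∑ m ∈ range (M + 1), (#(F (2 ^ m)) : ℝ) := by
      exact_mod_cast hle.trans hle2
    refine hle3.trans ?_
    have h2M : (2 : ℝ) ^ M ≤ 2 * N := by
      rcases Nat.lt_or_ge 1 N with h | h
      · have h3 := Nat.pow_pred_clog_lt_self (b := 2) (by norm_num) h
        have h4 : 0 < M := Nat.clog_pos (by norm_num) h
        have h5 : 2 ^ M = 2 * 2 ^ (M - 1) := by
          rw [← pow_succ']; congr 1; omega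
        have h6 : 2 ^ M ≤ 2 * N := by
          rw [h5]
          have : 2 ^ (M - 1) < N := h3
          omega
        exact_mod_cast h6
      · have h3 : N = 1 := by omega
        have h4 : M = 0 := by rw [hM, h3]; simp
        rw [h4, h3]; norm_num
    have hterm : ∀ m ∈ range (M + 1), (#(F (2 ^ m)) : ℝ) ≤ C * (2 * (N : ℝ) ^ (1 - δ)) := by
      intro m hm
      rw [mem_range, Nat.lt_succ_iff] at hm
      have h3 := hF1 (2 ^ m) (by positivity)
      refine h3.trans ?_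
      push_cast
      have h4 : ((2 : ℝ) ^ m) ^ (1 - δ₀) ≤ 2 * (N : ℝ) ^ (1 - δ) := by
        have h5 : (1 : ℝ) ≤ 2 ^ m := one_le_pow₀ (by norm_num)
        calc ((2 : ℝ) ^ m) ^ (1 - δ₀) ≤ ((2 : ℝ) ^ m) ^ (1 - δ) :=
              Real.rpow_le_rpow_of_exponent_le h5 (by linarith)
          _ ≤ (2 * (N : ℝ)) ^ (1 - δ) := by
              apply Real.rpow_le_rpow (by positivity) _ (by linarith)
              refine le_trans ?_ h2M
              exact pow_le_pow_right₀ (by norm_num) hm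
          _ = 2 ^ (1 - δ) * (N : ℝ) ^ (1 - δ) := Real.mul_rpow (by norm_num) hN0.le
          _ ≤ 2 * (N : ℝ) ^ (1 - δ) := by
              apply mul_le_mul_of_nonneg_right _ (by positivity)
              calc (2 : ℝ) ^ (1 - δ) ≤ 2 ^ (1 : ℝ) :=
                    Real.rpow_le_rpow_of_exponent_le (by norm_num) (by linarith)
                _ = 2 := Real.rpow_one 2
      exact mul_le_mul_of_nonneg_left h4 hC.le
    refine (sum_le_sum hterm).trans ?_
    rw [sum_const, card_range, nsmul_eq_mul]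
    push_cast
    -- M + 1 ≤ (1 + 4/δ) N^(δ/2)
    have hMle : (M : ℝ) + 1 ≤ 2 * (1 + 4 / δ) * (N : ℝ) ^ (δ / 2) := by
      have hl2 := Real.log_two_gt_d9
      have h6 := Real.log_le_log (by positivity) h2M
      rw [Real.log_pow, Real.log_mul (by norm_num) hN0.ne'] at h6
      have h7 := Real.log_le_rpow_div hN0.le (by positivity : 0 < δ / 2)
      have h8 : 1 ≤ (N : ℝ) ^ (δ / 2) := Real.one_le_rpow hN1 (by positivity)
      set y := (N : ℝ) ^ (δ / 2) with hy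
      have h9 : y / (δ / 2) = 2 / δ * y := by field_simp
      rw [h9] at h7
      have h10 : (M : ℝ) * Real.log 2 ≤ Real.log 2 + 2 / δ * y := by linarith
      have h11 : (M : ℝ) ≤ 1 + (2 / δ * y) / Real.log 2 := by
        have : 0 < Real.log 2 := by linarith
        rw [← sub_le_iff_le_add', le_div_iff₀ this]
        linarith
      have h12 : (2 / δ * y) / Real.log 2 ≤ (2 / δ * y) * 2 := by
        rw [div_le_iff₀ (by linarith)]
        have : 0 ≤ 2 / δ * y := by positivity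
        nlinarith
      have h13 : 0 ≤ 1 / δ * y := by positivity
      have h14 : 2 / δ * y = 2 * (1 / δ * y) := by ring
      have h15 : 2 * (1 + 4 / δ) * y = 2 * y + 8 * (1 / δ * y) := by ring
      rw [h15]
      rw [h14] at h11 h12
      linarith
    have hsplit : (N : ℝ) ^ (1 - δ / 2) = (N : ℝ) ^ (δ / 2) * (N : ℝ) ^ (1 - δ) := by
      rw [← Real.rpow_add hN0]; congr 1; ring
    have hnn : 0 ≤ (N : ℝ) ^ (1 - δ) := by positivity
    have hnn2 : 0 ≤ (N : ℝ) ^ (1 - δ / 2) := by positivity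
    calc ((M : ℝ) + 1) * (C * (2 * (N : ℝ) ^ (1 - δ)))
        ≤ (2 * (1 + 4 / δ) * (N : ℝ) ^ (δ / 2)) * (C * (2 * (N : ℝ) ^ (1 - δ))) := by
          apply mul_le_mul_of_nonneg_right hMle (by positivity)
      _ = C * (4 * (1 + 4 / δ)) * (N : ℝ) ^ (1 - δ / 2) := by rw [hsplit]; ring
      _ ≤ _ := by
          have : 0 ≤ C * (N : ℝ) ^ (1 - δ / 2) := by positivity
          rw [add_mul]; linarith
  · intro a ha0 haE x hx hx2
    set N := 2 ^ Nat.clog 2 a.natAbs with hNdef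
    have ha1 : 1 ≤ a.natAbs := Nat.one_le_iff_ne_zero.2 (Int.natAbs_ne_zero.2 ha0)
    have haF : a ∉ F N := fun h => haE ⟨ha0, h⟩
    have hNpos : 0 < N := by positivity
    have haN : a.natAbs ≤ N := Nat.le_pow_clog (by norm_num) _
    have habsr : |(a : ℝ)| = (a.natAbs : ℝ) := by
      rw [Nat.cast_natAbs]; push_cast; rfl
    rw [habsr] at hx hx2
    have ha1r : (1 : ℝ) ≤ a.natAbs := by exact_mod_cast ha1
    have hN1 : (1 : ℝ) ≤ N := by exact_mod_cast hNpos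
    have haNr : (a.natAbs : ℝ) ≤ N := by exact_mod_cast haN
    have hx1 : (1 : ℝ) ≤ x := le_trans (Real.one_le_rpow ha1r h0.le) hx
    have hlow : (N : ℝ) ^ (η / 2) ≤ x := by
      refine le_trans ?_ hx
      rcases Nat.lt_or_ge 1 a.natAbs with h | h
      · have h3 := Nat.pow_pred_clog_lt_self (b := 2) (by norm_num) h
        have h4 : 0 < Nat.clog 2 a.natAbs := Nat.clog_pos (by norm_num) h
        have h5 : N = 2 * 2 ^ (Nat.clog 2 a.natAbs - 1) := by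
          rw [hNdef, ← pow_succ']; congr 1; omega
        have h6 : N ≤ a.natAbs ^ 2 := by
          have h7 : 2 ^ (Nat.clog 2 a.natAbs - 1) < a.natAbs := h3
          rw [h5]; nlinarith
        have h8 : (N : ℝ) ≤ (a.natAbs : ℝ) ^ (2 : ℝ) := by
          have : (N : ℝ) ≤ (a.natAbs : ℝ) ^ 2 := by exact_mod_cast h6
          rw [← Real.rpow_natCast] at this
          exact_mod_cast this
        calc (N : ℝ) ^ (η / 2) ≤ ((a.natAbs : ℝ) ^ (2 : ℝ)) ^ (η / 2) :=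
              Real.rpow_le_rpow (by positivity) h8 (by positivity)
          _ = (a.natAbs : ℝ) ^ η := by
              rw [← Real.rpow_mul (by positivity)]; congr 1; ring
      · have h3 : a.natAbs = 1 := by omega
        have h4 : N = 1 := by rw [hNdef, h3]; simp
        rw [h4, h3]; simp
    have hup : (x : ℝ) ≤ (N : ℝ) ^ (1 - η / 2) := by
      refine hx2.trans ?_
      calc (a.natAbs : ℝ) ^ (1 - η) ≤ (N : ℝ) ^ (1 - η) :=
            Real.rpow_le_rpow (by positivity) haNr (by linarith)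
        _ ≤ (N : ℝ) ^ (1 - η / 2) := Real.rpow_le_rpow_of_exponent_le hN1 (by linarith)
    have haNabs : |a| ≤ (N : ℤ) := by
      rw [Int.abs_eq_natAbs]; exact_mod_cast haN
    have h9 := hF2 N hNpos a ha0 haNabs haF x hlow hup
    refine h9.trans ?_
    have h10 : (x : ℝ) ^ (1 - δ₀) ≤ (x : ℝ) ^ (1 - δ / 2) :=
      Real.rpow_le_rpow_of_exponent_le hx1 (by linarith)
    have h11 : C ≤ C * (4 * (1 + 4 / δ)) + C := by
      have : 0 ≤ C * (4 * (1 + 4 / δ)) := by positivity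
      linarith
    exact mul_le_mul h11 h10 (by positivity) (by positivity)


/-- From two moments to signs. -/
lemma signs_of_moments {ι : Type*} (P : Finset ι) (c : ι → ℝ) (hc : ∀ i ∈ P, |c i| ≤ 1) (D : ℝ)
    (h1 : |∑ i ∈ P, c i| ≤ D) (h2 : |∑ i ∈ P, (c i ^ 2 - 1 / 4)| ≤ D) (t : ℝ) (ht : 0 ≤ t) :
    (1 / 8 - t) * #P - D ≤ #(P.filter (fun i => t < c i)) ∧
    (1 / 8 - t) * #P - D ≤ #(P.filter (fun i => c i < -t)) := by
  -- the general one sided statement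
  have key : ∀ s : ι → ℝ, (∀ i ∈ P, |s i| ≤ 1) → |∑ i ∈ P, s i| ≤ D → |∑ i ∈ P, (s i ^ 2 - 1 / 4)| ≤ D →
      (1 / 8 - t) * #P - D ≤ #(P.filter (fun i => t < s i)) := by
    intro s hs hs1 hs2
    have h3 : ∀ i ∈ P, (s i ^ 2 + s i) / 2 ≤ t + (if t < s i then 1 else 0) := by
      intro i hi
      have h4 := abs_le.1 (hs i hi)
      split_ifs with h5
      · nlinarith [h4.1, h4.2]
      · push Not at h5
        rcases le_total 0 (s i) with h6 | h6
        · nlinarith [h4.1, h4.2]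
        · nlinarith [h4.1, h4.2]
    have h4 := sum_le_sum h3
    rw [sum_add_distrib, sum_const, nsmul_eq_mul] at h4
    have h5 : ∑ i ∈ P, (if t < s i then (1 : ℝ) else 0) = #(P.filter (fun i => t < s i)) := by
      rw [sum_ite, sum_const, sum_const_zero, add_zero, nsmul_eq_mul, mul_one]
    rw [h5] at h4
    have h6 : ∑ i ∈ P, (s i ^ 2 + s i) / 2 =
        ((∑ i ∈ P, (s i ^ 2 - 1 / 4)) + ∑ i ∈ P, s i) / 2 + 1 / 8 * #P := by
      have : ∀ i ∈ P, (s i ^ 2 + s i) / 2 = ((s i ^ 2 - 1 / 4) + s i) / 2 + 1 / 8 := by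
        intro i _; ring
      rw [sum_congr rfl this, sum_add_distrib, sum_const, nsmul_eq_mul, ← sum_div, sum_add_distrib]
      ring
    rw [h6] at h4
    have h7 := (abs_le.1 hs1).1
    have h8 := (abs_le.1 hs2).1
    nlinarith
  refine ⟨key c hc h1 h2, ?_⟩
  have h3 := key (fun i => -c i) (fun i hi => by rw [abs_neg]; exact hc i hi)
    (by rw [sum_neg_distrib, abs_neg]; exact h1) (by simpa [neg_sq] using h2)
  have h4 : P.filter (fun i => t < -c i) = P.filter (fun i => c i < -t) := by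
    ext i
    simp only [mem_filter]
    constructor
    · rintro ⟨h5, h6⟩; exact ⟨h5, by linarith⟩
    · rintro ⟨h5, h6⟩; exact ⟨h5, by linarith⟩
  rw [h4] at h3
  exact h3

/-- `cos θ_p(a) = S(a,1;p) / (2 √p)` -/
noncomputable def cs (a : ℤ) (p : ℕ) : ℝ := (kl a p).re / (2 * Real.sqrt p)

/-- the primes `p ≤ x` not dividing `a` -/
def Pr (a : ℤ) (x : ℕ) : Finset ℕ := (Icc 1 x).filter (fun p : ℕ => p.Prime ∧ ¬ (p : ℤ) ∣ a)

lemma cs_sq (a : ℤ) (p : ℕ) (hp : 0 < p) : cs a p ^ 2 - 1 / 4 = (1 / 4) * ((kl a p).re ^ 2 / p - 1) := by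
  have hp0 : (0 : ℝ) < p := by exact_mod_cast hp
  unfold cs
  rw [div_pow, mul_pow, Real.sq_sqrt hp0.le]
  field_simp
  ring

lemma cs_abs (a : ℤ) (p : ℕ) (hp : p.Prime) : |cs a p| ≤ 1 := by
  have hp0 : (0 : ℝ) < p := by exact_mod_cast hp.pos
  have hs : 0 < Real.sqrt p := Real.sqrt_pos.2 hp0
  unfold cs
  rw [abs_div, abs_of_pos (by positivity : 0 < 2 * Real.sqrt p), div_le_one (by positivity)]
  exact le_trans (Complex.abs_re_le_norm _) (kl_le p hp (weilBd p hp) a)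

/-- The first two moments of the Kloosterman angles for all `a` outside one thin set. -/
theorem two_moments (η : ℝ) (h0 : 0 < η) (h1 : η < 1) :
    ∃ δ : ℝ, 0 < δ ∧ ∃ C : ℝ, 0 < C ∧ ∃ E : Set ℤ,
      (∀ N : ℕ, 0 < N → ((E ∩ Set.Icc (-(N : ℤ)) N).ncard : ℝ) ≤ C * (N : ℝ) ^ (1 - δ)) ∧
      ∀ a : ℤ, a ≠ 0 → a ∉ E →
        (∀ x : ℕ, |(a : ℝ)| ^ η ≤ x → (x : ℝ) ≤ |(a : ℝ)| ^ (2 - η) →
          |∑ p ∈ Pr a x, cs a p| ≤ C * (x : ℝ) ^ (1 - δ)) ∧
        (∀ x : ℕ, |(a : ℝ)| ^ η ≤ x → (x : ℝ) ≤ |(a : ℝ)| ^ (1 - η) →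
          |∑ p ∈ Pr a x, (cs a p ^ 2 - 1 / 4)| ≤ C * (x : ℝ) ^ (1 - δ) ∧
          ∀ t : ℝ, 0 ≤ t →
            (1 / 8 - t) * #(Pr a x) - C * (x : ℝ) ^ (1 - δ) ≤ #((Pr a x).filter (fun p => t < cs a p)) ∧
            (1 / 8 - t) * #(Pr a x) - C * (x : ℝ) ^ (1 - δ) ≤
              #((Pr a x).filter (fun p => cs a p < -t))) := by
  obtain ⟨δ₁, hδ₁, C₁, hC₁, E₁, hE₁, hg₁⟩ := almost_all_set (fun ε hε => main_large_sieve ε hε)
    (fun p hp a => kl_le p hp (weilBd p hp) a) η h0 h1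
  obtain ⟨δ₂, hδ₂, C₂, hC₂, E₂, hE₂, hg₂⟩ := second_set weilBd η h0 h1
  set δ := min δ₁ δ₂ with hδ
  have hd1 : δ ≤ δ₁ := min_le_left _ _
  have hd2 : δ ≤ δ₂ := min_le_right _ _
  have hpow : ∀ y : ℝ, 1 ≤ y → ∀ d : ℝ, δ ≤ d → y ^ (1 - d) ≤ y ^ (1 - δ) := fun y hy d hd =>
    Real.rpow_le_rpow_of_exponent_le hy (by linarith)
  refine ⟨δ, lt_min hδ₁ hδ₂, C₁ + C₂, by positivity, E₁ ∪ E₂, ?_, ?_⟩
  · intro N hN
    have hN1 : (1 : ℝ) ≤ N := by exact_mod_cast hN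
    have h3 : (E₁ ∪ E₂) ∩ Set.Icc (-(N : ℤ)) N = (E₁ ∩ Set.Icc (-(N : ℤ)) N) ∪ (E₂ ∩ Set.Icc (-(N : ℤ)) N) :=
      Set.union_inter_distrib_right _ _ _
    rw [h3]
    have h4 := Set.ncard_union_le (E₁ ∩ Set.Icc (-(N : ℤ)) N) (E₂ ∩ Set.Icc (-(N : ℤ)) N)
    have h5 : (((E₁ ∩ Set.Icc (-(N : ℤ)) N) ∪ (E₂ ∩ Set.Icc (-(N : ℤ)) N)).ncard : ℝ) ≤
        (E₁ ∩ Set.Icc (-(N : ℤ)) N).ncard + (E₂ ∩ Set.Icc (-(N : ℤ)) N).ncard := by exact_mod_cast h4
    refine h5.trans ?_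
    have h6 := (hE₁ N hN).trans (mul_le_mul_of_nonneg_left (hpow N hN1 δ₁ hd1) hC₁.le)
    have h7 := (hE₂ N hN).trans (mul_le_mul_of_nonneg_left (hpow N hN1 δ₂ hd2) hC₂.le)
    rw [add_mul]
    linarith
  · intro a ha0 haE
    rw [Set.mem_union, not_or] at haE
    have ha1 : (1 : ℝ) ≤ |(a : ℝ)| := by
      have : 1 ≤ |a| := Int.one_le_abs ha0
      have h3 : ((1 : ℤ) : ℝ) ≤ ((|a| : ℤ) : ℝ) := by exact_mod_cast this
      rw [Int.cast_abs] at h3
      simpa using h3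
    have hfirst : ∀ x : ℕ, |(a : ℝ)| ^ η ≤ x → (x : ℝ) ≤ |(a : ℝ)| ^ (2 - η) →
          |∑ p ∈ Pr a x, cs a p| ≤ C₁ * (x : ℝ) ^ (1 - δ) := by
      intro x hx hx2
      have hx1 : (1 : ℝ) ≤ x := le_trans (Real.one_le_rpow ha1 h0.le) hx
      exact (hg₁ a ha0 haE.1 x hx hx2).trans (mul_le_mul_of_nonneg_left (hpow x hx1 δ₁ hd1) hC₁.le)
    refine ⟨?_, ?_⟩
    · intro x hx hx2
      have h3 : 0 ≤ C₂ * (x : ℝ) ^ (1 - δ) := by positivity
      rw [add_mul]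
      linarith [hfirst x hx hx2]
    · intro x hx hx2
      have hx1 : (1 : ℝ) ≤ x := le_trans (Real.one_le_rpow ha1 h0.le) hx
      have hx3 : (x : ℝ) ≤ |(a : ℝ)| ^ (2 - η) :=
        hx2.trans (Real.rpow_le_rpow_of_exponent_le ha1 (by linarith))
      have h4 := hfirst x hx hx3
      have h5 := (hg₂ a ha0 haE.2 x hx hx2).trans (mul_le_mul_of_nonneg_left (hpow x hx1 δ₂ hd2) hC₂.le)
      have e1 : ∑ p ∈ Pr a x, (cs a p ^ 2 - 1 / 4) =
          (1 / 4) * ∑ p ∈ (Icc 1 x).filter (fun p : ℕ => p.Prime ∧ ¬ (p : ℤ) ∣ a), ((kl a p).re ^ 2 / p - 1) := by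
        rw [mul_sum]
        refine sum_congr rfl fun p hp => ?_
        exact cs_sq a p (mem_filter.1 hp).2.1.pos
      have hn1 : 0 ≤ C₁ * (x : ℝ) ^ (1 - δ) := by positivity
      have hn2 : 0 ≤ C₂ * (x : ℝ) ^ (1 - δ) := by positivity
      have h6 : |∑ p ∈ Pr a x, (cs a p ^ 2 - 1 / 4)| ≤ (C₁ + C₂) * (x : ℝ) ^ (1 - δ) := by
        rw [e1, abs_mul, abs_of_pos (by norm_num : (0 : ℝ) < 1 / 4), add_mul]
        linarith
      have h7 : |∑ p ∈ Pr a x, cs a p| ≤ (C₁ + C₂) * (x : ℝ) ^ (1 - δ) := by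
        rw [add_mul]; linarith
      exact ⟨h6, fun t ht => signs_of_moments (Pr a x) (cs a)
        (fun p hp => cs_abs a p (mem_filter.1 hp).2.1) _ h7 h6 t ht⟩

end Pool.KV46
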