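import Pool.Agent.LibKlVar.KV_Def

/-!
# Row A1
-/

set_option autoImplicit false

namespace Pool.KV

open Finset

theorem norm_e_sub_one_le (t : ℝ) : ‖e t - 1‖ ≤ 2 * Real.pi * |t| := by
  have h : e t = Complex.exp (Complex.I * ((2 * Real.pi * t : ℝ) : ℂ)) := by
    unfold e
    congr 1
    push_cast
    ring
  rw [h]
  refine (Real.norm_exp_I_mul_ofReal_sub_one_le (x := 2 * Real.pi * t)).trans ?_
  rw [Real.norm_eq_abs, abs_mul, abs_of_pos Real.two_pi_pos]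

/-- A1. -/
theorem fejer_lower (Q H : ℕ) (hQ : 0 < Q) (a : ℤ) (h : 16 * (a.natAbs * H) ≤ Q) :
    (H : ℝ) / 2 ≤ ‖∑ j ∈ range H, e ((a : ℝ) * j / Q)‖ := by
  have hQ' : (0 : ℝ) < Q := by exact_mod_cast hQ
  have h1 : ∀ j ∈ range H, ‖e ((a : ℝ) * j / Q) - 1‖ ≤ 1 / 2 := by
    intro j hj
    have hj' : (j : ℝ) ≤ H := by exact_mod_cast (mem_range.1 hj).le
    have h2 : |(a : ℝ) * j / Q| ≤ 1 / 16 := by
      rw [abs_div, abs_mul, abs_of_pos hQ', Nat.abs_cast, div_le_div_iff₀ hQ' (by norm_num)]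
      have h3 : (16 : ℝ) * (|(a : ℝ)| * H) ≤ Q := by
        have h4 : ((a.natAbs : ℕ) : ℝ) = |(a : ℝ)| := by
          rw [Nat.cast_natAbs, Int.cast_abs]
        rw [← h4]
        exact_mod_cast h
      have h5 : |(a : ℝ)| * j ≤ |(a : ℝ)| * H := mul_le_mul_of_nonneg_left hj' (abs_nonneg _)
      linarith
    calc ‖e ((a : ℝ) * j / Q) - 1‖ ≤ 2 * Real.pi * |(a : ℝ) * j / Q| := norm_e_sub_one_le _
      _ ≤ 2 * Real.pi * (1 / 16) := mul_le_mul_of_nonneg_left h2 Real.two_pi_pos.le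
      _ ≤ 1 / 2 := by have := Real.pi_lt_four; linarith
  have h2 : ‖∑ j ∈ range H, (e ((a : ℝ) * j / Q) - 1)‖ ≤ H / 2 := by
    refine (norm_sum_le _ _).trans ((Finset.sum_le_sum h1).trans ?_)
    rw [Finset.sum_const, Finset.card_range, nsmul_eq_mul]
    linarith
  have h3 : (∑ j ∈ range H, e ((a : ℝ) * j / Q)) =
      (H : ℂ) + ∑ j ∈ range H, (e ((a : ℝ) * j / Q) - 1) := by
    rw [Finset.sum_sub_distrib]
    simp
  have h4 : (H : ℝ) ≤ ‖∑ j ∈ range H, e ((a : ℝ) * j / Q)‖ +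
      ‖∑ j ∈ range H, (e ((a : ℝ) * j / Q) - 1)‖ := by
    have h5 : (H : ℂ) = (∑ j ∈ range H, e ((a : ℝ) * j / Q)) -
        ∑ j ∈ range H, (e ((a : ℝ) * j / Q) - 1) := by
      rw [h3]; ring
    calc (H : ℝ) = ‖(H : ℂ)‖ := by simp
      _ = ‖(∑ j ∈ range H, e ((a : ℝ) * j / Q)) -
          ∑ j ∈ range H, (e ((a : ℝ) * j / Q) - 1)‖ := by rw [← h5]
      _ ≤ _ := norm_sub_le _ _
  linarith

end Pool.KV
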