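import Pool.Agent.LibKlVar.KV_Def
import Pool.Agent.LibKlVar.KV_A1

/-!
# Row A2: the dual local large sieve
-/

set_option autoImplicit false

namespace Pool.KV

open Finset

theorem e_intdiv (Q : ℕ) [NeZero Q] (m : ℤ) :
    e ((m : ℝ) / Q) = (ZMod.stdAddChar ((m : ℤ) : ZMod Q) : ℂ) := by
  rw [ZMod.stdAddChar_coe]
  unfold e
  congr 1
  push_cast
  ring

/-- The sum over the interval of residue classes. -/
theorem sum_window (Q H : ℕ) [NeZero Q] (hHQ : H ≤ Q) (b : ZMod Q) (f : ZMod Q → ℂ) :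
    ∑ n ∈ (univ : Finset (ZMod Q)).filter (fun n => (n - b).val < H), f n =
      ∑ i ∈ range H, f (b + (i : ZMod Q)) := by
  refine Finset.sum_nbij' (fun n => (n - b).val) (fun i => b + (i : ZMod Q)) ?_ ?_ ?_ ?_ ?_
  · intro n hn
    exact Finset.mem_range.2 (Finset.mem_filter.1 hn).2
  · intro i hi
    rw [Finset.mem_filter]
    refine ⟨Finset.mem_univ _, ?_⟩
    rw [add_sub_cancel_left, ZMod.val_natCast_of_lt ((Finset.mem_range.1 hi).trans_le hHQ)]
    exact Finset.mem_range.1 hi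
  · intro n _
    rw [ZMod.natCast_zmod_val]
    ring
  · intro i hi
    rw [add_sub_cancel_left, ZMod.val_natCast_of_lt ((Finset.mem_range.1 hi).trans_le hHQ)]
  · intro n _
    rw [ZMod.natCast_zmod_val]
    congr 1
    ring

/-- Parseval modulo `Q`. -/
theorem parseval_zmod (Q : ℕ) [NeZero Q] (T : ZMod Q → ℂ) :
    ∑ x : ZMod Q, ‖∑ n : ZMod Q, T n * ZMod.stdAddChar (x * n)‖ ^ 2 =
      Q * ∑ n : ZMod Q, ‖T n‖ ^ 2 := by
  have h1 : ∀ z : ℂ, ((‖z‖ ^ 2 : ℝ) : ℂ) = z * (starRingEnd ℂ) z := by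
    intro z
    rw [Complex.mul_conj, Complex.normSq_eq_norm_sq]
  apply Complex.ofReal_injective
  rw [Complex.ofReal_sum, Complex.ofReal_mul, Complex.ofReal_sum]
  simp only [h1]
  have h2 : ∀ x : ZMod Q, (∑ n : ZMod Q, T n * ZMod.stdAddChar (x * n)) *
      (starRingEnd ℂ) (∑ n : ZMod Q, T n * ZMod.stdAddChar (x * n)) =
      ∑ n : ZMod Q, ∑ m : ZMod Q, T n * (starRingEnd ℂ) (T m) *
        ZMod.stdAddChar (x * (n - m)) := by
    intro x
    rw [map_sum, Finset.sum_mul_sum]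
    refine Finset.sum_congr rfl fun n _ => Finset.sum_congr rfl fun m _ => ?_
    have h3 : (ZMod.stdAddChar (x * (n - m)) : ℂ) =
        ZMod.stdAddChar (x * n) * (starRingEnd ℂ) (ZMod.stdAddChar (x * m)) := by
      rw [← AddChar.map_neg_eq_conj, ← AddChar.map_add_eq_mul]
      congr 1
      ring
    rw [h3, (starRingEnd ℂ).map_mul]
    ring
  rw [Finset.sum_congr rfl fun x _ => h2 x, Finset.sum_comm]
  rw [Finset.mul_sum]
  refine Finset.sum_congr rfl fun n _ => ?_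
  rw [Finset.sum_comm, Finset.sum_eq_single n]
  · rw [← Finset.mul_sum, AddChar.sum_mulShift _ (ZMod.isPrimitive_stdAddChar Q), sub_self,
      if_pos rfl, ZMod.card]
    push_cast
    ring
  · intro m _ hm
    rw [← Finset.mul_sum, AddChar.sum_mulShift _ (ZMod.isPrimitive_stdAddChar Q),
      if_neg (sub_ne_zero.2 (Ne.symm hm))]
    simp
  · intro h
    exact absurd (Finset.mem_univ _) h

/-- A2. -/
theorem dual_local {ι : Type*} [DecidableEq ι] (J : Finset ι) (c : ι → ℂ) (b : ι → ℤ) (Q H A : ℕ)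
    [NeZero Q] (hH : 0 < H) (hHQ : H ≤ Q) (hA : 16 * (A * H) ≤ Q) :
    ∑ a ∈ Icc (-(A : ℤ)) A, ‖∑ j ∈ J, c j * e ((a : ℝ) * (b j : ℝ) / Q)‖ ^ 2 ≤
      4 * Q / (H : ℝ) ^ 2 *
        ∑ n : ZMod Q, ‖∑ j ∈ J.filter (fun j => (n - (b j : ZMod Q)).val < H), c j‖ ^ 2 := by
  have hQ : 0 < Q := Nat.pos_of_ne_zero (NeZero.ne Q)
  have hH' : (0 : ℝ) < H := by exact_mod_cast hH
  have hAQ : 16 * A ≤ Q := by
    refine le_trans ?_ hA
    exact Nat.mul_le_mul_left _ (Nat.le_mul_of_pos_right _ hH)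
  -- the product with the window sum
  have key : ∀ a : ℤ, (∑ i ∈ range H, e ((a : ℝ) * i / Q)) *
      (∑ j ∈ J, c j * e ((a : ℝ) * (b j : ℝ) / Q)) =
      ∑ n : ZMod Q, (∑ j ∈ J.filter (fun j => (n - (b j : ZMod Q)).val < H), c j) *
        ZMod.stdAddChar ((a : ZMod Q) * n) := by
    intro a
    have h1 : ∀ n : ZMod Q, (∑ j ∈ J.filter (fun j => (n - (b j : ZMod Q)).val < H), c j) *
        ZMod.stdAddChar ((a : ZMod Q) * n) =
        ∑ j ∈ J, if (n - (b j : ZMod Q)).val < H then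
          c j * ZMod.stdAddChar ((a : ZMod Q) * n) else 0 := by
      intro n
      rw [Finset.sum_filter, Finset.sum_mul]
      refine Finset.sum_congr rfl fun j _ => ?_
      split_ifs
      · rfl
      · rw [zero_mul]
    rw [Finset.sum_congr rfl fun n _ => h1 n, Finset.sum_comm, Finset.mul_sum]
    refine Finset.sum_congr rfl fun j _ => ?_
    rw [← Finset.sum_filter, sum_window Q H hHQ (b j : ZMod Q)
      (fun n => c j * ZMod.stdAddChar ((a : ZMod Q) * n)), Finset.sum_mul]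
    refine Finset.sum_congr rfl fun i _ => ?_
    have h2 : e ((a : ℝ) * i / Q) = (ZMod.stdAddChar (((a * (i : ℤ) : ℤ)) : ZMod Q) : ℂ) := by
      rw [← e_intdiv]
      push_cast
      rfl
    have h3 : e ((a : ℝ) * (b j : ℝ) / Q) =
        (ZMod.stdAddChar (((a * b j : ℤ)) : ZMod Q) : ℂ) := by
      rw [← e_intdiv]
      push_cast
      rfl
    rw [h2, h3]
    have h4 : (a : ZMod Q) * ((b j : ZMod Q) + (i : ZMod Q)) =
        (((a * (i : ℤ) : ℤ)) : ZMod Q) + (((a * b j : ℤ)) : ZMod Q) := by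
      push_cast
      ring
    rw [h4, AddChar.map_add_eq_mul]
    ring
  -- one term
  have hterm : ∀ a ∈ Icc (-(A : ℤ)) A, ‖∑ j ∈ J, c j * e ((a : ℝ) * (b j : ℝ) / Q)‖ ^ 2 ≤
      4 / (H : ℝ) ^ 2 *
        ‖∑ n : ZMod Q, (∑ j ∈ J.filter (fun j => (n - (b j : ZMod Q)).val < H), c j) *
          ZMod.stdAddChar ((a : ZMod Q) * n)‖ ^ 2 := by
    intro a ha
    rw [Finset.mem_Icc] at ha
    have h1 : a.natAbs ≤ A := by omega
    have h2 := fejer_lower Q H hQ a (le_trans (Nat.mul_le_mul_left _ (Nat.mul_le_mul_right _ h1)) hA)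
    rw [← key a, norm_mul, mul_pow]
    have h3 : ((H : ℝ) / 2) ^ 2 ≤ ‖∑ i ∈ range H, e ((a : ℝ) * i / Q)‖ ^ 2 :=
      pow_le_pow_left₀ (by positivity) h2 2
    have h4 : 1 ≤ 4 / (H : ℝ) ^ 2 * ‖∑ i ∈ range H, e ((a : ℝ) * i / Q)‖ ^ 2 := by
      calc (1 : ℝ) = 4 / (H : ℝ) ^ 2 * ((H : ℝ) / 2) ^ 2 := by
            field_simp
            norm_num
        _ ≤ _ := mul_le_mul_of_nonneg_left h3 (by positivity)
    calc ‖∑ j ∈ J, c j * e ((a : ℝ) * (b j : ℝ) / Q)‖ ^ 2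
        = 1 * ‖∑ j ∈ J, c j * e ((a : ℝ) * (b j : ℝ) / Q)‖ ^ 2 := (one_mul _).symm
      _ ≤ (4 / (H : ℝ) ^ 2 * ‖∑ i ∈ range H, e ((a : ℝ) * i / Q)‖ ^ 2) *
          ‖∑ j ∈ J, c j * e ((a : ℝ) * (b j : ℝ) / Q)‖ ^ 2 :=
        mul_le_mul_of_nonneg_right h4 (by positivity)
      _ = _ := by ring
  refine (Finset.sum_le_sum hterm).trans ?_
  rw [← Finset.mul_sum]
  -- injectivity
  have hinj : Set.InjOn (fun a : ℤ => (a : ZMod Q)) (Icc (-(A : ℤ)) A : Finset ℤ) := by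
    intro a ha a' ha' h
    rw [Finset.mem_coe, Finset.mem_Icc] at ha ha'
    have h1 : (Q : ℤ) ∣ a' - a := (ZMod.intCast_eq_intCast_iff_dvd_sub a a' Q).1 h
    have h2 : |a' - a| < (Q : ℤ) := by
      have h5 : (16 * A : ℤ) ≤ Q := by exact_mod_cast hAQ
      have h6 : (0 : ℤ) < Q := by exact_mod_cast hQ
      rw [abs_lt]
      constructor <;> omega
    have h3 := Int.eq_zero_of_abs_lt_dvd h1 h2
    omega
  have hsum : ∑ a ∈ Icc (-(A : ℤ)) A,
      ‖∑ n : ZMod Q, (∑ j ∈ J.filter (fun j => (n - (b j : ZMod Q)).val < H), c j) *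
          ZMod.stdAddChar ((a : ZMod Q) * n)‖ ^ 2 ≤
      Q * ∑ n : ZMod Q, ‖∑ j ∈ J.filter (fun j => (n - (b j : ZMod Q)).val < H), c j‖ ^ 2 := by
    rw [← parseval_zmod Q
      (fun n => ∑ j ∈ J.filter (fun j => (n - (b j : ZMod Q)).val < H), c j)]
    rw [← Finset.sum_image (f := fun x : ZMod Q =>
      ‖∑ n : ZMod Q, (∑ j ∈ J.filter (fun j => (n - (b j : ZMod Q)).val < H), c j) *
          ZMod.stdAddChar (x * n)‖ ^ 2) hinj]
    exact Finset.sum_le_sum_of_subset_of_nonneg (Finset.subset_univ _)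
      (fun _ _ _ => by positivity)
  refine (mul_le_mul_of_nonneg_left hsum (by positivity)).trans (le_of_eq ?_)
  ring

end Pool.KV
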