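import Pool.Agent.LibKlVar.KV_Def

/-!
# Variance of Kloosterman sums of prime moduli over the first argument: row A3 (overlap of two intervals)
-/

set_option autoImplicit false

namespace Pool.KV

open Finset

theorem overlap_nat (Q H D : ℕ) [NeZero Q] (b b' : ℤ)
    (hd : (D : ZMod Q) = (b : ZMod Q) - (b' : ZMod Q)) (h : D + H ≤ Q) :
    (univ.filter (fun n : ZMod Q => (n - (b : ZMod Q)).val < H ∧ (n - (b' : ZMod Q)).val < H)).card
      = H - D := by
  have key : univ.filter (fun n : ZMod Q => (n - (b : ZMod Q)).val < H ∧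
      (n - (b' : ZMod Q)).val < H) = (range (H - D)).image (fun i : ℕ => (i : ZMod Q) + b) := by
    ext n
    simp only [mem_filter, mem_univ, true_and, mem_image, mem_range]
    constructor
    · rintro ⟨h1, h2⟩
      refine ⟨(n - (b : ZMod Q)).val, ?_, ?_⟩
      · have h3 : n - (b' : ZMod Q) = (((n - (b : ZMod Q)).val + D : ℕ) : ZMod Q) := by
          rw [Nat.cast_add, ZMod.natCast_zmod_val, hd]
          ring
        rw [h3, ZMod.val_natCast, Nat.mod_eq_of_lt (by omega)] at h2
        omega
      · rw [ZMod.natCast_zmod_val]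
        ring
    · rintro ⟨i, hi, rfl⟩
      have h3 : (i : ZMod Q) + b - b = (i : ZMod Q) := by ring
      have h4 : (i : ZMod Q) + b - b' = ((i + D : ℕ) : ZMod Q) := by
        rw [Nat.cast_add, hd]
        ring
      rw [h3, h4, ZMod.val_natCast, ZMod.val_natCast, Nat.mod_eq_of_lt (by omega),
        Nat.mod_eq_of_lt (by omega)]
      omega
  rw [key, card_image_of_injOn, card_range]
  intro i hi j hj hij
  have hi' := mem_range.1 hi
  have hj' := mem_range.1 hj
  have h5 : (i : ZMod Q) = (j : ZMod Q) := add_right_cancel hij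
  have h6 := congrArg ZMod.val h5
  rwa [ZMod.val_natCast, ZMod.val_natCast, Nat.mod_eq_of_lt (by omega),
    Nat.mod_eq_of_lt (by omega)] at h6

/-- A3. -/
theorem overlap (Q H : ℕ) [NeZero Q] (b b' d : ℤ)
    (hd : (d : ZMod Q) = (b : ZMod Q) - (b' : ZMod Q)) (h : d.natAbs + H ≤ Q) :
    (univ.filter (fun n : ZMod Q => (n - (b : ZMod Q)).val < H ∧ (n - (b' : ZMod Q)).val < H)).card
      = H - d.natAbs := by
  rcases Int.natAbs_eq d with h1 | h1
  · refine overlap_nat Q H d.natAbs b b' ?_ h
    rw [← hd]
    conv_rhs => rw [h1]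
    rw [Int.cast_natCast]
  · have h2 := overlap_nat Q H d.natAbs b' b (by
      have h3 : ((d.natAbs : ℕ) : ZMod Q) = -(d : ZMod Q) := by
        conv_rhs => rw [h1]
        rw [Int.cast_neg, neg_neg, Int.cast_natCast]
      rw [h3, hd]
      ring) h
    rw [← h2]
    congr 1
    ext n
    simp only [mem_filter, mem_univ, true_and]
    exact and_comm

end Pool.KV
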