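import Pool.Agent.LibKlVar.KV_Def
import Pool.Agent.LibKlVar.KV_A3

/-!
# Row A4: the pair sum
-/

set_option autoImplicit false

namespace Pool.KV

open Finset

theorem pa_e_int (n : ℤ) (t : ℝ) : e (t + n) = e t := by
  unfold e
  have h : (2 * Real.pi * Complex.I * ((t + n : ℝ) : ℂ)) =
      2 * Real.pi * Complex.I * (t : ℂ) + n * (2 * Real.pi * Complex.I) := by
    push_cast; ring
  rw [h, Complex.exp_periodic.int_mul n]

theorem pa_e_mod (p : ℕ) (hp : 0 < p) (m n : ℤ) (h : (m : ZMod p) = (n : ZMod p)) :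
    e ((m : ℝ) / p) = e ((n : ℝ) / p) := by
  rw [ZMod.intCast_eq_intCast_iff] at h
  obtain ⟨c, hc⟩ := h.symm.dvd
  have h1 : (m : ℝ) / p = (n : ℝ) / p + (c : ℤ) := by
    have h2 : (m : ℝ) - n = p * c := by exact_mod_cast hc
    have hp' : (p : ℝ) ≠ 0 := by positivity
    field_simp
    linarith
  rw [h1, pa_e_int]

theorem pa_conj (t : ℝ) : (starRingEnd ℂ) (e t) = e (-t) := by
  unfold e
  rw [← Complex.exp_conj]
  congr 1
  simp [Complex.conj_ofReal]
  exact Or.inl (map_ofNat (starRingEnd ℂ) 2)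

/-- The sum over residues with a single nonzero term. -/
theorem pa_single (p : ℕ) (hp : p.Prime) (c : ZMod p) (hc : c ≠ 0) (g : ℕ → ℂ) :
    ∑ x ∈ (range p).filter (fun x => x.Coprime p), (if (x : ZMod p) = c then g x else 0) =
      g c.val := by
  have : NeZero p := ⟨hp.ne_zero⟩
  have : Fact p.Prime := ⟨hp⟩
  rw [Finset.sum_eq_single c.val]
  · rw [if_pos (ZMod.natCast_zmod_val c)]
  · intro b hb hbc
    rw [if_neg]
    intro h
    apply hbc
    rw [mem_filter, mem_range] at hb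
    rw [← h, ZMod.val_natCast, Nat.mod_eq_of_lt hb.1]
  · intro h
    exfalso
    apply h
    rw [mem_filter, mem_range]
    refine ⟨ZMod.val_lt c, ?_⟩
    have h1 := (ZMod.val_coe_unit_coprime (Units.mk0 c hc))
    simpa using h1

/-- The condition attached to `k`. -/
def pa_cond (p q x y : ℕ) (m : ℤ) : Prop :=
  ((q : ZMod p) * (x : ZMod p) = (m : ZMod p)) ∧ (-((p : ZMod q) * (y : ZMod q)) = (m : ZMod q))

theorem pa_cond_iff (p q x y : ℕ) (hpq : p.Coprime q) (m : ℤ) :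
    pa_cond p q x y m ↔ ((p * q : ℕ) : ℤ) ∣ (q * x - p * y : ℤ) - m := by
  unfold pa_cond
  have h1 : ((q : ZMod p) * (x : ZMod p) = (m : ZMod p)) ↔ (p : ℤ) ∣ (q * x - p * y : ℤ) - m := by
    rw [← ZMod.intCast_zmod_eq_zero_iff_dvd]
    push_cast
    rw [ZMod.natCast_self, zero_mul, sub_zero, sub_eq_zero]
  have h2 : (-((p : ZMod q) * (y : ZMod q)) = (m : ZMod q)) ↔
      (q : ℤ) ∣ (q * x - p * y : ℤ) - m := by
    rw [← ZMod.intCast_zmod_eq_zero_iff_dvd]
    push_cast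
    rw [ZMod.natCast_self, zero_mul, zero_sub, sub_eq_zero]
  rw [h1, h2]
  push_cast
  constructor
  · rintro ⟨h3, h4⟩
    exact IsCoprime.mul_dvd (Nat.isCoprime_iff_coprime.2 hpq) h3 h4
  · intro h
    exact ⟨(Dvd.intro _ rfl).trans h, (Dvd.intro_left _ rfl).trans h⟩

theorem pa_rep (N : ℕ) (hN : 0 < N) (κ : ℤ) :
    ∃ k : ℤ, (N : ℤ) ∣ κ - k ∧ 2 * k.natAbs ≤ N := by
  have h1 := Int.emod_nonneg κ (show (N : ℤ) ≠ 0 by positivity)
  have h2 := Int.emod_lt_of_pos κ (show (0 : ℤ) < N by positivity)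
  have h3 := Int.emod_add_mul_ediv κ N
  by_cases h : 2 * (κ % N) ≤ N
  · exact ⟨κ % N, ⟨κ / N, by linarith⟩, by omega⟩
  · exact ⟨κ % N - N, ⟨κ / N + 1, by rw [mul_add]; linarith⟩, by omega⟩

open Classical in
/-- The number of common points of the two intervals. -/
theorem pa_count (X Z p q D : ℕ) (hX : 0 < X) (hXZ : X ≤ Z) (hp : p.Prime) (hq : q.Prime)
    (hpq : p ≠ q)
    (hp1 : X < p) (hp2 : p ≤ 2 * X) (hq1 : X < q) (hq2 : q ≤ 2 * X) (hD : 0 < D)
    (hDpq : p * q ∣ D) [NeZero (16 * Z * D)] (x y : ℕ) (hx : x.Coprime p) :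
    ((univ.filter (fun n : ZMod (16 * Z * D) =>
          (n - (((16 * Z * (D / p) * x : ℕ) : ℤ) : ZMod (16 * Z * D))).val < D ∧
          (n - (((16 * Z * (D / q) * y : ℕ) : ℤ) : ZMod (16 * Z * D))).val < D)).card : ℂ) =
    ∑ k ∈ Icc 1 X, ((if pa_cond p q x y k then 1 else 0) + (if pa_cond p q x y (-(k : ℤ)) then 1
      else 0)) * ((D : ℂ) * (Lam Z k p q : ℂ)) := by
  have hco : p.Coprime q := (Nat.coprime_primes hp hq).2 hpq
  obtain ⟨E, hE⟩ := hDpq
  have hp0 := hp.pos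
  have hq0 := hq.pos
  have hE0 : 0 < E := by
    rcases Nat.eq_zero_or_pos E with h | h
    · subst h; simp at hE; omega
    · exact h
  have hDp : D / p = E * q := by
    rw [hE]; rw [show p * q * E = (E * q) * p by ring]; exact Nat.mul_div_cancel _ hp0
  have hDq : D / q = E * p := by
    rw [hE]; rw [show p * q * E = (E * p) * q by ring]; exact Nat.mul_div_cancel _ hq0
  obtain ⟨k0, hk0, hk0'⟩ := pa_rep (p * q) (Nat.mul_pos hp0 hq0) (q * x - p * y)
  set d : ℤ := 16 * Z * E * k0 with hd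
  have hdabs : d.natAbs = 16 * Z * E * k0.natAbs := by
    rw [hd, Int.natAbs_mul]
    congr 1
  have h1 : (d : ZMod (16 * Z * D)) =
      (((16 * Z * (D / p) * x : ℕ) : ℤ) : ZMod (16 * Z * D)) -
      (((16 * Z * (D / q) * y : ℕ) : ℤ) : ZMod (16 * Z * D)) := by
    rw [← Int.cast_sub, ZMod.intCast_eq_intCast_iff]
    apply Int.ModEq.symm
    apply (Int.modEq_iff_dvd).2
    obtain ⟨c, hc⟩ := hk0
    refine ⟨-c, ?_⟩
    rw [hDp, hDq, hd, hE]
    push_cast at hc ⊢
    linear_combination (-(16 * (Z : ℤ) * E)) * hc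
  have h2 : d.natAbs + D ≤ 16 * Z * D := by
    rw [hdabs, hE]
    have h3 : 16 * Z * E * (2 * k0.natAbs) ≤ 16 * Z * E * (p * q) := Nat.mul_le_mul_left _ hk0'
    have h4 : 2 * (p * q * E) ≤ 16 * Z * E * (p * q) := by
      have : 2 ≤ 16 * Z := by omega
      nlinarith [Nat.mul_le_mul_right (p * q * E) this]
    nlinarith
  rw [overlap (16 * Z * D) D _ _ d h1 h2]
  have hval : (((D - d.natAbs : ℕ) : ℕ) : ℂ) = (D : ℂ) * (Lam Z k0.natAbs p q : ℂ) := by
    have hr : (((D - d.natAbs : ℕ) : ℕ) : ℝ) = (D : ℝ) * Lam Z k0.natAbs p q := by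
      unfold Lam
      rw [hdabs, mul_max_of_nonneg _ _ (Nat.cast_nonneg D), mul_zero]
      have hpq' : ((p : ℝ) * q) ≠ 0 := by positivity
      have h5 : (D : ℝ) * (1 - 16 * (Z : ℝ) * (k0.natAbs : ℕ) / (p * q)) =
          (D : ℝ) - ((16 * Z * E * k0.natAbs : ℕ) : ℝ) := by
        rw [hE]
        push_cast
        field_simp
      rw [h5]
      rcases le_total (16 * Z * E * k0.natAbs) D with h6 | h6
      · rw [Nat.cast_sub h6, max_eq_right]
        have : ((16 * Z * E * k0.natAbs : ℕ) : ℝ) ≤ D := by exact_mod_cast h6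
        linarith
      · rw [Nat.sub_eq_zero_of_le h6, Nat.cast_zero, max_eq_left]
        have : (D : ℝ) ≤ ((16 * Z * E * k0.natAbs : ℕ) : ℝ) := by exact_mod_cast h6
        linarith
    exact_mod_cast congrArg (fun t : ℝ => (t : ℂ)) hr
  rw [hval]
  -- the condition
  have hcond : ∀ m : ℤ, pa_cond p q x y m ↔ ((p * q : ℕ) : ℤ) ∣ k0 - m := by
    intro m
    rw [pa_cond_iff p q x y hco m]
    constructor
    · intro h
      have := Int.dvd_sub h hk0
      rwa [show (q * x - p * y : ℤ) - m - ((q * x - p * y : ℤ) - k0) = k0 - m by ring] at this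
    · intro h
      have := Int.dvd_add h hk0
      rwa [show k0 - m + ((q * x - p * y : ℤ) - k0) = (q * x - p * y : ℤ) - m by ring] at this
  have hk0ne : k0 ≠ 0 := by
    intro h
    have h3 : pa_cond p q x y 0 := (hcond 0).2 (by rw [h]; simp)
    have h4 := h3.1
    have : Fact p.Prime := ⟨hp⟩
    rw [Int.cast_zero, mul_eq_zero] at h4
    rcases h4 with h4 | h4
    · rw [ZMod.natCast_eq_zero_iff] at h4
      exact hpq ((Nat.prime_dvd_prime_iff_eq hp hq).1 h4)
    · rw [ZMod.natCast_eq_zero_iff] at h4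
      have h5 := Nat.eq_one_of_dvd_coprimes hx h4 dvd_rfl
      exact hp.one_lt.ne' h5
  have hbig : (X + 1) * (X + 1) ≤ p * q := Nat.mul_le_mul hp1 hq1
  have huniq : ∀ m : ℤ, m.natAbs ≤ X → ((p * q : ℕ) : ℤ) ∣ k0 - m → m = k0 := by
    intro m hm hdv
    by_contra hne
    have h3 : ((p * q : ℕ) : ℤ).natAbs ≤ (k0 - m).natAbs :=
      Int.natAbs_le_of_dvd_ne_zero hdv (sub_ne_zero.2 (Ne.symm hne))
    rw [Int.natAbs_natCast] at h3
    have h4 : (k0 - m).natAbs ≤ k0.natAbs + m.natAbs := Int.natAbs_sub_le _ _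
    have h6 : 2 * X < p * q := by nlinarith
    omega
  by_cases hle : k0.natAbs ≤ X
  · rw [Finset.sum_eq_single k0.natAbs]
    · rcases lt_or_gt_of_ne hk0ne with hneg | hpos
      · have e1 : ((k0.natAbs : ℕ) : ℤ) = -k0 := by omega
        rw [e1, neg_neg, if_neg, if_pos]
        · rw [zero_add, one_mul]
        · exact (hcond k0).2 (by simp)
        · intro h
          have := huniq (-k0) (by omega) ((hcond _).1 h)
          omega
      · have e1 : ((k0.natAbs : ℕ) : ℤ) = k0 := by omega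
        rw [e1, if_pos, if_neg]
        · rw [add_zero, one_mul]
        · intro h
          have := huniq (-k0) (by omega) ((hcond _).1 h)
          omega
        · exact (hcond k0).2 (by simp)
    · intro k hk hkne
      rw [mem_Icc] at hk
      rw [if_neg, if_neg, add_zero, zero_mul]
      · intro h
        have := huniq (-(k : ℤ)) (by omega) ((hcond _).1 h)
        omega
      · intro h
        have := huniq (k : ℤ) (by omega) ((hcond _).1 h)
        omega
    · intro h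
      exfalso
      apply h
      rw [mem_Icc]
      omega
  · have hz : Lam Z k0.natAbs p q = 0 := by
      unfold Lam
      rw [max_eq_left]
      have h3 : (p : ℝ) * q ≤ 16 * Z * (k0.natAbs : ℕ) := by
        have h4 : p * q ≤ (2 * X) * (2 * X) := Nat.mul_le_mul hp2 hq2
        have h5 : p * q ≤ 16 * Z * k0.natAbs := by
          have : X ≤ k0.natAbs := by omega
          nlinarith [Nat.mul_le_mul_left (16 * Z) this]
        exact_mod_cast h5
      have hpq' : (0 : ℝ) < (p : ℝ) * q := by positivity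
      have : 1 ≤ 16 * (Z : ℝ) * (k0.natAbs : ℕ) / (p * q) := by
        rw [le_div_iff₀ hpq']; linarith
      linarith
    rw [hz, Complex.ofReal_zero, mul_zero, eq_comm]
    apply Finset.sum_eq_zero
    intro k hk
    rw [mem_Icc] at hk
    rw [if_neg, if_neg, add_zero, zero_mul]
    · intro h
      have := huniq (-(k : ℤ)) (by omega) ((hcond _).1 h)
      omega
    · intro h
      have := huniq (k : ℤ) (by omega) ((hcond _).1 h)
      omega

open Classical in
/-- The two single sums. -/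
theorem pa_phase (p q : ℕ) (hp : p.Prime) (hq : q.Prime) (hpq : p ≠ q) (m : ℤ)
    (hmp : (m : ZMod p) ≠ 0) (hmq : (m : ZMod q) ≠ 0) :
    ∑ x ∈ (range p).filter (fun x => x.Coprime p), ∑ y ∈ (range q).filter (fun y => y.Coprime q),
      e ((inv p x : ℝ) / p) * (starRingEnd ℂ) (e ((inv q y : ℝ) / q)) *
        (if pa_cond p q x y m then 1 else 0) =
      e (((((m : ZMod p)⁻¹).val : ℕ) : ℝ) * q / p) * e (((((m : ZMod q)⁻¹).val : ℕ) : ℝ) * p / q) := by
  have : Fact p.Prime := ⟨hp⟩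
  have : Fact q.Prime := ⟨hq⟩
  have : NeZero p := ⟨hp.ne_zero⟩
  have : NeZero q := ⟨hq.ne_zero⟩
  have hqp : (q : ZMod p) ≠ 0 := by
    rw [Ne, ZMod.natCast_eq_zero_iff]
    intro h
    exact hpq ((Nat.prime_dvd_prime_iff_eq hp hq).1 h)
  have hpq' : (p : ZMod q) ≠ 0 := by
    rw [Ne, ZMod.natCast_eq_zero_iff]
    intro h
    exact hpq ((Nat.prime_dvd_prime_iff_eq hq hp).1 h).symm
  have h1 : ∀ x y : ℕ, (e ((inv p x : ℝ) / p) * (starRingEnd ℂ) (e ((inv q y : ℝ) / q)) *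
        (if pa_cond p q x y m then 1 else 0) : ℂ) =
      (if (x : ZMod p) = (m : ZMod p) * (q : ZMod p)⁻¹ then e ((inv p x : ℝ) / p) else 0) *
      (if (y : ZMod q) = -((m : ZMod q) * (p : ZMod q)⁻¹) then
        (starRingEnd ℂ) (e ((inv q y : ℝ) / q)) else 0) := by
    intro x y
    have a1 : (x : ZMod p) = (m : ZMod p) * (q : ZMod p)⁻¹ ↔
        (q : ZMod p) * (x : ZMod p) = (m : ZMod p) := by
      rw [eq_mul_inv_iff_mul_eq₀ hqp, mul_comm]
    have a2 : (y : ZMod q) = -((m : ZMod q) * (p : ZMod q)⁻¹) ↔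
        -((p : ZMod q) * (y : ZMod q)) = (m : ZMod q) := by
      constructor
      · intro h
        rw [h, mul_neg, neg_neg, mul_comm (m : ZMod q), mul_inv_cancel_left₀ hpq']
      · intro h
        rw [← h, neg_mul, neg_neg, mul_comm (p : ZMod q), mul_assoc, mul_inv_cancel₀ hpq', mul_one]
    by_cases hx : (q : ZMod p) * (x : ZMod p) = (m : ZMod p)
    · by_cases hy : -((p : ZMod q) * (y : ZMod q)) = (m : ZMod q)
      · rw [if_pos (show pa_cond p q x y m from ⟨hx, hy⟩), if_pos (a1.2 hx), if_pos (a2.2 hy),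
          mul_one]
      · rw [if_neg (fun h => hy h.2), if_neg (fun h => hy (a2.1 h)), mul_zero, mul_zero]
    · rw [if_neg (fun h => hx h.1), if_neg (fun h => hx (a1.1 h)), mul_zero, zero_mul]
  simp_rw [h1]
  rw [← Finset.sum_mul_sum]
  have hc1 : (m : ZMod p) * (q : ZMod p)⁻¹ ≠ 0 := mul_ne_zero hmp (inv_ne_zero hqp)
  have hc2 : -((m : ZMod q) * (p : ZMod q)⁻¹) ≠ 0 :=
    neg_ne_zero.2 (mul_ne_zero hmq (inv_ne_zero hpq'))
  rw [pa_single p hp _ hc1 (fun x => e ((inv p x : ℝ) / p)),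
    pa_single q hq _ hc2 (fun y => (starRingEnd ℂ) (e ((inv q y : ℝ) / q)))]
  congr 1
  · unfold inv
    have := pa_e_mod p hp.pos (((((m : ZMod p) * (q : ZMod p)⁻¹).val : ZMod p)⁻¹).val : ℤ)
      ((((m : ZMod p)⁻¹).val : ℤ) * (q : ℤ)) (by
        push_cast
        rw [ZMod.natCast_zmod_val, ZMod.natCast_zmod_val, ZMod.natCast_zmod_val, mul_inv, inv_inv])
    push_cast at this
    exact this
  · rw [pa_conj]
    unfold inv
    have := pa_e_mod q hq.pos (-(((((-((m : ZMod q) * (p : ZMod q)⁻¹)).val : ZMod q)⁻¹).val : ℤ)))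
      ((((m : ZMod q)⁻¹).val : ℤ) * (p : ℤ)) (by
        push_cast
        rw [ZMod.natCast_zmod_val, ZMod.natCast_zmod_val, ZMod.natCast_zmod_val, inv_neg, neg_neg,
          mul_inv, inv_inv])
    push_cast at this
    rw [← neg_div]
    exact this

/-- A4. -/
theorem pair_sum (X Z p q D : ℕ) (hX : 0 < X) (hXZ : X ≤ Z) (hp : p.Prime) (hq : q.Prime)
    (hpq : p ≠ q)
    (hp1 : X < p) (hp2 : p ≤ 2 * X) (hq1 : X < q) (hq2 : q ≤ 2 * X) (hD : 0 < D) (hDpq : p * q ∣ D)
    [NeZero (16 * Z * D)] :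
    ∑ x ∈ (range p).filter (fun x => x.Coprime p), ∑ y ∈ (range q).filter (fun y => y.Coprime q),
      e ((inv p x : ℝ) / p) * (starRingEnd ℂ) (e ((inv q y : ℝ) / q)) *
        ((univ.filter (fun n : ZMod (16 * Z * D) =>
          (n - (((16 * Z * (D / p) * x : ℕ) : ℤ) : ZMod (16 * Z * D))).val < D ∧
          (n - (((16 * Z * (D / q) * y : ℕ) : ℤ) : ZMod (16 * Z * D))).val < D)).card : ℂ) =
    D * ∑ k ∈ Icc 1 X, (Lam Z k p q : ℂ) * (ph k p q + (starRingEnd ℂ) (ph k p q)) := by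
  classical
  have : Fact p.Prime := ⟨hp⟩
  have : Fact q.Prime := ⟨hq⟩
  have : NeZero p := ⟨hp.ne_zero⟩
  have : NeZero q := ⟨hq.ne_zero⟩
  have h1 : ∀ x ∈ (range p).filter (fun x => x.Coprime p),
      ∀ y ∈ (range q).filter (fun y => y.Coprime q),
      e ((inv p x : ℝ) / p) * (starRingEnd ℂ) (e ((inv q y : ℝ) / q)) *
        ((univ.filter (fun n : ZMod (16 * Z * D) =>
          (n - (((16 * Z * (D / p) * x : ℕ) : ℤ) : ZMod (16 * Z * D))).val < D ∧
          (n - (((16 * Z * (D / q) * y : ℕ) : ℤ) : ZMod (16 * Z * D))).val < D)).card : ℂ) =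
      ∑ k ∈ Icc 1 X, ((D : ℂ) * (Lam Z k p q : ℂ)) *
        (e ((inv p x : ℝ) / p) * (starRingEnd ℂ) (e ((inv q y : ℝ) / q)) *
          (if pa_cond p q x y k then 1 else 0) +
        e ((inv p x : ℝ) / p) * (starRingEnd ℂ) (e ((inv q y : ℝ) / q)) *
          (if pa_cond p q x y (-(k : ℤ)) then 1 else 0)) := by
    intro x hx y hy
    rw [mem_filter] at hx
    rw [pa_count X Z p q D hX hXZ hp hq hpq hp1 hp2 hq1 hq2 hD hDpq x y hx.2, Finset.mul_sum]
    refine Finset.sum_congr rfl fun k hk => ?_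
    ring
  rw [Finset.sum_congr rfl (fun x hx => Finset.sum_congr rfl (fun y hy => h1 x hx y hy))]
  rw [Finset.mul_sum]
  rw [Finset.sum_congr rfl (fun x hx => Finset.sum_comm), Finset.sum_comm]
  refine Finset.sum_congr rfl fun k hk => ?_
  rw [mem_Icc] at hk
  rw [Finset.sum_congr rfl (fun x hx => (Finset.mul_sum _ _ _).symm), ← Finset.mul_sum]
  rw [Finset.sum_congr rfl (fun x hx => Finset.sum_add_distrib), Finset.sum_add_distrib]
  have hkp : (((k : ℕ) : ℤ) : ZMod p) ≠ 0 := by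
    rw [Int.cast_natCast, Ne, ZMod.natCast_eq_zero_iff]
    intro h
    have := Nat.le_of_dvd (by omega) h
    omega
  have hkq : (((k : ℕ) : ℤ) : ZMod q) ≠ 0 := by
    rw [Int.cast_natCast, Ne, ZMod.natCast_eq_zero_iff]
    intro h
    have := Nat.le_of_dvd (by omega) h
    omega
  have hkp' : ((-((k : ℕ) : ℤ) : ℤ) : ZMod p) ≠ 0 := by
    rw [Int.cast_neg]; exact neg_ne_zero.2 hkp
  have hkq' : ((-((k : ℕ) : ℤ) : ℤ) : ZMod q) ≠ 0 := by
    rw [Int.cast_neg]; exact neg_ne_zero.2 hkq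
  rw [pa_phase p q hp hq hpq k hkp hkq, pa_phase p q hp hq hpq (-(k : ℤ)) hkp' hkq']
  rw [mul_assoc]
  congr 2
  unfold ph
  rw [map_mul, pa_conj, pa_conj]
  congr 1
  · unfold inv
    rw [Int.cast_natCast, Int.cast_natCast]
  · congr 1
    · have := pa_e_mod p hp.pos ((((-((k : ℕ) : ℤ) : ℤ) : ZMod p)⁻¹).val * (q : ℤ))
        (-((((((k : ℕ) : ℤ) : ZMod p)⁻¹).val : ℤ) * (q : ℤ))) (by
          push_cast
          rw [ZMod.natCast_zmod_val, ZMod.natCast_zmod_val, inv_neg, neg_mul])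
      push_cast at this ⊢
      rw [this]
      unfold inv
      rw [neg_div]
    · have := pa_e_mod q hq.pos ((((-((k : ℕ) : ℤ) : ℤ) : ZMod q)⁻¹).val * (p : ℤ))
        (-((((((k : ℕ) : ℤ) : ZMod q)⁻¹).val : ℤ) * (p : ℤ))) (by
          push_cast
          rw [ZMod.natCast_zmod_val, ZMod.natCast_zmod_val, inv_neg, neg_mul])
      push_cast at this ⊢
      rw [this]
      unfold inv
      rw [neg_div]

end Pool.KV
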