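import Pool.Agent.LibKlVar.KV_Def
import Pool.Agent.LibKlVar.KV_A3

/-!
# Variance of Kloosterman sums of prime moduli over the first argument: row A5
-/

set_option autoImplicit false

namespace Pool.KV

open Finset

/-- An interval of length `H ≤ Q` in `ℤ/Q`. -/
theorem a5_card (Q H : ℕ) [NeZero Q] (b : ZMod Q) (hH : H ≤ Q) :
    (univ.filter (fun n : ZMod Q => (n - b).val < H)).card = H := by
  conv_rhs => rw [← card_range H]
  refine card_bij (fun n _ => (n - b).val) ?_ ?_ ?_
  · intro n hn
    rw [mem_filter] at hn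
    rw [mem_range]
    exact hn.2
  · intro n _ n' _ h
    have h1 := ZMod.val_injective Q h
    exact sub_left_injective h1
  · intro j hj
    rw [mem_range] at hj
    refine ⟨b + (j : ZMod Q), ?_, ?_⟩
    · rw [mem_filter, add_sub_cancel_left, ZMod.val_natCast_of_lt (lt_of_lt_of_le hj hH)]
      exact ⟨mem_univ _, hj⟩
    · rw [add_sub_cancel_left, ZMod.val_natCast_of_lt (lt_of_lt_of_le hj hH)]

/-- Two intervals which do not meet. -/
theorem a5_empty (Q H : ℕ) [NeZero Q] (b b' : ℤ) (h1 : (H : ℤ) ≤ |b' - b|)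
    (h2 : |b' - b| + H ≤ Q) :
    (univ.filter (fun n : ZMod Q => (n - (b : ZMod Q)).val < H ∧
      (n - (b' : ZMod Q)).val < H)) = ∅ := by
  rw [filter_eq_empty_iff]
  intro n _ hn
  obtain ⟨hn1, hn2⟩ := hn
  obtain ⟨i, hi⟩ : ∃ i : ℕ, i = (n - (b : ZMod Q)).val := ⟨_, rfl⟩
  obtain ⟨j, hj⟩ : ∃ j : ℕ, j = (n - (b' : ZMod Q)).val := ⟨_, rfl⟩
  rw [← hi] at hn1
  rw [← hj] at hn2
  have hi' : ((i : ℕ) : ZMod Q) = n - (b : ZMod Q) := by
    rw [hi, ZMod.natCast_zmod_val]
  have hj' : ((j : ℕ) : ZMod Q) = n - (b' : ZMod Q) := by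
    rw [hj, ZMod.natCast_zmod_val]
  have h3 : (((i : ℤ) - j - (b' - b) : ℤ) : ZMod Q) = 0 := by
    push_cast
    rw [hi', hj']
    ring
  rw [ZMod.intCast_zmod_eq_zero_iff_dvd] at h3
  have h4 : |(i : ℤ) - j - (b' - b)| < Q := by
    have h5 : |(i : ℤ) - j| < H := by
      rw [abs_lt]
      constructor <;> omega
    have h6 : |(i : ℤ) - j - (b' - b)| ≤ |(i : ℤ) - j| + |b' - b| := abs_sub _ _
    omega
  have h7 := Int.eq_zero_of_abs_lt_dvd h3 h4
  have h8 : (i : ℤ) - j = b' - b := by omega
  have h5 : |(i : ℤ) - j| < H := by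
    rw [abs_lt]
    constructor <;> omega
  rw [h8] at h5
  omega

/-- A5. The diagonal `p = q`. -/
theorem pair_diag (X Z p D : ℕ) (hX : 0 < X) (hXZ : X ≤ Z) (hp : p.Prime) (hp1 : X < p)
    (hp2 : p ≤ 2 * X) (hD : 0 < D) (hDp : p ∣ D) [NeZero (16 * Z * D)] :
    ∑ x ∈ (range p).filter (fun x => x.Coprime p), ∑ y ∈ (range p).filter (fun y => y.Coprime p),
      e ((inv p x : ℝ) / p) * (starRingEnd ℂ) (e ((inv p y : ℝ) / p)) *
        ((univ.filter (fun n : ZMod (16 * Z * D) =>
          (n - (((16 * Z * (D / p) * x : ℕ) : ℤ) : ZMod (16 * Z * D))).val < D ∧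
          (n - (((16 * Z * (D / p) * y : ℕ) : ℤ) : ZMod (16 * Z * D))).val < D)).card : ℂ) =
    D * ((p - 1 : ℕ) : ℂ) := by
  obtain ⟨E, hE⟩ := hDp
  have hp0 : 0 < p := hp.pos
  have hEp : D / p = E := by rw [hE, Nat.mul_div_cancel_left _ hp0]
  have hE0 : 0 < E := by
    rcases Nat.eq_zero_or_pos E with h | h
    · rw [h, mul_zero] at hE; omega
    · exact h
  have hZ0 : 0 < Z := lt_of_lt_of_le hX hXZ
  have he : ∀ t : ℝ, e t * (starRingEnd ℂ) (e t) = 1 := by
    intro t
    rw [Complex.mul_conj, Complex.normSq_eq_norm_sq]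
    have h1 : ‖e t‖ = 1 := by
      unfold e
      rw [show 2 * (Real.pi : ℂ) * Complex.I * (t : ℂ) = ((2 * Real.pi * t : ℝ) : ℂ) * Complex.I by
        push_cast; ring]
      exact Complex.norm_exp_ofReal_mul_I _
    rw [h1]
    norm_num
  have hin : ∀ x ∈ (range p).filter (fun x => x.Coprime p),
      ∑ y ∈ (range p).filter (fun y => y.Coprime p),
        e ((inv p x : ℝ) / p) * (starRingEnd ℂ) (e ((inv p y : ℝ) / p)) *
        ((univ.filter (fun n : ZMod (16 * Z * D) =>
          (n - (((16 * Z * (D / p) * x : ℕ) : ℤ) : ZMod (16 * Z * D))).val < D ∧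
          (n - (((16 * Z * (D / p) * y : ℕ) : ℤ) : ZMod (16 * Z * D))).val < D)).card : ℂ) = D := by
    intro x hx
    rw [Finset.sum_eq_single x]
    · rw [he, one_mul]
      have h1 : (univ.filter (fun n : ZMod (16 * Z * D) =>
          (n - (((16 * Z * (D / p) * x : ℕ) : ℤ) : ZMod (16 * Z * D))).val < D ∧
          (n - (((16 * Z * (D / p) * x : ℕ) : ℤ) : ZMod (16 * Z * D))).val < D)).card = D := by
        rw [Finset.filter_congr (q := fun n : ZMod (16 * Z * D) =>
          (n - (((16 * Z * (D / p) * x : ℕ) : ℤ) : ZMod (16 * Z * D))).val < D)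
          (fun n _ => and_self_iff)]
        refine a5_card _ _ _ ?_
        nlinarith
      rw [h1]
    · intro y hy hyx
      have h1 : (univ.filter (fun n : ZMod (16 * Z * D) =>
          (n - (((16 * Z * (D / p) * x : ℕ) : ℤ) : ZMod (16 * Z * D))).val < D ∧
          (n - (((16 * Z * (D / p) * y : ℕ) : ℤ) : ZMod (16 * Z * D))).val < D)) = ∅ := by
        have hx1 : x < p := mem_range.mp (mem_filter.mp hx).1
        have hy1 : y < p := mem_range.mp (mem_filter.mp hy).1
        have hx0 : 0 < x := by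
          rcases Nat.eq_zero_or_pos x with h | h
          · have h2 := (mem_filter.mp hx).2
            rw [h, Nat.coprime_zero_left] at h2
            omega
          · exact h
        have hy0 : 0 < y := by
          rcases Nat.eq_zero_or_pos y with h | h
          · have h2 := (mem_filter.mp hy).2
            rw [h, Nat.coprime_zero_left] at h2
            omega
          · exact h
        have hd : |(((16 * Z * (D / p) * y : ℕ) : ℤ)) - ((16 * Z * (D / p) * x : ℕ) : ℤ)| =
            16 * Z * E * |(y : ℤ) - x| := by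
          rw [hEp]
          push_cast
          rw [← mul_sub, abs_mul, abs_of_nonneg (by positivity)]
        have hyx1 : 1 ≤ |(y : ℤ) - x| := by
          have h3 : (y : ℤ) - x ≠ 0 := by omega
          exact Int.one_le_abs h3
        have hyx2 : |(y : ℤ) - x| ≤ p - 2 := by
          rw [abs_le]
          constructor <;> omega
        have hp2' : (p : ℤ) ≤ 2 * Z := by
          have : p ≤ 2 * Z := le_trans hp2 (Nat.mul_le_mul_left 2 hXZ)
          exact_mod_cast this
        have hDE : (D : ℤ) = p * E := by rw [hE]; push_cast; ring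
        have hE0' : (0 : ℤ) < E := by exact_mod_cast hE0
        have hZE : (0 : ℤ) ≤ 16 * Z * E := by positivity
        have hpE : (p : ℤ) * E ≤ 2 * Z * E := mul_le_mul_of_nonneg_right hp2' hE0'.le
        refine a5_empty _ _ _ _ ?_ ?_
        · rw [hd, hDE]
          have h5 : 16 * (Z : ℤ) * E * 1 ≤ 16 * Z * E * |(y : ℤ) - x| :=
            mul_le_mul_of_nonneg_left hyx1 hZE
          have h6 : (0 : ℤ) ≤ Z * E := by positivity
          linarith
        · rw [hd]
          have h5 : 16 * (Z : ℤ) * E * |(y : ℤ) - x| ≤ 16 * Z * E * (p - 2) :=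
            mul_le_mul_of_nonneg_left hyx2 hZE
          have h6 : (0 : ℤ) ≤ Z * E := by positivity
          push_cast
          rw [hDE]
          nlinarith
      rw [h1, card_empty, Nat.cast_zero, mul_zero]
    · intro h
      exact absurd hx h
  rw [Finset.sum_congr rfl hin, Finset.sum_const, nsmul_eq_mul, mul_comm]
  congr 2
  rw [← Nat.totient_prime hp, Nat.totient_eq_card_coprime]
  congr 1
  refine Finset.filter_congr fun x _ => ?_
  rw [Nat.coprime_comm]

end Pool.KV
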