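import Pool.Agent.LibKlVar.KV_Def
import Pool.Agent.LibKlVar.KV_A2
import Pool.Agent.LibKlVar.KV_A4
import Pool.Agent.LibKlVar.KV_A5
import Pool.Agent.LibKlVar.KV_A6

/-!
# Variance of Kloosterman sums: row A7, the reduction to a sum over `k ≤ X`
-/

set_option autoImplicit false

namespace Pool.KV

open Finset

/-- Expansion of the sum of the squares. -/
theorem expand_sq {ι κ : Type*} [Fintype κ] (J : Finset ι) (c : ι → ℂ) (R : κ → ι → Prop)
    [∀ n j, Decidable (R n j)] :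
    ((∑ n : κ, ‖∑ j ∈ J.filter (fun j => R n j), c j‖ ^ 2 : ℝ) : ℂ) =
      ∑ j ∈ J, ∑ j' ∈ J, c j * (starRingEnd ℂ) (c j') *
        ((univ.filter (fun n : κ => R n j ∧ R n j')).card : ℂ) := by
  have h1 : ((∑ n : κ, ‖∑ j ∈ J.filter (fun j => R n j), c j‖ ^ 2 : ℝ) : ℂ) =
      ∑ n : κ, ∑ j ∈ J, ∑ j' ∈ J, if (R n j ∧ R n j') then c j * (starRingEnd ℂ) (c j') else 0 := by
    rw [Complex.ofReal_sum]
    refine Finset.sum_congr rfl fun n _ => ?_
    rw [Complex.ofReal_pow, ← Complex.mul_conj', map_sum, Finset.sum_mul_sum, Finset.sum_filter]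
    refine Finset.sum_congr rfl fun j _ => ?_
    rw [Finset.sum_filter]
    split_ifs with h
    · refine Finset.sum_congr rfl fun j' _ => ?_
      simp [h]
    · symm
      refine Finset.sum_eq_zero fun j' _ => ?_
      simp [h]
  rw [h1, Finset.sum_comm]
  refine Finset.sum_congr rfl fun j _ => ?_
  rw [Finset.sum_comm]
  refine Finset.sum_congr rfl fun j' _ => ?_
  rw [← Finset.sum_filter, Finset.sum_const, nsmul_eq_mul, mul_comm]

/-- A7. The reduction to a sum over `k ≤ X`. -/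
theorem reduce (X Z : ℕ) (hX : 0 < X) (hXZ : X ≤ Z) (P : Finset ℕ)
    (hP : ∀ p ∈ P, p.Prime ∧ X < p ∧ p ≤ 2 * X) (α : ℕ → ℂ) :
    ∑ a ∈ Icc (-(Z : ℤ)) Z, ‖∑ p ∈ P, α p * (kl a p / (Real.sqrt p : ℂ))‖ ^ 2 ≤
      64 * Z * (∑ p ∈ P, ‖α p‖ ^ 2 +
        ‖∑ p ∈ P, ∑ q ∈ P, if p = q then 0 else
          (α p / (Real.sqrt p : ℂ)) * ((starRingEnd ℂ) (α q) / (Real.sqrt q : ℂ)) *
          ∑ k ∈ Icc 1 X, (Lam Z k p q : ℂ) * (ph k p q + (starRingEnd ℂ) (ph k p q))‖) := by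
  classical
  obtain ⟨D, hD⟩ : ∃ D : ℕ, D = ∏ p ∈ P, p := ⟨_, rfl⟩
  have hDpos : 0 < D := by rw [hD]; exact Finset.prod_pos (fun p hp => (hP p hp).1.pos)
  have hZ : 0 < Z := lt_of_lt_of_le hX hXZ
  have hZR : (0 : ℝ) < Z := by exact_mod_cast hZ
  have : NeZero (16 * Z * D) := ⟨by positivity⟩
  have hdvd : ∀ p ∈ P, p ∣ D := fun p hp => by rw [hD]; exact Finset.dvd_prod_of_mem _ hp
  have hdvd2 : ∀ p ∈ P, ∀ q ∈ P, p ≠ q → p * q ∣ D := fun p hp q hq hpq =>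
    Nat.Coprime.mul_dvd_of_dvd_of_dvd ((Nat.coprime_primes (hP p hp).1 (hP q hq).1).2 hpq)
      (hdvd p hp) (hdvd q hq)
  have hDR : (0 : ℝ) < D := by exact_mod_cast hDpos
  obtain ⟨J, hJ⟩ : ∃ J : Finset (Σ _ : ℕ, ℕ), J = P.sigma (fun p => (range p).filter (fun x => x.Coprime p)) :=
    ⟨_, rfl⟩
  obtain ⟨c, hc⟩ : ∃ c : (Σ _ : ℕ, ℕ) → ℂ, c = fun j => α j.1 / (Real.sqrt j.1 : ℂ) *
    e ((inv j.1 j.2 : ℝ) / j.1) := ⟨_, rfl⟩
  obtain ⟨b, hb⟩ : ∃ b : (Σ _ : ℕ, ℕ) → ℤ, b = fun j => ((16 * Z * (D / j.1) * j.2 : ℕ) : ℤ) := ⟨_, rfl⟩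
  have h1 := dual_local J c b (16 * Z * D) D Z hDpos (Nat.le_mul_of_pos_left D (by positivity))
    (le_of_eq (by ring))
  have h2 : ∀ a : ℤ, ∑ p ∈ P, α p * (kl a p / (Real.sqrt p : ℂ)) =
      ∑ j ∈ J, c j * e ((a : ℝ) * (b j : ℝ) / (16 * Z * D : ℕ)) := by
    intro a
    rw [hJ, Finset.sum_sigma]
    refine Finset.sum_congr rfl fun p hp => ?_
    rw [kl_eq a p (hP p hp).1.pos, Finset.sum_div, Finset.mul_sum]
    refine Finset.sum_congr rfl fun x _ => ?_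
    have hpR : (p : ℝ) ≠ 0 := by exact_mod_cast (hP p hp).1.pos.ne'
    obtain ⟨t, ht⟩ := hdvd p hp
    have ht0 : (t : ℝ) ≠ 0 := by
      have : t ≠ 0 := by rintro rfl; simp at ht; omega
      exact_mod_cast this
    have hdiv : D / p = t := by rw [ht]; exact Nat.mul_div_cancel_left _ (hP p hp).1.pos
    have hx : (a : ℝ) * (b ⟨p, x⟩ : ℝ) / (16 * Z * D : ℕ) = (a : ℝ) * x / p := by
      rw [hb]
      simp only [hdiv]
      push_cast
      rw [ht]
      push_cast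
      field_simp
    rw [hx, hc]
    ring
  have hW : ∀ p ∈ P, ∀ q ∈ P,
      ∑ x ∈ (range p).filter (fun x => x.Coprime p), ∑ y ∈ (range q).filter (fun y => y.Coprime q),
        c ⟨p, x⟩ * (starRingEnd ℂ) (c ⟨q, y⟩) * ((univ.filter (fun n : ZMod (16 * Z * D) =>
          (n - (b ⟨p, x⟩ : ZMod (16 * Z * D))).val < D ∧ (n - (b ⟨q, y⟩ : ZMod (16 * Z * D))).val < D)).card : ℂ) =
      (α p / (Real.sqrt p : ℂ)) * ((starRingEnd ℂ) (α q) / (Real.sqrt q : ℂ)) *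
      ∑ x ∈ (range p).filter (fun x => x.Coprime p), ∑ y ∈ (range q).filter (fun y => y.Coprime q),
      e ((inv p x : ℝ) / p) * (starRingEnd ℂ) (e ((inv q y : ℝ) / q)) *
        ((univ.filter (fun n : ZMod (16 * Z * D) =>
          (n - (((16 * Z * (D / p) * x : ℕ) : ℤ) : ZMod (16 * Z * D))).val < D ∧
          (n - (((16 * Z * (D / q) * y : ℕ) : ℤ) : ZMod (16 * Z * D))).val < D)).card : ℂ) := by
    intro p _ q _
    rw [Finset.mul_sum]
    refine Finset.sum_congr rfl fun x _ => ?_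
    rw [Finset.mul_sum]
    refine Finset.sum_congr rfl fun y _ => ?_
    rw [hc, hb]
    simp only [map_mul, map_div₀, Complex.conj_ofReal]
    ring
  have hS : ((∑ n : ZMod (16 * Z * D), ‖∑ j ∈ J.filter (fun j => (n - (b j : ZMod (16 * Z * D))).val < D), c j‖ ^ 2 : ℝ) : ℂ) =
      ((D * ∑ p ∈ P, ‖α p‖ ^ 2 * ((p - 1 : ℕ) : ℝ) / p : ℝ) : ℂ) +
        D * ∑ p ∈ P, ∑ q ∈ P, if p = q then 0 else
          (α p / (Real.sqrt p : ℂ)) * ((starRingEnd ℂ) (α q) / (Real.sqrt q : ℂ)) *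
          ∑ k ∈ Icc 1 X, (Lam Z k p q : ℂ) * (ph k p q + (starRingEnd ℂ) (ph k p q)) := by
    rw [expand_sq J c (fun (n : ZMod (16 * Z * D)) j => (n - (b j : ZMod (16 * Z * D))).val < D), hJ,
      Finset.sum_sigma, Complex.ofReal_mul, Complex.ofReal_sum, Complex.ofReal_natCast, ← mul_add,
      ← Finset.sum_add_distrib, Finset.mul_sum]
    refine Finset.sum_congr rfl fun p hp => ?_
    have hpR : (p : ℝ) ≠ 0 := by exact_mod_cast (hP p hp).1.pos.ne'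
    have hpC : (p : ℂ) ≠ 0 := by exact_mod_cast (hP p hp).1.pos.ne'
    have e1 : ∑ x ∈ (range p).filter (fun x => x.Coprime p),
        ∑ j' ∈ P.sigma (fun p => (range p).filter (fun x => x.Coprime p)),
          c ⟨p, x⟩ * (starRingEnd ℂ) (c j') * ((univ.filter (fun n : ZMod (16 * Z * D) =>
            (n - (b ⟨p, x⟩ : ZMod (16 * Z * D))).val < D ∧
              (n - (b j' : ZMod (16 * Z * D))).val < D)).card : ℂ) =
        ∑ q ∈ P, ∑ x ∈ (range p).filter (fun x => x.Coprime p), ∑ y ∈ (range q).filter (fun y => y.Coprime q),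
        c ⟨p, x⟩ * (starRingEnd ℂ) (c ⟨q, y⟩) * ((univ.filter (fun n : ZMod (16 * Z * D) =>
          (n - (b ⟨p, x⟩ : ZMod (16 * Z * D))).val < D ∧ (n - (b ⟨q, y⟩ : ZMod (16 * Z * D))).val < D)).card : ℂ) := by
      rw [Finset.sum_comm (s := P)]
      refine Finset.sum_congr rfl fun x _ => ?_
      rw [Finset.sum_sigma]
    rw [e1, Finset.sum_congr rfl (fun q hq => hW p hp q hq)]
    have e2 : ∀ q ∈ P, (α p / (Real.sqrt p : ℂ)) * ((starRingEnd ℂ) (α q) / (Real.sqrt q : ℂ)) *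
      ∑ x ∈ (range p).filter (fun x => x.Coprime p), ∑ y ∈ (range q).filter (fun y => y.Coprime q),
      e ((inv p x : ℝ) / p) * (starRingEnd ℂ) (e ((inv q y : ℝ) / q)) *
        ((univ.filter (fun n : ZMod (16 * Z * D) =>
          (n - (((16 * Z * (D / p) * x : ℕ) : ℤ) : ZMod (16 * Z * D))).val < D ∧
          (n - (((16 * Z * (D / q) * y : ℕ) : ℤ) : ZMod (16 * Z * D))).val < D)).card : ℂ) =
      (if p = q then (D : ℂ) * (((‖α p‖ ^ 2 * ((p - 1 : ℕ) : ℝ) / p : ℝ)) : ℂ) else 0) +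
        D * (if p = q then 0 else
          (α p / (Real.sqrt p : ℂ)) * ((starRingEnd ℂ) (α q) / (Real.sqrt q : ℂ)) *
          ∑ k ∈ Icc 1 X, (Lam Z k p q : ℂ) * (ph k p q + (starRingEnd ℂ) (ph k p q))) := by
      intro q hq
      by_cases hpq : p = q
      · subst hpq
        rw [if_pos rfl, if_pos rfl, mul_zero, add_zero,
          pair_diag X Z p D hX hXZ (hP p hp).1 (hP p hp).2.1 (hP p hp).2.2 hDpos (hdvd p hp)]
        have h3 : (Real.sqrt p : ℂ) * (Real.sqrt p : ℂ) = p := by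
          rw [← Complex.ofReal_mul, Real.mul_self_sqrt (Nat.cast_nonneg p), Complex.ofReal_natCast]
        have h4 : α p * (starRingEnd ℂ) (α p) = ((‖α p‖ ^ 2 : ℝ) : ℂ) := by
          rw [Complex.mul_conj', Complex.ofReal_pow]
        rw [div_mul_div_comm, h3, h4]
        push_cast
        ring
      · rw [if_neg hpq, if_neg hpq, zero_add,
          pair_sum X Z p q D hX hXZ (hP p hp).1 (hP q hq).1 hpq (hP p hp).2.1 (hP p hp).2.2 (hP q hq).2.1
            (hP q hq).2.2 hDpos (hdvd2 p hp q hq hpq)]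
        ring
    rw [Finset.sum_congr rfl e2, Finset.sum_add_distrib, Finset.sum_ite_eq, if_pos hp, ← Finset.mul_sum,
      ← mul_add]
  have hS2 : (∑ n : ZMod (16 * Z * D), ‖∑ j ∈ J.filter (fun j => (n - (b j : ZMod (16 * Z * D))).val < D), c j‖ ^ 2 : ℝ) ≤
      D * (∑ p ∈ P, ‖α p‖ ^ 2 + ‖∑ p ∈ P, ∑ q ∈ P, if p = q then 0 else
          (α p / (Real.sqrt p : ℂ)) * ((starRingEnd ℂ) (α q) / (Real.sqrt q : ℂ)) *
          ∑ k ∈ Icc 1 X, (Lam Z k p q : ℂ) * (ph k p q + (starRingEnd ℂ) (ph k p q))‖) := by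
    have h3 := congrArg norm hS
    rw [Complex.norm_real, Real.norm_of_nonneg (Finset.sum_nonneg fun n _ => by positivity)] at h3
    rw [h3, mul_add]
    refine (norm_add_le _ _).trans (add_le_add ?_ ?_)
    · rw [Complex.norm_real, Real.norm_of_nonneg (by positivity)]
      refine mul_le_mul_of_nonneg_left (Finset.sum_le_sum fun p hp => ?_) hDR.le
      have hpR : (0 : ℝ) < p := by exact_mod_cast (hP p hp).1.pos
      rw [div_le_iff₀ hpR]
      refine mul_le_mul_of_nonneg_left ?_ (by positivity)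
      exact_mod_cast Nat.sub_le p 1
    · rw [norm_mul, Complex.norm_natCast]
  have h5 : 4 * ((16 * Z * D : ℕ) : ℝ) / (D : ℝ) ^ 2 = 64 * Z / D := by
    push_cast
    field_simp
    ring
  calc ∑ a ∈ Icc (-(Z : ℤ)) Z, ‖∑ p ∈ P, α p * (kl a p / (Real.sqrt p : ℂ))‖ ^ 2
      = ∑ a ∈ Icc (-(Z : ℤ)) Z, ‖∑ j ∈ J, c j * e ((a : ℝ) * (b j : ℝ) / (16 * Z * D : ℕ))‖ ^ 2 :=
        Finset.sum_congr rfl fun a _ => by rw [h2 a]
    _ ≤ _ := h1
    _ ≤ 4 * ((16 * Z * D : ℕ) : ℝ) / (D : ℝ) ^ 2 * (D * (∑ p ∈ P, ‖α p‖ ^ 2 +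
        ‖∑ p ∈ P, ∑ q ∈ P, if p = q then 0 else
          (α p / (Real.sqrt p : ℂ)) * ((starRingEnd ℂ) (α q) / (Real.sqrt q : ℂ)) *
          ∑ k ∈ Icc 1 X, (Lam Z k p q : ℂ) * (ph k p q + (starRingEnd ℂ) (ph k p q))‖)) :=
        mul_le_mul_of_nonneg_left hS2 (by positivity)
    _ = _ := by
        rw [h5]
        field_simp

end Pool.KV
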