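import Pool.Agent.LibKlVar.KV_Def

/-!
# Variance of Kloosterman sums, row B1: reciprocity
-/

set_option autoImplicit false

namespace Pool.KV

open Finset

theorem b1_e_add (x y : ℝ) : e (x + y) = e x * e y := by
  unfold e
  rw [← Complex.exp_add]
  congr 1
  push_cast
  ring

theorem b1_e_int (n : ℤ) : e (n : ℝ) = 1 := by
  unfold e
  rw [Complex.exp_eq_one_iff]
  refine ⟨n, ?_⟩
  push_cast
  ring

theorem b1_e_congr {x y : ℝ} (n : ℤ) (h : x = y + n) : e x = e y := by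
  rw [h, b1_e_add, b1_e_int, mul_one]

theorem b1_inv_mul {c x : ℕ} [NeZero c] (h : x.Coprime c) : ((inv c x * x : ℕ) : ZMod c) = 1 := by
  unfold inv
  rw [Nat.cast_mul, ZMod.natCast_zmod_val, mul_comm]
  exact ZMod.coe_mul_inv_eq_one x h

/-- The reciprocity of the inverses. -/
theorem b1_recip {k p : ℕ} (hk : 0 < k) (hp : 0 < p) (hc : k.Coprime p) :
    ∃ m : ℤ, (inv p k : ℝ) / p = 1 / (k * p) - (inv k p : ℝ) / k + m := by
  have : NeZero k := ⟨hk.ne'⟩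
  have : NeZero p := ⟨hp.ne'⟩
  have h1 : inv p k * k + inv k p * p ≡ 1 [MOD p] := by
    rw [← ZMod.natCast_eq_natCast_iff, Nat.cast_add, b1_inv_mul hc]
    simp
  have h2 : inv p k * k + inv k p * p ≡ 1 [MOD k] := by
    rw [← ZMod.natCast_eq_natCast_iff, Nat.cast_add, b1_inv_mul hc.symm]
    simp
  have h3 : inv p k * k + inv k p * p ≡ 1 [MOD k * p] :=
    (Nat.modEq_and_modEq_iff_modEq_mul hc).1 ⟨h2, h1⟩
  obtain ⟨m, hm⟩ := (Nat.modEq_iff_dvd.1 h3.symm)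
  refine ⟨m, ?_⟩
  have hm' : (inv p k : ℝ) * k + inv k p * p - 1 = k * p * m := by
    exact_mod_cast hm
  have hk' : (k : ℝ) ≠ 0 := by exact_mod_cast hk.ne'
  have hp' : (p : ℝ) ≠ 0 := by exact_mod_cast hp.ne'
  field_simp
  linarith

/-- B1. -/
theorem recip (k p q : ℕ) (hk : 0 < k) (hp : p.Prime) (hq : q.Prime) (hkp : k < p) (hkq : k < q) :
    ph k p q = fk k p q * e (((q : ℝ) / p + (p : ℝ) / q) / k) := by
  have : NeZero k := ⟨hk.ne'⟩
  have hcp : k.Coprime p := (Nat.coprime_comm.1 ((Nat.Prime.coprime_iff_not_dvd hp).2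
    (fun h => absurd (Nat.le_of_dvd hk h) (not_le.2 hkp))))
  have hcq : k.Coprime q := (Nat.coprime_comm.1 ((Nat.Prime.coprime_iff_not_dvd hq).2
    (fun h => absurd (Nat.le_of_dvd hk h) (not_le.2 hkq))))
  obtain ⟨m1, h1⟩ := b1_recip hk hp.pos hcp
  obtain ⟨m2, h2⟩ := b1_recip hk hq.pos hcq
  have h3 : (((q * inv k p + p * inv k q : ℕ) : ZMod k)) =
      (q : ZMod k) * (p : ZMod k)⁻¹ + (p : ZMod k) * (q : ZMod k)⁻¹ := by
    unfold inv
    push_cast
    rw [ZMod.natCast_zmod_val, ZMod.natCast_zmod_val]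
  have h4 : (((q : ZMod k) * (p : ZMod k)⁻¹ + (p : ZMod k) * (q : ZMod k)⁻¹).val) ≡
      q * inv k p + p * inv k q [MOD k] := by
    rw [← ZMod.natCast_eq_natCast_iff, h3, ZMod.natCast_zmod_val]
  obtain ⟨m3, h5⟩ := Nat.modEq_iff_dvd.1 h4
  unfold ph fk
  rw [← b1_e_add, ← b1_e_add]
  generalize ((q : ZMod k) * (p : ZMod k)⁻¹ + (p : ZMod k) * (q : ZMod k)⁻¹).val = N at h5 ⊢
  have h5' : (q : ℝ) * inv k p + p * inv k q - N = k * m3 := by exact_mod_cast h5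
  refine b1_e_congr (q * m1 + p * m2 - m3) ?_
  have hk' : (k : ℝ) ≠ 0 := by exact_mod_cast hk.ne'
  have hp' : (p : ℝ) ≠ 0 := by exact_mod_cast hp.ne_zero
  have hq' : (q : ℝ) ≠ 0 := by exact_mod_cast hq.ne_zero
  have e1 : (inv p k : ℝ) * q / p = q * (1 / (k * p) - (inv k p : ℝ) / k + m1) := by
    rw [← h1]; ring
  have e2 : (inv q k : ℝ) * p / q = p * (1 / (k * q) - (inv k q : ℝ) / k + m2) := by
    rw [← h2]; ring
  have e3 : (m3 : ℝ) = (q * inv k p + p * inv k q - N) / k := by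
    rw [h5']; field_simp
  push_cast
  rw [e1, e2, e3]
  field_simp
  ring

end Pool.KV
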