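import Pool.Agent.LibKlVar.KV_Def

/-!
# Operator norms of matrices: rows C1, C2, C3, C7
-/

set_option autoImplicit false

namespace Pool.KV

open Finset

/-- The bound may be increased. -/
theorem OpBd.mono {P : Finset ℕ} {M : ℕ → ℕ → ℂ} {B B' : ℝ} (h : OpBd P M B) (hB : B ≤ B') :
    OpBd P M B' := by
  intro u v
  refine (h u v).trans ?_
  exact mul_le_mul_of_nonneg_right hB (mul_nonneg (Real.sqrt_nonneg _) (Real.sqrt_nonneg _))

theorem sqrt_sum_mul_le {P : Finset ℕ} (u f : ℕ → ℂ) (F : ℝ) (hF : 0 ≤ F)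
    (hf : ∀ p ∈ P, ‖f p‖ ≤ F) :
    Real.sqrt (∑ p ∈ P, ‖u p * f p‖ ^ 2) ≤ F * Real.sqrt (∑ p ∈ P, ‖u p‖ ^ 2) := by
  have h1 : ∑ p ∈ P, ‖u p * f p‖ ^ 2 ≤ F ^ 2 * ∑ p ∈ P, ‖u p‖ ^ 2 := by
    rw [Finset.mul_sum]
    refine Finset.sum_le_sum fun p hp => ?_
    rw [norm_mul, mul_pow, mul_comm]
    exact mul_le_mul_of_nonneg_right (pow_le_pow_left₀ (norm_nonneg _) (hf p hp) 2)
      (by positivity)
  calc Real.sqrt (∑ p ∈ P, ‖u p * f p‖ ^ 2) ≤ Real.sqrt (F ^ 2 * ∑ p ∈ P, ‖u p‖ ^ 2) :=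
        Real.sqrt_le_sqrt h1
    _ = F * Real.sqrt (∑ p ∈ P, ‖u p‖ ^ 2) := by
        rw [Real.sqrt_mul (sq_nonneg F), Real.sqrt_sq hF]

/-- C1. -/
theorem OpBd.mul_sep {P : Finset ℕ} {M : ℕ → ℕ → ℂ} {B : ℝ} (h : OpBd P M B) (hB : 0 ≤ B)
    (f g : ℕ → ℂ) (F F' : ℝ) (hF : 0 ≤ F) (hF' : 0 ≤ F') (hf : ∀ p ∈ P, ‖f p‖ ≤ F)
    (hg : ∀ q ∈ P, ‖g q‖ ≤ F') : OpBd P (fun p q => f p * g q * M p q) (F * F' * B) := by
  intro u v
  have h1 := h (fun p => u p * f p) (fun q => v q * g q)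
  have h2 : ∑ p ∈ P, ∑ q ∈ P, u p * v q * (f p * g q * M p q) =
      ∑ p ∈ P, ∑ q ∈ P, (u p * f p) * (v q * g q) * M p q := by
    refine Finset.sum_congr rfl fun p _ => Finset.sum_congr rfl fun q _ => ?_
    ring
  rw [h2]
  refine h1.trans ?_
  have h3 := sqrt_sum_mul_le (P := P) u f F hF hf
  have h4 := sqrt_sum_mul_le (P := P) v g F' hF' hg
  calc B * (Real.sqrt (∑ p ∈ P, ‖u p * f p‖ ^ 2) * Real.sqrt (∑ q ∈ P, ‖v q * g q‖ ^ 2))
      ≤ B * ((F * Real.sqrt (∑ p ∈ P, ‖u p‖ ^ 2)) * (F' * Real.sqrt (∑ q ∈ P, ‖v q‖ ^ 2))) := by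
        refine mul_le_mul_of_nonneg_left ?_ hB
        exact mul_le_mul h3 h4 (Real.sqrt_nonneg _) (by positivity)
    _ = F * F' * B * (Real.sqrt (∑ p ∈ P, ‖u p‖ ^ 2) * Real.sqrt (∑ q ∈ P, ‖v q‖ ^ 2)) := by
        ring

/-- C2. -/
theorem OpBd.add {P : Finset ℕ} {M M' : ℕ → ℕ → ℂ} {B B' : ℝ} (h : OpBd P M B) (h' : OpBd P M' B') :
    OpBd P (fun p q => M p q + M' p q) (B + B') := by
  intro u v
  have h2 : ∑ p ∈ P, ∑ q ∈ P, u p * v q * (M p q + M' p q) =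
      ∑ p ∈ P, ∑ q ∈ P, u p * v q * M p q + ∑ p ∈ P, ∑ q ∈ P, u p * v q * M' p q := by
    rw [← Finset.sum_add_distrib]
    refine Finset.sum_congr rfl fun p _ => ?_
    rw [← Finset.sum_add_distrib]
    refine Finset.sum_congr rfl fun q _ => ?_
    ring
  rw [h2, add_mul]
  exact (norm_add_le _ _).trans (add_le_add (h u v) (h' u v))

/-- C3. -/
theorem OpBd.sum {ι : Type*} [DecidableEq ι] {P : Finset ℕ} (s : Finset ι) (M : ι → ℕ → ℕ → ℂ)
    (B : ι → ℝ) (h : ∀ i ∈ s, OpBd P (M i) (B i)) :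
    OpBd P (fun p q => ∑ i ∈ s, M i p q) (∑ i ∈ s, B i) := by
  induction s using Finset.induction_on with
  | empty =>
    intro u v
    simp
  | insert a s ha ih =>
    have h1 := (h a (Finset.mem_insert_self a s)).add
      (ih fun i hi => h i (Finset.mem_insert_of_mem hi))
    rw [Finset.sum_insert ha]
    have h2 : (fun p q => ∑ i ∈ insert a s, M i p q) =
        fun p q => M a p q + ∑ i ∈ s, M i p q := by
      funext p q
      rw [Finset.sum_insert ha]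
    rw [h2]
    exact h1

/-- C7. The complex conjugate matrix has the same norm. -/
theorem OpBd.conj {P : Finset ℕ} {M : ℕ → ℕ → ℂ} {B : ℝ} (h : OpBd P M B) :
    OpBd P (fun p q => (starRingEnd ℂ) (M p q)) B := by
  intro u v
  have h1 := h (fun p => (starRingEnd ℂ) (u p)) (fun q => (starRingEnd ℂ) (v q))
  have h2 : ∑ p ∈ P, ∑ q ∈ P, u p * v q * (starRingEnd ℂ) (M p q) =
      (starRingEnd ℂ) (∑ p ∈ P, ∑ q ∈ P,
        (starRingEnd ℂ) (u p) * (starRingEnd ℂ) (v q) * M p q) := by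
    rw [map_sum]
    refine Finset.sum_congr rfl fun p _ => ?_
    rw [map_sum]
    refine Finset.sum_congr rfl fun q _ => ?_
    rw [map_mul, map_mul, Complex.conj_conj, Complex.conj_conj]
  rw [h2, Complex.norm_conj]
  simpa only [Complex.norm_conj] using h1

end Pool.KV
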