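import Pool.Agent.LibKlVar.KV_C1

/-!
# Operator norms of matrices: row C4
-/

set_option autoImplicit false

namespace Pool.KV

open Finset Filter Topology

theorem exp_partial_tendsto (x : ℂ) :
    Tendsto (fun n : ℕ => ∑ j ∈ range n, x ^ j / (j.factorial : ℂ)) atTop (𝓝 (Complex.exp x)) := by
  have h := (NormedSpace.expSeries_div_hasSum_exp (𝔸 := ℂ) x).tendsto_sum_nat
  rw [Complex.exp_eq_exp_ℂ]
  exact h

/-- C4. -/
theorem OpBd.exp_sep {P : Finset ℕ} {M : ℕ → ℕ → ℂ} {B : ℝ} (h : OpBd P M B) (hB : 0 ≤ B)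
    (z : ℂ) (f g : ℕ → ℂ) (F F' : ℝ) (hF : 0 ≤ F) (hF' : 0 ≤ F') (hf : ∀ p ∈ P, ‖f p‖ ≤ F)
    (hg : ∀ q ∈ P, ‖g q‖ ≤ F') :
    OpBd P (fun p q => Complex.exp (z * (f p * g q)) * M p q) (Real.exp (‖z‖ * (F * F')) * B) := by
  intro u v
  set S : ℝ := Real.sqrt (∑ p ∈ P, ‖u p‖ ^ 2) * Real.sqrt (∑ q ∈ P, ‖v q‖ ^ 2) with hS
  have hS0 : 0 ≤ S := mul_nonneg (Real.sqrt_nonneg _) (Real.sqrt_nonneg _)
  -- partial sums
  have hpart : ∀ n : ℕ, ‖∑ p ∈ P, ∑ q ∈ P, u p * v q *
      ((∑ j ∈ range n, (z * (f p * g q)) ^ j / (j.factorial : ℂ)) * M p q)‖ ≤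
      Real.exp (‖z‖ * (F * F')) * B * S := by
    intro n
    have h1 : ∀ j ∈ range n, OpBd P (fun p q => (z * (f p * g q)) ^ j / (j.factorial : ℂ) * M p q)
        ((‖z‖ * (F * F')) ^ j / (j.factorial : ℝ) * B) := by
      intro j _
      have h2 := h.mul_sep hB (fun p => z ^ j / (j.factorial : ℂ) * f p ^ j) (fun q => g q ^ j)
        (‖z‖ ^ j / (j.factorial : ℝ) * F ^ j) (F' ^ j) (by positivity) (by positivity)
        (fun p hp => by
          rw [norm_mul, norm_div, norm_pow, norm_pow, Complex.norm_natCast]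
          exact mul_le_mul_of_nonneg_left (pow_le_pow_left₀ (norm_nonneg _) (hf p hp) j)
            (by positivity))
        (fun q hq => by
          rw [norm_pow]
          exact pow_le_pow_left₀ (norm_nonneg _) (hg q hq) j)
      have e1 : (fun p q => z ^ j / (j.factorial : ℂ) * f p ^ j * g q ^ j * M p q) =
          (fun p q => (z * (f p * g q)) ^ j / (j.factorial : ℂ) * M p q) := by
        funext p q
        rw [mul_pow, mul_pow]
        ring
      have e2 : ‖z‖ ^ j / (j.factorial : ℝ) * F ^ j * F' ^ j * B =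
          (‖z‖ * (F * F')) ^ j / (j.factorial : ℝ) * B := by
        rw [mul_pow, mul_pow]
        ring
      rw [← e1, ← e2]
      exact h2
    have h3 := OpBd.sum (range n) (fun j p q => (z * (f p * g q)) ^ j / (j.factorial : ℂ) * M p q)
      _ h1 u v
    have e3 : ∑ p ∈ P, ∑ q ∈ P, u p * v q *
        ((∑ j ∈ range n, (z * (f p * g q)) ^ j / (j.factorial : ℂ)) * M p q) =
        ∑ p ∈ P, ∑ q ∈ P, u p * v q *
          ∑ j ∈ range n, (z * (f p * g q)) ^ j / (j.factorial : ℂ) * M p q := by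
      refine Finset.sum_congr rfl fun p _ => Finset.sum_congr rfl fun q _ => ?_
      rw [Finset.sum_mul]
    rw [e3]
    refine h3.trans (mul_le_mul_of_nonneg_right ?_ hS0)
    rw [← Finset.sum_mul]
    exact mul_le_mul_of_nonneg_right
      (Real.sum_le_exp_of_nonneg (by positivity) n) hB
  have hlim : Tendsto (fun n : ℕ => ‖∑ p ∈ P, ∑ q ∈ P, u p * v q *
      ((∑ j ∈ range n, (z * (f p * g q)) ^ j / (j.factorial : ℂ)) * M p q)‖) atTop
      (𝓝 ‖∑ p ∈ P, ∑ q ∈ P, u p * v q * (Complex.exp (z * (f p * g q)) * M p q)‖) := by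
    refine Tendsto.norm (tendsto_finsetSum _ fun p _ => tendsto_finsetSum _ fun q _ => ?_)
    exact ((exp_partial_tendsto (z * (f p * g q))).mul_const _).const_mul _
  exact le_of_tendsto hlim (Eventually.of_forall hpart)

end Pool.KV
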