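import Pool.Agent.LibKlVar.KV_Def
import Pool.Agent.LibKlVar.KV_C1

/-!
# Row C5: the triangle weight as a sum of separable functions
-/

set_option autoImplicit false

namespace Pool.KV

open Finset

/-- `min p y` for an integer `p ≥ 0` as a sum of clamps. -/
theorem C5_min (y : ℝ) (hy : 0 ≤ y) (p : ℕ) :
    min (p : ℝ) y = ∑ t ∈ range p, max 0 (min 1 (y - t)) := by
  induction p with
  | zero => simp [hy]
  | succ n ih =>
    rw [sum_range_succ, ← ih]
    push_cast
    rcases le_total y n with h1 | h1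
    · rw [min_eq_right h1, min_eq_right (by linarith), min_eq_right (by linarith),
        max_eq_left (by linarith)]
      ring
    · rw [min_eq_left h1]
      rcases le_total y (n + 1) with h2 | h2
      · rw [min_eq_right h2, min_eq_right (by linarith), max_eq_right (by linarith)]
        ring
      · rw [min_eq_left h2, min_eq_left (by linarith), max_eq_right (by linarith)]

/-- The weight as a sum of separable functions. -/
theorem C5_lam (X Z k p q : ℕ) (hp : 0 < p) (hq : 0 < q) (hpX : p ≤ 2 * X) :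
    Lam Z k p q = 1 + ∑ t ∈ range (2 * X),
      (if t < p then -(1 / (p : ℝ)) else 0) * max 0 (min 1 (16 * (Z : ℝ) * k / q - t)) := by
  have hp' : (0 : ℝ) < p := by exact_mod_cast hp
  have hq' : (0 : ℝ) < q := by exact_mod_cast hq
  have hy : (0 : ℝ) ≤ 16 * (Z : ℝ) * k / q := by positivity
  have h1 : ∑ t ∈ range (2 * X),
      (if t < p then -(1 / (p : ℝ)) else 0) * max 0 (min 1 (16 * (Z : ℝ) * k / q - t)) =
      -(1 / (p : ℝ)) * min (p : ℝ) (16 * (Z : ℝ) * k / q) := by
    rw [C5_min _ hy, mul_sum]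
    have h2 : range p = (range (2 * X)).filter (fun t => t < p) := by
      ext t
      simp only [mem_range, mem_filter]
      omega
    rw [h2, sum_filter]
    refine sum_congr rfl fun t _ => ?_
    split_ifs <;> simp
  rw [h1, Lam]
  have h3 : 16 * (Z : ℝ) * k / (p * q) = (1 / (p : ℝ)) * (16 * (Z : ℝ) * k / q) := by
    field_simp
  rw [h3]
  rcases le_total (16 * (Z : ℝ) * k / q) p with h | h
  · rw [min_eq_right h, max_eq_right]
    · ring
    · have : (1 / (p : ℝ)) * (16 * (Z : ℝ) * k / q) ≤ (1 / (p : ℝ)) * p :=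
        mul_le_mul_of_nonneg_left h (by positivity)
      rw [one_div_mul_cancel hp'.ne'] at this
      linarith
  · rw [min_eq_left h, max_eq_left]
    · field_simp
      ring
    · have : (1 / (p : ℝ)) * p ≤ (1 / (p : ℝ)) * (16 * (Z : ℝ) * k / q) :=
        mul_le_mul_of_nonneg_left h (by positivity)
      rw [one_div_mul_cancel hp'.ne'] at this
      linarith

/-- C5. -/
theorem OpBd.lam {P : Finset ℕ} {M : ℕ → ℕ → ℂ} {B : ℝ} (h : OpBd P M B) (hB : 0 ≤ B)
    (X Z k : ℕ) (hX : 0 < X) (hP : ∀ p ∈ P, X < p ∧ p ≤ 2 * X) :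
    OpBd P (fun p q => (Lam Z k p q : ℂ) * M p q) (3 * B) := by
  have hX' : (0 : ℝ) < X := by exact_mod_cast hX
  have h1 : ∀ t ∈ range (2 * X), OpBd P (fun p q =>
      (((if t < p then -(1 / (p : ℝ)) else 0 : ℝ)) : ℂ) *
        ((max 0 (min 1 (16 * (Z : ℝ) * k / q - t)) : ℝ) : ℂ) * M p q) (1 / X * 1 * B) := by
    intro t _
    refine h.mul_sep hB (fun p => (((if t < p then -(1 / (p : ℝ)) else 0 : ℝ)) : ℂ))
      (fun q => ((max 0 (min 1 (16 * (Z : ℝ) * k / q - t)) : ℝ) : ℂ)) (1 / X) 1 (by positivity)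
      zero_le_one ?_ ?_
    · intro p hp
      have hp1 : (X : ℝ) ≤ p := by exact_mod_cast (hP p hp).1.le
      rw [Complex.norm_real, Real.norm_eq_abs]
      split_ifs
      · rw [abs_neg, abs_of_nonneg (by positivity)]
        exact one_div_le_one_div_of_le hX' hp1
      · rw [abs_zero]
        positivity
    · intro q _
      rw [Complex.norm_real, Real.norm_eq_abs, abs_of_nonneg (le_max_left _ _)]
      exact max_le zero_le_one (min_le_left _ _)
  have h2 := h.add (OpBd.sum (range (2 * X)) _ _ h1)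
  intro u v
  have h3 := h2 u v
  have h4 : (B + ∑ _i ∈ range (2 * X), 1 / (X : ℝ) * 1 * B) = 3 * B := by
    rw [sum_const, card_range, nsmul_eq_mul]
    push_cast
    field_simp
    ring
  rw [h4] at h3
  have h5 : ∑ p ∈ P, ∑ q ∈ P, u p * v q * ((fun p q => (Lam Z k p q : ℂ) * M p q) p q) =
      ∑ p ∈ P, ∑ q ∈ P, u p * v q * (M p q + ∑ t ∈ range (2 * X),
        (((if t < p then -(1 / (p : ℝ)) else 0 : ℝ)) : ℂ) *
          ((max 0 (min 1 (16 * (Z : ℝ) * k / q - t)) : ℝ) : ℂ) * M p q) := by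
    refine sum_congr rfl fun p hp => sum_congr rfl fun q hq => ?_
    have e1 := C5_lam X Z k p q (lt_of_le_of_lt (Nat.zero_le _) (hP p hp).1)
      (lt_of_le_of_lt (Nat.zero_le _) (hP q hq).1) (hP p hp).2
    simp only []
    rw [e1, ← sum_mul]
    push_cast
    ring
  rw [h5]
  exact h3

end Pool.KV
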