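import Pool.Agent.LibKlVar.KV_Def
import Pool.Agent.LibKlVar.KV_C4
import Pool.Agent.LibKlVar.KV_C1

set_option autoImplicit false

namespace Pool.KV

open Finset

/-- C6. The archimedean factor of the reciprocity law. -/
theorem OpBd.arch {P : Finset ℕ} {M : ℕ → ℕ → ℂ} {B : ℝ} (h : OpBd P M B) (hB : 0 ≤ B)
    (X k : ℕ) (hX : 0 < X) (hk : 0 < k) (hP : ∀ p ∈ P, X < p ∧ p ≤ 2 * X) :
    OpBd P (fun p q => e (((q : ℝ) / p + (p : ℝ) / q) / k) * M p q) (Real.exp 26 * B) := by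
  have hX0 : (0 : ℝ) < X := by exact_mod_cast hX
  have hk1 : (1 : ℝ) ≤ k := by exact_mod_cast hk
  have hk0 : (0 : ℝ) < k := by linarith
  set z : ℂ := 2 * Real.pi * Complex.I / k with hz
  have hzn : ‖z‖ = 2 * Real.pi / k := by
    rw [hz, norm_div, norm_mul, norm_mul, Complex.norm_I, Complex.norm_natCast, Complex.norm_real,
      Complex.norm_ofNat, Real.norm_of_nonneg Real.pi_pos.le, mul_one]
  have hzle : ‖z‖ ≤ 2 * Real.pi := by
    rw [hzn]
    exact div_le_self (by positivity) hk1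
  have hinv : ∀ p ∈ P, ‖((p : ℂ))⁻¹‖ ≤ 1 / (X : ℝ) := by
    intro p hp
    have h1 : (X : ℝ) < p := by exact_mod_cast (hP p hp).1
    rw [norm_inv, Complex.norm_natCast, one_div]
    exact inv_anti₀ hX0 h1.le
  have hid : ∀ p ∈ P, ‖(p : ℂ)‖ ≤ 2 * (X : ℝ) := by
    intro p hp
    rw [Complex.norm_natCast]
    exact_mod_cast (hP p hp).2
  have s1 := h.exp_sep hB z (fun p => ((p : ℂ))⁻¹) (fun q => (q : ℂ)) (1 / X) (2 * X)
    (by positivity) (by positivity) hinv hid
  have s2 := s1.exp_sep (by positivity) z (fun p => (p : ℂ)) (fun q => ((q : ℂ))⁻¹) (2 * X) (1 / X)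
    (by positivity) (by positivity) hid hinv
  intro u v
  have key : ∀ p ∈ P, ∀ q ∈ P,
      u p * v q * (e (((q : ℝ) / p + (p : ℝ) / q) / k) * M p q) =
      u p * v q * (Complex.exp (z * ((p : ℂ) * ((q : ℂ))⁻¹)) *
        (Complex.exp (z * (((p : ℂ))⁻¹ * (q : ℂ))) * M p q)) := by
    intro p _ q _
    congr 1
    rw [← mul_assoc, ← Complex.exp_add, e]
    congr 2
    rw [hz]
    push_cast
    ring
  rw [Finset.sum_congr rfl (fun p hp => Finset.sum_congr rfl (fun q hq => key p hp q hq))]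
  refine (s2 u v).trans ?_
  refine mul_le_mul_of_nonneg_right ?_ (by positivity)
  rw [← mul_assoc, ← Real.exp_add]
  refine mul_le_mul_of_nonneg_right ?_ hB
  apply Real.exp_le_exp.mpr
  have hpi := Real.pi_lt_d4
  have e1 : 2 * (X : ℝ) * (1 / X) = 2 := by field_simp
  have e2 : 1 / (X : ℝ) * (2 * X) = 2 := by field_simp
  rw [e1, e2]
  nlinarith [norm_nonneg z]

end Pool.KV
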