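import Pool.Agent.LibKlVar.KV_Def

set_option autoImplicit false

namespace Pool.KV

open Finset

/-- Orthogonality, in the units. -/
theorem d1_orth {k : ℕ} [NeZero k] (x : (ZMod k)ˣ) :
    ∑ ψ : DirichletCharacter ℂ k, ψ (x : ZMod k) = if x = 1 then (k.totient : ℂ) else 0 := by
  rw [DirichletCharacter.sum_characters_eq]
  simp only [Units.val_eq_one]

/-- Conjugation inverts values at units. -/
theorem d1_conj {k : ℕ} [NeZero k] (ψ : DirichletCharacter ℂ k) (x : (ZMod k)ˣ) :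
    (starRingEnd ℂ) (ψ (x : ZMod k)) = ψ ((x⁻¹ : (ZMod k)ˣ) : ZMod k) := by
  have h1 : ψ (x : ZMod k) * ψ ((x⁻¹ : (ZMod k)ˣ) : ZMod k) = 1 := by
    rw [← map_mul, ← Units.val_mul, mul_inv_cancel, Units.val_one, map_one]
  have h2 : (starRingEnd ℂ) (ψ (x : ZMod k)) * ψ (x : ZMod k) = 1 := by
    rw [mul_comm, Complex.mul_conj, Complex.normSq_eq_norm_sq,
      DirichletCharacter.unit_norm_eq_one]
    norm_num
  calc (starRingEnd ℂ) (ψ (x : ZMod k))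
      = (starRingEnd ℂ) (ψ (x : ZMod k)) * (ψ (x : ZMod k) * ψ ((x⁻¹ : (ZMod k)ˣ) : ZMod k)) := by
        rw [h1, mul_one]
    _ = ψ ((x⁻¹ : (ZMod k)ˣ) : ZMod k) := by rw [← mul_assoc, h2, one_mul]

/-- Plancherel. -/
theorem d1_planch {k : ℕ} [NeZero k] (c : (ZMod k)ˣ → ℂ) :
    ∑ ψ : DirichletCharacter ℂ k, ‖∑ g : (ZMod k)ˣ, c g * ψ (g : ZMod k)‖ ^ 2 =
      k.totient * ∑ g : (ZMod k)ˣ, ‖c g‖ ^ 2 := by
  have key : ((∑ ψ : DirichletCharacter ℂ k, ‖∑ g : (ZMod k)ˣ, c g * ψ (g : ZMod k)‖ ^ 2 : ℝ) : ℂ) =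
      ((k.totient * ∑ g : (ZMod k)ˣ, ‖c g‖ ^ 2 : ℝ) : ℂ) := by
    push_cast
    have h1 : ∀ ψ : DirichletCharacter ℂ k,
        (‖∑ g : (ZMod k)ˣ, c g * ψ (g : ZMod k)‖ : ℂ) ^ 2 =
        ∑ g : (ZMod k)ˣ, ∑ h : (ZMod k)ˣ, c g * (starRingEnd ℂ) (c h) *
          ψ ((g * h⁻¹ : (ZMod k)ˣ) : ZMod k) := by
      intro ψ
      rw [← Complex.mul_conj', map_sum, Finset.sum_mul_sum]
      refine Finset.sum_congr rfl fun g _ => Finset.sum_congr rfl fun h _ => ?_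
      rw [map_mul, d1_conj, Units.val_mul, map_mul]
      ring
    simp_rw [h1]
    rw [Finset.sum_comm]
    have h2 : ∀ g : (ZMod k)ˣ, ∑ ψ : DirichletCharacter ℂ k, ∑ h : (ZMod k)ˣ,
        c g * (starRingEnd ℂ) (c h) * ψ ((g * h⁻¹ : (ZMod k)ˣ) : ZMod k) =
        k.totient * (‖c g‖ : ℂ) ^ 2 := by
      intro g
      rw [Finset.sum_comm]
      simp_rw [← Finset.mul_sum, d1_orth, mul_inv_eq_one]
      simp only [mul_ite, mul_zero, Finset.sum_ite_eq, Finset.mem_univ, if_true]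
      rw [Complex.mul_conj']
      ring
    simp_rw [h2]
    rw [← Finset.mul_sum]
  exact_mod_cast key

/-- D1. -/
theorem group_op {k : ℕ} [NeZero k] (f : (ZMod k)ˣ → ℂ) (B : ℝ)
    (hB : ∀ χ : (ZMod k)ˣ →* ℂˣ, ‖∑ u : (ZMod k)ˣ, (χ u : ℂ) * f u‖ ≤ B)
    (a b : (ZMod k)ˣ → ℂ) :
    ‖∑ g : (ZMod k)ˣ, ∑ h : (ZMod k)ˣ, a g * b h * f (h * g⁻¹)‖ ≤
      B * (Real.sqrt (∑ g, ‖a g‖ ^ 2) * Real.sqrt (∑ h, ‖b h‖ ^ 2)) := by
  classical
  have hφ : (0 : ℝ) < k.totient := by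
    exact_mod_cast Nat.totient_pos.mpr (Nat.pos_of_ne_zero (NeZero.ne k))
  have hφ' : (k.totient : ℂ) ≠ 0 := by exact_mod_cast hφ.ne'
  have hF : ∀ ψ : DirichletCharacter ℂ k, ‖∑ u : (ZMod k)ˣ, ψ (u : ZMod k) * f u‖ ≤ B := by
    intro ψ
    have := hB ψ.toUnitHom
    simpa only [MulChar.coe_toUnitHom] using this
  set A : DirichletCharacter ℂ k → ℂ := fun ψ => ∑ g : (ZMod k)ˣ, a g * ψ (g : ZMod k) with hA
  set b' : (ZMod k)ˣ → ℂ := fun h => b h⁻¹ with hb'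
  set Bt : DirichletCharacter ℂ k → ℂ := fun ψ => ∑ g : (ZMod k)ˣ, b' g * ψ (g : ZMod k) with hBt
  have hBt' : ∀ ψ, Bt ψ = ∑ h : (ZMod k)ˣ, b h * ψ ((h⁻¹ : (ZMod k)ˣ) : ZMod k) := by
    intro ψ
    rw [hBt]
    refine Fintype.sum_equiv (Equiv.inv _) _ _ fun g => ?_
    simp only [hb', Equiv.inv_apply, inv_inv]
  set F : DirichletCharacter ℂ k → ℂ := fun ψ => ∑ u : (ZMod k)ˣ, ψ (u : ZMod k) * f u with hFd
  have hid : (k.totient : ℂ) * ∑ g : (ZMod k)ˣ, ∑ h : (ZMod k)ˣ, a g * b h * f (h * g⁻¹) =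
      ∑ ψ : DirichletCharacter ℂ k, F ψ * (A ψ * Bt ψ) := by
    have h1 : ∀ ψ : DirichletCharacter ℂ k, F ψ * (A ψ * Bt ψ) =
        ∑ g : (ZMod k)ˣ, ∑ h : (ZMod k)ˣ, ∑ u : (ZMod k)ˣ, a g * b h * f u *
          ψ ((u * (g * h⁻¹) : (ZMod k)ˣ) : ZMod k) := by
      intro ψ
      rw [hBt' ψ, hA, hFd]
      simp only
      rw [Finset.sum_mul_sum, Finset.mul_sum]
      refine Finset.sum_congr rfl fun g _ => ?_
      rw [Finset.mul_sum]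
      refine Finset.sum_congr rfl fun h _ => ?_
      rw [Finset.sum_mul]
      refine Finset.sum_congr rfl fun u _ => ?_
      rw [Units.val_mul, Units.val_mul, map_mul, map_mul]
      ring
    simp_rw [h1]
    rw [Finset.mul_sum]
    conv_rhs => rw [Finset.sum_comm]
    refine Finset.sum_congr rfl fun g _ => ?_
    rw [Finset.mul_sum]
    conv_rhs => rw [Finset.sum_comm]
    refine Finset.sum_congr rfl fun h _ => ?_
    conv_rhs => rw [Finset.sum_comm]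
    simp_rw [← Finset.mul_sum, d1_orth]
    have h2 : ∀ u : (ZMod k)ˣ, (u * (g * h⁻¹) = 1) ↔ (u = h * g⁻¹) := by
      intro u
      rw [mul_eq_one_iff_eq_inv, mul_inv_rev, inv_inv]
    simp_rw [h2]
    simp only [mul_ite, mul_zero, Finset.sum_ite_eq', Finset.mem_univ, if_true]
    ring
  have hPA : ∑ ψ : DirichletCharacter ℂ k, ‖A ψ‖ ^ 2 = k.totient * ∑ g : (ZMod k)ˣ, ‖a g‖ ^ 2 :=
    d1_planch a
  have hPB : ∑ ψ : DirichletCharacter ℂ k, ‖Bt ψ‖ ^ 2 = k.totient * ∑ g : (ZMod k)ˣ, ‖b g‖ ^ 2 := by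
    rw [hBt, d1_planch b']
    congr 1
    refine Fintype.sum_equiv (Equiv.inv _) _ _ fun g => ?_
    simp only [hb', Equiv.inv_apply]
  have hB0 : 0 ≤ B := (norm_nonneg _).trans (hF 1)
  have hmain : k.totient * ‖∑ g : (ZMod k)ˣ, ∑ h : (ZMod k)ˣ, a g * b h * f (h * g⁻¹)‖ ≤
      k.totient * (B * (Real.sqrt (∑ g, ‖a g‖ ^ 2) * Real.sqrt (∑ h, ‖b h‖ ^ 2))) := by
    calc k.totient * ‖∑ g : (ZMod k)ˣ, ∑ h : (ZMod k)ˣ, a g * b h * f (h * g⁻¹)‖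
        = ‖∑ ψ : DirichletCharacter ℂ k, F ψ * (A ψ * Bt ψ)‖ := by
          rw [← hid, norm_mul, Complex.norm_natCast]
      _ ≤ ∑ ψ : DirichletCharacter ℂ k, ‖F ψ * (A ψ * Bt ψ)‖ := norm_sum_le _ _
      _ ≤ ∑ ψ : DirichletCharacter ℂ k, B * (‖A ψ‖ * ‖Bt ψ‖) := by
          refine Finset.sum_le_sum fun ψ _ => ?_
          rw [norm_mul, norm_mul]
          exact mul_le_mul_of_nonneg_right (hF ψ) (by positivity)
      _ = B * ∑ ψ : DirichletCharacter ℂ k, ‖A ψ‖ * ‖Bt ψ‖ := by rw [Finset.mul_sum]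
      _ ≤ B * (Real.sqrt (∑ ψ : DirichletCharacter ℂ k, ‖A ψ‖ ^ 2) *
            Real.sqrt (∑ ψ : DirichletCharacter ℂ k, ‖Bt ψ‖ ^ 2)) := by
          refine mul_le_mul_of_nonneg_left ?_ hB0
          exact Real.sum_mul_le_sqrt_mul_sqrt _ _ _
      _ = k.totient * (B * (Real.sqrt (∑ g, ‖a g‖ ^ 2) * Real.sqrt (∑ h, ‖b h‖ ^ 2))) := by
          rw [hPA, hPB, Real.sqrt_mul hφ.le, Real.sqrt_mul hφ.le]
          have := Real.mul_self_sqrt hφ.le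
          calc B * (Real.sqrt k.totient * Real.sqrt (∑ g, ‖a g‖ ^ 2) *
                (Real.sqrt k.totient * Real.sqrt (∑ h, ‖b h‖ ^ 2)))
              = (Real.sqrt k.totient * Real.sqrt k.totient) *
                (B * (Real.sqrt (∑ g, ‖a g‖ ^ 2) * Real.sqrt (∑ h, ‖b h‖ ^ 2))) := by ring
            _ = _ := by rw [this]
  exact le_of_mul_le_mul_left hmain hφ

end Pool.KV
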