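import Pool.Agent.LibKlVar.KV_Def
import Pool.Agent.LibKlVar.KV_D1

/-!
# Variance of Kloosterman sums of prime moduli over the first argument: row D2
-/

set_option autoImplicit false

namespace Pool.KV

open Finset

theorem norm_e (t : ℝ) : ‖e t‖ = 1 := by
  unfold e
  rw [show (2 * (Real.pi : ℂ) * Complex.I * (t : ℂ)) = ((2 * Real.pi * t : ℝ) : ℂ) * Complex.I by
    push_cast; ring]
  exact Complex.norm_exp_ofReal_mul_I _

/-- A residue class contains few of the integers in `(X, 2X]`. -/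
theorem class_card (X k : ℕ) (hk : 0 < k) (hkX : k ≤ X) (v : ℕ) :
    ((#((Ioc X (2 * X)).filter (fun n => n ≡ v [MOD k])) : ℕ) : ℝ) ≤ 2 * X / k := by
  have h := Nat.Ioc_filter_modEq_card X (2 * X) hk v
  have hk' : (0 : ℝ) < k := by exact_mod_cast hk
  have h1 : ((#((Ioc X (2 * X)).filter (fun n => n ≡ v [MOD k])) : ℕ) : ℝ) ≤ X / k + 1 := by
    have h2 : ((#((Ioc X (2 * X)).filter (fun n => n ≡ v [MOD k])) : ℕ) : ℝ) =
        ((max (⌊(((2 * X : ℕ) : ℚ) - (v : ℚ)) / (k : ℚ)⌋ - ⌊((X : ℚ) - (v : ℚ)) / (k : ℚ)⌋) 0 : ℤ) : ℝ) := by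
      rw [← h]; simp
    rw [h2]
    push_cast
    apply max_le
    · have h3 : ((⌊(((2 * X : ℕ) : ℚ) - (v : ℚ)) / (k : ℚ)⌋ : ℤ) : ℚ) ≤ (((2 * X : ℕ) : ℚ) - (v : ℚ)) / (k : ℚ) :=
        Int.floor_le _
      have h4 : ((X : ℚ) - (v : ℚ)) / (k : ℚ) < ((⌊((X : ℚ) - (v : ℚ)) / (k : ℚ)⌋ : ℤ) : ℚ) + 1 :=
        Int.lt_floor_add_one _
      have h5 : ((⌊(((2 * X : ℕ) : ℚ) - (v : ℚ)) / (k : ℚ)⌋ : ℤ) : ℚ) - ((⌊((X : ℚ) - (v : ℚ)) / (k : ℚ)⌋ : ℤ) : ℚ)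
          ≤ (X : ℚ) / k + 1 := by
        have : (((2 * X : ℕ) : ℚ) - (v : ℚ)) / (k : ℚ) - ((X : ℚ) - (v : ℚ)) / (k : ℚ) = (X : ℚ) / k := by
          push_cast; ring
        linarith
      have h6 : (((((⌊(((2 * X : ℕ) : ℚ) - (v : ℚ)) / (k : ℚ)⌋ : ℤ) : ℚ) -
          ((⌊((X : ℚ) - (v : ℚ)) / (k : ℚ)⌋ : ℤ) : ℚ)) : ℚ) : ℝ) ≤ (((X : ℚ) / k + 1 : ℚ) : ℝ) := by
        exact_mod_cast h5
      push_cast at h6 ⊢
      linarith
    · positivity
  have h7 : (1 : ℝ) ≤ X / k := by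
    rw [le_div_iff₀ hk']
    have : (k : ℝ) ≤ X := by exact_mod_cast hkX
    linarith
  calc ((#((Ioc X (2 * X)).filter (fun n => n ≡ v [MOD k])) : ℕ) : ℝ) ≤ X / k + 1 := h1
    _ ≤ X / k + X / k := by linarith
    _ = 2 * X / k := by ring

theorem G_eq (k : ℕ) [NeZero k] (χ : (ZMod k)ˣ →* ℂˣ) :
    G k χ (-1) = ∑ u : (ZMod k)ˣ, (χ u : ℂ) *
      e (-(((((u : ZMod k) + ((u⁻¹ : (ZMod k)ˣ) : ZMod k)).val : ℕ) : ℝ) / k)) := by
  unfold G
  refine sum_congr rfl fun u _ => ?_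
  congr 1
  set x : ZMod k := (u : ZMod k) + ((u⁻¹ : (ZMod k)ˣ) : ZMod k) with hx
  have h1 : (-1 : ZMod k) * x = ((-(x.val : ℤ) : ℤ) : ZMod k) := by
    push_cast
    rw [ZMod.natCast_val, ZMod.cast_id]
    ring
  rw [h1, ZMod.stdAddChar_coe]
  unfold e
  congr 1
  push_cast
  ring

/-- The sum over a fibre. -/
theorem fibre_sq (P : Finset ℕ) {κ : Type*} [Fintype κ] [DecidableEq κ] (U : ℕ → κ) (N : ℝ)
    (hN : ∀ g, ((#(P.filter (fun p => U p = g)) : ℕ) : ℝ) ≤ N) (u : ℕ → ℂ) :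
    ∑ g, ‖∑ p ∈ P.filter (fun p => U p = g), u p‖ ^ 2 ≤ N * ∑ p ∈ P, ‖u p‖ ^ 2 := by
  calc ∑ g, ‖∑ p ∈ P.filter (fun p => U p = g), u p‖ ^ 2
      ≤ ∑ g, N * ∑ p ∈ P.filter (fun p => U p = g), ‖u p‖ ^ 2 := by
        refine sum_le_sum fun g _ => ?_
        calc ‖∑ p ∈ P.filter (fun p => U p = g), u p‖ ^ 2
            ≤ (∑ p ∈ P.filter (fun p => U p = g), ‖u p‖) ^ 2 :=
              pow_le_pow_left₀ (norm_nonneg _) (norm_sum_le _ _) 2
          _ ≤ (#(P.filter (fun p => U p = g)) : ℝ) * ∑ p ∈ P.filter (fun p => U p = g), ‖u p‖ ^ 2 :=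
              sq_sum_le_card_mul_sum_sq
          _ ≤ N * ∑ p ∈ P.filter (fun p => U p = g), ‖u p‖ ^ 2 := by
              apply mul_le_mul_of_nonneg_right (hN g)
              exact sum_nonneg fun _ _ => by positivity
    _ = N * ∑ p ∈ P, ‖u p‖ ^ 2 := by
        rw [← mul_sum]
        congr 1
        exact sum_fiberwise P U (fun p => ‖u p‖ ^ 2)

theorem sum_fibre2 (P : Finset ℕ) {κ : Type*} [Fintype κ] [DecidableEq κ] (U : ℕ → κ)
    (F : κ → κ → ℂ) (u v : ℕ → ℂ) :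
    ∑ g, ∑ h, (∑ p ∈ P.filter (fun p => U p = g), u p) * (∑ q ∈ P.filter (fun q => U q = h), v q) *
      F g h = ∑ p ∈ P, ∑ q ∈ P, u p * v q * F (U p) (U q) := by
  calc ∑ g, ∑ h, (∑ p ∈ P.filter (fun p => U p = g), u p) *
        (∑ q ∈ P.filter (fun q => U q = h), v q) * F g h
      = ∑ g, ∑ h, ∑ p ∈ P.filter (fun p => U p = g), ∑ q ∈ P.filter (fun q => U q = h),
          u p * v q * F (U p) (U q) := by
        refine sum_congr rfl fun g _ => sum_congr rfl fun h _ => ?_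
        rw [sum_mul_sum, sum_mul]
        refine sum_congr rfl fun p hp => ?_
        rw [sum_mul]
        refine sum_congr rfl fun q hq => ?_
        rw [(mem_filter.1 hp).2, (mem_filter.1 hq).2]
    _ = ∑ g, ∑ p ∈ P.filter (fun p => U p = g), ∑ h, ∑ q ∈ P.filter (fun q => U q = h),
          u p * v q * F (U p) (U q) := by
        refine sum_congr rfl fun g _ => ?_
        rw [sum_comm]
    _ = ∑ g, ∑ p ∈ P.filter (fun p => U p = g), ∑ q ∈ P, u p * v q * F (U p) (U q) := by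
        refine sum_congr rfl fun g _ => sum_congr rfl fun p _ => ?_
        exact sum_fiberwise P U (fun q => u p * v q * F (U p) (U q))
    _ = _ := sum_fiberwise P U (fun p => ∑ q ∈ P, u p * v q * F (U p) (U q))

theorem cs_diag (P : Finset ℕ) (u v w : ℕ → ℂ) (hw : ∀ p ∈ P, ‖w p‖ = 1) :
    ‖∑ p ∈ P, u p * v p * w p‖ ≤ Real.sqrt (∑ p ∈ P, ‖u p‖ ^ 2) * Real.sqrt (∑ p ∈ P, ‖v p‖ ^ 2) := by
  calc ‖∑ p ∈ P, u p * v p * w p‖ ≤ ∑ p ∈ P, ‖u p * v p * w p‖ := norm_sum_le _ _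
    _ = ∑ p ∈ P, ‖u p‖ * ‖v p‖ := by
        refine sum_congr rfl fun p hp => ?_
        rw [norm_mul, norm_mul, hw p hp, mul_one]
    _ ≤ _ := Real.sum_mul_le_sqrt_mul_sqrt _ _ _

/-- D2. -/
theorem fk_op (X k : ℕ) [NeZero k] (hkX : k ≤ X) (P : Finset ℕ)
    (hP : ∀ p ∈ P, p.Prime ∧ X < p ∧ p ≤ 2 * X) (B : ℝ)
    (hB : ∀ χ : (ZMod k)ˣ →* ℂˣ, ‖G k χ (-1)‖ ≤ B) :
    OpBd P (fun p q => if p = q then 0 else fk k p q) (B * (2 * X / k) + 1) := by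
  intro u v
  have hk : 0 < k := Nat.pos_of_ne_zero (NeZero.ne k)
  have hkr : (0 : ℝ) < k := by exact_mod_cast hk
  have hcop : ∀ p ∈ P, p.Coprime k := by
    intro p hp
    obtain ⟨h1, h2, h3⟩ := hP p hp
    rw [Nat.Prime.coprime_iff_not_dvd h1]
    intro h
    have := Nat.le_of_dvd hk h
    omega
  set U : ℕ → (ZMod k)ˣ := fun p => if h : p.Coprime k then ZMod.unitOfCoprime p h else 1 with hU
  have hUp : ∀ p ∈ P, ((U p : (ZMod k)ˣ) : ZMod k) = (p : ZMod k) := by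
    intro p hp
    simp only [hU, dif_pos (hcop p hp)]
    exact ZMod.coe_unitOfCoprime p _
  set f : (ZMod k)ˣ → ℂ := fun r =>
    e (-(((((r : ZMod k) + ((r⁻¹ : (ZMod k)ˣ) : ZMod k)).val : ℕ) : ℝ) / k)) with hf
  have hff : ∀ p ∈ P, ∀ q ∈ P, f (U q * (U p)⁻¹) = fk k p q := by
    intro p hp q hq
    simp only [hf]
    unfold fk
    have h1 : ((U q * (U p)⁻¹ : (ZMod k)ˣ) : ZMod k) + (((U q * (U p)⁻¹)⁻¹ : (ZMod k)ˣ) : ZMod k) =
        (q : ZMod k) * (p : ZMod k)⁻¹ + (p : ZMod k) * (q : ZMod k)⁻¹ := by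
      rw [mul_inv_rev, inv_inv]
      push_cast
      rw [hUp q hq, hUp p hp, ← ZMod.inv_coe_unit (U p), ← ZMod.inv_coe_unit (U q), hUp q hq, hUp p hp]
    rw [h1]
  have hclass : ∀ g, ((#(P.filter (fun p => U p = g)) : ℕ) : ℝ) ≤ 2 * X / k := by
    intro g
    refine le_trans ?_ (class_card X k hk hkX ((g : ZMod k).val))
    have : P.filter (fun p => U p = g) ⊆ (Ioc X (2 * X)).filter (fun n => n ≡ (g : ZMod k).val [MOD k]) := by
      intro p hp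
      obtain ⟨h1, h2⟩ := mem_filter.1 hp
      obtain ⟨h3, h4, h5⟩ := hP p h1
      refine mem_filter.2 ⟨mem_Ioc.2 ⟨h4, h5⟩, ?_⟩
      rw [← ZMod.natCast_eq_natCast_iff, ← hUp p h1, h2, ZMod.natCast_val, ZMod.cast_id]
    exact_mod_cast card_le_card this
  have hB0 : 0 ≤ B := le_trans (norm_nonneg _) (hB 1)
  have hN0 : (0 : ℝ) ≤ 2 * X / k := by positivity
  -- the full sum
  have hfull : ‖∑ p ∈ P, ∑ q ∈ P, u p * v q * fk k p q‖ ≤
      B * (2 * X / k) * (Real.sqrt (∑ p ∈ P, ‖u p‖ ^ 2) * Real.sqrt (∑ q ∈ P, ‖v q‖ ^ 2)) := by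
    have h1 := group_op f B (fun χ => by rw [← G_eq]; exact hB χ)
      (fun g => ∑ p ∈ P.filter (fun p => U p = g), u p)
      (fun g => ∑ q ∈ P.filter (fun q => U q = g), v q)
    rw [sum_fibre2 P U (fun g h => f (h * g⁻¹)) u v] at h1
    have h2 : ∑ p ∈ P, ∑ q ∈ P, u p * v q * f (U q * (U p)⁻¹) = ∑ p ∈ P, ∑ q ∈ P, u p * v q * fk k p q :=
      sum_congr rfl fun p hp => sum_congr rfl fun q hq => by rw [hff p hp q hq]
    rw [h2] at h1
    refine h1.trans ?_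
    have h3 := fibre_sq P U _ hclass u
    have h4 := fibre_sq P U _ hclass v
    have h5 : Real.sqrt (∑ g, ‖∑ p ∈ P.filter (fun p => U p = g), u p‖ ^ 2) ≤
        Real.sqrt (2 * X / k) * Real.sqrt (∑ p ∈ P, ‖u p‖ ^ 2) := by
      rw [← Real.sqrt_mul hN0]
      exact Real.sqrt_le_sqrt h3
    have h6 : Real.sqrt (∑ g, ‖∑ p ∈ P.filter (fun p => U p = g), v p‖ ^ 2) ≤
        Real.sqrt (2 * X / k) * Real.sqrt (∑ p ∈ P, ‖v p‖ ^ 2) := by
      rw [← Real.sqrt_mul hN0]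
      exact Real.sqrt_le_sqrt h4
    have h7 : Real.sqrt (2 * X / k) * Real.sqrt (2 * X / k) = 2 * X / k := Real.mul_self_sqrt hN0
    calc B * (Real.sqrt (∑ g, ‖∑ p ∈ P.filter (fun p => U p = g), u p‖ ^ 2) *
          Real.sqrt (∑ g, ‖∑ p ∈ P.filter (fun p => U p = g), v p‖ ^ 2))
        ≤ B * ((Real.sqrt (2 * X / k) * Real.sqrt (∑ p ∈ P, ‖u p‖ ^ 2)) *
          (Real.sqrt (2 * X / k) * Real.sqrt (∑ p ∈ P, ‖v p‖ ^ 2))) := by
          apply mul_le_mul_of_nonneg_left _ hB0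
          apply mul_le_mul h5 h6 (Real.sqrt_nonneg _)
          positivity
      _ = B * (Real.sqrt (2 * X / k) * Real.sqrt (2 * X / k)) *
          (Real.sqrt (∑ p ∈ P, ‖u p‖ ^ 2) * Real.sqrt (∑ q ∈ P, ‖v q‖ ^ 2)) := by ring
      _ = _ := by rw [h7]
  have hdiag := cs_diag P u v (fun p => fk k p p) (fun p _ => norm_e _)
  have hsplit : ∑ p ∈ P, ∑ q ∈ P, u p * v q * (if p = q then 0 else fk k p q) =
      ∑ p ∈ P, ∑ q ∈ P, u p * v q * fk k p q - ∑ p ∈ P, u p * v p * fk k p p := by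
    rw [← sum_sub_distrib]
    refine sum_congr rfl fun p hp => ?_
    have : ∑ q ∈ P, u p * v q * fk k p q - u p * v p * fk k p p =
        ∑ q ∈ P, (u p * v q * fk k p q - if p = q then u p * v q * fk k p q else 0) := by
      rw [sum_sub_distrib, sum_ite_eq, if_pos hp]
    rw [this]
    refine sum_congr rfl fun q _ => ?_
    split_ifs <;> simp
  show ‖∑ p ∈ P, ∑ q ∈ P, u p * v q * (if p = q then 0 else fk k p q)‖ ≤ _
  rw [hsplit]
  refine (norm_sub_le _ _).trans ?_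
  have := add_le_add hfull hdiag
  refine this.trans (le_of_eq ?_)
  ring

end Pool.KV
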