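import Mathlib

/-!
# Variance of Kloosterman sums of prime moduli over the first argument: definitions
-/

set_option autoImplicit false

namespace Pool.KV

open Finset

/-- `e(t) = exp(2 π i t)`. -/
noncomputable def e (t : ℝ) : ℂ := Complex.exp (2 * Real.pi * Complex.I * (t : ℂ))

/-- The inverse of `x` modulo `c`, as a natural number `< c` (for `c > 0`). -/
noncomputable def inv (c x : ℕ) : ℕ := ((x : ZMod c)⁻¹).val

/-- `S(a,1;c)`. -/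
noncomputable def kl (a : ℤ) (c : ℕ) : ℂ :=
  ∑ x ∈ (range c).filter (fun x => x.Coprime c),
    Complex.exp (2 * Real.pi * Complex.I *
      ((((a : ZMod c) * (x : ZMod c) + (x : ZMod c)⁻¹).val : ℕ) : ℂ) / c)

/-- The twisted Kloosterman sum `∑_{u mod k} χ(u) e(b (u + u⁻¹) / k)`. -/
noncomputable def G (k : ℕ) [NeZero k] (χ : (ZMod k)ˣ →* ℂˣ) (b : ZMod k) : ℂ :=
  ∑ u : (ZMod k)ˣ, (χ u : ℂ) * ZMod.stdAddChar (b * ((u : ZMod k) + ((u⁻¹ : (ZMod k)ˣ) : ZMod k)))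

/-- `h(k) = ∏_{p ∣ k} (2/√p if p² ∤ k, 1 otherwise)`: the bound for `|G| / k`. -/
noncomputable def hb (k : ℕ) : ℝ :=
  ∏ p ∈ k.primeFactors, (if p ^ 2 ∣ k then 1 else 2 / Real.sqrt p)

/-- The triangle weight. -/
noncomputable def Lam (X k p q : ℕ) : ℝ := max 0 (1 - 16 * (X : ℝ) * k / (p * q))

/-- The phase before reciprocity. -/
noncomputable def ph (k p q : ℕ) : ℂ :=
  e ((inv p k : ℝ) * q / p) * e ((inv q k : ℝ) * p / q)

/-- The phase after reciprocity: `f_k(q p⁻¹)`, `f_k(r) = e(-(r + r⁻¹)/k)`. -/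
noncomputable def fk (k p q : ℕ) : ℂ :=
  e (-(((((q : ZMod k) * (p : ZMod k)⁻¹ + (p : ZMod k) * (q : ZMod k)⁻¹).val : ℕ) : ℝ) / k))

/-- A matrix indexed by `P × P` has norm at most `B` as a bilinear form. -/
def OpBd (P : Finset ℕ) (M : ℕ → ℕ → ℂ) (B : ℝ) : Prop :=
  ∀ u v : ℕ → ℂ, ‖∑ p ∈ P, ∑ q ∈ P, u p * v q * M p q‖ ≤
    B * (Real.sqrt (∑ p ∈ P, ‖u p‖ ^ 2) * Real.sqrt (∑ q ∈ P, ‖v q‖ ^ 2))

/-- Weil's bound for all (twisted) Kloosterman sums modulo `p`. -/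
def WeilBd (p : ℕ) : Prop :=
  ∀ [NeZero p] (χ : MulChar (ZMod p) ℂ) (m n : ZMod p), m ≠ 0 → n ≠ 0 →
    ‖∑ u : (ZMod p)ˣ, χ (u : ZMod p) *
      ZMod.stdAddChar (m * (u : ZMod p) + n * ((u⁻¹ : (ZMod p)ˣ) : ZMod p))‖ ≤ 2 * Real.sqrt p

end Pool.KV
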