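import Pool.Agent.LibKlVar.KV_Def
import Pool.Agent.LibKloosterman.Basic

/-!
# E1: multiplicativity of the twisted Kloosterman sums
-/

set_option autoImplicit false

namespace Pool.KV

open Finset

/-- E1. -/
theorem G_mul (m n : ℕ) [NeZero m] [NeZero n] [NeZero (m * n)] (hmn : m.Coprime n)
    (χ : (ZMod (m * n))ˣ →* ℂˣ) (b : ZMod (m * n)) (hb : IsUnit b) :
    ∃ (χ₁ : (ZMod m)ˣ →* ℂˣ) (χ₂ : (ZMod n)ˣ →* ℂˣ) (b₁ : ZMod m) (b₂ : ZMod n),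
      IsUnit b₁ ∧ IsUnit b₂ ∧ G (m * n) χ b = G m χ₁ b₁ * G n χ₂ b₂ := by
  set π1 := ZMod.castHom (dvd_mul_right m n) (ZMod m) with hπ1
  set π2 := ZMod.castHom (dvd_mul_left n m) (ZMod n) with hπ2
  let e0 : (ZMod (m * n))ˣ ≃* (ZMod m)ˣ × (ZMod n)ˣ :=
    (Units.mapEquiv (ZMod.chineseRemainder hmn).toMulEquiv).trans MulEquiv.prodUnits
  have he1 : ∀ w : (ZMod (m * n))ˣ, ((e0 w).1 : ZMod m) = π1 (w : ZMod (m * n)) := by
    intro w
    have : ((e0 w).1 : ZMod m) = (ZMod.chineseRemainder hmn (w : ZMod (m * n))).1 := rfl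
    rw [this]
    have h2 : (RingHom.fst (ZMod m) (ZMod n)).comp (ZMod.chineseRemainder hmn).toRingHom = π1 :=
      Subsingleton.elim _ _
    rw [← h2]; rfl
  have he2 : ∀ w : (ZMod (m * n))ˣ, ((e0 w).2 : ZMod n) = π2 (w : ZMod (m * n)) := by
    intro w
    have : ((e0 w).2 : ZMod n) = (ZMod.chineseRemainder hmn (w : ZMod (m * n))).2 := rfl
    rw [this]
    have h2 : (RingHom.snd (ZMod m) (ZMod n)).comp (ZMod.chineseRemainder hmn).toRingHom = π2 :=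
      Subsingleton.elim _ _
    rw [← h2]; rfl
  have hu1 : IsUnit ((n : ZMod m)⁻¹) := by
    have h := Kloo.cop_mul_inv (c := m) (w := n) hmn.symm
    exact isUnit_iff_exists_inv'.2 ⟨_, h⟩
  have hu2 : IsUnit ((m : ZMod n)⁻¹) := by
    have h := Kloo.cop_mul_inv (c := n) (w := m) hmn
    exact isUnit_iff_exists_inv'.2 ⟨_, h⟩
  refine ⟨χ.comp (e0.symm.toMonoidHom.comp (MonoidHom.inl _ _)),
    χ.comp (e0.symm.toMonoidHom.comp (MonoidHom.inr _ _)),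
    (n : ZMod m)⁻¹ * π1 b, (m : ZMod n)⁻¹ * π2 b, hu1.mul (hb.map π1), hu2.mul (hb.map π2), ?_⟩
  unfold G
  rw [sum_mul_sum, ← Fintype.sum_prod_type']
  refine Fintype.sum_equiv e0.toEquiv _ _ fun w => ?_
  have hE : e0.toEquiv w = e0 w := rfl
  rw [hE]
  have hχ : χ w = χ (e0.symm ((e0 w).1, 1)) * χ (e0.symm (1, (e0 w).2)) := by
    rw [← map_mul, ← map_mul, Prod.mk_mul_mk, mul_one, one_mul, Prod.mk.eta, e0.symm_apply_apply]
  have hχ1 : (χ.comp (e0.symm.toMonoidHom.comp (MonoidHom.inl _ _))) (e0 w).1 =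
      χ (e0.symm ((e0 w).1, 1)) := rfl
  have hχ2 : (χ.comp (e0.symm.toMonoidHom.comp (MonoidHom.inr _ _))) (e0 w).2 =
      χ (e0.symm (1, (e0 w).2)) := rfl
  rw [hχ1, hχ2, hχ]
  obtain ⟨k, hk⟩ := ZMod.intCast_surjective
    (b * ((w : ZMod (m * n)) + ((w⁻¹ : (ZMod (m * n))ˣ) : ZMod (m * n))))
  rw [← hk, Kloo.stdAddChar_mul hmn]
  have hk1 : (k : ZMod m) = π1 b * ((e0 w).1 + (((e0 w).1⁻¹ : (ZMod m)ˣ) : ZMod m)) := by
    have h1 := congrArg π1 hk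
    rw [map_intCast, map_mul, map_add] at h1
    rw [h1, he1 w]
    congr 2
    have h2 : (e0 w).1⁻¹ = (e0 w⁻¹).1 := by rw [map_inv]; rfl
    rw [h2, he1]
  have hk2 : (k : ZMod n) = π2 b * ((e0 w).2 + (((e0 w).2⁻¹ : (ZMod n)ˣ) : ZMod n)) := by
    have h1 := congrArg π2 hk
    rw [map_intCast, map_mul, map_add] at h1
    rw [h1, he2 w]
    congr 2
    have h2 : (e0 w).2⁻¹ = (e0 w⁻¹).2 := by rw [map_inv]; rfl
    rw [h2, he2]
  rw [hk1, hk2, mul_assoc ((n : ZMod m)⁻¹), mul_assoc ((m : ZMod n)⁻¹)]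
  push_cast
  ring

end Pool.KV
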