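import Pool.Agent.LibKlVar.KV_Def

/-!
# Variance of Kloosterman sums of prime moduli over the first argument: rows E2, E3, E4, hb_nonneg
-/

set_option autoImplicit false

namespace Pool.KV

open Finset

theorem norm_char_unit {k : ℕ} [NeZero k] (χ : (ZMod k)ˣ →* ℂˣ) (u : (ZMod k)ˣ) :
    ‖(χ u : ℂ)‖ = 1 := by
  have h1 : IsOfFinOrder u := isOfFinOrder_of_finite u
  have h2 : IsOfFinOrder (χ u : ℂ) := by
    have h3 : IsOfFinOrder (χ u) := MonoidHom.isOfFinOrder χ h1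
    exact (Units.coeHom ℂ).isOfFinOrder h3
  exact h2.norm_eq_one

/-- E2. -/
theorem G_triv (k : ℕ) [NeZero k] (χ : (ZMod k)ˣ →* ℂˣ) (b : ZMod k) : ‖G k χ b‖ ≤ k := by
  unfold G
  refine (norm_sum_le _ _).trans ?_
  have h1 : ∀ u : (ZMod k)ˣ, ‖(χ u : ℂ) *
      ZMod.stdAddChar (b * ((u : ZMod k) + ((u⁻¹ : (ZMod k)ˣ) : ZMod k)))‖ = 1 := by
    intro u
    rw [norm_mul, norm_char_unit, AddChar.norm_apply, one_mul]
  rw [Finset.sum_congr rfl (fun u _ => h1 u), Finset.sum_const, nsmul_eq_mul, mul_one,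
    Finset.card_univ, ZMod.card_units_eq_totient]
  exact_mod_cast Nat.totient_le k

/-- E3. -/
theorem G_prime (p : ℕ) [NeZero p] (hp : p.Prime) (HW : WeilBd p) (χ : (ZMod p)ˣ →* ℂˣ)
    (b : ZMod p) (hb : IsUnit b) : ‖G p χ b‖ ≤ 2 * Real.sqrt p := by
  have : Fact p.Prime := ⟨hp⟩
  have hb0 : b ≠ 0 := hb.ne_zero
  have h := HW (MulChar.ofUnitHom χ) b b hb0 hb0
  unfold G
  have h1 : ∑ u : (ZMod p)ˣ, (χ u : ℂ) *
      ZMod.stdAddChar (b * ((u : ZMod p) + ((u⁻¹ : (ZMod p)ˣ) : ZMod p))) =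
      ∑ u : (ZMod p)ˣ, MulChar.ofUnitHom χ (u : ZMod p) *
      ZMod.stdAddChar (b * (u : ZMod p) + b * ((u⁻¹ : (ZMod p)ˣ) : ZMod p)) := by
    refine Finset.sum_congr rfl (fun u _ => ?_)
    rw [MulChar.ofUnitHom_coe, mul_add]
  rw [h1]
  exact h

theorem hb_nonneg (k : ℕ) : 0 ≤ hb k := by
  unfold hb
  refine Finset.prod_nonneg (fun p _ => ?_)
  split_ifs
  · exact zero_le_one
  · positivity

/-- E4. -/
theorem hb_mul (m n : ℕ) (hm : 0 < m) (hn : 0 < n) (hmn : m.Coprime n) :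
    hb (m * n) = hb m * hb n := by
  unfold hb
  rw [Nat.Coprime.primeFactors_mul hmn, Finset.prod_union hmn.disjoint_primeFactors]
  congr 1
  · refine Finset.prod_congr rfl (fun p hp => ?_)
    have hpp := Nat.prime_of_mem_primeFactors hp
    have hpm := Nat.dvd_of_mem_primeFactors hp
    have hcop : (p ^ 2).Coprime n :=
      Nat.Coprime.pow_left 2 (Nat.Coprime.coprime_dvd_left hpm hmn)
    have : p ^ 2 ∣ m * n ↔ p ^ 2 ∣ m := hcop.dvd_mul_right
    simp only [this]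
  · refine Finset.prod_congr rfl (fun p hp => ?_)
    have hpn := Nat.dvd_of_mem_primeFactors hp
    have hcop : (p ^ 2).Coprime m :=
      Nat.Coprime.pow_left 2 (Nat.Coprime.coprime_dvd_left hpn hmn.symm)
    have : p ^ 2 ∣ m * n ↔ p ^ 2 ∣ n := hcop.dvd_mul_left
    simp only [this]

end Pool.KV
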