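import Pool.Agent.LibKlVar.KV_Def
import Pool.Agent.LibKlVar.KV_E1
import Pool.Agent.LibKlVar.KV_E2

/-!
# Bound for twisted Kloosterman sums modulo `k`
-/

set_option autoImplicit false

namespace Pool.KV

open Finset

theorem hb_prime_pow (p n : ℕ) (hp : p.Prime) (hn : 2 ≤ n) : hb (p ^ n) = 1 := by
  unfold hb
  rw [Nat.primeFactors_prime_pow (by omega) hp, Finset.prod_singleton,
    if_pos (pow_dvd_pow p hn)]

theorem hb_prime (p : ℕ) (hp : p.Prime) : hb p = 2 / Real.sqrt p := by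
  unfold hb
  rw [hp.primeFactors, Finset.prod_singleton, if_neg]
  intro h
  have h1 := Nat.le_of_dvd hp.pos h
  have h2 := hp.two_le
  nlinarith

theorem G_bound_prime (HW : ∀ p : ℕ, p.Prime → WeilBd p) (q : ℕ) (hq : q.Prime) [NeZero q]
    (χ : (ZMod q)ˣ →* ℂˣ) (b : ZMod q) (hb' : IsUnit b) : ‖G q χ b‖ ≤ q * hb q := by
  have hp0 : (0 : ℝ) < q := by exact_mod_cast hq.pos
  rw [hb_prime q hq]
  refine (G_prime q hq (HW q hq) χ b hb').trans (le_of_eq ?_)
  have h3 : Real.sqrt q ≠ 0 := by positivity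
  have h4 : Real.sqrt q * Real.sqrt q = q := Real.mul_self_sqrt hp0.le
  field_simp
  rw [sq, h4]

/-- E5. -/
theorem G_bound (HW : ∀ p : ℕ, p.Prime → WeilBd p) (k : ℕ) [NeZero k] (χ : (ZMod k)ˣ →* ℂˣ)
    (b : ZMod k) (hb' : IsUnit b) : ‖G k χ b‖ ≤ k * hb k := by
  have key : ∀ k : ℕ, ∀ [NeZero k] (χ : (ZMod k)ˣ →* ℂˣ) (b : ZMod k), IsUnit b →
      ‖G k χ b‖ ≤ k * hb k := by
    intro k
    induction k using Nat.recOnPosPrimePosCoprime with
    | prime_pow p n hp hn =>
      intro _ χ b hb'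
      by_cases h2 : 2 ≤ n
      · rw [hb_prime_pow p n hp h2, mul_one]
        exact G_triv _ χ b
      · have hn1 : n = 1 := by omega
        subst hn1
        exact G_bound_prime HW (p ^ 1) (by rw [pow_one]; exact hp) χ b hb'
    | zero =>
      intro h _ _ _
      exact absurd rfl h.out
    | one =>
      intro _ χ b _
      have : hb 1 = 1 := by simp [hb]
      rw [this, mul_one]
      exact G_triv 1 χ b
    | coprime m n hm hn hmn ihm ihn =>
      intro _ χ b hb'
      have : NeZero m := ⟨by omega⟩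
      have : NeZero n := ⟨by omega⟩
      obtain ⟨χ₁, χ₂, b₁, b₂, h1, h2, h3⟩ := G_mul m n hmn χ b hb'
      rw [h3, norm_mul, hb_mul m n (by omega) (by omega) hmn]
      have e1 := ihm χ₁ b₁ h1
      have e2 := ihn χ₂ b₂ h2
      calc ‖G m χ₁ b₁‖ * ‖G n χ₂ b₂‖ ≤ (m * hb m) * (n * hb n) :=
            mul_le_mul e1 e2 (norm_nonneg _) ((norm_nonneg _).trans e1)
        _ = ((m * n : ℕ) : ℝ) * (hb m * hb n) := by push_cast; ring
  exact key k χ b hb'

end Pool.KV
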