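import Pool.Agent.LibKlVar.KV_Def
import Pool.Agent.LibKlVar.KV_E2

/-!
# Variance of Kloosterman sums of prime moduli over the first argument: row F1
-/

set_option autoImplicit false

namespace Pool.KV

open Finset

theorem hb_one : hb 1 = 1 := by
  unfold hb; simp

theorem hb_zero : hb 0 = 1 := by
  unfold hb; simp

theorem hbF_prime_pow (p n : ℕ) (hp : p.Prime) :
    hb (p ^ n) = if n = 0 then 1 else if n = 1 then 2 / Real.sqrt p else 1 := by
  rcases Nat.eq_zero_or_pos n with h | h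
  · subst h; simp [hb_one]
  · unfold hb
    rw [Nat.primeFactors_prime_pow h.ne' hp, prod_singleton, if_neg h.ne']
    rcases Nat.eq_or_lt_of_le h with h1 | h1
    · have h1' : n = 1 := h1.symm
      subst h1'
      have : ¬ p ^ 2 ∣ p ^ 1 := by
        rw [Nat.pow_dvd_pow_iff_le_right hp.one_lt]
        omega
      rw [if_neg this, if_pos rfl]
    · have h2 : 2 ≤ n := h1
      rw [if_pos (pow_dvd_pow p h2), if_neg (by omega)]

/-- The Dirichlet coefficients used in Rankin's method. -/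
noncomputable def rk (σ : ℝ) (n : ℕ) : ℝ := hb n * (n : ℝ) ^ (-σ)

theorem rk_nonneg (σ : ℝ) (n : ℕ) : 0 ≤ rk σ n :=
  mul_nonneg (hb_nonneg n) (Real.rpow_nonneg (Nat.cast_nonneg n) _)

theorem rk_one (σ : ℝ) : rk σ 1 = 1 := by
  unfold rk; rw [hb_one]; simp

theorem rk_mul (σ : ℝ) (hσ : 0 < σ) {m n : ℕ} (h : Nat.Coprime m n) :
    rk σ (m * n) = rk σ m * rk σ n := by
  rcases Nat.eq_zero_or_pos m with h1 | h1
  · subst h1
    have : n = 1 := (Nat.coprime_zero_left n).1 h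
    subst this
    simp [rk_one]
  · rcases Nat.eq_zero_or_pos n with h2 | h2
    · subst h2
      have : m = 1 := (Nat.coprime_zero_right m).1 h
      subst this
      simp [rk_one]
    · unfold rk
      rw [hb_mul m n h1 h2 h]
      push_cast
      rw [Real.mul_rpow (Nat.cast_nonneg m) (Nat.cast_nonneg n)]
      ring

theorem rk_pow (σ : ℝ) (p n : ℕ) (hp : p.Prime) :
    rk σ (p ^ n) = ((p : ℝ) ^ (-σ)) ^ n +
      (if n = 1 then (2 / Real.sqrt p - 1) * (p : ℝ) ^ (-σ) else 0) := by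
  unfold rk
  have h1 : (((p ^ n : ℕ) : ℝ)) ^ (-σ) = ((p : ℝ) ^ (-σ)) ^ n := by
    push_cast
    rw [← Real.rpow_natCast, ← Real.rpow_mul (Nat.cast_nonneg p), mul_comm,
      Real.rpow_mul (Nat.cast_nonneg p), Real.rpow_natCast]
  rw [h1, hbF_prime_pow p n hp]
  split_ifs with h2 h3 h3
  · omega
  · subst h2; simp
  · subst h3; ring
  · ring

theorem x_bound (ε : ℝ) (hε : 0 < ε) (p : ℕ) (hp : p.Prime) :
    0 < (p : ℝ) ^ (-(1 / 2 + ε)) ∧ (p : ℝ) ^ (-(1 / 2 + ε)) ≤ 3 / 4 := by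
  have hp2 : (2 : ℝ) ≤ p := by exact_mod_cast hp.two_le
  refine ⟨Real.rpow_pos_of_pos (by linarith) _, ?_⟩
  have h1 : (p : ℝ) ^ (-(1 / 2 + ε)) ≤ (p : ℝ) ^ (-(1 / 2 : ℝ)) := by
    apply Real.rpow_le_rpow_of_exponent_le (by linarith)
    linarith
  have h2 : (p : ℝ) ^ (-(1 / 2 : ℝ)) ≤ (2 : ℝ) ^ (-(1 / 2 : ℝ)) := by
    apply Real.rpow_le_rpow_of_nonpos (by norm_num) hp2
    norm_num
  have h3 : (2 : ℝ) ^ (-(1 / 2 : ℝ)) ≤ 3 / 4 := by
    rw [Real.rpow_neg (by norm_num), ← Real.sqrt_eq_rpow]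
    have h4 : (4 : ℝ) / 3 ≤ Real.sqrt 2 := by
      apply Real.le_sqrt_of_sq_le
      norm_num
    calc (Real.sqrt 2)⁻¹ ≤ (4 / 3 : ℝ)⁻¹ := by
          apply inv_anti₀ (by norm_num) h4
      _ = 3 / 4 := by norm_num
  linarith

theorem rk_hasSum (ε : ℝ) (hε : 0 < ε) (p : ℕ) (hp : p.Prime) :
    HasSum (fun n : ℕ => rk (1 / 2 + ε) (p ^ n))
      ((1 - (p : ℝ) ^ (-(1 / 2 + ε)))⁻¹ + (2 / Real.sqrt p - 1) * (p : ℝ) ^ (-(1 / 2 + ε))) := by
  obtain ⟨h1, h2⟩ := x_bound ε hε p hp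
  have h3 := hasSum_geometric_of_lt_one h1.le (by linarith)
  have h4 : HasSum (fun n : ℕ => if n = 1 then (2 / Real.sqrt p - 1) * (p : ℝ) ^ (-(1 / 2 + ε)) else 0)
      ((2 / Real.sqrt p - 1) * (p : ℝ) ^ (-(1 / 2 + ε))) := by
    have := hasSum_ite_eq (1 : ℕ) ((2 / Real.sqrt p - 1) * (p : ℝ) ^ (-(1 / 2 + ε)))
    exact this
  have h5 := h3.add h4
  refine h5.congr_fun ?_ |> fun h => h
  intro n
  exact rk_pow (1 / 2 + ε) p n hp

theorem rk_tsum_le (ε : ℝ) (hε : 0 < ε) (p : ℕ) (hp : p.Prime) :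
    ∑' n : ℕ, rk (1 / 2 + ε) (p ^ n) ≤ Real.exp (6 * (p : ℝ) ^ (-(1 + ε))) := by
  rw [(rk_hasSum ε hε p hp).tsum_eq]
  obtain ⟨h1, h2⟩ := x_bound ε hε p hp
  have hp2 : (2 : ℝ) ≤ p := by exact_mod_cast hp.two_le
  have hp0 : (0 : ℝ) < p := by linarith
  set x : ℝ := (p : ℝ) ^ (-(1 / 2 + ε)) with hx
  have h3 : x / Real.sqrt p = (p : ℝ) ^ (-(1 + ε)) := by
    rw [hx, Real.sqrt_eq_rpow, ← Real.rpow_sub hp0]
    congr 1; ring
  have h4 : x ^ 2 ≤ (p : ℝ) ^ (-(1 + ε)) := by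
    rw [hx, ← Real.rpow_natCast, ← Real.rpow_mul hp0.le]
    apply Real.rpow_le_rpow_of_exponent_le (by linarith)
    push_cast; linarith
  have h5 : (1 - x)⁻¹ ≤ 4 := by
    rw [inv_le_comm₀ (by linarith) (by norm_num)]
    linarith
  have h6 : (1 - x)⁻¹ = 1 + x + x ^ 2 * (1 - x)⁻¹ := by
    have : (1 - x) ≠ 0 := by linarith
    field_simp
    ring
  have h7 : x ^ 2 * (1 - x)⁻¹ ≤ (p : ℝ) ^ (-(1 + ε)) * 4 := by
    apply mul_le_mul h4 h5
    · have : 0 ≤ (1 - x) := by linarith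
      exact inv_nonneg.2 this
    · exact Real.rpow_nonneg hp0.le _
  have h8 : (1 - x)⁻¹ + (2 / Real.sqrt p - 1) * x ≤ 6 * (p : ℝ) ^ (-(1 + ε)) + 1 := by
    have : (2 / Real.sqrt p - 1) * x = 2 * (x / Real.sqrt p) - x := by ring
    rw [this, h3, h6]
    linarith
  exact h8.trans (Real.add_one_le_exp _)

/-- F1. -/
theorem hb_sum (ε : ℝ) (hε : 0 < ε) :
    ∃ C : ℝ, 0 < C ∧ ∀ Y : ℕ, ∑ k ∈ Icc 1 Y, hb k ≤ C * (Y : ℝ) ^ (1 / 2 + ε) := by
  classical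
  have hsummable : Summable (fun n : ℕ => (n : ℝ) ^ (-(1 + ε))) := by
    rw [Real.summable_nat_rpow]; linarith
  refine ⟨Real.exp (6 * ∑' n : ℕ, (n : ℝ) ^ (-(1 + ε))), Real.exp_pos _, fun Y => ?_⟩
  set σ : ℝ := 1 / 2 + ε with hσ
  have hσ0 : 0 < σ := by rw [hσ]; linarith
  have h1 := EulerProduct.summable_and_hasSum_smoothNumbers_prod_primesBelow_tsum
    (f := rk σ) (rk_one σ) (fun {m n} h => rk_mul σ hσ0 h)
    (fun {p} hp => by
      have := (rk_hasSum ε hε p hp).summable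
      refine this.congr fun n => ?_
      rw [Real.norm_of_nonneg (rk_nonneg _ _)]) (Y + 1)
  have h2 : ∑ k ∈ Icc 1 Y, rk σ k ≤ ∏ p ∈ (Y + 1).primesBelow, ∑' n : ℕ, rk σ (p ^ n) := by
    have hmem : ∀ x ∈ Icc 1 Y, x ∈ (Y + 1).smoothNumbers := by
      intro x hx
      rw [mem_Icc] at hx
      exact Nat.mem_smoothNumbers_of_lt (by omega) (by omega)
    have h3 := sum_subtype_of_mem (rk σ) hmem
    rw [← h3]
    exact sum_le_hasSum _ (fun i _ => rk_nonneg σ i) h1.2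
  have h4 : ∏ p ∈ (Y + 1).primesBelow, ∑' n : ℕ, rk σ (p ^ n) ≤
      Real.exp (6 * ∑' n : ℕ, (n : ℝ) ^ (-(1 + ε))) := by
    calc ∏ p ∈ (Y + 1).primesBelow, ∑' n : ℕ, rk σ (p ^ n)
        ≤ ∏ p ∈ (Y + 1).primesBelow, Real.exp (6 * (p : ℝ) ^ (-(1 + ε))) := by
          apply prod_le_prod
          · intro p hp
            exact tsum_nonneg fun n => rk_nonneg _ _
          · intro p hp
            exact rk_tsum_le ε hε p (Nat.prime_of_mem_primesBelow hp)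
      _ = Real.exp (6 * ∑ p ∈ (Y + 1).primesBelow, (p : ℝ) ^ (-(1 + ε))) := by
          rw [← Real.exp_sum, mul_sum]
      _ ≤ _ := by
          apply Real.exp_le_exp.2
          apply mul_le_mul_of_nonneg_left _ (by norm_num)
          exact hsummable.sum_le_tsum _ (fun n _ => Real.rpow_nonneg (Nat.cast_nonneg n) _)
  calc ∑ k ∈ Icc 1 Y, hb k ≤ ∑ k ∈ Icc 1 Y, rk σ k * (Y : ℝ) ^ σ := by
        refine sum_le_sum fun k hk => ?_
        rw [mem_Icc] at hk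
        have hk0 : (0 : ℝ) < k := by exact_mod_cast hk.1
        have h5 : hb k = rk σ k * (k : ℝ) ^ σ := by
          unfold rk
          rw [mul_assoc, ← Real.rpow_add hk0]
          simp
        rw [h5]
        apply mul_le_mul_of_nonneg_left _ (rk_nonneg _ _)
        apply Real.rpow_le_rpow hk0.le _ hσ0.le
        exact_mod_cast hk.2
    _ = (∑ k ∈ Icc 1 Y, rk σ k) * (Y : ℝ) ^ σ := by rw [sum_mul]
    _ ≤ Real.exp (6 * ∑' n : ℕ, (n : ℝ) ^ (-(1 + ε))) * (Y : ℝ) ^ σ := by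
        apply mul_le_mul_of_nonneg_right (h2.trans h4)
        exact Real.rpow_nonneg (Nat.cast_nonneg Y) _

end Pool.KV
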