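import Pool.Agent.LibKlVar.KV_Def
import Pool.Agent.LibKlVar.KV_B1
import Pool.Agent.LibKlVar.KV_C1
import Pool.Agent.LibKlVar.KV_C5
import Pool.Agent.LibKlVar.KV_C6
import Pool.Agent.LibKlVar.KV_D2
import Pool.Agent.LibKlVar.KV_E5

set_option autoImplicit false

namespace Pool.KV

open Finset

/-- G1. The matrix of a fixed `k`. -/
theorem k_op (HW : ∀ p : ℕ, p.Prime → WeilBd p) (X Z k : ℕ) (hX : 0 < X) (hk : 0 < k) (hkX : k ≤ X)
    (P : Finset ℕ) (hP : ∀ p ∈ P, p.Prime ∧ X < p ∧ p ≤ 2 * X) :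
    OpBd P (fun p q => if p = q then 0 else
      (Lam Z k p q : ℂ) * (ph k p q + (starRingEnd ℂ) (ph k p q)))
      (6 * Real.exp 26 * (2 * X * hb k + 1)) := by
  have : NeZero k := ⟨hk.ne'⟩
  have hP' : ∀ p ∈ P, X < p ∧ p ≤ 2 * X := fun p hp => (hP p hp).2
  have hb0 := hb_nonneg k
  have h1 := fk_op X k hkX P hP (k * hb k) (fun χ => G_bound HW k χ (-1) isUnit_one.neg)
  have hk' : (0 : ℝ) < k := by exact_mod_cast hk
  have e1 : (k * hb k : ℝ) * (2 * X / k) + 1 = 2 * X * hb k + 1 := by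
    field_simp
  rw [e1] at h1
  have hB : (0 : ℝ) ≤ 2 * X * hb k + 1 := by positivity
  have h2 := OpBd.arch h1 hB X k hX hk hP'
  have hB2 : (0 : ℝ) ≤ Real.exp 26 * (2 * X * hb k + 1) := by positivity
  have h3 := OpBd.lam h2 hB2 X Z k hX hP'
  have h4 := OpBd.lam (OpBd.conj h2) hB2 X Z k hX hP'
  have h5 := OpBd.add h3 h4
  intro u v
  have h6 := h5 u v
  have e2 : ∑ p ∈ P, ∑ q ∈ P, u p * v q * (if p = q then 0 else
      (Lam Z k p q : ℂ) * (ph k p q + (starRingEnd ℂ) (ph k p q)))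
      = ∑ p ∈ P, ∑ q ∈ P, u p * v q *
        ((Lam Z k p q : ℂ) * (e (((q : ℝ) / p + (p : ℝ) / q) / k) *
          (if p = q then 0 else fk k p q)) +
        (Lam Z k p q : ℂ) * (starRingEnd ℂ) (e (((q : ℝ) / p + (p : ℝ) / q) / k) *
          (if p = q then 0 else fk k p q))) := by
    refine Finset.sum_congr rfl fun p hp => Finset.sum_congr rfl fun q hq => ?_
    by_cases hpq : p = q
    · simp [hpq]
    · rw [if_neg hpq, if_neg hpq]
      obtain ⟨a1, a2, -⟩ := hP p hp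
      obtain ⟨b1, b2, -⟩ := hP q hq
      rw [recip k p q hk a1 b1 (by omega) (by omega)]
      rw [mul_comm (fk k p q)]
      ring
  rw [e2]
  refine h6.trans (le_of_eq ?_)
  ring

end Pool.KV
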