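import Pool.Agent.LibKlVar.KV_Def
import Pool.Agent.LibKlVar.KV_A7
import Pool.Agent.LibKlVar.KV_G1
import Pool.Agent.LibKlVar.KV_F1
import Pool.Agent.LibKlVar.KV_C1
import Pool.Agent.LibKlVar.KV_E2

/-!
# The large sieve inequality for Kloosterman sums of prime moduli
-/

set_option autoImplicit false

namespace Pool.KV

open Finset

/-- The triangle weight vanishes for large `k`. -/
theorem Lam_eq_zero (X Z k p q : ℕ) (hX : 0 < X) (hZ : 0 < Z) (hp1 : X < p) (hp2 : p ≤ 2 * X)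
    (hq1 : X < q) (hq2 : q ≤ 2 * X) (hk : X ^ 2 / (4 * Z) < k) : Lam Z k p q = 0 := by
  have h1 : X ^ 2 < k * (4 * Z) := (Nat.div_lt_iff_lt_mul (by positivity)).mp hk
  have h2 : p * q ≤ 16 * Z * k := by
    have : p * q ≤ (2 * X) * (2 * X) := Nat.mul_le_mul hp2 hq2
    nlinarith
  have hp0 : (0 : ℝ) < p := by
    have : 0 < p := by omega
    exact_mod_cast this
  have hq0 : (0 : ℝ) < q := by
    have : 0 < q := by omega
    exact_mod_cast this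
  have h3 : (p : ℝ) * q ≤ 16 * (Z : ℝ) * k := by exact_mod_cast h2
  unfold Lam
  refine max_eq_left ?_
  have h4 : 1 ≤ 16 * (Z : ℝ) * k / (p * q) := by
    rw [le_div_iff₀ (by positivity)]
    linarith
  linarith

/-- The off-diagonal terms. -/
theorem off_diag (HW : ∀ p : ℕ, p.Prime → WeilBd p) (ε C : ℝ) (hε : 0 < ε) (hC : 0 ≤ C)
    (hF : ∀ Y : ℕ, ∑ k ∈ Icc 1 Y, hb k ≤ C * (Y : ℝ) ^ (1 / 2 + ε))
    (X Z : ℕ) (hX : 0 < X) (hXZ : X ≤ Z) (P : Finset ℕ)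
    (hP : ∀ p ∈ P, p.Prime ∧ X < p ∧ p ≤ 2 * X) (α : ℕ → ℂ) :
    ‖∑ p ∈ P, ∑ q ∈ P, if p = q then 0 else
          (α p / (Real.sqrt p : ℂ)) * ((starRingEnd ℂ) (α q) / (Real.sqrt q : ℂ)) *
          ∑ k ∈ Icc 1 X, (Lam Z k p q : ℂ) * (ph k p q + (starRingEnd ℂ) (ph k p q))‖ ≤
      6 * Real.exp 26 * (2 * C * (X / Real.sqrt Z * (X : ℝ) ^ ε) + 1) * ∑ p ∈ P, ‖α p‖ ^ 2 := by
  have hX0 : (0 : ℝ) < X := by exact_mod_cast hX
  have hZ : 0 < Z := by omega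
  have hZ0 : (0 : ℝ) < Z := by exact_mod_cast hZ
  have hsZ : 0 < Real.sqrt Z := Real.sqrt_pos.mpr hZ0
  set K : ℕ := X ^ 2 / (4 * Z) with hK
  have hKX : K ≤ X := by
    rw [hK]
    calc X ^ 2 / (4 * Z) ≤ X * (4 * Z) / (4 * Z) := by
          refine Nat.div_le_div_right ?_
          nlinarith
      _ = X := Nat.mul_div_cancel _ (by positivity)
  have hKR : (K : ℝ) ≤ X ^ 2 / Z := by
    have h1 : K * (4 * Z) ≤ X ^ 2 := Nat.div_mul_le_self _ _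
    have h2 : (K : ℝ) * (4 * Z) ≤ X ^ 2 := by exact_mod_cast h1
    rw [le_div_iff₀ hZ0]
    have h3 : (0 : ℝ) ≤ K * Z := by positivity
    nlinarith
  have hKp : (K : ℝ) ^ (1 / 2 + ε) ≤ X / Real.sqrt Z * (X : ℝ) ^ ε := by
    rw [Real.rpow_add_of_nonneg (by positivity) (by positivity) hε.le]
    have h1 : (K : ℝ) ^ (1 / 2 : ℝ) ≤ X / Real.sqrt Z := by
      rw [← Real.sqrt_eq_rpow]
      calc Real.sqrt K ≤ Real.sqrt (X ^ 2 / Z) := Real.sqrt_le_sqrt hKR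
        _ = X / Real.sqrt Z := by
          rw [Real.sqrt_div (by positivity), Real.sqrt_sq hX0.le]
    have h2 : (K : ℝ) ^ ε ≤ (X : ℝ) ^ ε :=
      Real.rpow_le_rpow (by positivity) (by exact_mod_cast hKX) hε.le
    exact mul_le_mul h1 h2 (by positivity) (by positivity)
  set S : ℝ := ∑ p ∈ P, ‖α p‖ ^ 2 with hS
  have hS0 : 0 ≤ S := Finset.sum_nonneg fun p _ => by positivity
  have h1 := OpBd.sum (P := P) (Icc 1 K)
    (fun k p q => if p = q then 0 else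
      (Lam Z k p q : ℂ) * (ph k p q + (starRingEnd ℂ) (ph k p q)))
    (fun k => 6 * Real.exp 26 * (2 * X * hb k + 1))
    (fun k hk => k_op HW X Z k hX (by have := (mem_Icc.mp hk).1; omega)
      ((mem_Icc.mp hk).2.trans hKX) P hP)
  have h2 := h1 (fun p => α p / (Real.sqrt p : ℂ))
    (fun q => (starRingEnd ℂ) (α q) / (Real.sqrt q : ℂ))
  have eq1 : ∑ p ∈ P, ∑ q ∈ P, (α p / (Real.sqrt p : ℂ)) *
        ((starRingEnd ℂ) (α q) / (Real.sqrt q : ℂ)) *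
        (∑ k ∈ Icc 1 K, if p = q then 0 else
          (Lam Z k p q : ℂ) * (ph k p q + (starRingEnd ℂ) (ph k p q))) =
      ∑ p ∈ P, ∑ q ∈ P, if p = q then 0 else
          (α p / (Real.sqrt p : ℂ)) * ((starRingEnd ℂ) (α q) / (Real.sqrt q : ℂ)) *
          ∑ k ∈ Icc 1 X, (Lam Z k p q : ℂ) * (ph k p q + (starRingEnd ℂ) (ph k p q)) := by
    refine Finset.sum_congr rfl fun p hp => Finset.sum_congr rfl fun q hq => ?_
    by_cases hpq : p = q
    · simp [hpq]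
    · simp only [hpq, if_false]
      congr 1
      refine Finset.sum_subset (Finset.Icc_subset_Icc_right hKX) ?_
      intro k hk1 hk2
      have hk3 : K < k := by
        by_contra h
        exact hk2 (mem_Icc.mpr ⟨(mem_Icc.mp hk1).1, by omega⟩)
      rw [Lam_eq_zero X Z k p q hX hZ (hP p hp).2.1 (hP p hp).2.2 (hP q hq).2.1 (hP q hq).2.2 hk3]
      simp
  rw [← eq1]
  refine h2.trans ?_
  have hu : ∑ p ∈ P, ‖α p / (Real.sqrt p : ℂ)‖ ^ 2 ≤ S / X := by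
    rw [hS, Finset.sum_div]
    refine Finset.sum_le_sum fun p hp => ?_
    have hp0 : (0 : ℝ) < p := by exact_mod_cast (hP p hp).1.pos
    have hpX : (X : ℝ) ≤ p := by exact_mod_cast (hP p hp).2.1.le
    rw [norm_div, div_pow, Complex.norm_real, Real.norm_eq_abs, sq_abs, Real.sq_sqrt hp0.le]
    exact div_le_div_of_nonneg_left (by positivity) hX0 hpX
  have hv : ∑ p ∈ P, ‖(starRingEnd ℂ) (α p) / (Real.sqrt p : ℂ)‖ ^ 2 ≤ S / X := by
    have : ∀ p, ‖(starRingEnd ℂ) (α p) / (Real.sqrt p : ℂ)‖ = ‖α p / (Real.sqrt p : ℂ)‖ := by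
      intro p
      rw [norm_div, norm_div, RCLike.norm_conj]
    simp only [this]
    exact hu
  have hSX : 0 ≤ S / X := by positivity
  have h3 : Real.sqrt (∑ p ∈ P, ‖α p / (Real.sqrt p : ℂ)‖ ^ 2) *
      Real.sqrt (∑ p ∈ P, ‖(starRingEnd ℂ) (α p) / (Real.sqrt p : ℂ)‖ ^ 2) ≤ S / X := by
    calc _ ≤ Real.sqrt (S / X) * Real.sqrt (S / X) :=
          mul_le_mul (Real.sqrt_le_sqrt hu) (Real.sqrt_le_sqrt hv) (Real.sqrt_nonneg _)
            (Real.sqrt_nonneg _)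
      _ = S / X := Real.mul_self_sqrt hSX
  have hE : 0 < Real.exp 26 := Real.exp_pos _
  have h4 : ∑ k ∈ Icc 1 K, 6 * Real.exp 26 * (2 * X * hb k + 1) ≤
      6 * Real.exp 26 * (2 * C * (X / Real.sqrt Z * (X : ℝ) ^ ε) + 1) * X := by
    rw [← Finset.mul_sum, Finset.sum_add_distrib, ← Finset.mul_sum]
    simp only [Finset.sum_const, Nat.card_Icc, Nat.add_sub_cancel, nsmul_eq_mul, mul_one]
    have h5 := mul_le_mul_of_nonneg_left ((hF K).trans (mul_le_mul_of_nonneg_left hKp hC))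
      (by positivity : (0 : ℝ) ≤ 2 * X)
    have hKX' : (K : ℝ) ≤ X := by exact_mod_cast hKX
    have h6 : 2 * (X : ℝ) * ∑ k ∈ Icc 1 K, hb k + K ≤
        (2 * C * (X / Real.sqrt Z * (X : ℝ) ^ ε) + 1) * X := by
      nlinarith [h5]
    calc _ ≤ 6 * Real.exp 26 * ((2 * C * (X / Real.sqrt Z * (X : ℝ) ^ ε) + 1) * X) :=
          mul_le_mul_of_nonneg_left h6 (by positivity)
      _ = _ := by ring
  have h7 : (0 : ℝ) ≤ 6 * Real.exp 26 * (2 * C * (X / Real.sqrt Z * (X : ℝ) ^ ε) + 1) * X := by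
    positivity
  calc _ ≤ (6 * Real.exp 26 * (2 * C * (X / Real.sqrt Z * (X : ℝ) ^ ε) + 1) * X) * (S / X) :=
        mul_le_mul h4 h3 (mul_nonneg (Real.sqrt_nonneg _) (Real.sqrt_nonneg _)) h7
    _ = _ := by field_simp

/-- G2. The large sieve inequality for Kloosterman sums of prime moduli, `Z ≥ X`. -/
theorem large_sieve (HW : ∀ p : ℕ, p.Prime → WeilBd p) (ε : ℝ) (hε : 0 < ε) :
    ∃ C : ℝ, 0 < C ∧ ∀ X Z : ℕ, 0 < X → X ≤ Z → ∀ P : Finset ℕ,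
      (∀ p ∈ P, p.Prime ∧ X < p ∧ p ≤ 2 * X) → ∀ α : ℕ → ℂ,
      ∑ a ∈ Icc (-(Z : ℤ)) Z, ‖∑ p ∈ P, α p * (kl a p / (Real.sqrt p : ℂ))‖ ^ 2 ≤
        C * (X : ℝ) ^ ε * (Z + X * Real.sqrt Z) * ∑ p ∈ P, ‖α p‖ ^ 2 := by
  obtain ⟨C, hC, hF⟩ := hb_sum ε hε
  refine ⟨64 * (1 + 6 * Real.exp 26 * (2 * C + 1)), by positivity, ?_⟩
  intro X Z hX hXZ P hP α
  have hX0 : (0 : ℝ) < X := by exact_mod_cast hX
  have hX1 : (1 : ℝ) ≤ X := by exact_mod_cast hX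
  have hZ0 : (0 : ℝ) < Z := by
    have : 0 < Z := by omega
    exact_mod_cast this
  have hsZ : 0 < Real.sqrt Z := Real.sqrt_pos.mpr hZ0
  set S : ℝ := ∑ p ∈ P, ‖α p‖ ^ 2 with hS
  have hS0 : 0 ≤ S := Finset.sum_nonneg fun p _ => by positivity
  set W : ℝ := (X : ℝ) ^ ε with hW
  have hW1 : 1 ≤ W := Real.one_le_rpow hX1 hε.le
  have h1 := reduce X Z hX hXZ P hP α
  have h2 := off_diag HW ε C hε hC.le hF X Z hX hXZ P hP α
  rw [← hS, ← hW] at h2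
  refine h1.trans ?_
  have hE : 0 < Real.exp 26 := Real.exp_pos _
  have hzz : Real.sqrt Z * Real.sqrt Z = Z := Real.mul_self_sqrt hZ0.le
  have h3 : (Z : ℝ) * (X / Real.sqrt Z * W) = X * Real.sqrt Z * W := by
    field_simp
    rw [sq, hzz]
  have h4 : Z * (S + 6 * Real.exp 26 * (2 * C * (X / Real.sqrt Z * W) + 1) * S) ≤
      (1 + 6 * Real.exp 26 * (2 * C + 1)) * (W * (Z + X * Real.sqrt Z)) * S := by
    have e1 : Z * (S + 6 * Real.exp 26 * (2 * C * (X / Real.sqrt Z * W) + 1) * S) =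
        (Z + 6 * Real.exp 26 * (2 * C * (X * Real.sqrt Z * W) + Z)) * S := by
      rw [← h3]; ring
    rw [e1]
    refine mul_le_mul_of_nonneg_right ?_ hS0
    have a0 : 0 ≤ X * Real.sqrt Z * W := by positivity
    have a1 : (Z : ℝ) ≤ W * Z := by nlinarith
    have a2 : (Z : ℝ) ≤ W * (Z + X * Real.sqrt Z) := by nlinarith
    have a3 : 2 * C * (X * Real.sqrt Z * W) + Z ≤ (2 * C + 1) * (W * (Z + X * Real.sqrt Z)) := by
      have a4 : X * Real.sqrt Z * W ≤ W * (Z + X * Real.sqrt Z) := by nlinarith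
      nlinarith
    have a5 := mul_le_mul_of_nonneg_left a3 (by positivity : 0 ≤ 6 * Real.exp 26)
    nlinarith [a2, a5]
  calc _ ≤ 64 * Z * (S + 6 * Real.exp 26 * (2 * C * (X / Real.sqrt Z * W) + 1) * S) :=
        mul_le_mul_of_nonneg_left (by linarith) (by positivity)
    _ = 64 * (Z * (S + 6 * Real.exp 26 * (2 * C * (X / Real.sqrt Z * W) + 1) * S)) := by ring
    _ ≤ 64 * ((1 + 6 * Real.exp 26 * (2 * C + 1)) * (W * (Z + X * Real.sqrt Z)) * S) :=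
        mul_le_mul_of_nonneg_left h4 (by positivity)
    _ = _ := by ring

/-- G3. The large sieve inequality for all `N, X ≥ 1`. -/
theorem large_sieve' (HW : ∀ p : ℕ, p.Prime → WeilBd p) (ε : ℝ) (hε : 0 < ε) :
    ∃ C : ℝ, 0 < C ∧ ∀ X N : ℕ, 0 < X → ∀ P : Finset ℕ,
      (∀ p ∈ P, p.Prime ∧ X < p ∧ p ≤ 2 * X) → ∀ α : ℕ → ℂ,
      ∑ a ∈ Icc (-(N : ℤ)) N, ‖∑ p ∈ P, α p * (kl a p / (Real.sqrt p : ℂ))‖ ^ 2 ≤
        C * (X : ℝ) ^ ε * (N + X * Real.sqrt N + (X : ℝ) ^ (3 / 2 : ℝ)) * ∑ p ∈ P, ‖α p‖ ^ 2 := by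
  obtain ⟨C, hC, hF⟩ := large_sieve HW ε hε
  refine ⟨2 * C, by positivity, ?_⟩
  intro X N hX P hP α
  have hX0 : (0 : ℝ) < X := by exact_mod_cast hX
  have hX1 : (1 : ℝ) ≤ X := by exact_mod_cast hX
  have h1 := hF X (max N X) hX (le_max_right _ _) P hP α
  have h2 : ∑ a ∈ Icc (-(N : ℤ)) N, ‖∑ p ∈ P, α p * (kl a p / (Real.sqrt p : ℂ))‖ ^ 2 ≤
      ∑ a ∈ Icc (-((max N X : ℕ) : ℤ)) (max N X : ℕ),
        ‖∑ p ∈ P, α p * (kl a p / (Real.sqrt p : ℂ))‖ ^ 2 := by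
    refine Finset.sum_le_sum_of_subset_of_nonneg (Finset.Icc_subset_Icc ?_ ?_)
      (fun _ _ _ => by positivity)
    · have : (N : ℤ) ≤ ((max N X : ℕ) : ℤ) := by exact_mod_cast le_max_left N X
      linarith
    · exact_mod_cast le_max_left N X
  refine h2.trans (h1.trans ?_)
  have hS0 : 0 ≤ ∑ p ∈ P, ‖α p‖ ^ 2 := Finset.sum_nonneg fun p _ => by positivity
  refine mul_le_mul_of_nonneg_right ?_ hS0
  have h3 : ((max N X : ℕ) : ℝ) ≤ N + X := by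
    rw [Nat.cast_max]
    exact max_le (by linarith) (by linarith [(Nat.cast_nonneg N : (0 : ℝ) ≤ N)])
  have h4 : Real.sqrt ((max N X : ℕ) : ℝ) ≤ Real.sqrt N + Real.sqrt X := by
    rw [Nat.cast_max]
    rcases max_cases (N : ℝ) (X : ℝ) with h | h
    · rw [h.1]
      linarith [Real.sqrt_nonneg (X : ℝ)]
    · rw [h.1]
      linarith [Real.sqrt_nonneg (N : ℝ)]
  have h5 : (X : ℝ) ^ (3 / 2 : ℝ) = X * Real.sqrt X := by
    rw [show (3 / 2 : ℝ) = 1 + 1 / 2 by norm_num, Real.rpow_add hX0, Real.rpow_one,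
      ← Real.sqrt_eq_rpow]
  have h6 : (X : ℝ) ≤ X * Real.sqrt X := by
    have : 1 ≤ Real.sqrt X := by rw [Real.one_le_sqrt]; exact hX1
    nlinarith
  have hN0 : (0 : ℝ) ≤ N := Nat.cast_nonneg N
  have h7 : ((max N X : ℕ) : ℝ) + X * Real.sqrt ((max N X : ℕ) : ℝ) ≤
      2 * (N + X * Real.sqrt N + (X : ℝ) ^ (3 / 2 : ℝ)) := by
    rw [h5]
    have h8 : (X : ℝ) * Real.sqrt ((max N X : ℕ) : ℝ) ≤ X * Real.sqrt N + X * Real.sqrt X := by
      nlinarith [mul_le_mul_of_nonneg_left h4 hX0.le]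
    have h9 : 0 ≤ (X : ℝ) * Real.sqrt N := by positivity
    linarith
  have hCX : 0 ≤ C * (X : ℝ) ^ ε := by positivity
  calc C * (X : ℝ) ^ ε * (((max N X : ℕ) : ℝ) + X * Real.sqrt ((max N X : ℕ) : ℝ)) ≤
        C * (X : ℝ) ^ ε * (2 * (N + X * Real.sqrt N + (X : ℝ) ^ (3 / 2 : ℝ))) :=
        mul_le_mul_of_nonneg_left h7 hCX
    _ = _ := by ring

end Pool.KV
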