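import Pool.Agent.LibKlVar.KV_Def

/-!
# H3: the counting argument
-/

set_option autoImplicit false

namespace Pool.KV

open Finset

/-- H3. Abstract counting argument: a matrix `K(a,p)` with entries in `[-2,2]`, second moment
about `1` in each column, small variance of the row sums. -/
theorem abstract_signs {ι κ : Type*} (I : Finset ι) (P : Finset κ) (K : ι → κ → ℝ)
    (hK : ∀ a ∈ I, ∀ p ∈ P, |K a p| ≤ 2)
    (h2 : ∀ p ∈ P, (99 / 100 : ℝ) * #I ≤ ∑ a ∈ I, K a p ^ 2)
    (h1 : ∑ a ∈ I, (∑ p ∈ P, K a p) ^ 2 ≤ (1 / 10 ^ 8 : ℝ) * (#I * (#P : ℝ) ^ 2)) :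
    (#I : ℝ) / 5 ≤ #(I.filter (fun a => (#P : ℝ) / 100 ≤ #(P.filter (fun p => 1 / 100 < K a p)) ∧
      (#P : ℝ) / 100 ≤ #(P.filter (fun p => K a p < -(1 / 100))))) := by
  classical
  set S := I.filter (fun a => (#P : ℝ) / 100 ≤ #(P.filter (fun p => 1 / 100 < K a p)) ∧
      (#P : ℝ) / 100 ≤ #(P.filter (fun p => K a p < -(1 / 100)))) with hS
  rcases P.eq_empty_or_nonempty with hP0 | hP0
  · have : S = I := by
      rw [hS]
      apply filter_true_of_mem
      intro a _
      subst hP0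
      simp
    rw [this]
    have : (0 : ℝ) ≤ #I := Nat.cast_nonneg _
    linarith
  have hPpos : (0 : ℝ) < #P := by exact_mod_cast hP0.card_pos
  have hI0 : (0 : ℝ) ≤ #I := Nat.cast_nonneg _
  set A1 := I.filter (fun a => (#P : ℝ) * (4 / 25) ≤ ∑ p ∈ P, K a p ^ 2) with hA1
  set A2 := I.filter (fun a => (#P : ℝ) / 1000 ≤ |∑ p ∈ P, K a p|) with hA2
  -- lower bound for A1
  have hA1c : (216 / 1000 : ℝ) * #I ≤ #A1 := by
    have hsum : (99 / 100 : ℝ) * #I * #P ≤ ∑ a ∈ I, ∑ p ∈ P, K a p ^ 2 := by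
      rw [sum_comm]
      calc (99 / 100 : ℝ) * #I * #P = ∑ p ∈ P, (99 / 100 : ℝ) * #I := by
            rw [sum_const, nsmul_eq_mul]; ring
        _ ≤ _ := sum_le_sum h2
    have hsplit : ∑ a ∈ I, ∑ p ∈ P, K a p ^ 2 ≤ #A1 * (4 * (#P : ℝ)) + (#I - #A1) * ((#P : ℝ) * (4 / 25)) := by
      rw [← sum_filter_add_sum_filter_not I (fun a => (#P : ℝ) * (4 / 25) ≤ ∑ p ∈ P, K a p ^ 2)]
      apply add_le_add
      · rw [← hA1]
        calc ∑ a ∈ A1, ∑ p ∈ P, K a p ^ 2 ≤ ∑ a ∈ A1, 4 * (#P : ℝ) := by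
              apply sum_le_sum
              intro a ha
              have haI : a ∈ I := (mem_filter.1 ha).1
              calc ∑ p ∈ P, K a p ^ 2 ≤ ∑ p ∈ P, (4 : ℝ) := by
                    apply sum_le_sum
                    intro p hp
                    have := hK a haI p hp
                    have h3 := abs_le.1 this
                    nlinarith [h3.1, h3.2]
                _ = 4 * (#P : ℝ) := by rw [sum_const, nsmul_eq_mul]; ring
          _ = #A1 * (4 * (#P : ℝ)) := by rw [sum_const, nsmul_eq_mul]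
      · have hc : (#(I.filter (fun a => ¬ (#P : ℝ) * (4 / 25) ≤ ∑ p ∈ P, K a p ^ 2)) : ℝ) = #I - #A1 := by
          have := card_filter_add_card_filter_not (s := I)
            (fun a => (#P : ℝ) * (4 / 25) ≤ ∑ p ∈ P, K a p ^ 2)
          rw [← hA1] at this
          have h' : ((#A1 + #(I.filter (fun a => ¬ (#P : ℝ) * (4 / 25) ≤ ∑ p ∈ P, K a p ^ 2)) : ℕ) : ℝ)
              = #I := by exact_mod_cast this
          push_cast at h'
          linarith
        rw [← hc]
        calc ∑ a ∈ I.filter (fun a => ¬ (#P : ℝ) * (4 / 25) ≤ ∑ p ∈ P, K a p ^ 2), ∑ p ∈ P, K a p ^ 2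
            ≤ ∑ a ∈ I.filter (fun a => ¬ (#P : ℝ) * (4 / 25) ≤ ∑ p ∈ P, K a p ^ 2), (#P : ℝ) * (4 / 25) := by
              apply sum_le_sum
              intro a ha
              exact le_of_lt (not_le.1 (mem_filter.1 ha).2)
          _ = _ := by rw [sum_const, nsmul_eq_mul]
    have h3 : (99 / 100 : ℝ) * #I * #P ≤
        (#A1 * 4 + (#I - #A1) * (4 / 25)) * (#P : ℝ) := by
      calc _ ≤ _ := hsum
        _ ≤ _ := hsplit
        _ = _ := by ring
    have h4 := le_of_mul_le_mul_right h3 hPpos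
    linarith
  -- upper bound for A2
  have hA2c : (#A2 : ℝ) ≤ (1 / 100 : ℝ) * #I := by
    have h3 : #A2 * ((#P : ℝ) / 1000) ^ 2 ≤ ∑ a ∈ I, (∑ p ∈ P, K a p) ^ 2 := by
      calc #A2 * ((#P : ℝ) / 1000) ^ 2 = ∑ a ∈ A2, ((#P : ℝ) / 1000) ^ 2 := by
            rw [sum_const, nsmul_eq_mul]
        _ ≤ ∑ a ∈ A2, (∑ p ∈ P, K a p) ^ 2 := by
            apply sum_le_sum
            intro a ha
            have h5 := (mem_filter.1 ha).2
            rw [← sq_abs (∑ p ∈ P, K a p)]
            exact pow_le_pow_left₀ (by positivity) h5 2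
        _ ≤ ∑ a ∈ I, (∑ p ∈ P, K a p) ^ 2 :=
            sum_le_sum_of_subset_of_nonneg (filter_subset _ _) (fun _ _ _ => sq_nonneg _)
    have h4 := h3.trans h1
    have h5 : (#A2 : ℝ) * (#P : ℝ) ^ 2 ≤ ((1 / 100 : ℝ) * #I) * (#P : ℝ) ^ 2 := by
      have : (#A2 : ℝ) * ((#P : ℝ) / 1000) ^ 2 = (#A2 : ℝ) * (#P : ℝ) ^ 2 / 10 ^ 6 := by ring
      rw [this] at h4
      have h6 : (1 / 10 ^ 8 : ℝ) * (#I * (#P : ℝ) ^ 2) = (1 / 10 ^ 6 : ℝ) * (((1 / 100 : ℝ) * #I) * (#P : ℝ) ^ 2) := by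
        ring
      rw [h6] at h4
      linarith
    exact le_of_mul_le_mul_right h5 (by positivity)
  -- A1 \ A2 is contained in S
  have hsub : A1 \ A2 ⊆ S := by
    intro a ha
    rw [mem_sdiff] at ha
    have haI : a ∈ I := (mem_filter.1 ha.1).1
    have hY := (mem_filter.1 ha.1).2
    have hlt : |∑ p ∈ P, K a p| < (#P : ℝ) / 1000 := by
      by_contra hcon
      exact ha.2 (mem_filter.2 ⟨haI, not_lt.1 hcon⟩)
    have habs := abs_lt.1 hlt
    -- sum of |K|
    have hL1 : (#P : ℝ) * (2 / 25) ≤ ∑ p ∈ P, |K a p| := by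
      have h7 : ∑ p ∈ P, K a p ^ 2 ≤ ∑ p ∈ P, 2 * |K a p| := by
        apply sum_le_sum
        intro p hp
        have h8 := hK a haI p hp
        rw [← sq_abs]
        nlinarith [abs_nonneg (K a p)]
      rw [← mul_sum] at h7
      linarith
    have hpos : ∑ p ∈ P, (|K a p| + K a p) ≤
        4 * #(P.filter (fun p => 1 / 100 < K a p)) + (#P : ℝ) * (1 / 50) := by
      have e1 : (#P : ℝ) * (1 / 50) = ∑ p ∈ P, (1 / 50 : ℝ) := by
        rw [sum_const, nsmul_eq_mul]
      rw [card_filter, e1]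
      push_cast
      rw [mul_sum, ← sum_add_distrib]
      apply sum_le_sum
      intro p hp
      have h8 := hK a haI p hp
      have h10 := le_abs_self (K a p)
      split_ifs with h9
      · linarith
      · rcases abs_cases (K a p) with h | h
        · linarith [not_lt.1 h9]
        · linarith
    have hneg : ∑ p ∈ P, (|K a p| - K a p) ≤
        4 * #(P.filter (fun p => K a p < -(1 / 100))) + (#P : ℝ) * (1 / 50) := by
      have e1 : (#P : ℝ) * (1 / 50) = ∑ p ∈ P, (1 / 50 : ℝ) := by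
        rw [sum_const, nsmul_eq_mul]
      rw [card_filter, e1]
      push_cast
      rw [mul_sum, ← sum_add_distrib]
      apply sum_le_sum
      intro p hp
      have h8 := hK a haI p hp
      have h10 := neg_abs_le (K a p)
      split_ifs with h9
      · linarith
      · rcases abs_cases (K a p) with h | h
        · linarith
        · linarith [not_lt.1 h9]
    rw [sum_add_distrib] at hpos
    rw [sum_sub_distrib] at hneg
    refine mem_filter.2 ⟨haI, ?_, ?_⟩
    · linarith [habs.1, habs.2]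
    · linarith [habs.1, habs.2]
  have hcard : (#A1 : ℝ) - #A2 ≤ #S := by
    have h8 : #A1 ≤ #(A1 \ A2) + #A2 := by
      have := card_le_card_sdiff_add_card (s := A1) (t := A2)
      omega
    have h9 := card_le_card hsub
    have h10 : (#A1 : ℝ) ≤ #(A1 \ A2) + #A2 := by exact_mod_cast h8
    have h11 : (#(A1 \ A2) : ℝ) ≤ #S := by exact_mod_cast h9
    linarith
  linarith

end Pool.KV
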