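import Pool.Agent.LibKloosterman.Basic

set_option autoImplicit false

namespace HKS

open Finset Kloo

variable (p : ℕ) [hp : Fact p.Prime]

/-- orthogonality -/
lemma sum_stdAddChar_mul (c : ZMod p) :
    ∑ a : ZMod p, ZMod.stdAddChar (a * c) = if c = 0 then (p : ℂ) else 0 := by
  have := AddChar.sum_mulShift c (ZMod.isPrimitive_stdAddChar p)
  rw [ZMod.card p] at this
  rw [this]
  split_ifs <;> simp

/-- sum over units as a sum over non-zero elements -/
lemma sum_units (f : ZMod p → ZMod p → ℂ) :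
    ∑ u : (ZMod p)ˣ, f (u : ZMod p) ((u⁻¹ : (ZMod p)ˣ) : ZMod p) =
      ∑ x ∈ univ.erase (0 : ZMod p), f x x⁻¹ := by
  refine sum_bij (fun (u : (ZMod p)ˣ) _ => (u : ZMod p)) ?_ ?_ ?_ ?_
  · intro u _
    exact mem_erase.2 ⟨u.ne_zero, mem_univ _⟩
  · intro u _ v _ h
    exact Units.ext h
  · intro x hx
    exact ⟨Units.mk0 x (mem_erase.1 hx).1, mem_univ _, rfl⟩
  · intro u _
    rw [Units.val_inv_eq_inv_val]

lemma K_eq_sum (α : ZMod p) :
    K p α = ∑ x ∈ univ.erase (0 : ZMod p), ZMod.stdAddChar (α * x + x⁻¹) := by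
  unfold K
  exact sum_units p (fun x y => ZMod.stdAddChar (α * x + y))

/-- the change of variable -/
lemma sum_inv_add_inv (h : ZMod p) (hh : h ≠ 0) :
    ∑ x ∈ (univ.erase (0 : ZMod p)).erase h, ZMod.stdAddChar (x⁻¹ + (h - x)⁻¹)
    = ZMod.stdAddChar (2 * h⁻¹) * K p (h⁻¹ ^ 2) - 1 := by
  have h1 : K p (h⁻¹ ^ 2) = ∑ s ∈ univ.erase (0 : ZMod p), ZMod.stdAddChar (h⁻¹ * s + h⁻¹ * s⁻¹) := by
    rw [K_eq_sum]
    refine sum_bij' (fun x _ => h⁻¹ * x) (fun s _ => h * s) ?_ ?_ ?_ ?_ ?_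
    · intro x hx
      exact mem_erase.2 ⟨mul_ne_zero (inv_ne_zero hh) (mem_erase.1 hx).1, mem_univ _⟩
    · intro x hx
      exact mem_erase.2 ⟨mul_ne_zero hh (mem_erase.1 hx).1, mem_univ _⟩
    · intro x hx
      field_simp
    · intro x hx
      field_simp
    · intro x hx
      have hx0 := (mem_erase.1 hx).1
      congr 1
      field_simp
  rw [h1, mul_sum]
  have hm : (-1 : ZMod p) ∈ univ.erase (0 : ZMod p) := mem_erase.2 ⟨by simp, mem_univ _⟩
  rw [← add_sum_erase _ _ hm]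
  have h2 : ZMod.stdAddChar (2 * h⁻¹) * ZMod.stdAddChar (h⁻¹ * (-1) + h⁻¹ * (-1 : ZMod p)⁻¹) = (1 : ℂ) := by
    rw [← AddChar.map_add_eq_mul]
    have : 2 * h⁻¹ + (h⁻¹ * (-1) + h⁻¹ * (-1 : ZMod p)⁻¹) = 0 := by
      rw [inv_neg, inv_one]; ring
    rw [this, AddChar.map_zero_eq_one]
  rw [h2, add_sub_cancel_left]
  refine sum_bij' (fun x _ => x / (h - x)) (fun s _ => h * s / (1 + s)) ?_ ?_ ?_ ?_ ?_
  · intro x hx
    rw [mem_erase, mem_erase] at hx
    have hx1 : h - x ≠ 0 := sub_ne_zero.2 (Ne.symm hx.1)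
    refine mem_erase.2 ⟨?_, mem_erase.2 ⟨div_ne_zero hx.2.1 hx1, mem_univ _⟩⟩
    intro h3
    rw [div_eq_iff hx1] at h3
    apply hh
    linear_combination h3
  · intro s hs
    rw [mem_erase, mem_erase] at hs
    have hs1 : 1 + s ≠ 0 := by
      intro h3; apply hs.1; linear_combination h3
    refine mem_erase.2 ⟨?_, mem_erase.2 ⟨div_ne_zero (mul_ne_zero hh hs.2.1) hs1, mem_univ _⟩⟩
    intro h3
    rw [div_eq_iff hs1] at h3
    apply hh
    linear_combination -h3
  · intro x hx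
    rw [mem_erase, mem_erase] at hx
    have hx1 : h - x ≠ 0 := sub_ne_zero.2 (Ne.symm hx.1)
    have h4 : 1 + x / (h - x) = h / (h - x) := by field_simp; ring
    rw [h4]
    field_simp
  · intro s hs
    rw [mem_erase, mem_erase] at hs
    have hs1 : 1 + s ≠ 0 := by
      intro h3; apply hs.1; linear_combination h3
    have : h - h * s / (1 + s) = h / (1 + s) := by field_simp; ring
    rw [this]
    field_simp
  · intro x hx
    rw [mem_erase, mem_erase] at hx
    have hx1 : h - x ≠ 0 := sub_ne_zero.2 (Ne.symm hx.1)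
    have hx0 := hx.2.1
    rw [← AddChar.map_add_eq_mul]
    congr 1
    field_simp
    ring

/-- The finite Fourier transform of the square of the Kloosterman sum. -/
lemma fourier_sq (h : ZMod p) :
    ∑ a : ZMod p, (K p a) ^ 2 * ZMod.stdAddChar (-(a * h)) =
      if h = 0 then (p : ℂ) * (p - 1) else (p : ℂ) * (ZMod.stdAddChar (2 * h⁻¹) * K p (h⁻¹ ^ 2) - 1) := by
  have e1 : ∀ a : ZMod p, (K p a) ^ 2 * ZMod.stdAddChar (-(a * h)) =
      ∑ x ∈ univ.erase (0 : ZMod p), ∑ y ∈ univ.erase (0 : ZMod p),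
        ZMod.stdAddChar (x⁻¹ + y⁻¹) * ZMod.stdAddChar (a * (x + y - h)) := by
    intro a
    rw [pow_two, K_eq_sum, sum_mul_sum, sum_mul]
    refine sum_congr rfl fun x _ => ?_
    rw [sum_mul]
    refine sum_congr rfl fun y _ => ?_
    rw [← AddChar.map_add_eq_mul, ← AddChar.map_add_eq_mul, ← AddChar.map_add_eq_mul]
    congr 1
    ring
  simp_rw [e1]
  rw [sum_comm]
  have e2 : ∀ x ∈ univ.erase (0 : ZMod p), ∑ a : ZMod p, ∑ y ∈ univ.erase (0 : ZMod p),
      ZMod.stdAddChar (x⁻¹ + y⁻¹) * ZMod.stdAddChar (a * (x + y - h)) =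
      if x = h then 0 else (p : ℂ) * ZMod.stdAddChar (x⁻¹ + (h - x)⁻¹) := by
    intro x hx
    rw [sum_comm]
    simp_rw [← mul_sum, sum_stdAddChar_mul]
    split_ifs with hxh
    · apply sum_eq_zero
      intro y hy
      rw [if_neg, mul_zero]
      rw [hxh]
      have := (mem_erase.1 hy).1
      intro h3; apply this; linear_combination h3
    · have hm : h - x ∈ univ.erase (0 : ZMod p) :=
        mem_erase.2 ⟨sub_ne_zero.2 (Ne.symm hxh), mem_univ _⟩
      rw [sum_eq_single_of_mem _ hm]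
      · rw [if_pos (by ring), mul_comm]
      · intro y _ hy
        rw [if_neg, mul_zero]
        intro h3; apply hy; linear_combination h3
  rw [sum_congr rfl e2]
  split_ifs with h0
  · subst h0
    rw [sum_congr rfl (g := fun _ => (p : ℂ))]
    · rw [sum_const, card_erase_of_mem (mem_univ _), card_univ, ZMod.card, nsmul_eq_mul,
        Nat.cast_sub hp.out.one_le]
      push_cast; ring
    · intro x hx
      rw [if_neg (mem_erase.1 hx).1]
      have : x⁻¹ + (0 - x)⁻¹ = 0 := by rw [zero_sub, inv_neg]; ring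
      rw [this, AddChar.map_zero_eq_one, mul_one]
  · have hm : h ∈ univ.erase (0 : ZMod p) := mem_erase.2 ⟨h0, mem_univ _⟩
    rw [← add_sum_erase _ _ hm, if_pos rfl, zero_add, ← sum_inv_add_inv p h h0, mul_sum]
    refine sum_congr rfl fun x hx => ?_
    rw [if_neg (mem_erase.1 hx).1]

end HKS
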