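import Pool.Agent.LibKlVar.KV_Def

/-!
# Block T: almost all `a`, all `x` in `[N^η, N^(2-η)]`
-/

set_option autoImplicit false

namespace Pool.KV

open Finset

/-- The large sieve inequality (G3) with `ε` fixed. -/
def LSBd (ε C : ℝ) : Prop :=
  ∀ X N : ℕ, 0 < X → ∀ P : Finset ℕ,
      (∀ p ∈ P, p.Prime ∧ X < p ∧ p ≤ 2 * X) → ∀ α : ℕ → ℂ,
      ∑ a ∈ Icc (-(N : ℤ)) N, ‖∑ p ∈ P, α p * (kl a p / (Real.sqrt p : ℂ))‖ ^ 2 ≤
        C * (X : ℝ) ^ ε * (N + X * Real.sqrt N + (X : ℝ) ^ (3 / 2 : ℝ)) * ∑ p ∈ P, ‖α p‖ ^ 2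

/-- normalised Kloosterman sum -/
noncomputable def kn (a : ℤ) (p : ℕ) : ℂ := kl a p / (Real.sqrt p : ℂ)

/-- T1. Chebyshev's inequality for the large sieve. -/
theorem exc_card (ε C : ℝ) (hC : 0 < C) (hLS : LSBd ε C) (X N : ℕ) (hX : 0 < X) (P : Finset ℕ)
    (hP : ∀ p ∈ P, p.Prime ∧ X < p ∧ p ≤ 2 * X) (T : ℝ) (hT : 0 < T) :
    (#((Icc (-(N : ℤ)) N).filter (fun a => T < ‖∑ p ∈ P, kn a p‖)) : ℝ) ≤
      C * (X : ℝ) ^ ε * (N + X * Real.sqrt N + (X : ℝ) ^ (3 / 2 : ℝ)) * X / T ^ 2 := by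
  have h := hLS X N hX P hP (fun _ => 1)
  have hcard : (#P : ℝ) ≤ X := by
    have h1 : P ⊆ Ioc X (2 * X) := by
      intro p hp
      have := hP p hp
      rw [mem_Ioc]; exact ⟨this.2.1, this.2.2⟩
    have h2 := card_le_card h1
    rw [Nat.card_Ioc] at h2
    have : #P ≤ X := by omega
    exact_mod_cast this
  have e1 : ∑ p ∈ P, ‖(1 : ℂ)‖ ^ 2 = (#P : ℝ) := by simp
  simp only [one_mul] at h
  rw [e1] at h
  rw [le_div_iff₀ (by positivity)]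
  have hnn : 0 ≤ C * (X : ℝ) ^ ε * (N + X * Real.sqrt N + (X : ℝ) ^ (3 / 2 : ℝ)) := by positivity
  calc (#((Icc (-(N : ℤ)) N).filter (fun a => T < ‖∑ p ∈ P, kn a p‖)) : ℝ) * T ^ 2
      = ∑ a ∈ (Icc (-(N : ℤ)) N).filter (fun a => T < ‖∑ p ∈ P, kn a p‖), T ^ 2 := by
        rw [sum_const, nsmul_eq_mul]
    _ ≤ ∑ a ∈ (Icc (-(N : ℤ)) N).filter (fun a => T < ‖∑ p ∈ P, kn a p‖), ‖∑ p ∈ P, kn a p‖ ^ 2 := by
        apply sum_le_sum
        intro a ha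
        have := (mem_filter.1 ha).2
        gcongr
    _ ≤ ∑ a ∈ Icc (-(N : ℤ)) N, ‖∑ p ∈ P, kn a p‖ ^ 2 := by
        apply sum_le_sum_of_subset_of_nonneg (filter_subset _ _)
        intro a _ _; positivity
    _ ≤ C * (X : ℝ) ^ ε * (N + X * Real.sqrt N + (X : ℝ) ^ (3 / 2 : ℝ)) * #P := h
    _ ≤ _ := mul_le_mul_of_nonneg_left hcard hnn

/-- the primes in `(2^j, 2^j + i L]`, cut at `2^(j+1)` -/
def blk (j i L : ℕ) : Finset ℕ := (Ioc (2 ^ j) (min (2 ^ j + i * L) (2 ^ (j + 1)))).filter Nat.Prime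

/-- T2. For a fixed `a`: if the sums over the grid blocks are small then so are all the sums over
initial segments. -/
theorem block_bound (g : ℕ → ℂ) (hg : ∀ p, ‖g p‖ ≤ 2) (j L : ℕ) (hL : 0 < L) (T : ℝ)
    (h : ∀ i ≤ 2 ^ j / L, ‖∑ p ∈ blk j i L, g p‖ ≤ T) (x : ℕ) (hx : 2 ^ j ≤ x) (hx2 : x ≤ 2 ^ (j + 1)) :
    ‖∑ p ∈ (Ioc (2 ^ j) x).filter Nat.Prime, g p‖ ≤ T + 2 * L := by
  set i := (x - 2 ^ j) / L with hi
  have h1 : i * L ≤ x - 2 ^ j := Nat.div_mul_le_self _ _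
  have h2 : x - 2 ^ j < (i + 1) * L := by
    rw [hi]
    exact Nat.lt_mul_of_div_lt (Nat.lt_succ_self _) hL
  have hi2 : i ≤ 2 ^ j / L := by
    rw [hi]
    apply Nat.div_le_div_right
    rw [pow_succ] at hx2
    omega
  have h3 := h i hi2
  have hblk : blk j i L = (Ioc (2 ^ j) (2 ^ j + i * L)).filter Nat.Prime := by
    unfold blk
    rw [min_eq_left]
    omega
  have hsub : (Ioc (2 ^ j) (2 ^ j + i * L)).filter Nat.Prime ⊆ (Ioc (2 ^ j) x).filter Nat.Prime := by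
    apply filter_subset_filter
    apply Ioc_subset_Ioc_right
    omega
  rw [← sum_sdiff hsub, ← hblk]
  have h4 : ‖∑ p ∈ (Ioc (2 ^ j) x).filter Nat.Prime \ (Ioc (2 ^ j) (2 ^ j + i * L)).filter Nat.Prime, g p‖
      ≤ 2 * L := by
    refine le_trans (norm_sum_le _ _) ?_
    refine le_trans (sum_le_sum fun p _ => hg p) ?_
    rw [sum_const, nsmul_eq_mul, mul_comm]
    gcongr
    have h5 : (Ioc (2 ^ j) x).filter Nat.Prime \ (Ioc (2 ^ j) (2 ^ j + i * L)).filter Nat.Prime ⊆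
        Ioc (2 ^ j + i * L) x := by
      intro p hp
      rw [mem_sdiff, mem_filter, mem_filter, mem_Ioc, mem_Ioc] at hp
      rw [mem_Ioc]
      refine ⟨?_, hp.1.1.2⟩
      by_contra hcon
      exact hp.2 ⟨⟨hp.1.1.1, by omega⟩, hp.1.2⟩
    refine le_trans (card_le_card h5) ?_
    rw [Nat.card_Ioc]
    have : (i + 1) * L = i * L + L := by ring
    omega
  rw [hblk]
  rw [hblk] at h3
  calc _ ≤ _ := norm_add_le _ _
    _ ≤ 2 * L + T := add_le_add h4 h3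
    _ = T + 2 * L := by ring

/-- T3. Sum over all primes up to `x`. -/
theorem total_bound (g : ℕ → ℂ) (hg : ∀ p, ‖g p‖ ≤ 2) (j₁ J : ℕ) (hJ : j₁ ≤ J) (τ : ℝ) (hτ : 0 ≤ τ)
    (h : ∀ j, j₁ ≤ j → j ≤ J → ∀ x : ℕ, 2 ^ j ≤ x → x ≤ 2 ^ (j + 1) →
      ‖∑ p ∈ (Ioc (2 ^ j) x).filter Nat.Prime, g p‖ ≤ τ * 2 ^ j + 2) (x : ℕ) (hx : 2 ^ J ≤ x)
    (hx2 : x ≤ 2 ^ (J + 1)) :
    ‖∑ p ∈ (Ioc 0 x).filter Nat.Prime, g p‖ ≤ 2 * 2 ^ j₁ + 2 * τ * x + 2 * (J + 1) := by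
  -- dyadic part
  have key : ∀ j, j₁ ≤ j → j ≤ J →
      ‖∑ p ∈ (Ioc 0 (2 ^ j)).filter Nat.Prime, g p‖ ≤ 2 * 2 ^ j₁ + τ * 2 ^ j + 2 * j := by
    intro j hj
    induction j, hj using Nat.le_induction with
    | base =>
      intro _
      refine le_trans (norm_sum_le _ _) ?_
      refine le_trans (sum_le_sum fun p _ => hg p) ?_
      rw [sum_const, nsmul_eq_mul]
      have h1 : #((Ioc 0 (2 ^ j₁)).filter Nat.Prime) ≤ 2 ^ j₁ := by
        refine le_trans (card_filter_le _ _) ?_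
        rw [Nat.card_Ioc]; simp
      have h2 : (#((Ioc 0 (2 ^ j₁)).filter Nat.Prime) : ℝ) ≤ 2 ^ j₁ := by exact_mod_cast h1
      have h3 : 0 ≤ τ * 2 ^ j₁ := by positivity
      have h4 : (0 : ℝ) ≤ 2 * (j₁ : ℝ) := by positivity
      linarith
    | succ j hj ih =>
      intro hjJ
      have h1 := ih (by omega)
      have h2 := h j hj (by omega) (2 ^ (j + 1)) (by rw [pow_succ]; omega) le_rfl
      have h3 : (Ioc 0 (2 ^ (j + 1))).filter Nat.Prime =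
          (Ioc 0 (2 ^ j)).filter Nat.Prime ∪ (Ioc (2 ^ j) (2 ^ (j + 1))).filter Nat.Prime := by
        rw [← filter_union, Ioc_union_Ioc_eq_Ioc (by positivity) (by rw [pow_succ]; omega)]
      have h4 : Disjoint ((Ioc 0 (2 ^ j)).filter Nat.Prime)
          ((Ioc (2 ^ j) (2 ^ (j + 1))).filter Nat.Prime) := by
        apply disjoint_filter_filter
        rw [Finset.disjoint_left]
        intro p hp hp'
        rw [mem_Ioc] at hp hp'
        omega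
      rw [h3, sum_union h4]
      refine le_trans (norm_add_le _ _) ?_
      have h5 : (2 : ℝ) ^ (j + 1) = 2 * 2 ^ j := by rw [pow_succ]; ring
      rw [h5]
      push_cast
      linarith
  have h1 := key J hJ le_rfl
  have h2 := h J hJ le_rfl x hx hx2
  have h3 : (Ioc 0 x).filter Nat.Prime =
      (Ioc 0 (2 ^ J)).filter Nat.Prime ∪ (Ioc (2 ^ J) x).filter Nat.Prime := by
    rw [← filter_union, Ioc_union_Ioc_eq_Ioc (by positivity) hx]
  have h4 : Disjoint ((Ioc 0 (2 ^ J)).filter Nat.Prime) ((Ioc (2 ^ J) x).filter Nat.Prime) := by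
    apply disjoint_filter_filter
    rw [Finset.disjoint_left]
    intro p hp hp'
    rw [mem_Ioc] at hp hp'
    omega
  rw [h3, sum_union h4]
  refine le_trans (norm_add_le _ _) ?_
  have h5 : (2 : ℝ) ^ J ≤ x := by exact_mod_cast hx
  have h6 : τ * 2 ^ J ≤ τ * x := mul_le_mul_of_nonneg_left h5 hτ
  linarith

end Pool.KV
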