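import Pool.Agent.LibKlVar.KV_T

set_option autoImplicit false

namespace Pool.KV

open Finset

/-- grid step -/
noncomputable def Lst (N : ℕ) (κ : ℝ) (j : ℕ) : ℕ := ⌊(2 : ℝ) ^ j * (N : ℝ) ^ (-κ)⌋₊ + 1

lemma Lst_pos (N : ℕ) (κ : ℝ) (j : ℕ) : 0 < Lst N κ j := Nat.succ_pos _

lemma Lst_le (N : ℕ) (κ : ℝ) (j : ℕ) : (Lst N κ j : ℝ) ≤ (2 : ℝ) ^ j * (N : ℝ) ^ (-κ) + 1 := by
  unfold Lst
  push_cast
  have := Nat.floor_le (a := (2 : ℝ) ^ j * (N : ℝ) ^ (-κ)) (by positivity)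
  linarith

lemma grid_card (N : ℕ) (hN : 0 < N) (κ : ℝ) (j : ℕ) :
    ((2 ^ j / Lst N κ j : ℕ) : ℝ) ≤ (N : ℝ) ^ κ := by
  have hN0 : (0 : ℝ) < N := by exact_mod_cast hN
  have h1 : (2 : ℝ) ^ j * (N : ℝ) ^ (-κ) < Lst N κ j := by
    unfold Lst
    push_cast
    exact Nat.lt_floor_add_one _
  have hL : (0 : ℝ) < Lst N κ j := by exact_mod_cast Lst_pos N κ j
  have h2 : ((2 ^ j / Lst N κ j : ℕ) : ℝ) ≤ ((2 ^ j : ℕ) : ℝ) / Lst N κ j := Nat.cast_div_le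
  refine le_trans h2 ?_
  rw [div_le_iff₀ hL]
  push_cast
  have h3 : (2 : ℝ) ^ j = (N : ℝ) ^ κ * ((2 : ℝ) ^ j * (N : ℝ) ^ (-κ)) := by
    rw [Real.rpow_neg hN0.le]
    field_simp
  calc (2 : ℝ) ^ j = (N : ℝ) ^ κ * ((2 : ℝ) ^ j * (N : ℝ) ^ (-κ)) := h3
    _ ≤ (N : ℝ) ^ κ * Lst N κ j := by gcongr

/-- T4. The exceptional set. -/
theorem exc_total (η : ℝ) (h0 : 0 < η) (h1 : η < 1) (C : ℝ) (hC : 0 < C)
    (hLS : LSBd (η / 20) C) :
    ∃ C' : ℝ, 0 < C' ∧ ∀ N : ℕ, 0 < N → ∃ E : Finset ℤ, (#E : ℝ) ≤ C' * (N : ℝ) ^ (1 - η / 5) ∧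
      ∀ a ∈ Icc (-(N : ℤ)) N, a ∉ E → ∀ j : ℕ, (N : ℝ) ^ (η / 2) ≤ 2 ^ j →
        (2 : ℝ) ^ j ≤ (N : ℝ) ^ (2 - η) → ∀ i ≤ 2 ^ j / Lst N (η / 20) j,
        ‖∑ p ∈ blk j i (Lst N (η / 20) j), kn a p‖ ≤ 2 ^ j * (N : ℝ) ^ (-(η / 20)) := by
  set κ : ℝ := η / 20 with hκ
  have hκ0 : 0 < κ := by positivity
  refine ⟨(2 / Real.log 2 / κ + 1) * (2 * (3 * C)), ?_, fun N hN => ?_⟩
  · have := Real.log_pos (by norm_num : (1 : ℝ) < 2)
    positivity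
  have hN0 : (0 : ℝ) < N := by exact_mod_cast hN
  have hN1 : (1 : ℝ) ≤ N := by exact_mod_cast hN
  set Jm := Nat.log 2 (N ^ 2) with hJm
  set S : Finset ℕ := (range (Jm + 1)).filter
    (fun j => (N : ℝ) ^ (η / 2) ≤ 2 ^ j ∧ (2 : ℝ) ^ j ≤ (N : ℝ) ^ (2 - η)) with hS
  set E : Finset ℤ := S.biUnion fun j => (range (2 ^ j / Lst N κ j + 1)).biUnion fun i =>
    (Icc (-(N : ℤ)) N).filter
      (fun a => (2 : ℝ) ^ j * (N : ℝ) ^ (-κ) < ‖∑ p ∈ blk j i (Lst N κ j), kn a p‖) with hE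
  refine ⟨E, ?_, ?_⟩
  · -- cardinality
    set B : ℝ := 3 * C * (N : ℝ) ^ (2 * κ + 2 * κ + (1 - η / 2)) with hB
    have hB0 : 0 ≤ B := by positivity
    have hone : ∀ j ∈ S, ∀ i : ℕ, (#((Icc (-(N : ℤ)) N).filter
      (fun a => (2 : ℝ) ^ j * (N : ℝ) ^ (-κ) < ‖∑ p ∈ blk j i (Lst N κ j), kn a p‖)) : ℝ) ≤ B := by
      intro j hj i
      have hj' := (mem_filter.1 hj).2
      have hX0 : (0 : ℝ) < 2 ^ j := by positivity
      have hX1 : (1 : ℝ) ≤ 2 ^ j := one_le_pow₀ (by norm_num)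
      have h2 := exc_card κ C hC hLS (2 ^ j) N (by positivity) (blk j i (Lst N κ j)) ?_
        ((2 : ℝ) ^ j * (N : ℝ) ^ (-κ)) (by positivity)
      · refine le_trans h2 ?_
        push_cast
        set X : ℝ := (2 : ℝ) ^ j with hX
        -- X^κ ≤ N^(2κ)
        have hXN2 : X ≤ (N : ℝ) ^ (2 : ℝ) := by
          refine le_trans hj'.2 ?_
          apply Real.rpow_le_rpow_of_exponent_le hN1
          linarith
        have hXk : X ^ κ ≤ (N : ℝ) ^ (2 * κ) := by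
          rw [Real.rpow_mul hN0.le]
          exact Real.rpow_le_rpow hX0.le hXN2 hκ0.le
        have hT2 : (X * (N : ℝ) ^ (-κ)) ^ 2 = X ^ 2 * (N : ℝ) ^ (-(2 * κ)) := by
          rw [mul_pow, ← Real.rpow_natCast ((N : ℝ) ^ (-κ)) 2, ← Real.rpow_mul hN0.le]
          congr 2
          push_cast; ring
        rw [hT2]
        have hinv : (N : ℝ) ^ (-(2 * κ)) * (N : ℝ) ^ (2 * κ) = 1 := by
          rw [← Real.rpow_add hN0]; simp
        have e1 : C * X ^ κ * (N + X * Real.sqrt N + X ^ (3 / 2 : ℝ)) * X / (X ^ 2 * (N : ℝ) ^ (-(2 * κ)))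
            = C * X ^ κ * (N : ℝ) ^ (2 * κ) * (N / X + Real.sqrt N + X ^ (1 / 2 : ℝ)) := by
          have hX32 : X ^ (3 / 2 : ℝ) = X * X ^ (1 / 2 : ℝ) := by
            rw [show (3 / 2 : ℝ) = 1 + 1 / 2 by norm_num, Real.rpow_add hX0, Real.rpow_one]
          rw [hX32]
          have hNk : (N : ℝ) ^ (-(2 * κ)) = 1 / (N : ℝ) ^ (2 * κ) := by
            rw [Real.rpow_neg hN0.le]; simp
          rw [hNk]
          field_simp
        rw [e1]
        have a1 : (N : ℝ) / X ≤ (N : ℝ) ^ (1 - η / 2) := by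
          rw [div_le_iff₀ hX0]
          calc (N : ℝ) = (N : ℝ) ^ (1 - η / 2) * (N : ℝ) ^ (η / 2) := by
                rw [← Real.rpow_add hN0]; simp
            _ ≤ (N : ℝ) ^ (1 - η / 2) * X := by gcongr; exact hj'.1
        have a2 : Real.sqrt N ≤ (N : ℝ) ^ (1 - η / 2) := by
          rw [Real.sqrt_eq_rpow]
          apply Real.rpow_le_rpow_of_exponent_le hN1
          linarith
        have a3 : X ^ (1 / 2 : ℝ) ≤ (N : ℝ) ^ (1 - η / 2) := by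
          have : (N : ℝ) ^ (1 - η / 2) = ((N : ℝ) ^ (2 - η)) ^ (1 / 2 : ℝ) := by
            rw [← Real.rpow_mul hN0.le]; congr 1; ring
          rw [this]
          exact Real.rpow_le_rpow hX0.le hj'.2 (by norm_num)
        calc C * X ^ κ * (N : ℝ) ^ (2 * κ) * (N / X + Real.sqrt N + X ^ (1 / 2 : ℝ))
            ≤ C * (N : ℝ) ^ (2 * κ) * (N : ℝ) ^ (2 * κ) *
              ((N : ℝ) ^ (1 - η / 2) + (N : ℝ) ^ (1 - η / 2) + (N : ℝ) ^ (1 - η / 2)) := by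
              gcongr
          _ = B := by
              rw [hB, Real.rpow_add hN0, Real.rpow_add hN0]
              ring
      · intro p hp
        unfold blk at hp
        rw [mem_filter, mem_Ioc] at hp
        refine ⟨hp.2, hp.1.1, ?_⟩
        have := le_trans hp.1.2 (min_le_right _ _)
        rw [pow_succ] at this
        omega
    have hcard : (#E : ℝ) ≤ ∑ j ∈ S, ∑ i ∈ range (2 ^ j / Lst N κ j + 1), B := by
      have c1 : #E ≤ ∑ j ∈ S, #((range (2 ^ j / Lst N κ j + 1)).biUnion fun i =>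
        (Icc (-(N : ℤ)) N).filter
          (fun a => (2 : ℝ) ^ j * (N : ℝ) ^ (-κ) < ‖∑ p ∈ blk j i (Lst N κ j), kn a p‖)) :=
        card_biUnion_le
      have c2 : (#E : ℝ) ≤ ∑ j ∈ S, (#((range (2 ^ j / Lst N κ j + 1)).biUnion fun i =>
        (Icc (-(N : ℤ)) N).filter
          (fun a => (2 : ℝ) ^ j * (N : ℝ) ^ (-κ) < ‖∑ p ∈ blk j i (Lst N κ j), kn a p‖)) : ℝ) := by
        exact_mod_cast c1
      refine le_trans c2 (sum_le_sum fun j hj => ?_)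
      have c3 : #((range (2 ^ j / Lst N κ j + 1)).biUnion fun i =>
        (Icc (-(N : ℤ)) N).filter
          (fun a => (2 : ℝ) ^ j * (N : ℝ) ^ (-κ) < ‖∑ p ∈ blk j i (Lst N κ j), kn a p‖)) ≤
          ∑ i ∈ range (2 ^ j / Lst N κ j + 1), #((Icc (-(N : ℤ)) N).filter
          (fun a => (2 : ℝ) ^ j * (N : ℝ) ^ (-κ) < ‖∑ p ∈ blk j i (Lst N κ j), kn a p‖)) :=
        card_biUnion_le
      have c4 : (#((range (2 ^ j / Lst N κ j + 1)).biUnion fun i =>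
        (Icc (-(N : ℤ)) N).filter
          (fun a => (2 : ℝ) ^ j * (N : ℝ) ^ (-κ) < ‖∑ p ∈ blk j i (Lst N κ j), kn a p‖)) : ℝ) ≤
          ∑ i ∈ range (2 ^ j / Lst N κ j + 1), (#((Icc (-(N : ℤ)) N).filter
          (fun a => (2 : ℝ) ^ j * (N : ℝ) ^ (-κ) < ‖∑ p ∈ blk j i (Lst N κ j), kn a p‖)) : ℝ) := by
        exact_mod_cast c3
      exact le_trans c4 (sum_le_sum fun i _ => hone j hj i)
    have hNκ1 : (1 : ℝ) ≤ (N : ℝ) ^ κ := Real.one_le_rpow hN1 hκ0.le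
    have hin : ∀ j ∈ S, ∑ i ∈ range (2 ^ j / Lst N κ j + 1), B ≤ 2 * (N : ℝ) ^ κ * B := by
      intro j _
      rw [sum_const, card_range, nsmul_eq_mul]
      push_cast
      have := grid_card N hN κ j
      have h3 : ((2 ^ j / Lst N κ j : ℕ) : ℝ) + 1 ≤ 2 * (N : ℝ) ^ κ := by linarith
      exact mul_le_mul_of_nonneg_right h3 hB0
    have hout : (#S : ℝ) ≤ (2 / Real.log 2 / κ + 1) * (N : ℝ) ^ κ := by
      have hl2 := Real.log_pos (by norm_num : (1 : ℝ) < 2)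
      have c5 : #S ≤ Jm + 1 := le_trans (card_filter_le _ _) (by simp)
      have c6 : (#S : ℝ) ≤ Jm + 1 := by exact_mod_cast c5
      have c7 : (Jm : ℝ) ≤ 2 / Real.log 2 / κ * (N : ℝ) ^ κ := by
        have h3 : 2 ^ Jm ≤ N ^ 2 := Nat.pow_log_le_self 2 (by positivity)
        have h4 : ((2 : ℝ) ^ Jm) ≤ (N : ℝ) ^ 2 := by exact_mod_cast h3
        have h5 : Real.log ((2 : ℝ) ^ Jm) ≤ Real.log ((N : ℝ) ^ 2) := Real.log_le_log (by positivity) h4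
        rw [Real.log_pow, Real.log_pow] at h5
        push_cast at h5
        have h6 := Real.log_le_rpow_div hN0.le hκ0
        have h7 : (Jm : ℝ) ≤ 2 * Real.log N / Real.log 2 := by
          rw [le_div_iff₀ hl2]; exact h5
        refine le_trans h7 ?_
        calc 2 * Real.log N / Real.log 2 ≤ 2 * ((N : ℝ) ^ κ / κ) / Real.log 2 := by gcongr
          _ = 2 / Real.log 2 / κ * (N : ℝ) ^ κ := by field_simp
      calc (#S : ℝ) ≤ Jm + 1 := c6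
        _ ≤ 2 / Real.log 2 / κ * (N : ℝ) ^ κ + (N : ℝ) ^ κ := add_le_add c7 hNκ1
        _ = _ := by ring
    calc (#E : ℝ) ≤ ∑ j ∈ S, ∑ i ∈ range (2 ^ j / Lst N κ j + 1), B := hcard
      _ ≤ ∑ j ∈ S, 2 * (N : ℝ) ^ κ * B := sum_le_sum hin
      _ = #S * (2 * (N : ℝ) ^ κ * B) := by rw [sum_const, nsmul_eq_mul]
      _ ≤ ((2 / Real.log 2 / κ + 1) * (N : ℝ) ^ κ) * (2 * (N : ℝ) ^ κ * B) := by
          gcongr
      _ = (2 / Real.log 2 / κ + 1) * (2 * (3 * C)) * ((N : ℝ) ^ κ * (N : ℝ) ^ κ *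
          (N : ℝ) ^ (2 * κ + 2 * κ + (1 - η / 2))) := by rw [hB]; ring
      _ = (2 / Real.log 2 / κ + 1) * (2 * (3 * C)) * (N : ℝ) ^ (1 - η / 5) := by
          rw [← Real.rpow_add hN0, ← Real.rpow_add hN0]
          congr 2
          rw [hκ]; ring
  · intro a ha haE j hj1 hj2 i hi
    by_contra hcon
    push Not at hcon
    apply haE
    rw [hE, mem_biUnion]
    refine ⟨j, ?_, ?_⟩
    · rw [hS, mem_filter, mem_range]
      refine ⟨?_, hj1, hj2⟩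
      have h3 : (2 : ℝ) ^ j ≤ (N : ℝ) ^ (2 : ℝ) := by
        refine le_trans hj2 ?_
        apply Real.rpow_le_rpow_of_exponent_le hN1
        linarith
      have h4 : 2 ^ j ≤ N ^ 2 := by
        have : ((2 : ℝ) ^ j) ≤ (N : ℝ) ^ (2 : ℕ) := by
          rw [← Real.rpow_natCast (N : ℝ) 2]; exact_mod_cast h3
        exact_mod_cast this
      have h5 := Nat.le_log_of_pow_le (by norm_num : 1 < 2) h4
      omega
    · rw [mem_biUnion]
      refine ⟨i, by rw [mem_range]; omega, ?_⟩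
      rw [mem_filter]
      exact ⟨ha, hcon⟩

end Pool.KV
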