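import Pool.Agent.LibKlVar.KV_Def

/-!
# The counting argument with a parameter
-/

set_option autoImplicit false

namespace Pool.KV

open Finset

/-- Abstract counting argument: a matrix `K(a,p)` with entries in `[-2,2]`, second moment
about `1` in each column, small variance of the row sums. -/
theorem abstract_signs_eps {ι κ : Type*} (I : Finset ι) (P : Finset κ) (K : ι → κ → ℝ) (t : ℝ)
    (ht : 0 < t) (ht8 : t ≤ 1 / 8)
    (hK : ∀ a ∈ I, ∀ p ∈ P, |K a p| ≤ 2)
    (h2 : ∀ p ∈ P, (1 - t) * #I ≤ ∑ a ∈ I, K a p ^ 2)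
    (h1 : ∑ a ∈ I, (∑ p ∈ P, K a p) ^ 2 ≤ t ^ 5 * (#I * (#P : ℝ) ^ 2)) :
    (1 / 4 - 2 * t) * #I ≤ #(I.filter (fun a => t / 16 * #P ≤ #(P.filter (fun p => t / 16 ≤ K a p)) ∧
      t / 16 * #P ≤ #(P.filter (fun p => K a p ≤ -(t / 16))))) := by
  classical
  set S := I.filter (fun a => t / 16 * #P ≤ #(P.filter (fun p => t / 16 ≤ K a p)) ∧
      t / 16 * #P ≤ #(P.filter (fun p => K a p ≤ -(t / 16)))) with hS
  have hI0 : (0 : ℝ) ≤ #I := Nat.cast_nonneg _
  rcases P.eq_empty_or_nonempty with hP0 | hP0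
  · have : S = I := by
      rw [hS]
      apply filter_true_of_mem
      intro a _
      subst hP0
      simp
    rw [this]
    nlinarith
  have hPpos : (0 : ℝ) < #P := by exact_mod_cast hP0.card_pos
  set A1 := I.filter (fun a => t * (#P : ℝ) ≤ ∑ p ∈ P, K a p ^ 2) with hA1
  set A2 := I.filter (fun a => t ^ 2 * (#P : ℝ) ≤ |∑ p ∈ P, K a p|) with hA2
  -- lower bound for A1
  have hA1c : (1 / 4 - t) * #I ≤ #A1 := by
    have hsum : (1 - t) * #I * #P ≤ ∑ a ∈ I, ∑ p ∈ P, K a p ^ 2 := by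
      rw [sum_comm]
      calc (1 - t) * #I * #P = ∑ p ∈ P, (1 - t) * #I := by
            rw [sum_const, nsmul_eq_mul]; ring
        _ ≤ _ := sum_le_sum h2
    have hsplit : ∑ a ∈ I, ∑ p ∈ P, K a p ^ 2 ≤ #A1 * (4 * (#P : ℝ)) + (#I - #A1) * (t * (#P : ℝ)) := by
      rw [← sum_filter_add_sum_filter_not I (fun a => t * (#P : ℝ) ≤ ∑ p ∈ P, K a p ^ 2)]
      apply add_le_add
      · rw [← hA1]
        calc ∑ a ∈ A1, ∑ p ∈ P, K a p ^ 2 ≤ ∑ a ∈ A1, 4 * (#P : ℝ) := by
              apply sum_le_sum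
              intro a ha
              have haI : a ∈ I := (mem_filter.1 ha).1
              calc ∑ p ∈ P, K a p ^ 2 ≤ ∑ p ∈ P, (4 : ℝ) := by
                    apply sum_le_sum
                    intro p hp
                    have := hK a haI p hp
                    have h3 := abs_le.1 this
                    nlinarith [h3.1, h3.2]
                _ = 4 * (#P : ℝ) := by rw [sum_const, nsmul_eq_mul]; ring
          _ = #A1 * (4 * (#P : ℝ)) := by rw [sum_const, nsmul_eq_mul]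
      · have hc : (#(I.filter (fun a => ¬ t * (#P : ℝ) ≤ ∑ p ∈ P, K a p ^ 2)) : ℝ) = #I - #A1 := by
          have := card_filter_add_card_filter_not (s := I)
            (fun a => t * (#P : ℝ) ≤ ∑ p ∈ P, K a p ^ 2)
          rw [← hA1] at this
          have h' : ((#A1 + #(I.filter (fun a => ¬ t * (#P : ℝ) ≤ ∑ p ∈ P, K a p ^ 2)) : ℕ) : ℝ)
              = #I := by exact_mod_cast this
          push_cast at h'
          linarith
        rw [← hc]
        calc ∑ a ∈ I.filter (fun a => ¬ t * (#P : ℝ) ≤ ∑ p ∈ P, K a p ^ 2), ∑ p ∈ P, K a p ^ 2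
            ≤ ∑ a ∈ I.filter (fun a => ¬ t * (#P : ℝ) ≤ ∑ p ∈ P, K a p ^ 2), t * (#P : ℝ) := by
              apply sum_le_sum
              intro a ha
              exact le_of_lt (not_le.1 (mem_filter.1 ha).2)
          _ = _ := by rw [sum_const, nsmul_eq_mul]
    have h3 : (1 - t) * #I * #P ≤
        (#A1 * 4 + (#I - #A1) * t) * (#P : ℝ) := by
      calc _ ≤ _ := hsum
        _ ≤ _ := hsplit
        _ = _ := by ring
    have h4 := le_of_mul_le_mul_right h3 hPpos
    have h5 : (0 : ℝ) ≤ #A1 := Nat.cast_nonneg _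
    nlinarith [mul_nonneg h5 ht.le, mul_nonneg hI0 ht.le]
  -- upper bound for A2
  have hA2c : (#A2 : ℝ) ≤ t * #I := by
    have h3 : #A2 * (t ^ 2 * (#P : ℝ)) ^ 2 ≤ ∑ a ∈ I, (∑ p ∈ P, K a p) ^ 2 := by
      calc #A2 * (t ^ 2 * (#P : ℝ)) ^ 2 = ∑ a ∈ A2, (t ^ 2 * (#P : ℝ)) ^ 2 := by
            rw [sum_const, nsmul_eq_mul]
        _ ≤ ∑ a ∈ A2, (∑ p ∈ P, K a p) ^ 2 := by
            apply sum_le_sum
            intro a ha
            have h5 := (mem_filter.1 ha).2
            rw [← sq_abs (∑ p ∈ P, K a p)]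
            exact pow_le_pow_left₀ (by positivity) h5 2
        _ ≤ ∑ a ∈ I, (∑ p ∈ P, K a p) ^ 2 :=
            sum_le_sum_of_subset_of_nonneg (filter_subset _ _) (fun _ _ _ => sq_nonneg _)
    have h4 := h3.trans h1
    have h5 : (#A2 : ℝ) * (t ^ 4 * (#P : ℝ) ^ 2) ≤ (t * #I) * (t ^ 4 * (#P : ℝ) ^ 2) := by
      calc (#A2 : ℝ) * (t ^ 4 * (#P : ℝ) ^ 2) = #A2 * (t ^ 2 * (#P : ℝ)) ^ 2 := by ring
        _ ≤ t ^ 5 * (#I * (#P : ℝ) ^ 2) := h4
        _ = (t * #I) * (t ^ 4 * (#P : ℝ) ^ 2) := by ring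
    exact le_of_mul_le_mul_right h5 (by positivity)
  -- A1 \ A2 is contained in S
  have hsub : A1 \ A2 ⊆ S := by
    intro a ha
    rw [mem_sdiff] at ha
    have haI : a ∈ I := (mem_filter.1 ha.1).1
    have hY := (mem_filter.1 ha.1).2
    have hlt : |∑ p ∈ P, K a p| < t ^ 2 * (#P : ℝ) := by
      by_contra hcon
      exact ha.2 (mem_filter.2 ⟨haI, not_lt.1 hcon⟩)
    have habs := abs_lt.1 hlt
    have ht2 : t ^ 2 * (#P : ℝ) ≤ t / 8 * #P := by
      apply mul_le_mul_of_nonneg_right _ hPpos.le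
      nlinarith
    -- sum of |K|
    have hL1 : t / 2 * (#P : ℝ) ≤ ∑ p ∈ P, |K a p| := by
      have h7 : ∑ p ∈ P, K a p ^ 2 ≤ ∑ p ∈ P, 2 * |K a p| := by
        apply sum_le_sum
        intro p hp
        have h8 := hK a haI p hp
        rw [← sq_abs]
        nlinarith [abs_nonneg (K a p)]
      rw [← mul_sum] at h7
      linarith
    have hpos : ∑ p ∈ P, (|K a p| + K a p) ≤ 4 * #(P.filter (fun p => t / 16 ≤ K a p)) + t / 8 * #P := by
      have e1 : 4 * (#(P.filter (fun p => t / 16 ≤ K a p)) : ℝ) + t / 8 * #P =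
          ∑ p ∈ P, (4 * (if t / 16 ≤ K a p then (1 : ℝ) else 0) + t / 8) := by
        rw [sum_add_distrib, ← mul_sum, sum_const, nsmul_eq_mul, card_filter]
        push_cast
        ring
      rw [e1]
      apply sum_le_sum
      intro p hp
      have h8 := hK a haI p hp
      split_ifs with h9
      · rw [abs_of_pos (by linarith)] at h8 ⊢
        linarith
      · rcases le_or_gt 0 (K a p) with h10 | h10
        · rw [abs_of_nonneg h10]
          linarith [not_le.1 h9]
        · rw [abs_of_neg h10]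
          linarith
    have hneg : ∑ p ∈ P, (|K a p| - K a p) ≤ 4 * #(P.filter (fun p => K a p ≤ -(t / 16))) + t / 8 * #P := by
      have e1 : 4 * (#(P.filter (fun p => K a p ≤ -(t / 16))) : ℝ) + t / 8 * #P =
          ∑ p ∈ P, (4 * (if K a p ≤ -(t / 16) then (1 : ℝ) else 0) + t / 8) := by
        rw [sum_add_distrib, ← mul_sum, sum_const, nsmul_eq_mul, card_filter]
        push_cast
        ring
      rw [e1]
      apply sum_le_sum
      intro p hp
      have h8 := hK a haI p hp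
      split_ifs with h9
      · rw [abs_of_neg (by linarith)] at h8 ⊢
        linarith
      · rcases le_or_gt 0 (K a p) with h10 | h10
        · rw [abs_of_nonneg h10]
          linarith
        · rw [abs_of_neg h10]
          linarith [not_le.1 h9]
    rw [sum_add_distrib] at hpos
    rw [sum_sub_distrib] at hneg
    refine mem_filter.2 ⟨haI, ?_, ?_⟩
    · nlinarith [habs.1, habs.2]
    · nlinarith [habs.1, habs.2]
  have hcard : (#A1 : ℝ) - #A2 ≤ #S := by
    have h8 : #A1 ≤ #(A1 \ A2) + #A2 := by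
      have := card_le_card_sdiff_add_card (s := A1) (t := A2)
      omega
    have h9 := card_le_card hsub
    have h10 : (#A1 : ℝ) ≤ #(A1 \ A2) + #A2 := by exact_mod_cast h8
    have h11 : (#(A1 \ A2) : ℝ) ≤ #S := by exact_mod_cast h9
    linarith
  linarith

end Pool.KV
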