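import Pool.Agent.LibKlVar.KV_U1

/-!
# Both signs, with a parameter
-/

set_option autoImplicit false

namespace Pool.KV

open Finset

/-- `M log x ≤ x ^ δ` for large `x`. -/
theorem u_log_small (M δ : ℝ) (hδ : 0 < δ) :
    ∃ X₀ : ℕ, ∀ X : ℕ, X₀ ≤ X → M * Real.log X ≤ (X : ℝ) ^ δ := by
  have h1 : (fun x : ℝ => Real.log x) =o[Filter.atTop] fun x : ℝ => x ^ δ :=
    isLittleO_log_rpow_atTop hδ
  have hM : 0 < 1 / (|M| + 1) := by positivity
  have h2 := h1.def hM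
  have h3 : ∀ᶠ n : ℕ in Filter.atTop, ‖Real.log (n : ℝ)‖ ≤ 1 / (|M| + 1) * ‖(n : ℝ) ^ δ‖ :=
    tendsto_natCast_atTop_atTop.eventually h2
  obtain ⟨N, hN⟩ := Filter.eventually_atTop.1 h3
  refine ⟨N, fun X hX => ?_⟩
  have h4 := hN X hX
  have h5 : 0 ≤ (X : ℝ) ^ δ := Real.rpow_nonneg (Nat.cast_nonneg X) δ
  rw [Real.norm_eq_abs, Real.norm_eq_abs, abs_of_nonneg h5] at h4
  have h6 : (0 : ℝ) < |M| + 1 := by positivity
  have h7 : (|M| + 1) * |Real.log (X : ℝ)| ≤ (X : ℝ) ^ δ := by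
    rw [div_mul_eq_mul_div, one_mul, le_div_iff₀ h6] at h4
    linarith
  calc M * Real.log X ≤ |M * Real.log X| := le_abs_self _
    _ = |M| * |Real.log (X : ℝ)| := abs_mul _ _
    _ ≤ (|M| + 1) * |Real.log (X : ℝ)| := by
        have := abs_nonneg (Real.log (X : ℝ))
        nlinarith
    _ ≤ (X : ℝ) ^ δ := h7

/-- `M ≤ x ^ δ` for large `x`. -/
theorem u_const_small (M δ : ℝ) (hδ : 0 < δ) :
    ∃ X₀ : ℕ, ∀ X : ℕ, X₀ ≤ X → M ≤ (X : ℝ) ^ δ := by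
  have h0 : Filter.Tendsto (fun n : ℕ => (n : ℝ)) Filter.atTop Filter.atTop :=
    tendsto_natCast_atTop_atTop
  have h1 := (tendsto_rpow_atTop hδ).comp h0
  obtain ⟨N, hN⟩ := Filter.eventually_atTop.1 (h1.eventually_ge_atTop M)
  exact ⟨N, fun X hX => hN X hX⟩

/-- Both signs (from the large sieve inequality and the second moment), for an arbitrary set `P`
of primes. -/
theorem both_signs_eps
    (HLS : ∀ ε : ℝ, 0 < ε → ∃ C : ℝ, 0 < C ∧ ∀ X N : ℕ, 0 < X → ∀ P : Finset ℕ,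
      (∀ p ∈ P, p.Prime ∧ X < p ∧ p ≤ 2 * X) → ∀ α : ℕ → ℂ,
      ∑ a ∈ Icc (-(N : ℤ)) N, ‖∑ p ∈ P, α p * (kl a p / (Real.sqrt p : ℂ))‖ ^ 2 ≤
        C * (X : ℝ) ^ ε * (N + X * Real.sqrt N + (X : ℝ) ^ (3 / 2 : ℝ)) * ∑ p ∈ P, ‖α p‖ ^ 2)
    (HI : ∀ (a : ℤ) (p : ℕ), 0 < p → (kl a p).im = 0)
    (HK : ∀ p : ℕ, p.Prime → ∀ a : ℤ, ‖kl a p‖ ≤ 2 * Real.sqrt p)
    (HS : ∃ C : ℝ, ∀ p : ℕ, p.Prime → ∀ A B : ℤ, A ≤ B → B - A ≤ 2 * p →
      (B - A : ℝ) - C * (Real.sqrt p * Real.log p) ≤ ∑ a ∈ Ioc A B, ‖kl a p‖ ^ 2 / p)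
    (t : ℝ) (ht : 0 < t) (ht8 : t ≤ 1 / 8) (ε : ℝ) (hε : 0 < ε) :
    ∃ X₀ : ℕ, ∀ X : ℕ, X₀ ≤ X → ∀ A B : ℤ, -(X : ℤ) ≤ A → A ≤ B → B ≤ X →
      ∀ P : Finset ℕ, (∀ p ∈ P, p.Prime ∧ X < p ∧ p ≤ 2 * X) →
      (X : ℝ) ^ (3 / 2 + ε) ≤ (B - A) * #P →
      (1 / 4 - 2 * t) * ((B : ℝ) - A) ≤ #((Ioc A B).filter (fun a =>
        t / 16 * #P ≤ #(P.filter (fun p : ℕ => t / 16 ≤ (kl a p).re / Real.sqrt p)) ∧
        t / 16 * #P ≤ #(P.filter (fun p : ℕ => (kl a p).re / Real.sqrt p ≤ -(t / 16))))) := by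
  obtain ⟨C1, hC1⟩ := HS
  obtain ⟨C2, hC2, hLS⟩ := HLS (ε / 2) (by linarith)
  obtain ⟨Xb, hb⟩ := u_log_small (1 / t * (|C1| * 4)) ε hε
  obtain ⟨Xc, hc⟩ := u_const_small (3 * C2 * (1 / t ^ 5)) (ε / 2) (by linarith)
  refine ⟨max Xb (max Xc 3), fun X hX A B hA hAB' hB P hP hAB => ?_⟩
  have hXb : Xb ≤ X := le_trans (le_max_left _ _) hX
  have hXc : Xc ≤ X := le_trans (le_trans (le_max_left _ _) (le_max_right _ _)) hX
  have hX3 : 3 ≤ X := le_trans (le_trans (le_max_right _ _) (le_max_right _ _)) hX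
  have hX3' : (3 : ℝ) ≤ X := by exact_mod_cast hX3
  have hX0 : (0 : ℝ) < X := by linarith
  have hXpos : 0 < X := by omega
  have hABr : (A : ℝ) ≤ B := by exact_mod_cast hAB'
  have hPnn : (0 : ℝ) ≤ #P := Nat.cast_nonneg _
  have hcard : (#(Ioc A B) : ℝ) = (B : ℝ) - A := by
    rw [Int.card_Ioc]
    have h1 : ((B - A).toNat : ℤ) = B - A := Int.toNat_of_nonneg (by omega)
    have h2 : (((B - A).toNat : ℤ) : ℝ) = ((B - A : ℤ) : ℝ) := by rw [h1]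
    rw [Int.cast_natCast] at h2
    rw [h2]
    push_cast
    ring
  have hcP : (#P : ℝ) ≤ X := by
    have h1 : #P ≤ #(Ioc X (2 * X)) := by
      refine Finset.card_le_card fun p hp => ?_
      rw [mem_Ioc]
      exact ⟨(hP p hp).2.1, (hP p hp).2.2⟩
    rw [Nat.card_Ioc] at h1
    have h2 : #P ≤ X := by omega
    exact_mod_cast h2
  have h32 : (X : ℝ) ^ (3 / 2 + ε) = (X : ℝ) ^ (1 / 2 + ε) * X := by
    rw [← Real.rpow_add_one hX0.ne']; congr 1; ring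
  have hABl : (X : ℝ) ^ (1 / 2 + ε) ≤ (B : ℝ) - A := by
    have h1 : (X : ℝ) ^ (1 / 2 + ε) * X ≤ ((B : ℝ) - A) * X := by
      rw [← h32]
      refine hAB.trans (mul_le_mul_of_nonneg_left hcP (by linarith))
    exact le_of_mul_le_mul_right h1 hX0
  have hsq : ∀ p ∈ P, (0 : ℝ) < Real.sqrt p := by
    intro p hp
    exact Real.sqrt_pos.2 (by exact_mod_cast (hP p hp).1.pos)
  have hlogX : 0 < Real.log X := Real.log_pos (by linarith)
  -- the matrix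
  let K : ℤ → ℕ → ℝ := fun a p => (kl a p).re / Real.sqrt p
  have hnorm : ∀ (a : ℤ), ∀ p ∈ P, ‖kl a p‖ ^ 2 = (kl a p).re ^ 2 := by
    intro a p hp
    have h1 := HI a p (hP p hp).1.pos
    rw [← Complex.normSq_eq_norm_sq, Complex.normSq_apply, h1]
    ring
  have hK : ∀ a ∈ Ioc A B, ∀ p ∈ P, |K a p| ≤ 2 := by
    intro a _ p hp
    have h1 := HK p (hP p hp).1 a
    have h2 : |(kl a p).re| ≤ ‖kl a p‖ := Complex.abs_re_le_norm _
    change |(kl a p).re / Real.sqrt p| ≤ 2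
    rw [abs_div, abs_of_pos (hsq p hp), div_le_iff₀ (hsq p hp)]
    linarith
  have hε2 : (X : ℝ) ^ (1 / 2 + ε) = Real.sqrt X * (X : ℝ) ^ ε := by
    rw [Real.rpow_add hX0, Real.sqrt_eq_rpow]
  have h2 : ∀ p ∈ P, (1 - t) * #(Ioc A B) ≤ ∑ a ∈ Ioc A B, K a p ^ 2 := by
    intro p hp
    obtain ⟨hpp, hp1, hp2⟩ := hP p hp
    have hp1' : (X : ℝ) < p := by exact_mod_cast hp1
    have hp2' : (p : ℝ) ≤ 2 * X := by exact_mod_cast hp2
    have h3 := hC1 p hpp A B hAB' (by omega)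
    have h4 : ∑ a ∈ Ioc A B, ‖kl a p‖ ^ 2 / p = ∑ a ∈ Ioc A B, K a p ^ 2 := by
      refine Finset.sum_congr rfl fun a _ => ?_
      change ‖kl a p‖ ^ 2 / p = ((kl a p).re / Real.sqrt p) ^ 2
      rw [div_pow, Real.sq_sqrt (Nat.cast_nonneg p), hnorm a p hp]
    rw [h4] at h3
    rw [hcard]
    have h5 : C1 * (Real.sqrt p * Real.log p) ≤ t * ((B : ℝ) - A) := by
      have hs : Real.sqrt p ≤ 2 * Real.sqrt X := by
        rw [Real.sqrt_le_left (by positivity), mul_pow, Real.sq_sqrt hX0.le]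
        linarith
      have hl : Real.log p ≤ 2 * Real.log X := by
        have h6 : Real.log p ≤ Real.log ((X : ℝ) ^ 2) := by
          refine Real.log_le_log (by linarith) ?_
          nlinarith
        rw [Real.log_pow] at h6
        exact_mod_cast h6
      have hl0 : 0 ≤ Real.log p := Real.log_nonneg (by linarith)
      have h7 : Real.sqrt p * Real.log p ≤ 4 * (Real.sqrt X * Real.log X) := by
        calc Real.sqrt p * Real.log p ≤ (2 * Real.sqrt X) * (2 * Real.log X) :=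
              mul_le_mul hs hl hl0 (by positivity)
          _ = 4 * (Real.sqrt X * Real.log X) := by ring
      have h8 : C1 * (Real.sqrt p * Real.log p) ≤ |C1| * (4 * (Real.sqrt X * Real.log X)) := by
        calc C1 * (Real.sqrt p * Real.log p) ≤ |C1| * (Real.sqrt p * Real.log p) :=
              mul_le_mul_of_nonneg_right (le_abs_self _) (by positivity)
          _ ≤ |C1| * (4 * (Real.sqrt X * Real.log X)) :=
              mul_le_mul_of_nonneg_left h7 (abs_nonneg _)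
      have h9 := hb X hXb
      have h10 : |C1| * (4 * (Real.sqrt X * Real.log X)) ≤ t * (X : ℝ) ^ (1 / 2 + ε) := by
        rw [hε2]
        calc |C1| * (4 * (Real.sqrt X * Real.log X)) =
              t * (Real.sqrt X * (1 / t * (|C1| * 4) * Real.log X)) := by field_simp
          _ ≤ t * (Real.sqrt X * (X : ℝ) ^ ε) := by
              apply mul_le_mul_of_nonneg_left _ ht.le
              exact mul_le_mul_of_nonneg_left h9 (Real.sqrt_nonneg _)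
      have h11 := mul_le_mul_of_nonneg_left hABl ht.le
      linarith
    linarith
  have h1 : ∑ a ∈ Ioc A B, (∑ p ∈ P, K a p) ^ 2 ≤
      t ^ 5 * (#(Ioc A B) * (#P : ℝ) ^ 2) := by
    have h3 := hLS X X hXpos P hP (fun _ => 1)
    have h4 : ∑ a ∈ Ioc A B, (∑ p ∈ P, K a p) ^ 2 ≤
        ∑ a ∈ Icc (-(X : ℤ)) X, ‖∑ p ∈ P, (1 : ℂ) * (kl a p / (Real.sqrt p : ℂ))‖ ^ 2 := by
      calc ∑ a ∈ Ioc A B, (∑ p ∈ P, K a p) ^ 2 ≤
            ∑ a ∈ Ioc A B, ‖∑ p ∈ P, (1 : ℂ) * (kl a p / (Real.sqrt p : ℂ))‖ ^ 2 := by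
            refine Finset.sum_le_sum fun a _ => ?_
            have h5 : (∑ p ∈ P, K a p) =
                (∑ p ∈ P, (1 : ℂ) * (kl a p / (Real.sqrt p : ℂ))).re := by
              rw [Complex.re_sum]
              refine Finset.sum_congr rfl fun p _ => ?_
              rw [one_mul, Complex.div_ofReal_re]
            rw [h5]
            exact sq_le_sq' (by
              have := Complex.abs_re_le_norm
                (∑ p ∈ P, (1 : ℂ) * (kl a p / (Real.sqrt p : ℂ)))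
              exact (abs_le.1 this).1) (Complex.re_le_norm _)
        _ ≤ _ := by
            refine Finset.sum_le_sum_of_subset_of_nonneg ?_ (fun _ _ _ => by positivity)
            intro a ha'
            rw [mem_Ioc] at ha'
            rw [mem_Icc]
            omega
    have h6 : ∑ p ∈ P, ‖(1 : ℂ)‖ ^ 2 = (#P : ℝ) := by simp
    have h3' : ∑ a ∈ Icc (-(X : ℤ)) X, ‖∑ p ∈ P, (1 : ℂ) * (kl a p / (Real.sqrt p : ℂ))‖ ^ 2 ≤
        C2 * (X : ℝ) ^ (ε / 2) * (X + X * Real.sqrt X + (X : ℝ) ^ (3 / 2 : ℝ)) * #P := by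
      have h := h3
      rw [h6] at h
      exact h
    refine (h4.trans h3').trans ?_
    rw [hcard]
    have h7 := hc X hXc
    have h20 : (X : ℝ) * Real.sqrt X = (X : ℝ) ^ (3 / 2 : ℝ) := by
      rw [Real.sqrt_eq_rpow, mul_comm, ← Real.rpow_add_one hX0.ne']; norm_num
    have h21 : (X : ℝ) ≤ (X : ℝ) ^ (3 / 2 : ℝ) := by
      calc (X : ℝ) = (X : ℝ) ^ (1 : ℝ) := (Real.rpow_one _).symm
        _ ≤ (X : ℝ) ^ (3 / 2 : ℝ) := Real.rpow_le_rpow_of_exponent_le (by linarith) (by norm_num)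
    have h22 : C2 * (X : ℝ) ^ (ε / 2) * (X + X * Real.sqrt X + (X : ℝ) ^ (3 / 2 : ℝ)) ≤
        3 * C2 * ((X : ℝ) ^ (ε / 2) * (X : ℝ) ^ (3 / 2 : ℝ)) := by
      rw [h20]
      have h23 : 0 < C2 * (X : ℝ) ^ (ε / 2) := mul_pos hC2 (Real.rpow_pos_of_pos hX0 _)
      nlinarith [mul_le_mul_of_nonneg_left h21 h23.le]
    have h8 : C2 * (X : ℝ) ^ (ε / 2) * (X + X * Real.sqrt X + (X : ℝ) ^ (3 / 2 : ℝ)) ≤
        t ^ 5 * (X : ℝ) ^ (3 / 2 + ε) := by
      refine h22.trans ?_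
      have h10 : (X : ℝ) ^ (3 / 2 + ε) =
          (X : ℝ) ^ (ε / 2) * (X : ℝ) ^ (3 / 2 : ℝ) * (X : ℝ) ^ (ε / 2) := by
        rw [← Real.rpow_add hX0, ← Real.rpow_add hX0]; congr 1; ring
      have h12 : 0 < (X : ℝ) ^ (ε / 2) * (X : ℝ) ^ (3 / 2 : ℝ) :=
        mul_pos (Real.rpow_pos_of_pos hX0 _) (Real.rpow_pos_of_pos hX0 _)
      rw [h10]
      have h13 := mul_le_mul_of_nonneg_left h7 h12.le
      have ht5 : 0 < t ^ 5 := by positivity
      have h14 : t ^ 5 * ((X : ℝ) ^ (ε / 2) * (X : ℝ) ^ (3 / 2 : ℝ) * (3 * C2 * (1 / t ^ 5))) =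
          3 * C2 * ((X : ℝ) ^ (ε / 2) * (X : ℝ) ^ (3 / 2 : ℝ)) := by field_simp
      rw [← h14]
      exact mul_le_mul_of_nonneg_left h13 ht5.le
    calc C2 * (X : ℝ) ^ (ε / 2) * (X + X * Real.sqrt X + (X : ℝ) ^ (3 / 2 : ℝ)) * #P ≤
          t ^ 5 * (X : ℝ) ^ (3 / 2 + ε) * #P :=
          mul_le_mul_of_nonneg_right h8 hPnn
      _ ≤ t ^ 5 * (((B : ℝ) - A) * #P) * #P := by
          refine mul_le_mul_of_nonneg_right (mul_le_mul_of_nonneg_left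
            hAB (by positivity)) hPnn
      _ = t ^ 5 * (((B : ℝ) - A) * (#P : ℝ) ^ 2) := by ring
  have hfin := abstract_signs_eps (Ioc A B) P K t ht ht8 hK h2 h1
  rw [hcard] at hfin
  exact hfin

end Pool.KV
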