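import Pool.Agent.LibKlVar.KV_Main
import Pool.Agent.LibKlVar.KV_V
import Pool.Agent.LibKlVar.KV_X2
import Pool.Agent.LibKlVar.KV_U2

/-!
# Final forms in terms of the Kloosterman angles
-/

set_option autoImplicit false

namespace Pool.KV

open Finset

/-- `S(a,1;p)` as a sum of cosines. -/
noncomputable def SR (a : ℤ) (p : ℕ) : ℝ :=
  ∑ x ∈ Finset.Ico 1 p, Real.cos (2 * Real.pi *
    ((((a : ZMod p) * (x : ZMod p) + (x : ZMod p)⁻¹).val : ℕ) : ℝ) / (p : ℝ))

theorem kl_re (a : ℤ) (p : ℕ) (hp : p.Prime) : (kl a p).re = SR a p := by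
  unfold kl SR
  rw [Complex.re_sum]
  have hset : (range p).filter (fun x => x.Coprime p) = Ico 1 p := by
    ext x
    rw [mem_filter, mem_range, mem_Ico]
    constructor
    · rintro ⟨h1, h2⟩
      refine ⟨?_, h1⟩
      rcases Nat.eq_zero_or_pos x with h | h
      · subst h
        rw [Nat.coprime_zero_left] at h2
        exact absurd h2 hp.one_lt.ne'
      · exact h
    · rintro ⟨h1, h2⟩
      exact ⟨h2, Nat.Coprime.symm ((Nat.Prime.coprime_iff_not_dvd hp).2
        (Nat.not_dvd_of_pos_of_lt (by omega) h2))⟩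
  rw [hset]
  refine sum_congr rfl fun x _ => ?_
  rw [Complex.exp_re]
  have e1 : (2 * Real.pi * Complex.I *
      ((((a : ZMod p) * (x : ZMod p) + (x : ZMod p)⁻¹).val : ℕ) : ℂ) / p).re = 0 := by
    have : (2 * Real.pi * Complex.I *
      ((((a : ZMod p) * (x : ZMod p) + (x : ZMod p)⁻¹).val : ℕ) : ℂ) / p) =
      ((2 * Real.pi * ((((a : ZMod p) * (x : ZMod p) + (x : ZMod p)⁻¹).val : ℕ) : ℝ) / (p : ℝ) : ℝ) : ℂ)
        * Complex.I := by
      push_cast; ring
    rw [this, Complex.re_ofReal_mul, Complex.I_re, mul_zero]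
  have e2 : (2 * Real.pi * Complex.I *
      ((((a : ZMod p) * (x : ZMod p) + (x : ZMod p)⁻¹).val : ℕ) : ℂ) / p).im =
      2 * Real.pi * ((((a : ZMod p) * (x : ZMod p) + (x : ZMod p)⁻¹).val : ℕ) : ℝ) / (p : ℝ) := by
    have : (2 * Real.pi * Complex.I *
      ((((a : ZMod p) * (x : ZMod p) + (x : ZMod p)⁻¹).val : ℕ) : ℂ) / p) =
      ((2 * Real.pi * ((((a : ZMod p) * (x : ZMod p) + (x : ZMod p)⁻¹).val : ℕ) : ℝ) / (p : ℝ) : ℝ) : ℂ)
        * Complex.I := by
      push_cast; ring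
    rw [this, Complex.im_ofReal_mul, Complex.I_im, mul_one]
  rw [e1, e2, Real.exp_zero, one_mul]

theorem kl_le' (p : ℕ) (hp : p.Prime) (a : ℤ) : ‖kl a p‖ ≤ 2 * Real.sqrt p :=
  kl_le p hp (weilBd p hp) a

theorem cos_arccos_SR (a : ℤ) (p : ℕ) (hp : p.Prime) :
    Real.cos (Real.arccos (SR a p / (2 * Real.sqrt p))) = SR a p / (2 * Real.sqrt p) := by
  have hp0 : (0 : ℝ) < p := by exact_mod_cast hp.pos
  have hs : 0 < Real.sqrt p := Real.sqrt_pos.2 hp0
  have h1 : |SR a p| ≤ 2 * Real.sqrt p := by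
    rw [← kl_re a p hp]
    exact (Complex.abs_re_le_norm _).trans (kl_le' p hp a)
  have h2 := abs_le.1 h1
  apply Real.cos_arccos
  · rw [le_div_iff₀ (by positivity)]; linarith
  · rw [div_le_iff₀ (by positivity)]; linarith

end Pool.KV
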