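import Pool.Agent.LibKlVar.KV_T3

/-!
# Block T with an arbitrary bounded weight
-/

set_option autoImplicit false

namespace Pool.KV

open Finset

/-- T1. Chebyshev's inequality for the large sieve. -/
theorem exc_cardW (β : ℕ → ℂ) (hβ : ∀ p, ‖β p‖ ≤ 1) (ε C : ℝ) (hC : 0 < C) (hLS : LSBd ε C) (X N : ℕ) (hX : 0 < X) (P : Finset ℕ)
    (hP : ∀ p ∈ P, p.Prime ∧ X < p ∧ p ≤ 2 * X) (T : ℝ) (hT : 0 < T) :
    (#((Icc (-(N : ℤ)) N).filter (fun a => T < ‖∑ p ∈ P, β p * kn a p‖)) : ℝ) ≤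
      C * (X : ℝ) ^ ε * (N + X * Real.sqrt N + (X : ℝ) ^ (3 / 2 : ℝ)) * X / T ^ 2 := by
  have h := hLS X N hX P hP β
  have hcard : (#P : ℝ) ≤ X := by
    have h1 : P ⊆ Ioc X (2 * X) := by
      intro p hp
      have := hP p hp
      rw [mem_Ioc]; exact ⟨this.2.1, this.2.2⟩
    have h2 := card_le_card h1
    rw [Nat.card_Ioc] at h2
    have : #P ≤ X := by omega
    exact_mod_cast this
  have e1 : ∑ p ∈ P, ‖β p‖ ^ 2 ≤ (#P : ℝ) := by
    calc ∑ p ∈ P, ‖β p‖ ^ 2 ≤ ∑ p ∈ P, (1 : ℝ) := by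
          apply sum_le_sum
          intro p _
          exact pow_le_one₀ (norm_nonneg _) (hβ p)
      _ = #P := by simp
  rw [le_div_iff₀ (by positivity)]
  have hnn : 0 ≤ C * (X : ℝ) ^ ε * (N + X * Real.sqrt N + (X : ℝ) ^ (3 / 2 : ℝ)) := by positivity
  calc (#((Icc (-(N : ℤ)) N).filter (fun a => T < ‖∑ p ∈ P, β p * kn a p‖)) : ℝ) * T ^ 2
      = ∑ a ∈ (Icc (-(N : ℤ)) N).filter (fun a => T < ‖∑ p ∈ P, β p * kn a p‖), T ^ 2 := by
        rw [sum_const, nsmul_eq_mul]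
    _ ≤ ∑ a ∈ (Icc (-(N : ℤ)) N).filter (fun a => T < ‖∑ p ∈ P, β p * kn a p‖), ‖∑ p ∈ P, β p * kn a p‖ ^ 2 := by
        apply sum_le_sum
        intro a ha
        have := (mem_filter.1 ha).2
        gcongr
    _ ≤ ∑ a ∈ Icc (-(N : ℤ)) N, ‖∑ p ∈ P, β p * kn a p‖ ^ 2 := by
        apply sum_le_sum_of_subset_of_nonneg (filter_subset _ _)
        intro a _ _; positivity
    _ ≤ C * (X : ℝ) ^ ε * (N + X * Real.sqrt N + (X : ℝ) ^ (3 / 2 : ℝ)) * ∑ p ∈ P, ‖β p‖ ^ 2 := h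
    _ ≤ C * (X : ℝ) ^ ε * (N + X * Real.sqrt N + (X : ℝ) ^ (3 / 2 : ℝ)) * #P :=
        mul_le_mul_of_nonneg_left e1 hnn
    _ ≤ _ := mul_le_mul_of_nonneg_left hcard hnn

/-- T4. The exceptional set. -/
theorem exc_totalW (η : ℝ) (h0 : 0 < η) (h1 : η < 1) (C : ℝ) (hC : 0 < C)
    (hLS : LSBd (η / 20) C) :
    ∃ C' : ℝ, 0 < C' ∧ ∀ β : ℕ → ℂ, (∀ p, ‖β p‖ ≤ 1) → ∀ N : ℕ, 0 < N → ∃ E : Finset ℤ, (#E : ℝ) ≤ C' * (N : ℝ) ^ (1 - η / 5) ∧
      ∀ a ∈ Icc (-(N : ℤ)) N, a ∉ E → ∀ j : ℕ, (N : ℝ) ^ (η / 2) ≤ 2 ^ j →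
        (2 : ℝ) ^ j ≤ (N : ℝ) ^ (2 - η) → ∀ i ≤ 2 ^ j / Lst N (η / 20) j,
        ‖∑ p ∈ blk j i (Lst N (η / 20) j), β p * kn a p‖ ≤ 2 ^ j * (N : ℝ) ^ (-(η / 20)) := by
  set κ : ℝ := η / 20 with hκ
  have hκ0 : 0 < κ := by positivity
  refine ⟨(2 / Real.log 2 / κ + 1) * (2 * (3 * C)), ?_, fun β hβ N hN => ?_⟩
  · have := Real.log_pos (by norm_num : (1 : ℝ) < 2)
    positivity
  have hN0 : (0 : ℝ) < N := by exact_mod_cast hN
  have hN1 : (1 : ℝ) ≤ N := by exact_mod_cast hN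
  set Jm := Nat.log 2 (N ^ 2) with hJm
  set S : Finset ℕ := (range (Jm + 1)).filter
    (fun j => (N : ℝ) ^ (η / 2) ≤ 2 ^ j ∧ (2 : ℝ) ^ j ≤ (N : ℝ) ^ (2 - η)) with hS
  set E : Finset ℤ := S.biUnion fun j => (range (2 ^ j / Lst N κ j + 1)).biUnion fun i =>
    (Icc (-(N : ℤ)) N).filter
      (fun a => (2 : ℝ) ^ j * (N : ℝ) ^ (-κ) < ‖∑ p ∈ blk j i (Lst N κ j), β p * kn a p‖) with hE
  refine ⟨E, ?_, ?_⟩
  · -- cardinality
    set B : ℝ := 3 * C * (N : ℝ) ^ (2 * κ + 2 * κ + (1 - η / 2)) with hB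
    have hB0 : 0 ≤ B := by positivity
    have hone : ∀ j ∈ S, ∀ i : ℕ, (#((Icc (-(N : ℤ)) N).filter
      (fun a => (2 : ℝ) ^ j * (N : ℝ) ^ (-κ) < ‖∑ p ∈ blk j i (Lst N κ j), β p * kn a p‖)) : ℝ) ≤ B := by
      intro j hj i
      have hj' := (mem_filter.1 hj).2
      have hX0 : (0 : ℝ) < 2 ^ j := by positivity
      have hX1 : (1 : ℝ) ≤ 2 ^ j := one_le_pow₀ (by norm_num)
      have h2 := exc_cardW β hβ κ C hC hLS (2 ^ j) N (by positivity) (blk j i (Lst N κ j)) ?_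
        ((2 : ℝ) ^ j * (N : ℝ) ^ (-κ)) (by positivity)
      · refine le_trans h2 ?_
        push_cast
        set X : ℝ := (2 : ℝ) ^ j with hX
        -- X^κ ≤ N^(2κ)
        have hXN2 : X ≤ (N : ℝ) ^ (2 : ℝ) := by
          refine le_trans hj'.2 ?_
          apply Real.rpow_le_rpow_of_exponent_le hN1
          linarith
        have hXk : X ^ κ ≤ (N : ℝ) ^ (2 * κ) := by
          rw [Real.rpow_mul hN0.le]
          exact Real.rpow_le_rpow hX0.le hXN2 hκ0.le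
        have hT2 : (X * (N : ℝ) ^ (-κ)) ^ 2 = X ^ 2 * (N : ℝ) ^ (-(2 * κ)) := by
          rw [mul_pow, ← Real.rpow_natCast ((N : ℝ) ^ (-κ)) 2, ← Real.rpow_mul hN0.le]
          congr 2
          push_cast; ring
        rw [hT2]
        have hinv : (N : ℝ) ^ (-(2 * κ)) * (N : ℝ) ^ (2 * κ) = 1 := by
          rw [← Real.rpow_add hN0]; simp
        have e1 : C * X ^ κ * (N + X * Real.sqrt N + X ^ (3 / 2 : ℝ)) * X / (X ^ 2 * (N : ℝ) ^ (-(2 * κ)))
            = C * X ^ κ * (N : ℝ) ^ (2 * κ) * (N / X + Real.sqrt N + X ^ (1 / 2 : ℝ)) := by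
          have hX32 : X ^ (3 / 2 : ℝ) = X * X ^ (1 / 2 : ℝ) := by
            rw [show (3 / 2 : ℝ) = 1 + 1 / 2 by norm_num, Real.rpow_add hX0, Real.rpow_one]
          rw [hX32]
          have hNk : (N : ℝ) ^ (-(2 * κ)) = 1 / (N : ℝ) ^ (2 * κ) := by
            rw [Real.rpow_neg hN0.le]; simp
          rw [hNk]
          field_simp
        rw [e1]
        have a1 : (N : ℝ) / X ≤ (N : ℝ) ^ (1 - η / 2) := by
          rw [div_le_iff₀ hX0]
          calc (N : ℝ) = (N : ℝ) ^ (1 - η / 2) * (N : ℝ) ^ (η / 2) := by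
                rw [← Real.rpow_add hN0]; simp
            _ ≤ (N : ℝ) ^ (1 - η / 2) * X := by gcongr; exact hj'.1
        have a2 : Real.sqrt N ≤ (N : ℝ) ^ (1 - η / 2) := by
          rw [Real.sqrt_eq_rpow]
          apply Real.rpow_le_rpow_of_exponent_le hN1
          linarith
        have a3 : X ^ (1 / 2 : ℝ) ≤ (N : ℝ) ^ (1 - η / 2) := by
          have : (N : ℝ) ^ (1 - η / 2) = ((N : ℝ) ^ (2 - η)) ^ (1 / 2 : ℝ) := by
            rw [← Real.rpow_mul hN0.le]; congr 1; ring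
          rw [this]
          exact Real.rpow_le_rpow hX0.le hj'.2 (by norm_num)
        calc C * X ^ κ * (N : ℝ) ^ (2 * κ) * (N / X + Real.sqrt N + X ^ (1 / 2 : ℝ))
            ≤ C * (N : ℝ) ^ (2 * κ) * (N : ℝ) ^ (2 * κ) *
              ((N : ℝ) ^ (1 - η / 2) + (N : ℝ) ^ (1 - η / 2) + (N : ℝ) ^ (1 - η / 2)) := by
              gcongr
          _ = B := by
              rw [hB, Real.rpow_add hN0, Real.rpow_add hN0]
              ring
      · intro p hp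
        unfold blk at hp
        rw [mem_filter, mem_Ioc] at hp
        refine ⟨hp.2, hp.1.1, ?_⟩
        have := le_trans hp.1.2 (min_le_right _ _)
        rw [pow_succ] at this
        omega
    have hcard : (#E : ℝ) ≤ ∑ j ∈ S, ∑ i ∈ range (2 ^ j / Lst N κ j + 1), B := by
      have c1 : #E ≤ ∑ j ∈ S, #((range (2 ^ j / Lst N κ j + 1)).biUnion fun i =>
        (Icc (-(N : ℤ)) N).filter
          (fun a => (2 : ℝ) ^ j * (N : ℝ) ^ (-κ) < ‖∑ p ∈ blk j i (Lst N κ j), β p * kn a p‖)) :=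
        card_biUnion_le
      have c2 : (#E : ℝ) ≤ ∑ j ∈ S, (#((range (2 ^ j / Lst N κ j + 1)).biUnion fun i =>
        (Icc (-(N : ℤ)) N).filter
          (fun a => (2 : ℝ) ^ j * (N : ℝ) ^ (-κ) < ‖∑ p ∈ blk j i (Lst N κ j), β p * kn a p‖)) : ℝ) := by
        exact_mod_cast c1
      refine le_trans c2 (sum_le_sum fun j hj => ?_)
      have c3 : #((range (2 ^ j / Lst N κ j + 1)).biUnion fun i =>
        (Icc (-(N : ℤ)) N).filter
          (fun a => (2 : ℝ) ^ j * (N : ℝ) ^ (-κ) < ‖∑ p ∈ blk j i (Lst N κ j), β p * kn a p‖)) ≤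
          ∑ i ∈ range (2 ^ j / Lst N κ j + 1), #((Icc (-(N : ℤ)) N).filter
          (fun a => (2 : ℝ) ^ j * (N : ℝ) ^ (-κ) < ‖∑ p ∈ blk j i (Lst N κ j), β p * kn a p‖)) :=
        card_biUnion_le
      have c4 : (#((range (2 ^ j / Lst N κ j + 1)).biUnion fun i =>
        (Icc (-(N : ℤ)) N).filter
          (fun a => (2 : ℝ) ^ j * (N : ℝ) ^ (-κ) < ‖∑ p ∈ blk j i (Lst N κ j), β p * kn a p‖)) : ℝ) ≤
          ∑ i ∈ range (2 ^ j / Lst N κ j + 1), (#((Icc (-(N : ℤ)) N).filter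
          (fun a => (2 : ℝ) ^ j * (N : ℝ) ^ (-κ) < ‖∑ p ∈ blk j i (Lst N κ j), β p * kn a p‖)) : ℝ) := by
        exact_mod_cast c3
      exact le_trans c4 (sum_le_sum fun i _ => hone j hj i)
    have hNκ1 : (1 : ℝ) ≤ (N : ℝ) ^ κ := Real.one_le_rpow hN1 hκ0.le
    have hin : ∀ j ∈ S, ∑ i ∈ range (2 ^ j / Lst N κ j + 1), B ≤ 2 * (N : ℝ) ^ κ * B := by
      intro j _
      rw [sum_const, card_range, nsmul_eq_mul]
      push_cast
      have := grid_card N hN κ j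
      have h3 : ((2 ^ j / Lst N κ j : ℕ) : ℝ) + 1 ≤ 2 * (N : ℝ) ^ κ := by linarith
      exact mul_le_mul_of_nonneg_right h3 hB0
    have hout : (#S : ℝ) ≤ (2 / Real.log 2 / κ + 1) * (N : ℝ) ^ κ := by
      have hl2 := Real.log_pos (by norm_num : (1 : ℝ) < 2)
      have c5 : #S ≤ Jm + 1 := le_trans (card_filter_le _ _) (by simp)
      have c6 : (#S : ℝ) ≤ Jm + 1 := by exact_mod_cast c5
      have c7 : (Jm : ℝ) ≤ 2 / Real.log 2 / κ * (N : ℝ) ^ κ := by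
        have h3 : 2 ^ Jm ≤ N ^ 2 := Nat.pow_log_le_self 2 (by positivity)
        have h4 : ((2 : ℝ) ^ Jm) ≤ (N : ℝ) ^ 2 := by exact_mod_cast h3
        have h5 : Real.log ((2 : ℝ) ^ Jm) ≤ Real.log ((N : ℝ) ^ 2) := Real.log_le_log (by positivity) h4
        rw [Real.log_pow, Real.log_pow] at h5
        push_cast at h5
        have h6 := Real.log_le_rpow_div hN0.le hκ0
        have h7 : (Jm : ℝ) ≤ 2 * Real.log N / Real.log 2 := by
          rw [le_div_iff₀ hl2]; exact h5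
        refine le_trans h7 ?_
        calc 2 * Real.log N / Real.log 2 ≤ 2 * ((N : ℝ) ^ κ / κ) / Real.log 2 := by gcongr
          _ = 2 / Real.log 2 / κ * (N : ℝ) ^ κ := by field_simp
      calc (#S : ℝ) ≤ Jm + 1 := c6
        _ ≤ 2 / Real.log 2 / κ * (N : ℝ) ^ κ + (N : ℝ) ^ κ := add_le_add c7 hNκ1
        _ = _ := by ring
    calc (#E : ℝ) ≤ ∑ j ∈ S, ∑ i ∈ range (2 ^ j / Lst N κ j + 1), B := hcard
      _ ≤ ∑ j ∈ S, 2 * (N : ℝ) ^ κ * B := sum_le_sum hin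
      _ = #S * (2 * (N : ℝ) ^ κ * B) := by rw [sum_const, nsmul_eq_mul]
      _ ≤ ((2 / Real.log 2 / κ + 1) * (N : ℝ) ^ κ) * (2 * (N : ℝ) ^ κ * B) := by
          gcongr
      _ = (2 / Real.log 2 / κ + 1) * (2 * (3 * C)) * ((N : ℝ) ^ κ * (N : ℝ) ^ κ *
          (N : ℝ) ^ (2 * κ + 2 * κ + (1 - η / 2))) := by rw [hB]; ring
      _ = (2 / Real.log 2 / κ + 1) * (2 * (3 * C)) * (N : ℝ) ^ (1 - η / 5) := by
          rw [← Real.rpow_add hN0, ← Real.rpow_add hN0]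
          congr 2
          rw [hκ]; ring
  · intro a ha haE j hj1 hj2 i hi
    by_contra hcon
    push Not at hcon
    apply haE
    rw [hE, mem_biUnion]
    refine ⟨j, ?_, ?_⟩
    · rw [hS, mem_filter, mem_range]
      refine ⟨?_, hj1, hj2⟩
      have h3 : (2 : ℝ) ^ j ≤ (N : ℝ) ^ (2 : ℝ) := by
        refine le_trans hj2 ?_
        apply Real.rpow_le_rpow_of_exponent_le hN1
        linarith
      have h4 : 2 ^ j ≤ N ^ 2 := by
        have : ((2 : ℝ) ^ j) ≤ (N : ℝ) ^ (2 : ℕ) := by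
          rw [← Real.rpow_natCast (N : ℝ) 2]; exact_mod_cast h3
        exact_mod_cast this
      have h5 := Nat.le_log_of_pow_le (by norm_num : 1 < 2) h4
      omega
    · rw [mem_biUnion]
      refine ⟨i, by rw [mem_range]; omega, ?_⟩
      rw [mem_filter]
      exact ⟨ha, hcon⟩

/-- For a fixed good `a`, the bound for all `x`. -/
theorem good_aW (β : ℕ → ℂ) (hβ : ∀ p, ‖β p‖ ≤ 1) (η : ℝ) (h0 : 0 < η) (h1 : η < 1) (N : ℕ) (hN : 0 < N) (a : ℤ) (ha0 : a ≠ 0)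
    (haN : a ∈ Icc (-(N : ℤ)) N) (hW : ∀ p : ℕ, p.Prime → ‖kn a p‖ ≤ 2)
    (HI : ∀ p : ℕ, 0 < p → (kl a p).im = 0)
    (hgood : ∀ j : ℕ, (N : ℝ) ^ (η / 2) ≤ 2 ^ j →
        (2 : ℝ) ^ j ≤ (N : ℝ) ^ (2 - η) → ∀ i ≤ 2 ^ j / Lst N (η / 20) j,
        ‖∑ p ∈ blk j i (Lst N (η / 20) j), β p * kn a p‖ ≤ 2 ^ j * (N : ℝ) ^ (-(η / 20)))
    (x : ℕ) (hx : (N : ℝ) ^ η ≤ x) (hx2 : (x : ℝ) ≤ (N : ℝ) ^ (2 - η)) :
    ‖∑ p ∈ (Icc 1 x).filter (fun p : ℕ => p.Prime ∧ ¬ (p : ℤ) ∣ a),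
      β p * (((kl a p).re / (2 * Real.sqrt p) : ℝ) : ℂ)‖ ≤
      (20 + 4 / η) * (x : ℝ) ^ (1 - η / 40) := by
  have hN0 : (0 : ℝ) < N := by exact_mod_cast hN
  have hN1 : (1 : ℝ) ≤ N := by exact_mod_cast hN
  have hx1 : (1 : ℝ) ≤ x := le_trans (Real.one_le_rpow hN1 h0.le) hx
  have hx0 : (0 : ℝ) < x := by linarith
  have hxpos : 0 < x := by exact_mod_cast hx0
  set g : ℕ → ℂ := fun p => if p.Prime then β p * kn a p else 0 with hg
  have hg2 : ∀ p, ‖g p‖ ≤ 2 := by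
    intro p
    rw [hg]
    dsimp only
    split_ifs with h
    · rw [norm_mul]
      calc ‖β p‖ * ‖kn a p‖ ≤ 1 * 2 := mul_le_mul (hβ p) (hW p h) (norm_nonneg _) (by norm_num)
        _ = 2 := by norm_num
    · simp
  have hgsum : ∀ s : Finset ℕ, ∑ p ∈ s.filter Nat.Prime, g p = ∑ p ∈ s.filter Nat.Prime, β p * kn a p := by
    intro s
    refine sum_congr rfl fun p hp => ?_
    rw [hg]
    dsimp only
    rw [if_pos (mem_filter.1 hp).2]
  set D : ℝ := (x : ℝ) ^ (1 - η / 40) with hD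
  have hsq : (x : ℝ) ^ (1 / 2 : ℝ) ≤ D := Real.rpow_le_rpow_of_exponent_le hx1 (by linarith)
  have hD1 : 1 ≤ D := Real.one_le_rpow hx1 (by linarith)
  have hsq0 : 0 ≤ (x : ℝ) ^ (1 / 2 : ℝ) := by positivity
  -- the sum over all primes up to x
  have main : ‖∑ p ∈ (Ioc 0 x).filter Nat.Prime, g p‖ ≤ 24 * D := by
    set J := Nat.log 2 x with hJ
    have hJ1 : 2 ^ J ≤ x := Nat.pow_log_le_self 2 hxpos.ne'
    have hJ2 : x < 2 ^ (J + 1) := Nat.lt_pow_succ_log_self (by norm_num) x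
    have hex : ∃ j : ℕ, (N : ℝ) ^ (η / 2) ≤ 2 ^ j := by
      obtain ⟨j, hj⟩ := pow_unbounded_of_one_lt ((N : ℝ) ^ (η / 2)) (by norm_num : (1 : ℝ) < 2)
      exact ⟨j, hj.le⟩
    classical
    set j₁ := Nat.find hex with hj₁
    have hj1 : (N : ℝ) ^ (η / 2) ≤ 2 ^ j₁ := Nat.find_spec hex
    have hNη1 : 1 ≤ (N : ℝ) ^ (η / 2) := Real.one_le_rpow hN1 (by positivity)
    have hj1' : (2 : ℝ) ^ j₁ ≤ 2 * (N : ℝ) ^ (η / 2) := by
      rcases Nat.eq_zero_or_pos j₁ with h | h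
      · rw [h]; simp; linarith
      · have h3 := Nat.find_min hex (m := j₁ - 1) (by omega)
        push Not at h3
        have h4 : (2 : ℝ) ^ j₁ = 2 * 2 ^ (j₁ - 1) := by
          rw [← pow_succ']; congr 1; omega
        rw [h4]; linarith
    have hNx : (N : ℝ) ^ (η / 2) ≤ (x : ℝ) ^ (1 / 2 : ℝ) := by
      have : (N : ℝ) ^ (η / 2) = ((N : ℝ) ^ η) ^ (1 / 2 : ℝ) := by
        rw [← Real.rpow_mul hN0.le]; congr 1; ring
      rw [this]
      exact Real.rpow_le_rpow (by positivity) hx (by norm_num)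
    rcases le_or_gt j₁ J with hle | hgt
    · -- main case
      have hτ : (0 : ℝ) ≤ 3 * (N : ℝ) ^ (-(η / 20)) := by positivity
      have hb := total_bound g hg2 j₁ J hle (3 * (N : ℝ) ^ (-(η / 20))) hτ ?_ x hJ1 hJ2.le
      · refine le_trans hb ?_
        have hJx := two_pow_le_imp J x hJ1
        have hNk : (x : ℝ) * (N : ℝ) ^ (-(η / 20)) ≤ D := by
          have hxN : (x : ℝ) ^ (η / 40) ≤ (N : ℝ) ^ (η / 20) := by
            calc (x : ℝ) ^ (η / 40) ≤ ((N : ℝ) ^ (2 : ℝ)) ^ (η / 40) := by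
                  apply Real.rpow_le_rpow hx0.le _ (by positivity)
                  refine le_trans hx2 ?_
                  apply Real.rpow_le_rpow_of_exponent_le hN1
                  linarith
              _ = (N : ℝ) ^ (η / 20) := by
                  rw [← Real.rpow_mul hN0.le]; congr 1; ring
          have e1 : D * (x : ℝ) ^ (η / 40) = x := by
            rw [hD, ← Real.rpow_add hx0]; simp
          have e2 : (N : ℝ) ^ (-(η / 20)) * (N : ℝ) ^ (η / 20) = 1 := by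
            rw [← Real.rpow_add hN0]; simp
          calc (x : ℝ) * (N : ℝ) ^ (-(η / 20)) = D * (x : ℝ) ^ (η / 40) * (N : ℝ) ^ (-(η / 20)) := by
                rw [e1]
            _ ≤ D * (N : ℝ) ^ (η / 20) * (N : ℝ) ^ (-(η / 20)) := by gcongr
            _ = D * ((N : ℝ) ^ (-(η / 20)) * (N : ℝ) ^ (η / 20)) := by ring
            _ = D := by rw [e2, mul_one]
        have e3 : 2 * (3 * (N : ℝ) ^ (-(η / 20))) * (x : ℝ) = 6 * ((x : ℝ) * (N : ℝ) ^ (-(η / 20))) := by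
          ring
        rw [e3]
        linarith
      · intro j hjj hjJ y hy hy2
        have hj3 : (N : ℝ) ^ (η / 2) ≤ 2 ^ j := le_trans hj1 (pow_le_pow_right₀ (by norm_num) hjj)
        have hj4 : (2 : ℝ) ^ j ≤ (N : ℝ) ^ (2 - η) := by
          have h5 : (2 : ℝ) ^ j ≤ 2 ^ J := pow_le_pow_right₀ (by norm_num) hjJ
          have h6 : (2 : ℝ) ^ J ≤ x := by exact_mod_cast hJ1
          linarith
        have h7 := block_bound g hg2 j (Lst N (η / 20) j) (Lst_pos _ _ _)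
          (2 ^ j * (N : ℝ) ^ (-(η / 20))) ?_ y hy hy2
        · have h8 := Lst_le N (η / 20) j
          refine le_trans h7 ?_
          have : 3 * (N : ℝ) ^ (-(η / 20)) * 2 ^ j = 3 * (2 ^ j * (N : ℝ) ^ (-(η / 20))) := by ring
          rw [this]
          linarith
        · intro i hi
          have h9 := hgood j hj3 hj4 i hi
          have h10 : ∑ p ∈ blk j i (Lst N (η / 20) j), g p =
              ∑ p ∈ blk j i (Lst N (η / 20) j), β p * kn a p := by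
            unfold blk
            exact hgsum _
          rw [h10]
          exact h9
    · -- x is small
      have h3 : (x : ℝ) < 2 ^ j₁ := by
        have : x < 2 ^ j₁ := lt_of_lt_of_le hJ2 (Nat.pow_le_pow_right (by norm_num) hgt)
        exact_mod_cast this
      have h4 : (x : ℝ) ≤ 2 * (x : ℝ) ^ (1 / 2 : ℝ) := by linarith
      refine le_trans (norm_sum_le _ _) ?_
      refine le_trans (sum_le_sum fun p _ => hg2 p) ?_
      rw [sum_const, nsmul_eq_mul]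
      have h5 : #((Ioc 0 x).filter Nat.Prime) ≤ x := by
        refine le_trans (card_filter_le _ _) ?_
        rw [Nat.card_Ioc]; simp
      have h6 : (#((Ioc 0 x).filter Nat.Prime) : ℝ) ≤ x := by exact_mod_cast h5
      linarith
  -- primes dividing a
  have hdiv : ‖∑ p ∈ (Ioc 0 x).filter (fun p : ℕ => p.Prime ∧ (p : ℤ) ∣ a), g p‖ ≤ 2 * (3 / η * D) := by
    refine le_trans (norm_sum_le _ _) ?_
    refine le_trans (sum_le_sum fun p _ => hg2 p) ?_
    rw [sum_const, nsmul_eq_mul, mul_comm]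
    gcongr
    have h3 : (Ioc 0 x).filter (fun p : ℕ => p.Prime ∧ (p : ℤ) ∣ a) ⊆ a.natAbs.primeFactors := by
      intro p hp
      rw [mem_filter] at hp
      rw [Nat.mem_primeFactors]
      exact ⟨hp.2.1, Int.natCast_dvd.1 hp.2.2, Int.natAbs_ne_zero.2 ha0⟩
    have h4 := card_le_card h3
    have h5 := card_primeFactors_le a.natAbs (Int.natAbs_ne_zero.2 ha0)
    have h6 : a.natAbs ≤ N := by
      rw [mem_Icc] at haN; omega
    set m := #a.natAbs.primeFactors with hm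
    have h7 : (2 : ℝ) ^ m ≤ N := by
      have : 2 ^ m ≤ N := le_trans h5 h6
      exact_mod_cast this
    have h8 : (m : ℝ) * Real.log 2 ≤ Real.log N := by
      have := Real.log_le_log (by positivity) h7
      rwa [Real.log_pow] at this
    have h9 : η * Real.log N ≤ Real.log x := by
      have := Real.log_le_log (by positivity) hx
      rwa [Real.log_rpow hN0] at this
    have h10 := Real.log_le_rpow_div hx0.le (by norm_num : (0 : ℝ) < 1 / 2)
    have h11 : (x : ℝ) ^ (1 / 2 : ℝ) / (1 / 2) = 2 * (x : ℝ) ^ (1 / 2 : ℝ) := by ring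
    rw [h11] at h10
    have h12 := Real.log_two_gt_d9
    have h13 : (m : ℝ) * 0.69 ≤ m * Real.log 2 := by gcongr; linarith
    have h14 : (#((Ioc 0 x).filter (fun p : ℕ => p.Prime ∧ (p : ℤ) ∣ a)) : ℝ) ≤ m := by exact_mod_cast h4
    refine le_trans h14 ?_
    rw [div_mul_eq_mul_div, le_div_iff₀ h0]
    have h15 : η * (m * 0.69) ≤ 2 * D := by
      calc η * (m * 0.69) ≤ η * (m * Real.log 2) := by gcongr
        _ ≤ η * Real.log N := by gcongr
        _ ≤ Real.log x := h9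
        _ ≤ 2 * D := by linarith
    nlinarith
  -- combine
  have hsplit : ∑ p ∈ (Icc 1 x).filter (fun p : ℕ => p.Prime ∧ ¬ (p : ℤ) ∣ a), β p * kn a p =
      ∑ p ∈ (Ioc 0 x).filter Nat.Prime, g p -
      ∑ p ∈ (Ioc 0 x).filter (fun p : ℕ => p.Prime ∧ (p : ℤ) ∣ a), g p := by
    have e1 : (Icc 1 x) = Ioc 0 x := by ext; simp [mem_Icc, mem_Ioc]; omega
    rw [e1, eq_sub_iff_add_eq]
    have e2 : ∑ p ∈ (Ioc 0 x).filter (fun p : ℕ => p.Prime ∧ ¬ (p : ℤ) ∣ a), β p * kn a p =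
        ∑ p ∈ (Ioc 0 x).filter (fun p : ℕ => p.Prime ∧ ¬ (p : ℤ) ∣ a), g p := by
      refine sum_congr rfl fun p hp => ?_
      rw [hg]
      dsimp only
      rw [if_pos (mem_filter.1 hp).2.1]
    rw [e2, ← sum_union]
    · apply sum_congr _ (fun _ _ => rfl)
      ext p
      simp only [mem_union, mem_filter]
      tauto
    · rw [Finset.disjoint_left]
      intro p hp hp'
      rw [mem_filter] at hp hp'
      exact hp.2.2 hp'.2.2
  have hre : ∑ p ∈ (Icc 1 x).filter (fun p : ℕ => p.Prime ∧ ¬ (p : ℤ) ∣ a),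
      β p * (((kl a p).re / (2 * Real.sqrt p) : ℝ) : ℂ)
      = (1 / 2) * (∑ p ∈ (Icc 1 x).filter (fun p : ℕ => p.Prime ∧ ¬ (p : ℤ) ∣ a), β p * kn a p) := by
    rw [mul_sum]
    refine sum_congr rfl fun p hp => ?_
    have hpp := (mem_filter.1 hp).2.1
    have h30 : ((kl a p).re : ℂ) = kl a p := by
      apply Complex.ext
      · simp
      · rw [HI p hpp.pos]; simp
    unfold kn
    push_cast
    rw [h30]
    ring
  rw [hre, norm_mul]
  have hhalf : ‖(1 / 2 : ℂ)‖ = 1 / 2 := by norm_num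
  rw [hhalf, hsplit]
  have h17 := norm_sub_le (∑ p ∈ (Ioc 0 x).filter Nat.Prime, g p)
    (∑ p ∈ (Ioc 0 x).filter (fun p : ℕ => p.Prime ∧ (p : ℤ) ∣ a), g p)
  have h18 : 2 * (3 / η * D) = 6 / η * D := by ring
  rw [h18] at hdiv
  have h19 : (20 + 4 / η) * D = 20 * D + 4 / η * D := by ring
  rw [h19]
  have h20 : 0 ≤ 1 / η * D := by positivity
  have h21 : 6 / η * D = 6 * (1 / η * D) := by ring
  have h22 : 4 / η * D = 4 * (1 / η * D) := by ring
  rw [h21] at hdiv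
  rw [h22]
  linarith


end Pool.KV
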